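import Pool.Agent.H47.V

/-! ### Sys -/

namespace Pool.Agent.H47

open Real Set Filter Topology

abbrev E3 := ℝ × ℝ × ℝ

/-- sum distance -/
noncomputable def dd (p q : E3) : ℝ := |q.1 - p.1| + |q.2.1 - p.2.1| + |q.2.2 - p.2.2|

structure Small1 (P : E3 → ℝ) : Prop where
  bd : ∀ p, |P p| ≤ 1e-14
  lip : ∀ p q, |P q - P p| ≤ 1e-14 * dd p q

structure Sys where
  F : E3 → E3
  lam : ℝ
  Ps : E3 → ℝ
  Pt : E3 → ℝ
  Pu : E3 → ℝ
  hlam : 26.9 < lam
  hlam' : lam < 27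
  hs : ∀ p, (F p).1 = lam⁻¹ * p.1 + Ps p
  ht : ∀ p, (F p).2.1 = p.2.1 + 1e-4 * vv p.2.1 + 1e-5 * cc (p.1 + p.2.2) + Pt p
  hu : ∀ p, (F p).2.2 = lam * p.2.2 + Pu p
  s1 : Small1 Ps
  t1 : Small1 Pt
  u1 : Small1 Pu

lemma dd_nonneg (p q : E3) : 0 ≤ dd p q := by unfold dd; positivity

lemma Small1.continuous {P : E3 → ℝ} (h : Small1 P) : Continuous P := by
  have : LipschitzWith 1 P := by
    apply LipschitzWith.of_dist_le_mul
    intro p q
    rw [Real.dist_eq]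
    have h1 := h.lip q p
    have h2 : |p.1 - q.1| ≤ dist p q := by
      rw [← Real.dist_eq]; exact le_trans (le_max_left _ _) (le_of_eq (Prod.dist_eq).symm)
    have h3 : |p.2.1 - q.2.1| ≤ dist p q := by
      rw [← Real.dist_eq, Prod.dist_eq (x := p)]
      refine le_trans ?_ (le_max_right _ _)
      rw [Prod.dist_eq]; exact le_max_left _ _
    have h4 : |p.2.2 - q.2.2| ≤ dist p q := by
      rw [← Real.dist_eq, Prod.dist_eq (x := p)]
      refine le_trans ?_ (le_max_right _ _)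
      rw [Prod.dist_eq]; exact le_max_right _ _
    unfold dd at h1
    push_cast
    have h5 : 0 ≤ dist p q := dist_nonneg
    linarith
  exact this.continuous

namespace Sys

variable (S : Sys)

lemma lam_pos : 0 < S.lam := by linarith [S.hlam]
lemma lami_pos : 0 < S.lam⁻¹ := inv_pos.2 S.lam_pos
lemma lami_lt : S.lam⁻¹ < 0.0372 := by
  rw [inv_lt_comm₀ S.lam_pos (by norm_num)]
  have := S.hlam
  norm_num
  linarith

lemma lam_mul_inv : S.lam * S.lam⁻¹ = 1 := mul_inv_cancel₀ S.lam_pos.ne'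

lemma continuous_F : Continuous S.F := by
  have e : S.F = fun p => (S.lam⁻¹ * p.1 + S.Ps p,
      p.2.1 + 1e-4 * vv p.2.1 + 1e-5 * cc (p.1 + p.2.2) + S.Pt p, S.lam * p.2.2 + S.Pu p) := by
    funext p
    ext
    · exact S.hs p
    · exact S.ht p
    · exact S.hu p
  rw [e]
  have h1 := S.s1.continuous
  have h2 := S.t1.continuous
  have h3 := S.u1.continuous
  have h4 : Continuous vv := by unfold vv; fun_prop
  have h5 : Continuous cc := by unfold cc; fun_prop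
  fun_prop

lemma continuous_iter (n : ℕ) : Continuous (S.F^[n]) := S.continuous_F.iterate n

/-- one-step estimates for differences -/
lemma du_step (p q : E3) :
    |((S.F q).2.2 - (S.F p).2.2) - S.lam * (q.2.2 - p.2.2)| ≤ 1e-14 * dd p q := by
  rw [S.hu, S.hu]
  have := S.u1.lip p q
  convert this using 2
  ring

lemma ds_step (p q : E3) :
    |((S.F q).1 - (S.F p).1) - S.lam⁻¹ * (q.1 - p.1)| ≤ 1e-14 * dd p q := by
  rw [S.hs, S.hs]
  have := S.s1.lip p q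
  convert this using 2
  ring

lemma dt_step (p q : E3) :
    |((S.F q).2.1 - (S.F p).2.1) - (q.2.1 - p.2.1)| ≤
      1.885e-3 * |q.2.1 - p.2.1| + 6.2832e-5 * |(q.1 - p.1) + (q.2.2 - p.2.2)|
        + 1e-14 * dd p q := by
  rw [S.ht, S.ht]
  have h1 := S.t1.lip p q
  have h2 := vv_lip q.2.1 p.2.1
  have h3 := cc_lip (q.1 + q.2.2) (p.1 + p.2.2)
  have e : (q.2.1 + 1e-4 * vv q.2.1 + 1e-5 * cc (q.1 + q.2.2) + S.Pt q -
      (p.2.1 + 1e-4 * vv p.2.1 + 1e-5 * cc (p.1 + p.2.2) + S.Pt p)) - (q.2.1 - p.2.1) =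
      1e-4 * (vv q.2.1 - vv p.2.1) + 1e-5 * (cc (q.1 + q.2.2) - cc (p.1 + p.2.2))
        + (S.Pt q - S.Pt p) := by ring
  rw [e]
  refine (abs_add_le _ _).trans ?_
  refine (add_le_add (abs_add_le _ _) le_rfl).trans ?_
  rw [abs_mul, abs_mul, abs_of_pos (by norm_num : (0:ℝ) < 1e-4),
    abs_of_pos (by norm_num : (0:ℝ) < 1e-5)]
  have e2 : q.1 + q.2.2 - (p.1 + p.2.2) = (q.1 - p.1) + (q.2.2 - p.2.2) := by ring
  rw [e2] at h3
  linarith

/-- leaf function -/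
noncomputable def h (p : E3) : ℝ := p.2.2 + ∑' n : ℕ, S.lam⁻¹ ^ (n+1) * S.Pu (S.F^[n] p)

lemma summable_aux (p : E3) : Summable (fun n : ℕ => S.lam⁻¹ ^ (n+1) * S.Pu (S.F^[n] p)) := by
  have hg : Summable (fun n : ℕ => (0.0372:ℝ)^n) :=
    summable_geometric_of_lt_one (by norm_num) (by norm_num)
  refine Summable.of_norm_bounded hg (fun n => ?_)
  rw [norm_mul, norm_pow, Real.norm_eq_abs, Real.norm_eq_abs, abs_of_pos S.lami_pos]
  have h1 := S.u1.bd (S.F^[n] p)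
  have h2 := S.lami_lt
  have h3 := S.lami_pos
  have h4 : S.lam⁻¹ ^ (n+1) ≤ 0.0372^n := by
    calc S.lam⁻¹ ^ (n+1) ≤ 0.0372^(n+1) := by gcongr
      _ ≤ 0.0372^n := pow_le_pow_of_le_one (by norm_num) (by norm_num) (by omega)
  calc S.lam⁻¹ ^ (n+1) * |S.Pu (S.F^[n] p)| ≤ 0.0372^n * 1 := by
        apply mul_le_mul h4 (by linarith) (abs_nonneg _) (by positivity)
    _ = _ := by ring

lemma h_F (p : E3) : S.h (S.F p) = S.lam * S.h p := by
  unfold h
  have hs := S.summable_aux p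
  rw [hs.tsum_eq_zero_add]
  simp only [zero_add, pow_one, Function.iterate_zero, id_eq]
  rw [S.hu]
  have e : ∀ n : ℕ, S.lam⁻¹ ^ (n+1+1) * S.Pu (S.F^[n+1] p) =
      S.lam⁻¹ * (S.lam⁻¹ ^ (n+1) * S.Pu (S.F^[n] (S.F p))) := by
    intro n
    rw [Function.iterate_succ_apply]; ring
  simp_rw [e]
  rw [tsum_mul_left]
  have := S.lam_mul_inv
  linear_combination (-(S.Pu p) - ∑' n : ℕ, S.lam⁻¹ ^ (n+1) * S.Pu (S.F^[n] (S.F p))) * this

lemma h_iter (n : ℕ) (p : E3) : S.h (S.F^[n] p) = S.lam ^ n * S.h p := by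
  induction n generalizing p with
  | zero => simp
  | succ n ih => rw [Function.iterate_succ_apply', S.h_F, ih]; ring

lemma abs_h_sub (p : E3) : |S.h p - p.2.2| ≤ 1e-14 := by
  have hs := S.summable_aux p
  have : S.h p - p.2.2 = ∑' n : ℕ, S.lam⁻¹ ^ (n+1) * S.Pu (S.F^[n] p) := by unfold h; ring
  rw [this]
  have hb : ∀ n : ℕ, ‖S.lam⁻¹ ^ (n+1) * S.Pu (S.F^[n] p)‖ ≤ 0.0372 * 1e-14 * 0.0372^n := by
    intro n
    rw [norm_mul, norm_pow, Real.norm_eq_abs, Real.norm_eq_abs, abs_of_pos S.lami_pos]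
    have h1 := S.u1.bd (S.F^[n] p)
    have h2 := S.lami_lt
    have h3 := S.lami_pos
    have h4 : S.lam⁻¹ ^ (n+1) ≤ 0.0372^(n+1) := by gcongr
    calc S.lam⁻¹ ^ (n+1) * |S.Pu (S.F^[n] p)| ≤ 0.0372^(n+1) * 1e-14 := by
          apply mul_le_mul h4 (by linarith) (abs_nonneg _) (by positivity)
      _ = _ := by ring
  have hg : HasSum (fun n : ℕ => 0.0372 * 1e-14 * (0.0372:ℝ)^n)
      (0.0372 * 1e-14 * (1 - 0.0372)⁻¹) :=
    (hasSum_geometric_of_lt_one (by norm_num) (by norm_num)).mul_left _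
  have := tsum_of_norm_bounded hg hb
  rw [Real.norm_eq_abs] at this
  refine this.trans ?_
  norm_num

lemma continuous_h : Continuous S.h := by
  unfold h
  refine Continuous.add (by fun_prop) ?_
  refine continuous_tsum (u := fun n : ℕ => 0.0372 * 1e-14 * 0.0372^n) ?_ ?_ ?_
  · intro n
    exact continuous_const.mul (S.u1.continuous.comp (S.continuous_iter n))
  · exact (summable_geometric_of_lt_one (by norm_num) (by norm_num)).mul_left _
  · intro n p
    rw [norm_mul, norm_pow, Real.norm_eq_abs, Real.norm_eq_abs, abs_of_pos S.lami_pos]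
    have h1 := S.u1.bd (S.F^[n] p)
    have h2 := S.lami_lt
    have h3 := S.lami_pos
    have h4 : S.lam⁻¹ ^ (n+1) ≤ 0.0372^(n+1) := by gcongr
    calc S.lam⁻¹ ^ (n+1) * |S.Pu (S.F^[n] p)| ≤ 0.0372^(n+1) * 1e-14 := by
          apply mul_le_mul h4 (by linarith) (abs_nonneg _) (by positivity)
      _ = _ := by ring

/-- wide cone, one step -/
lemma wide_step {p q : E3} (hc : 1e-14 * (|q.1 - p.1| + |q.2.1 - p.2.1|) < q.2.2 - p.2.2) :
    1e-14 * (|(S.F q).1 - (S.F p).1| + |(S.F q).2.1 - (S.F p).2.1|) < (S.F q).2.2 - (S.F p).2.2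
    ∧ 25 * (q.2.2 - p.2.2) ≤ (S.F q).2.2 - (S.F p).2.2 := by
  have h1 := S.du_step p q
  have h2 := S.ds_step p q
  have h3 := S.dt_step p q
  have hl := S.hlam
  have hl' := S.lami_lt
  have hl0 := S.lami_pos
  have a1 := abs_nonneg (q.1 - p.1)
  have a2 := abs_nonneg (q.2.1 - p.2.1)
  have hpos : 0 < q.2.2 - p.2.2 := by linarith
  have a3 : |q.2.2 - p.2.2| = q.2.2 - p.2.2 := abs_of_pos hpos
  have h4 : |S.lam⁻¹ * (q.1 - p.1)| ≤ 0.0372 * |q.1 - p.1| := by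
    rw [abs_mul, abs_of_pos hl0]
    exact mul_le_mul_of_nonneg_right hl'.le a1
  have h5 : |(q.1 - p.1) + (q.2.2 - p.2.2)| ≤ |q.1 - p.1| + (q.2.2 - p.2.2) := by
    have := abs_add_le (q.1 - p.1) (q.2.2 - p.2.2)
    rwa [a3] at this
  unfold dd at h1 h2 h3
  rw [a3] at h1 h2 h3
  have k1 : 26.9 * (q.2.2 - p.2.2) ≤ S.lam * (q.2.2 - p.2.2) :=
    mul_le_mul_of_nonneg_right hl.le hpos.le
  have k2 : |(S.F q).1 - (S.F p).1| ≤ |S.lam⁻¹ * (q.1 - p.1)| +
      |((S.F q).1 - (S.F p).1) - S.lam⁻¹ * (q.1 - p.1)| := by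
    have := abs_add_le (S.lam⁻¹ * (q.1 - p.1)) (((S.F q).1 - (S.F p).1) - S.lam⁻¹ * (q.1 - p.1))
    simpa using this
  have k3 : |(S.F q).2.1 - (S.F p).2.1| ≤ |q.2.1 - p.2.1| +
      |((S.F q).2.1 - (S.F p).2.1) - (q.2.1 - p.2.1)| := by
    have := abs_add_le (q.2.1 - p.2.1) (((S.F q).2.1 - (S.F p).2.1) - (q.2.1 - p.2.1))
    simpa using this
  have k4 := (abs_le.1 h1).1
  constructor
  · linarith
  · linarith

lemma wide_iter {p q : E3} (hc : 1e-14 * (|q.1 - p.1| + |q.2.1 - p.2.1|) < q.2.2 - p.2.2)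
    (n : ℕ) :
    1e-14 * (|(S.F^[n] q).1 - (S.F^[n] p).1| + |(S.F^[n] q).2.1 - (S.F^[n] p).2.1|)
      < (S.F^[n] q).2.2 - (S.F^[n] p).2.2
    ∧ 25^n * (q.2.2 - p.2.2) ≤ (S.F^[n] q).2.2 - (S.F^[n] p).2.2 := by
  induction n with
  | zero => simpa using hc
  | succ n ih =>
    rw [Function.iterate_succ_apply', Function.iterate_succ_apply']
    have := S.wide_step ih.1
    refine ⟨this.1, le_trans ?_ this.2⟩
    have := ih.2
    rw [pow_succ]; linarith

/-- if q is above p in the wide cone, then the leaf of q is above the leaf of p -/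
lemma h_lt_of_wide {p q : E3} (hc : 1e-14 * (|q.1 - p.1| + |q.2.1 - p.2.1|) < q.2.2 - p.2.2) :
    S.h p < S.h q := by
  have hpos : 0 < q.2.2 - p.2.2 := by
    have a1 := abs_nonneg (q.1 - p.1)
    have a2 := abs_nonneg (q.2.1 - p.2.1)
    linarith
  by_contra hcon
  push Not at hcon
  obtain ⟨n, hn⟩ := pow_unbounded_of_one_lt (1 / (q.2.2 - p.2.2)) (by norm_num : (1:ℝ) < 25)
  have h1 := (S.wide_iter hc n).2
  have h2 := S.abs_h_sub (S.F^[n] p)
  have h3 := S.abs_h_sub (S.F^[n] q)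
  rw [S.h_iter] at h2 h3
  rw [div_lt_iff₀ hpos] at hn
  have h4 : S.lam ^ n * S.h q ≤ S.lam ^ n * S.h p :=
    mul_le_mul_of_nonneg_left hcon (pow_nonneg S.lam_pos.le n)
  rw [abs_le] at h2 h3
  linarith [h2.1, h2.2, h3.1, h3.2]

/-- two points of the same leaf are in the flat cone -/
lemma flat_of_leaf {p q : E3} (hpq : S.h p = S.h q) :
    |q.2.2 - p.2.2| ≤ 1e-14 * (|q.1 - p.1| + |q.2.1 - p.2.1|) := by
  by_contra hcon
  push Not at hcon
  rcases lt_abs.1 hcon with h1 | h1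
  · exact absurd hpq (S.h_lt_of_wide h1).ne
  · rw [abs_sub_comm, abs_sub_comm q.2.1] at h1
    exact absurd hpq.symm (S.h_lt_of_wide (by linarith : _ < p.2.2 - q.2.2)).ne

lemma h_strictMono (s t : ℝ) : StrictMono (fun u => S.h (s, t, u)) := by
  intro u u' huu
  apply S.h_lt_of_wide
  simp only [sub_self, abs_zero]
  linarith

lemma h_surj (s t : ℝ) : Function.Surjective (fun u => S.h (s, t, u)) := by
  have hc : Continuous (fun u => S.h (s, t, u)) := S.continuous_h.comp (by fun_prop)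
  have hb : ∀ u, |S.h (s, t, u) - u| ≤ 1e-14 := fun u => S.abs_h_sub (s, t, u)
  apply hc.surjective
  · refine tendsto_atTop_mono (f := fun u : ℝ => u + (-1)) ?_
      (tendsto_atTop_add_const_right _ _ tendsto_id)
    intro u; have := (abs_le.1 (hb u)).1; linarith
  · refine tendsto_atBot_mono (f := fun u : ℝ => u + 1) ?_
      (tendsto_atBot_add_const_right _ _ tendsto_id)
    intro u; have := (abs_le.1 (hb u)).2; linarith

/-- height of the leaf with label `H` over `(s,t)` -/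
noncomputable def U (s t : ℝ) : ℝ ≃o ℝ :=
  ((S.h_strictMono s t).orderIsoOfSurjective _ (S.h_surj s t)).symm

lemma h_U (s t H : ℝ) : S.h (s, t, S.U s t H) = H := by
  have := ((S.h_strictMono s t).orderIsoOfSurjective _ (S.h_surj s t)).apply_symm_apply H
  exact this

lemma U_h (s t u : ℝ) : S.U s t (S.h (s, t, u)) = u := by
  have := ((S.h_strictMono s t).orderIsoOfSurjective _ (S.h_surj s t)).symm_apply_apply u
  exact this

/-- the point of the leaf `H` over `(s,t)` -/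
noncomputable def pt (s t H : ℝ) : E3 := (s, t, S.U s t H)

lemma h_pt (s t H : ℝ) : S.h (S.pt s t H) = H := S.h_U s t H
@[simp] lemma pt_fst (s t H : ℝ) : (S.pt s t H).1 = s := rfl
@[simp] lemma pt_snd (s t H : ℝ) : (S.pt s t H).2.1 = t := rfl

lemma eq_pt (p : E3) : p = S.pt p.1 p.2.1 (S.h p) := by
  have : S.U p.1 p.2.1 (S.h p) = p.2.2 := S.U_h p.1 p.2.1 p.2.2
  unfold pt
  rw [this]

lemma continuous_pt (s t : ℝ) : Continuous (S.pt s t) := by
  unfold pt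
  have := (S.U s t).continuous
  fun_prop

/-- centre pair: same leaf, positively ordered in `t`, centre cone. -/
structure CP (p q : E3) : Prop where
  leaf : S.h p = S.h q
  lt : p.2.1 < q.2.1
  cone : |q.1 - p.1| ≤ 2e-14 * (q.2.1 - p.2.1)

variable {S}

lemma CP.flat {p q : E3} (hp : S.CP p q) : |q.2.2 - p.2.2| ≤ 1.01e-14 * (q.2.1 - p.2.1) := by
  have h1 := S.flat_of_leaf hp.leaf
  have h2 := hp.cone
  have h3 := hp.lt
  have h4 : |q.2.1 - p.2.1| = q.2.1 - p.2.1 := abs_of_pos (by linarith)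
  rw [h4] at h1
  linarith

lemma CP.dd_le {p q : E3} (hp : S.CP p q) : dd p q ≤ 1.01 * (q.2.1 - p.2.1) := by
  have h1 := hp.flat
  have h2 := hp.cone
  have h3 := hp.lt
  have h4 : |q.2.1 - p.2.1| = q.2.1 - p.2.1 := abs_of_pos (by linarith)
  unfold dd
  rw [h4]
  linarith

lemma CP.step_t {p q : E3} (hp : S.CP p q) :
    |((S.F q).2.1 - (S.F p).2.1) - (q.2.1 - p.2.1)| ≤ 1.9e-3 * (q.2.1 - p.2.1) := by
  have h1 := S.dt_step p q
  have h2 := hp.flat
  have h3 := hp.cone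
  have h4 := hp.lt
  have h5 := hp.dd_le
  have h6 : |(q.1 - p.1) + (q.2.2 - p.2.2)| ≤ |q.1 - p.1| + |q.2.2 - p.2.2| := abs_add_le _ _
  rw [abs_of_pos (by linarith : 0 < q.2.1 - p.2.1)] at h1
  linarith

lemma CP.step {p q : E3} (hp : S.CP p q) : S.CP (S.F p) (S.F q) := by
  have h1 := hp.step_t
  have h2 := S.ds_step p q
  have h3 := hp.cone
  have h4 := hp.lt
  have h5 := hp.dd_le
  have h6 : |S.lam⁻¹ * (q.1 - p.1)| ≤ 0.0372 * |q.1 - p.1| := by
    rw [abs_mul, abs_of_pos S.lami_pos]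
    exact mul_le_mul_of_nonneg_right S.lami_lt.le (abs_nonneg _)
  have h7 := (abs_le.1 h1).1
  have k2 : |(S.F q).1 - (S.F p).1| ≤ |S.lam⁻¹ * (q.1 - p.1)| +
      |((S.F q).1 - (S.F p).1) - S.lam⁻¹ * (q.1 - p.1)| := by
    have := abs_add_le (S.lam⁻¹ * (q.1 - p.1)) (((S.F q).1 - (S.F p).1) - S.lam⁻¹ * (q.1 - p.1))
    simpa using this
  refine ⟨?_, ?_, ?_⟩
  · rw [S.h_F, S.h_F, hp.leaf]
  · linarith
  · linarith

lemma CP.iter {p q : E3} (hp : S.CP p q) (n : ℕ) : S.CP (S.F^[n] p) (S.F^[n] q) := by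
  induction n with
  | zero => simpa using hp
  | succ n ih =>
    rw [Function.iterate_succ_apply', Function.iterate_succ_apply']
    exact ih.step

/-- narrow unstable cone -/
structure NC (p q : E3) : Prop where
  pos : 0 < q.2.2 - p.2.2
  s : |q.1 - p.1| ≤ 1e-5 * (q.2.2 - p.2.2)
  t : |q.2.1 - p.2.1| ≤ 1e-5 * (q.2.2 - p.2.2)

lemma NC.dd_le {p q : E3} (hp : NC p q) : dd p q ≤ 1.01 * (q.2.2 - p.2.2) := by
  have h1 := hp.pos
  have h2 := hp.s
  have h3 := hp.t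
  unfold dd
  rw [abs_of_pos h1]
  linarith

variable (S)

lemma NC_step {p q : E3} (hp : NC p q) : NC (S.F p) (S.F q) ∧
    26.8 * (q.2.2 - p.2.2) ≤ (S.F q).2.2 - (S.F p).2.2 ∧
    (S.F q).2.2 - (S.F p).2.2 ≤ 27.1 * (q.2.2 - p.2.2) := by
  have h1 := S.dt_step p q
  have h2 := S.ds_step p q
  have h2' := S.du_step p q
  have h3 := hp.pos
  have h4 := hp.s
  have h5 := hp.dd_le
  have h5' := hp.t
  have h6 : |S.lam⁻¹ * (q.1 - p.1)| ≤ 0.0372 * |q.1 - p.1| := by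
    rw [abs_mul, abs_of_pos S.lami_pos]
    exact mul_le_mul_of_nonneg_right S.lami_lt.le (abs_nonneg _)
  have k2 : |(S.F q).1 - (S.F p).1| ≤ |S.lam⁻¹ * (q.1 - p.1)| +
      |((S.F q).1 - (S.F p).1) - S.lam⁻¹ * (q.1 - p.1)| := by
    have := abs_add_le (S.lam⁻¹ * (q.1 - p.1)) (((S.F q).1 - (S.F p).1) - S.lam⁻¹ * (q.1 - p.1))
    simpa using this
  have k3 : |(S.F q).2.1 - (S.F p).2.1| ≤ |q.2.1 - p.2.1| +
      |((S.F q).2.1 - (S.F p).2.1) - (q.2.1 - p.2.1)| := by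
    have := abs_add_le (q.2.1 - p.2.1) (((S.F q).2.1 - (S.F p).2.1) - (q.2.1 - p.2.1))
    simpa using this
  have k4 : |(q.1 - p.1) + (q.2.2 - p.2.2)| ≤ |q.1 - p.1| + (q.2.2 - p.2.2) := by
    have := abs_add_le (q.1 - p.1) (q.2.2 - p.2.2)
    rwa [abs_of_pos h3] at this
  have k5 : 26.9 * (q.2.2 - p.2.2) ≤ S.lam * (q.2.2 - p.2.2) :=
    mul_le_mul_of_nonneg_right S.hlam.le h3.le
  have k6 : S.lam * (q.2.2 - p.2.2) ≤ 27 * (q.2.2 - p.2.2) :=
    mul_le_mul_of_nonneg_right S.hlam'.le h3.le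
  rw [abs_le] at h2'
  have k7 : 26.8 * (q.2.2 - p.2.2) ≤ (S.F q).2.2 - (S.F p).2.2 := by linarith [h2'.1]
  have k8 : (S.F q).2.2 - (S.F p).2.2 ≤ 27.1 * (q.2.2 - p.2.2) := by linarith [h2'.2]
  refine ⟨⟨by linarith, by linarith, by linarith⟩, k7, k8⟩

lemma NC_iter {p q : E3} (hp : NC p q) (n : ℕ) : NC (S.F^[n] p) (S.F^[n] q) := by
  induction n with
  | zero => simpa using hp
  | succ n ih =>
    rw [Function.iterate_succ_apply', Function.iterate_succ_apply']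
    exact (S.NC_step ih).1

lemma NC_back {p q : E3} (hp : NC p q) (n k : ℕ) :
    26.8 ^ k * ((S.F^[n] q).2.2 - (S.F^[n] p).2.2) ≤
      (S.F^[n+k] q).2.2 - (S.F^[n+k] p).2.2 := by
  induction k with
  | zero => simp
  | succ k ih =>
    have := (S.NC_step (S.NC_iter hp (n+k))).2.1
    rw [← Function.iterate_succ_apply' S.F, ← Function.iterate_succ_apply' S.F] at this
    rw [← add_assoc]
    refine le_trans ?_ this
    rw [pow_succ]; linarith

end Sys

end Pool.Agent.H47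

/-! ### Pairs -/

namespace Pool.Agent.H47

open Real Set Filter Topology

/-- slopes of a pair -/
noncomputable def sg (p q : E3) : ℝ := (q.1 - p.1) / (q.2.1 - p.2.1)
noncomputable def el (p q : E3) : ℝ := (q.2.2 - p.2.2) / (q.2.1 - p.2.1)
noncomputable def qP (P : E3 → ℝ) (p q : E3) : ℝ := (P q - P p) / (q.2.1 - p.2.1)

structure Small2 (P : E3 → ℝ) : Prop where
  four : ∀ p₁ q₁ p₂ q₂ : E3, p₁.2.1 < q₁.2.1 → p₂.2.1 < q₂.2.1 →
    |q₁.1 - p₁.1| ≤ q₁.2.1 - p₁.2.1 → |q₁.2.2 - p₁.2.2| ≤ q₁.2.1 - p₁.2.1 →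
    |q₂.1 - p₂.1| ≤ q₂.2.1 - p₂.2.1 → |q₂.2.2 - p₂.2.2| ≤ q₂.2.1 - p₂.2.1 →
    |qP P p₁ q₁ - qP P p₂ q₂| ≤
      1e-14 * (dd p₁ p₂ + dd q₁ q₂ + |sg p₁ q₁ - sg p₂ q₂| + |el p₁ q₁ - el p₂ q₂|)

/-- componentwise closeness -/
structure Near (p q : E3) (r : ℝ) : Prop where
  s : |q.1 - p.1| ≤ r
  t : |q.2.1 - p.2.1| ≤ r
  u : |q.2.2 - p.2.2| ≤ r

lemma Near.dd_le {p q : E3} {r : ℝ} (h : Near p q r) : dd p q ≤ 3 * r := by
  unfold dd; linarith [h.s, h.t, h.u]

lemma Near.nonneg {p q : E3} {r : ℝ} (h : Near p q r) : 0 ≤ r := (abs_nonneg _).trans h.s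

namespace Sys

variable {S : Sys}

/-- expansion rate of a pair in the centre direction -/
noncomputable def gg (S : Sys) (p q : E3) : ℝ :=
  ((S.F q).2.1 - (S.F p).2.1) / (q.2.1 - p.2.1)

noncomputable def vq (p q : E3) : ℝ := (vv q.2.1 - vv p.2.1) / (q.2.1 - p.2.1)

noncomputable def RR (S : Sys) (p q : E3) : ℝ :=
  1e-5 * ((cc (q.1 + q.2.2) - cc (p.1 + p.2.2)) / (q.2.1 - p.2.1)) + qP S.Pt p q

lemma CP.gg_eq {p q : E3} (hp : S.CP p q) : S.gg p q = 1 + 1e-4 * vq p q + S.RR p q := by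
  have h := hp.lt
  have h' : q.2.1 - p.2.1 ≠ 0 := by linarith
  unfold gg vq RR qP
  rw [S.ht, S.ht]
  field_simp
  ring

lemma CP.gg_mul {p q : E3} (hp : S.CP p q) :
    (S.F q).2.1 - (S.F p).2.1 = S.gg p q * (q.2.1 - p.2.1) := by
  have h := hp.lt
  have h' : q.2.1 - p.2.1 ≠ 0 := by linarith
  unfold gg
  field_simp

lemma CP.gg_bd {p q : E3} (hp : S.CP p q) : |S.gg p q - 1| ≤ 1.9e-3 := by
  have h := hp.lt
  have h' : 0 < q.2.1 - p.2.1 := by linarith
  have h1 := hp.step_t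
  have e : S.gg p q - 1 = (((S.F q).2.1 - (S.F p).2.1) - (q.2.1 - p.2.1)) / (q.2.1 - p.2.1) := by
    unfold gg; field_simp
  rw [e, abs_div, abs_of_pos h', div_le_iff₀ h']
  exact h1

lemma CP.sg_bd {p q : E3} (hp : S.CP p q) : |sg p q| ≤ 2e-14 := by
  have h := hp.lt
  have h' : 0 < q.2.1 - p.2.1 := by linarith
  unfold sg
  rw [abs_div, abs_of_pos h', div_le_iff₀ h']
  exact hp.cone

lemma CP.el_bd {p q : E3} (hp : S.CP p q) : |el p q| ≤ 1.01e-14 := by
  have h := hp.lt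
  have h' : 0 < q.2.1 - p.2.1 := by linarith
  unfold el
  rw [abs_div, abs_of_pos h', div_le_iff₀ h']
  exact hp.flat

lemma CP.qP_bd {p q : E3} (hp : S.CP p q) {P : E3 → ℝ} (hP : Small1 P) :
    |qP P p q| ≤ 1.01e-14 := by
  have h := hp.lt
  have h' : 0 < q.2.1 - p.2.1 := by linarith
  unfold qP
  rw [abs_div, abs_of_pos h', div_le_iff₀ h']
  have := hP.lip p q
  have h2 := hp.dd_le
  linarith

lemma CP.sg_step {p q : E3} (hp : S.CP p q) :
    sg (S.F p) (S.F q) * S.gg p q = S.lam⁻¹ * sg p q + qP S.Ps p q := by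
  have h := hp.lt
  have h' : q.2.1 - p.2.1 ≠ 0 := by linarith
  have h2 := hp.step.lt
  have h2' : (S.F q).2.1 - (S.F p).2.1 ≠ 0 := by linarith
  have e : sg (S.F p) (S.F q) * S.gg p q = ((S.F q).1 - (S.F p).1) / (q.2.1 - p.2.1) := by
    unfold sg gg; field_simp
  rw [e, S.hs, S.hs]
  unfold sg qP
  field_simp
  ring

lemma CP.el_step {p q : E3} (hp : S.CP p q) :
    el (S.F p) (S.F q) * S.gg p q = S.lam * el p q + qP S.Pu p q := by
  have h := hp.lt
  have h' : q.2.1 - p.2.1 ≠ 0 := by linarith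
  have h2 := hp.step.lt
  have h2' : (S.F q).2.1 - (S.F p).2.1 ≠ 0 := by linarith
  have e : el (S.F p) (S.F q) * S.gg p q = ((S.F q).2.2 - (S.F p).2.2) / (q.2.1 - p.2.1) := by
    unfold el gg; field_simp
  rw [e, S.hu, S.hu]
  unfold el qP
  field_simp
  ring

lemma CP.cq_bd {p q : E3} (hp : S.CP p q) :
    |(cc (q.1 + q.2.2) - cc (p.1 + p.2.2)) / (q.2.1 - p.2.1)| ≤ 2e-13 := by
  have h := hp.lt
  have h' : 0 < q.2.1 - p.2.1 := by linarith
  rw [abs_div, abs_of_pos h', div_le_iff₀ h']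
  have h1 := cc_lip (q.1 + q.2.2) (p.1 + p.2.2)
  have h2 := hp.cone
  have h3 := hp.flat
  have h4 : |q.1 + q.2.2 - (p.1 + p.2.2)| ≤ |q.1 - p.1| + |q.2.2 - p.2.2| := by
    have := abs_add_le (q.1 - p.1) (q.2.2 - p.2.2)
    have e : q.1 + q.2.2 - (p.1 + p.2.2) = (q.1 - p.1) + (q.2.2 - p.2.2) := by ring
    rw [e]; exact this
  linarith

lemma CP.RR_bd {p q : E3} (hp : S.CP p q) : |S.RR p q| ≤ 1.1e-14 := by
  unfold RR
  refine (abs_add_le _ _).trans ?_
  rw [abs_mul, abs_of_pos (by norm_num : (0:ℝ) < 1e-5)]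
  have h1 := hp.qP_bd S.t1
  have h2 := hp.cq_bd
  linarith

section four

variable {p₁ q₁ p₂ q₂ : E3} {r : ℝ}

lemma four_P (h1 : S.CP p₁ q₁) (h2 : S.CP p₂ q₂) (hp : Near p₁ p₂ r) (hq : Near q₁ q₂ r)
    {P : E3 → ℝ} (hP : Small2 P) :
    |qP P p₁ q₁ - qP P p₂ q₂| ≤
      1e-14 * (6 * r + |sg p₁ q₁ - sg p₂ q₂| + |el p₁ q₁ - el p₂ q₂|) := by
  have a1 := h1.lt
  have a2 := h2.lt
  have b1 := h1.cone
  have b2 := h2.cone
  have c1 := h1.flat
  have c2 := h2.flat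
  have := hP.four p₁ q₁ p₂ q₂ a1 a2 (by linarith) (by linarith) (by linarith) (by linarith)
  have d1 := hp.dd_le
  have d2 := hq.dd_le
  linarith

lemma four_v (h1 : S.CP p₁ q₁) (h2 : S.CP p₂ q₂) (hp : Near p₁ p₂ r) (hq : Near q₁ q₂ r) :
    |vq p₁ q₁ - vq p₂ q₂| ≤ 197.4 * r := by
  have a1 := h1.lt
  have a2 := h2.lt
  have := four_point_aux (f := vv) (f' := vv') (K := 197.4) (M := 18.85) hasDerivAt_vv vv'_lip
    abs_vv'_le p₁.2.1 1 (q₁.2.1 - p₁.2.1) p₂.2.1 1 (q₂.2.1 - p₂.2.1) (by linarith) (by linarith)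
    (r := r) (E := 1) (by norm_num) (by norm_num) (by rw [abs_sub_comm]; exact hp.t)
    (by rw [abs_sub_comm]; convert hq.t using 2; ring)
  unfold vq
  simpa using this

lemma four_c (h1 : S.CP p₁ q₁) (h2 : S.CP p₂ q₂) (hp : Near p₁ p₂ r) (hq : Near q₁ q₂ r) :
    |(cc (q₁.1 + q₁.2.2) - cc (p₁.1 + p₁.2.2)) / (q₁.2.1 - p₁.2.1) -
      (cc (q₂.1 + q₂.2.2) - cc (p₂.1 + p₂.2.2)) / (q₂.2.1 - p₂.2.1)| ≤
      1e-11 * r + 6.2832 * (|sg p₁ q₁ - sg p₂ q₂| + |el p₁ q₁ - el p₂ q₂|) := by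
  have a1 := h1.lt
  have a2 := h2.lt
  have b1 := h1.sg_bd
  have c1 := h1.el_bd
  have hr := hp.nonneg
  have e1 : p₁.1 + p₁.2.2 + (q₁.2.1 - p₁.2.1) * (sg p₁ q₁ + el p₁ q₁) = q₁.1 + q₁.2.2 := by
    unfold sg el
    have : q₁.2.1 - p₁.2.1 ≠ 0 := by linarith
    field_simp
    ring
  have e2 : p₂.1 + p₂.2.2 + (q₂.2.1 - p₂.2.1) * (sg p₂ q₂ + el p₂ q₂) = q₂.1 + q₂.2.2 := by
    unfold sg el
    have : q₂.2.1 - p₂.2.1 ≠ 0 := by linarith
    field_simp
    ring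
  have k1 : |p₁.1 + p₁.2.2 - (p₂.1 + p₂.2.2)| ≤ 2 * r := by
    have := abs_add_le (p₂.1 - p₁.1) (p₂.2.2 - p₁.2.2)
    rw [abs_sub_comm]
    have e : p₂.1 + p₂.2.2 - (p₁.1 + p₁.2.2) = (p₂.1 - p₁.1) + (p₂.2.2 - p₁.2.2) := by ring
    rw [e]
    linarith [hp.s, hp.u]
  have k2 : |q₁.1 + q₁.2.2 - (q₂.1 + q₂.2.2)| ≤ 2 * r := by
    have := abs_add_le (q₂.1 - q₁.1) (q₂.2.2 - q₁.2.2)
    rw [abs_sub_comm]
    have e : q₂.1 + q₂.2.2 - (q₁.1 + q₁.2.2) = (q₂.1 - q₁.1) + (q₂.2.2 - q₁.2.2) := by ring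
    rw [e]
    linarith [hq.s, hq.u]
  have := four_point_aux (f := cc) (f' := cc') (K := 39.48) (M := 6.2832) hasDerivAt_cc cc'_lip
    abs_cc'_le (p₁.1 + p₁.2.2) (sg p₁ q₁ + el p₁ q₁) (q₁.2.1 - p₁.2.1)
    (p₂.1 + p₂.2.2) (sg p₂ q₂ + el p₂ q₂) (q₂.2.1 - p₂.2.1) (by linarith) (by linarith)
    (r := 2 * r) (E := 3.1e-14) (by
      have := abs_add_le (sg p₁ q₁) (el p₁ q₁)
      linarith) (by norm_num) k1 (by rw [e1, e2]; exact k2)
  rw [e1, e2] at this
  have k3 : |sg p₁ q₁ + el p₁ q₁ - (sg p₂ q₂ + el p₂ q₂)| ≤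
      |sg p₁ q₁ - sg p₂ q₂| + |el p₁ q₁ - el p₂ q₂| := by
    have := abs_add_le (sg p₁ q₁ - sg p₂ q₂) (el p₁ q₁ - el p₂ q₂)
    have e : sg p₁ q₁ + el p₁ q₁ - (sg p₂ q₂ + el p₂ q₂) =
      (sg p₁ q₁ - sg p₂ q₂) + (el p₁ q₁ - el p₂ q₂) := by ring
    rw [e]; exact this
  linarith

lemma four_RR (h1 : S.CP p₁ q₁) (h2 : S.CP p₂ q₂) (hp : Near p₁ p₂ r) (hq : Near q₁ q₂ r)
    (hP : Small2 S.Pt) :
    |S.RR p₁ q₁ - S.RR p₂ q₂| ≤
      1e-6 * r + 6.3e-5 * (|sg p₁ q₁ - sg p₂ q₂| + |el p₁ q₁ - el p₂ q₂|) := by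
  have k1 := four_c h1 h2 hp hq
  have k2 := four_P h1 h2 hp hq hP
  have hr := hp.nonneg
  have a1 := abs_nonneg (sg p₁ q₁ - sg p₂ q₂)
  have a2 := abs_nonneg (el p₁ q₁ - el p₂ q₂)
  unfold RR
  have e : 1e-5 * ((cc (q₁.1 + q₁.2.2) - cc (p₁.1 + p₁.2.2)) / (q₁.2.1 - p₁.2.1)) +
      qP S.Pt p₁ q₁ - (1e-5 * ((cc (q₂.1 + q₂.2.2) - cc (p₂.1 + p₂.2.2)) / (q₂.2.1 - p₂.2.1)) +
      qP S.Pt p₂ q₂) = 1e-5 * ((cc (q₁.1 + q₁.2.2) - cc (p₁.1 + p₁.2.2)) / (q₁.2.1 - p₁.2.1) -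
      (cc (q₂.1 + q₂.2.2) - cc (p₂.1 + p₂.2.2)) / (q₂.2.1 - p₂.2.1)) +
      (qP S.Pt p₁ q₁ - qP S.Pt p₂ q₂) := by ring
  rw [e]
  refine (abs_add_le _ _).trans ?_
  rw [abs_mul, abs_of_pos (by norm_num : (0:ℝ) < 1e-5)]
  linarith

lemma four_gg (h1 : S.CP p₁ q₁) (h2 : S.CP p₂ q₂) (hp : Near p₁ p₂ r) (hq : Near q₁ q₂ r)
    (hP : Small2 S.Pt) :
    |S.gg p₁ q₁ - S.gg p₂ q₂| ≤
      1.98e-2 * r + 6.3e-5 * (|sg p₁ q₁ - sg p₂ q₂| + |el p₁ q₁ - el p₂ q₂|) := by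
  have k1 := four_v h1 h2 hp hq
  have k2 := four_RR h1 h2 hp hq hP
  have hr := hp.nonneg
  rw [h1.gg_eq, h2.gg_eq]
  have e : 1 + 1e-4 * vq p₁ q₁ + S.RR p₁ q₁ - (1 + 1e-4 * vq p₂ q₂ + S.RR p₂ q₂) =
    1e-4 * (vq p₁ q₁ - vq p₂ q₂) + (S.RR p₁ q₁ - S.RR p₂ q₂) := by ring
  rw [e]
  refine (abs_add_le _ _).trans ?_
  rw [abs_mul, abs_of_pos (by norm_num : (0:ℝ) < 1e-4)]
  linarith

lemma four_sg (h1 : S.CP p₁ q₁) (h2 : S.CP p₂ q₂) (hp : Near p₁ p₂ r) (hq : Near q₁ q₂ r)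
    (hP : Small2 S.Pt) (hP' : Small2 S.Ps) :
    |sg (S.F p₁) (S.F q₁) - sg (S.F p₂) (S.F q₂)| ≤
      0.05 * |sg p₁ q₁ - sg p₂ q₂| + 1e-13 * (r + |el p₁ q₁ - el p₂ q₂|) := by
  have k1 := four_gg h1 h2 hp hq hP
  have k2 := four_P h1 h2 hp hq hP'
  have hr := hp.nonneg
  have a1 := abs_nonneg (sg p₁ q₁ - sg p₂ q₂)
  have a2 := abs_nonneg (el p₁ q₁ - el p₂ q₂)
  have b1 := h1.sg_step
  have b2 := h2.sg_step
  have c1 := (abs_le.1 h1.gg_bd).1
  have c2 := h2.step.sg_bd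
  set A := sg (S.F p₁) (S.F q₁)
  set B := sg (S.F p₂) (S.F q₂)
  have e : (A - B) * S.gg p₁ q₁ = S.lam⁻¹ * (sg p₁ q₁ - sg p₂ q₂) +
      (qP S.Ps p₁ q₁ - qP S.Ps p₂ q₂) - B * (S.gg p₁ q₁ - S.gg p₂ q₂) := by
    linear_combination b1 - b2
  have e1 : |A - B| * S.gg p₁ q₁ ≤ 0.0372 * |sg p₁ q₁ - sg p₂ q₂| +
      |qP S.Ps p₁ q₁ - qP S.Ps p₂ q₂| + 2e-14 * |S.gg p₁ q₁ - S.gg p₂ q₂| := by
    have hg : 0 < S.gg p₁ q₁ := by linarith
    rw [← abs_of_pos hg, ← abs_mul, abs_of_pos hg, e]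
    refine (abs_sub _ _).trans ?_
    refine (add_le_add (abs_add_le _ _) le_rfl).trans ?_
    rw [abs_mul, abs_mul, abs_of_pos S.lami_pos]
    have := mul_le_mul_of_nonneg_right S.lami_lt.le a1
    have := mul_le_mul_of_nonneg_right c2 (abs_nonneg (S.gg p₁ q₁ - S.gg p₂ q₂))
    linarith
  have e2 : 0.998 * |A - B| ≤ |A - B| * S.gg p₁ q₁ := by
    have := mul_le_mul_of_nonneg_left (by linarith : 0.998 ≤ S.gg p₁ q₁) (abs_nonneg (A - B))
    linarith
  linarith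

lemma four_el (h1 : S.CP p₁ q₁) (h2 : S.CP p₂ q₂) (hp : Near p₁ p₂ r) (hq : Near q₁ q₂ r)
    (hP : Small2 S.Pt) (hP' : Small2 S.Pu) :
    |el p₁ q₁ - el p₂ q₂| ≤
      0.05 * |el (S.F p₁) (S.F q₁) - el (S.F p₂) (S.F q₂)| +
        1e-14 * (r + |sg p₁ q₁ - sg p₂ q₂|) := by
  have k1 := four_gg h1 h2 hp hq hP
  have k2 := four_P h1 h2 hp hq hP'
  have hr := hp.nonneg
  have a1 := abs_nonneg (sg p₁ q₁ - sg p₂ q₂)
  have a2 := abs_nonneg (el p₁ q₁ - el p₂ q₂)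
  have b1 := h1.el_step
  have b2 := h2.el_step
  have c1 := (abs_le.1 h1.gg_bd).2
  have c0 := (abs_le.1 h1.gg_bd).1
  have c2 := h2.step.el_bd
  set A := el (S.F p₁) (S.F q₁)
  set B := el (S.F p₂) (S.F q₂)
  have e : S.lam * (el p₁ q₁ - el p₂ q₂) = (A - B) * S.gg p₁ q₁
      - (qP S.Pu p₁ q₁ - qP S.Pu p₂ q₂) + B * (S.gg p₁ q₁ - S.gg p₂ q₂) := by
    linear_combination b2 - b1
  have e1 : S.lam * |el p₁ q₁ - el p₂ q₂| ≤ 1.002 * |A - B| +
      |qP S.Pu p₁ q₁ - qP S.Pu p₂ q₂| + 1.01e-14 * |S.gg p₁ q₁ - S.gg p₂ q₂| := by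
    have e' : S.lam * |el p₁ q₁ - el p₂ q₂| = |S.lam * (el p₁ q₁ - el p₂ q₂)| := by
      rw [abs_mul, abs_of_pos S.lam_pos]
    rw [e', e]
    refine (abs_add_le _ _).trans ?_
    refine (add_le_add (abs_sub _ _) le_rfl).trans ?_
    rw [abs_mul, abs_mul, abs_of_pos (by linarith : 0 < S.gg p₁ q₁)]
    have := mul_le_mul_of_nonneg_left (by linarith : S.gg p₁ q₁ ≤ 1.002) (abs_nonneg (A - B))
    have := mul_le_mul_of_nonneg_right c2 (abs_nonneg (S.gg p₁ q₁ - S.gg p₂ q₂))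
    linarith
  have e2 := mul_le_mul_of_nonneg_right S.hlam.le a2
  have := abs_nonneg (A - B)
  linarith

end four

end Sys

end Pool.Agent.H47

/-! ### Control -/

namespace Pool.Agent.H47

open Real Set Filter Topology

lemma cc_ge_half {x : ℝ} {n : ℤ} (h1 : (n:ℝ) - 1/6 ≤ x) (h2 : x ≤ n + 1/6) : 1/2 ≤ cc x := by
  have e : cc x = cos (2*π*(x - n)) := by
    unfold cc
    rw [show 2*π*x = 2*π*(x - n) + n * (2*π) by ring, cos_add_int_mul_two_pi]
  rw [e, ← cos_pi_div_three, ← cos_abs (2*π*(x-n))]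
  have hp := pi_pos
  apply cos_le_cos_of_nonneg_of_le_pi
  · positivity
  · linarith
  · rw [abs_le]; constructor <;> nlinarith

lemma cc_le_neg_half {x : ℝ} {n : ℤ} (h1 : (n:ℝ) + 1/3 ≤ x) (h2 : x ≤ n + 2/3) :
    cc x ≤ -(1/2) := by
  have e : cc x = - cc (x - 1/2) := by
    unfold cc
    rw [show 2*π*x = 2*π*(x - 1/2) + π by ring, cos_add_pi]
  have := cc_ge_half (x := x - 1/2) (n := n) (by linarith) (by linarith)
  linarith

lemma vq_bd_of_abs {a b m : ℝ} (hab : a < b) (ha : -m ≤ a) (hb : b ≤ m) :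
    |(vv b - vv a) / (b - a)| ≤ 197.4 * m := by
  obtain ⟨c, hc, hce⟩ := exists_hasDerivAt_eq_slope vv vv' hab
    (fun t _ => (hasDerivAt_vv t).continuousAt.continuousWithinAt) (fun t _ => hasDerivAt_vv t)
  rw [← hce]
  have h1 := abs_vv'_le_lin c
  have h2 : |c| ≤ m := abs_le.2 ⟨by linarith [hc.1], by linarith [hc.2]⟩
  linarith

lemma abs_log_sub_le {x y c : ℝ} (hc : 0 < c) (hx : c ≤ x) (hy : c ≤ y) :
    |log x - log y| ≤ |x - y| / c := by
  have key : ∀ x y : ℝ, c ≤ x → c ≤ y → log x - log y ≤ |x - y| / c := by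
    intro x y hx hy
    have hy0 : 0 < y := by linarith
    have hx0 : 0 < x := by linarith
    rw [← log_div hx0.ne' hy0.ne']
    have h1 := log_le_sub_one_of_pos (div_pos hx0 hy0)
    have h2 : x / y - 1 ≤ |x - y| / c := by
      have e : x / y - 1 = (x - y) / y := by field_simp
      rw [e]
      calc (x - y) / y ≤ |x - y| / y := by gcongr; exact le_abs_self _
        _ ≤ |x - y| / c := by gcongr
    linarith
  rw [abs_le]
  constructor
  · have := key y x hy hx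
    rw [abs_sub_comm] at this
    linarith
  · exact key x y hx hy

lemma sum_bound (a b r : ℕ → ℝ) (m : ℕ) (ha : ∀ j, 0 ≤ a j) (hb : ∀ j, 0 ≤ b j)
    (ha0 : a 0 = 0)
    (h1 : ∀ j, a (j+1) ≤ 0.05 * a j + 1e-13 * (r j + b j))
    (h2 : ∀ j, b j ≤ 0.05 * b (j+1) + 1e-14 * (r j + a j))
    (hbm : b m ≤ 1) (hR : ∑ j ∈ Finset.range m, r j ≤ 1) :
    ∑ j ∈ Finset.range m, (a j + b j) ≤ 0.1 := by
  have hA : ∑ j ∈ Finset.range m, a j ≤ 0.05 * ∑ j ∈ Finset.range m, a j +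
      1e-13 * (∑ j ∈ Finset.range m, r j + ∑ j ∈ Finset.range m, b j) := by
    have e1 : ∑ j ∈ Finset.range m, a j ≤ ∑ j ∈ Finset.range m, a (j+1) := by
      have := Finset.sum_range_succ a m
      have h' := Finset.sum_range_succ' a m
      have := ha m
      linarith
    have e2 : ∑ j ∈ Finset.range m, a (j+1) ≤
        ∑ j ∈ Finset.range m, (0.05 * a j + 1e-13 * (r j + b j)) :=
      Finset.sum_le_sum (fun j _ => h1 j)
    rw [Finset.sum_add_distrib, ← Finset.mul_sum, ← Finset.mul_sum, Finset.sum_add_distrib] at e2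
    linarith
  have hB : ∑ j ∈ Finset.range m, b j ≤ 0.05 * (∑ j ∈ Finset.range m, b j + b m) +
      1e-14 * (∑ j ∈ Finset.range m, r j + ∑ j ∈ Finset.range m, a j) := by
    have e1 : ∑ j ∈ Finset.range m, b (j+1) ≤ ∑ j ∈ Finset.range m, b j + b m := by
      have := Finset.sum_range_succ b m
      have h' := Finset.sum_range_succ' b m
      have := hb 0
      linarith
    have e2 : ∑ j ∈ Finset.range m, b j ≤
        ∑ j ∈ Finset.range m, (0.05 * b (j+1) + 1e-14 * (r j + a j)) :=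
      Finset.sum_le_sum (fun j _ => h2 j)
    rw [Finset.sum_add_distrib, ← Finset.mul_sum, ← Finset.mul_sum, Finset.sum_add_distrib] at e2
    linarith
  rw [Finset.sum_add_distrib]
  have hA0 : 0 ≤ ∑ j ∈ Finset.range m, a j := Finset.sum_nonneg (fun j _ => ha j)
  have hB0 : 0 ≤ ∑ j ∈ Finset.range m, b j := Finset.sum_nonneg (fun j _ => hb j)
  linarith

/-- reference weights -/
noncomputable def ww (m : ℕ) : ℝ := 1 / ((m:ℝ) + 1e12)

lemma ww_pos (m : ℕ) : 0 < ww m := by unfold ww; positivity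
lemma ww_le (m : ℕ) : ww m ≤ 1e-12 := by
  unfold ww
  rw [div_le_iff₀ (by positivity)]
  have : (0:ℝ) ≤ m := Nat.cast_nonneg m
  nlinarith

lemma dw_bd (m : ℕ) : 0 ≤ log (ww m) - log (ww (m+1)) ∧ log (ww m) - log (ww (m+1)) ≤ 1e-12 := by
  have hm : (0:ℝ) ≤ m := Nat.cast_nonneg m
  unfold ww
  push_cast
  rw [log_div one_ne_zero (by positivity), log_div one_ne_zero (by positivity), log_one]
  have h1 : log ((m:ℝ) + 1e12) ≤ log ((m:ℝ) + 1 + 1e12) :=
    log_le_log (by positivity) (by linarith)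
  have h2 : log ((m:ℝ) + 1 + 1e12) - log ((m:ℝ) + 1e12) ≤ 1e-12 := by
    rw [← log_div (by positivity) (by positivity)]
    refine (log_le_sub_one_of_pos (by positivity)).trans ?_
    rw [sub_le_iff_le_add, div_le_iff₀ (by positivity)]
    nlinarith
  constructor <;> linarith

namespace Sys

variable (S : Sys)

noncomputable def X (H : ℝ) : E3 := S.pt 0 0 H
noncomputable def Z (H : ℝ) : E3 := S.pt 0 1e-12 H
noncomputable def Xm (m : ℕ) (H : ℝ) : E3 := S.F^[m] (S.X H)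
noncomputable def Zm (m : ℕ) (H : ℝ) : E3 := S.F^[m] (S.Z H)
noncomputable def xi (m : ℕ) (H : ℝ) : ℝ := (S.Zm m H).2.1 - (S.Xm m H).2.1
noncomputable def Lam (m : ℕ) (H : ℝ) : ℝ := log (S.xi m H) - log (ww m)
noncomputable def TT (m : ℕ) (H : ℝ) : ℝ := (S.Xm m H).2.1
noncomputable def zz (m : ℕ) (H : ℝ) : ℝ := S.TT m H - 0.01 * S.Lam m H
noncomputable def xx (m : ℕ) (H : ℝ) : ℝ := (S.Xm m H).1 + (S.Xm m H).2.2
noncomputable def du (m : ℕ) (H H' : ℝ) : ℝ := (S.Xm m H').2.2 - (S.Xm m H).2.2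
noncomputable def duZ (m : ℕ) (H H' : ℝ) : ℝ := (S.Zm m H').2.2 - (S.Zm m H).2.2

lemma Xm_succ (m : ℕ) (H : ℝ) : S.Xm (m+1) H = S.F (S.Xm m H) := by
  unfold Xm; rw [Function.iterate_succ_apply']
lemma Zm_succ (m : ℕ) (H : ℝ) : S.Zm (m+1) H = S.F (S.Zm m H) := by
  unfold Zm; rw [Function.iterate_succ_apply']

lemma CP_XZ (H : ℝ) : S.CP (S.X H) (S.Z H) := by
  refine ⟨?_, ?_, ?_⟩
  · unfold X Z; rw [S.h_pt, S.h_pt]
  · unfold X Z; simp only [pt_snd]; norm_num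
  · unfold X Z; simp only [pt_snd, pt_fst]; norm_num

lemma CP_XZm (m : ℕ) (H : ℝ) : S.CP (S.Xm m H) (S.Zm m H) := (S.CP_XZ H).iter m

lemma xi_pos (m : ℕ) (H : ℝ) : 0 < S.xi m H := by
  have := (S.CP_XZm m H).lt
  unfold xi; linarith

lemma xi_succ (m : ℕ) (H : ℝ) :
    S.xi (m+1) H = S.gg (S.Xm m H) (S.Zm m H) * S.xi m H := by
  unfold xi
  rw [S.Xm_succ, S.Zm_succ]
  exact (S.CP_XZm m H).gg_mul

lemma xi_zero (H : ℝ) : S.xi 0 H = 1e-12 := by
  unfold xi Xm Zm X Z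
  simp

lemma Lam_zero (H : ℝ) : S.Lam 0 H = 0 := by
  unfold Lam
  rw [S.xi_zero]
  unfold ww
  have : (1e-12 : ℝ) = 1 / (((0:ℕ):ℝ) + 1e12) := by norm_num
  rw [this]; ring

lemma TT_zero (H : ℝ) : S.TT 0 H = 0 := by
  unfold TT Xm X
  simp

lemma zz_zero (H : ℝ) : S.zz 0 H = 0 := by
  unfold zz; rw [S.Lam_zero, S.TT_zero]; ring

lemma gg_pos (m : ℕ) (H : ℝ) : 0.998 < S.gg (S.Xm m H) (S.Zm m H) := by
  have := (abs_le.1 (S.CP_XZm m H).gg_bd).1
  linarith

lemma Lam_succ (m : ℕ) (H : ℝ) : S.Lam (m+1) H = S.Lam m H +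
    log (S.gg (S.Xm m H) (S.Zm m H)) + (log (ww m) - log (ww (m+1))) := by
  unfold Lam
  rw [S.xi_succ, log_mul (by linarith [S.gg_pos m H]) (S.xi_pos m H).ne']
  ring

lemma xi_eq (m : ℕ) (H : ℝ) : S.xi m H = ww m * exp (S.Lam m H) := by
  unfold Lam
  rw [exp_sub, exp_log (S.xi_pos m H), exp_log (ww_pos m)]
  have := (ww_pos m).ne'
  field_simp

lemma exp_bd {x : ℝ} (h : |x| ≤ 0.04) : 0.9 ≤ exp x ∧ exp x ≤ 1.1 := by
  have := Real.abs_exp_sub_one_le (x := x) (by linarith)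
  rw [abs_le] at this
  constructor <;> linarith [this.1, this.2]

/-- one step of the control process, for a single orbit -/
lemma control_step (m : ℕ) (H : ℝ) (hz : |S.zz m H| ≤ 1.81e-4) (hL : |S.Lam m H| ≤ 0.04) :
    |S.Lam (m+1) H| ≤ 0.04 ∧
    |S.zz (m+1) H - S.zz m H - 1e-5 * cc (S.xx m H)| ≤ 2e-7 := by
  have hz' := abs_le.1 hz
  have hL' := abs_le.1 hL
  have hT : S.TT m H = S.zz m H + 0.01 * S.Lam m H := by unfold zz; ring
  have hxi := S.xi_eq m H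
  have hx0 := S.xi_pos m H
  have hw := ww_le m
  have hw0 := ww_pos m
  have he := exp_bd hL
  have hx1 : S.xi m H ≤ 1.1e-12 := by rw [hxi]; nlinarith [he.1, he.2]
  have hcp := S.CP_XZm m H
  have hg := hcp.gg_eq
  have hgb := hcp.gg_bd
  have hRR := abs_le.1 hcp.RR_bd
  have hLs := S.Lam_succ m H
  have hdw := dw_bd m
  set g := S.gg (S.Xm m H) (S.Zm m H) with hgdef
  have hT1 : -(5.82e-4) ≤ S.TT m H := by linarith
  have hT2 : S.TT m H ≤ 5.82e-4 := by linarith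
  have hZt : (S.Zm m H).2.1 = S.TT m H + S.xi m H := by unfold xi TT; ring
  have hvq : vq (S.Xm m H) (S.Zm m H) =
      (vv (S.TT m H + S.xi m H) - vv (S.TT m H)) / (S.TT m H + S.xi m H - S.TT m H) := by
    unfold vq; rw [hZt]; rfl
  have hvb : |vq (S.Xm m H) (S.Zm m H)| ≤ 197.4 * 7e-4 := by
    rw [hvq]
    exact vq_bd_of_abs (by linarith) (by linarith) (by linarith)
  have hvb' := abs_le.1 hvb
  have hg1 : |g - 1| ≤ 1.39e-5 := by rw [hg, abs_le]; constructor <;> linarith [hRR.1, hRR.2]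
  have hg1' := abs_le.1 hg1
  have hlg : |log g| ≤ 1.4e-5 := by
    have := abs_log_sub_le (x := g) (y := 1) (c := 0.998) (by norm_num) (by linarith) (by norm_num)
    rw [log_one, sub_zero] at this
    refine this.trans ?_
    rw [div_le_iff₀ (by norm_num)]
    linarith
  have hlg' := abs_le.1 hlg
  constructor
  · rw [abs_le]
    constructor
    · -- lower bound
      rcases le_or_gt (S.Lam m H) (-0.0399) with hc | hc
      · have hneg : S.TT m H ≤ -2.18e-4 := by linarith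
        have := vv_slope_neg (a := S.TT m H) (b := S.TT m H + S.xi m H) (m := 2.1e-4) (by norm_num)
          (by linarith) (by linarith) (by linarith)
        rw [← hvq] at this
        have hgl : 1 ≤ g := by rw [hg]; linarith [hRR.1]
        have := log_nonneg hgl
        linarith
      · linarith
    · rcases le_or_gt (S.Lam m H) (0.0399) with hc | hc
      · linarith
      · have hneg : 2.18e-4 ≤ S.TT m H := by linarith
        have := vv_slope_pos (a := S.TT m H) (b := S.TT m H + S.xi m H) (m := 2.1e-4) (by norm_num)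
          (by linarith) (by linarith) (by linarith)
        rw [← hvq] at this
        have hgl : g ≤ 1 - 1e-9 := by rw [hg]; linarith [hRR.2]
        have := log_le_sub_one_of_pos (x := g) (by linarith)
        linarith
  · have hTs : S.TT (m+1) H = S.TT m H + 1e-4 * vv (S.TT m H) + 1e-5 * cc (S.xx m H) +
        S.Pt (S.Xm m H) := by
      unfold TT xx
      rw [S.Xm_succ, S.ht]
    have hP := abs_le.1 (S.t1.bd (S.Xm m H))
    have hv := abs_le.1 (abs_vv_le_sq (S.TT m H))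
    have hsq : (S.TT m H)^2 ≤ (6e-4)^2 := by
      apply sq_le_sq'
      · linarith
      · linarith
    have e : S.zz (m+1) H - S.zz m H - 1e-5 * cc (S.xx m H) = 1e-4 * vv (S.TT m H) +
        S.Pt (S.Xm m H) - 0.01 * (log g + (log (ww m) - log (ww (m+1)))) := by
      unfold zz; rw [hTs, hLs]; ring
    rw [e, abs_le]
    constructor
    · linarith
    · linarith

lemma CP_r (m : ℕ) {H H' : ℝ} (hH : H < H') : NC (S.Xm m H) (S.Xm m H') := by
  apply S.NC_iter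
  have : 0 < S.U 0 0 H' - S.U 0 0 H := by
    have := (S.U 0 0).strictMono hH
    linarith
  refine ⟨this, ?_, ?_⟩
  · simp [X, pt]; linarith
  · simp [X, pt]; linarith

lemma CP_rZ (m : ℕ) {H H' : ℝ} (hH : H < H') : NC (S.Zm m H) (S.Zm m H') := by
  apply S.NC_iter
  have : 0 < S.U 0 1e-12 H' - S.U 0 1e-12 H := by
    have := (S.U 0 1e-12).strictMono hH
    linarith
  refine ⟨this, ?_, ?_⟩
  · simp [Z, pt]; linarith
  · simp [Z, pt]; linarith

lemma du_pos (m : ℕ) {H H' : ℝ} (hH : H < H') : 0 < S.du m H H' := (S.CP_r m hH).pos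
lemma duZ_pos (m : ℕ) {H H' : ℝ} (hH : H < H') : 0 < S.duZ m H H' := (S.CP_rZ m hH).pos

lemma du_step' (m : ℕ) {H H' : ℝ} (hH : H < H') :
    26.8 * S.du m H H' ≤ S.du (m+1) H H' ∧ S.du (m+1) H H' ≤ 27.1 * S.du m H H' := by
  unfold du
  rw [S.Xm_succ, S.Xm_succ]
  exact (S.NC_step (S.CP_r m hH)).2

lemma duZ_step' (m : ℕ) {H H' : ℝ} (hH : H < H') :
    26.8 * S.duZ m H H' ≤ S.duZ (m+1) H H' := by
  unfold duZ
  rw [S.Zm_succ, S.Zm_succ]
  exact (S.NC_step (S.CP_rZ m hH)).2.1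

lemma duZ_le (m : ℕ) (H H' : ℝ) : S.duZ m H H' ≤ S.du m H H' + 4e-14 := by
  have key : ∀ H, |(S.Zm m H).2.2 - (S.Xm m H).2.2| ≤ 2e-14 := by
    intro H
    have h1 := abs_le.1 (S.abs_h_sub (S.Xm m H))
    have h2 := abs_le.1 (S.abs_h_sub (S.Zm m H))
    have h3 := (S.CP_XZm m H).leaf
    rw [abs_le]
    constructor <;> linarith [h1.1, h1.2, h2.1, h2.2]
  have k1 := abs_le.1 (key H)
  have k2 := abs_le.1 (key H')
  unfold du duZ
  linarith [k1.1, k1.2, k2.1, k2.2]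

/-- the second order smallness hypothesis -/
structure C2 : Prop where
  s : Small2 S.Ps
  t : Small2 S.Pt
  u : Small2 S.Pu

variable {S} in
lemma variation (hP : S.C2) (m : ℕ) {H H' : ℝ} (hH : H < H') (hd : S.du m H H' ≤ 9.3) :
    |S.zz m H - S.zz m H'| ≤ 1.7e-4 := by
  obtain ⟨hPs, hPt, hPu⟩ := hP
  set r : ℕ → ℝ := fun j => max (S.du j H H') (S.duZ j H H') with hr
  set a : ℕ → ℝ := fun j => |sg (S.Xm j H) (S.Zm j H) - sg (S.Xm j H') (S.Zm j H')| with ha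
  set b : ℕ → ℝ := fun j => |el (S.Xm j H) (S.Zm j H) - el (S.Xm j H') (S.Zm j H')| with hb
  have hnX : ∀ j, Near (S.Xm j H) (S.Xm j H') (r j) := by
    intro j
    have h1 := S.CP_r j hH
    have h2 : S.du j H H' ≤ r j := le_max_left _ _
    have h3 := h1.pos
    have h4 := h1.s
    have h5 := h1.t
    unfold du at h2
    refine ⟨by linarith, by linarith, ?_⟩
    rw [abs_of_pos h3]; exact h2
  have hnZ : ∀ j, Near (S.Zm j H) (S.Zm j H') (r j) := by
    intro j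
    have h1 := S.CP_rZ j hH
    have h2 : S.duZ j H H' ≤ r j := le_max_right _ _
    have h3 := h1.pos
    have h4 := h1.s
    have h5 := h1.t
    unfold duZ at h2
    refine ⟨by linarith, by linarith, ?_⟩
    rw [abs_of_pos h3]; exact h2
  have hr0 : ∀ j, 0 ≤ r j := fun j => (hnX j).nonneg
  have hrs : ∀ j, r j ≤ r (j+1) / 26.8 := by
    intro j
    have h1 := (S.du_step' j hH).1
    have h2 := S.duZ_step' j hH
    have h3 : S.du (j+1) H H' ≤ r (j+1) := le_max_left _ _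
    have h4 : S.duZ (j+1) H H' ≤ r (j+1) := le_max_right _ _
    rw [le_div_iff₀ (by norm_num)]
    rcases max_cases (S.du j H H') (S.duZ j H H') with ⟨h5, _⟩ | ⟨h5, _⟩
    · simp only [hr]; rw [h5]
      simp only [hr] at h3; linarith
    · simp only [hr]; rw [h5]
      simp only [hr] at h4; linarith
  have hrm : r m ≤ 9.31 := by
    have := S.duZ_le m H H'
    simp only [hr]
    exact max_le (by linarith) (by linarith)
  have hR : ∑ j ∈ Finset.range m, r j ≤ 0.361 := by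
    have e1 : ∑ j ∈ Finset.range m, r j ≤ ∑ j ∈ Finset.range m, (r (j+1) / 26.8) :=
      Finset.sum_le_sum (fun j _ => hrs j)
    rw [← Finset.sum_div] at e1
    have e2 := Finset.sum_range_succ r m
    have e3 := Finset.sum_range_succ' r m
    have e4 := hr0 0
    have e5 : ∑ j ∈ Finset.range m, r (j+1) ≤ ∑ j ∈ Finset.range m, r j + 9.31 := by linarith
    have e6 : (∑ j ∈ Finset.range m, r (j+1)) / 26.8 ≤ (∑ j ∈ Finset.range m, r j + 9.31) / 26.8 := by
      gcongr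
    have e7 : ∑ j ∈ Finset.range m, r j ≤ (∑ j ∈ Finset.range m, r j + 9.31) / 26.8 := by linarith
    rw [le_div_iff₀ (by norm_num)] at e7
    linarith
  have hsum := sum_bound a b r m (fun j => abs_nonneg _) (fun j => abs_nonneg _)
    (by
      simp only [ha, Xm, Zm, Function.iterate_zero, id_eq, sg, X, Z, pt_fst]
      simp)
    (fun j => by
      have := four_sg (S.CP_XZm j H) (S.CP_XZm j H') (hnX j) (hnZ j) hPt hPs
      simp only [ha, hb]
      rw [S.Xm_succ, S.Xm_succ, S.Zm_succ, S.Zm_succ]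
      exact this)
    (fun j => by
      have := four_el (S.CP_XZm j H) (S.CP_XZm j H') (hnX j) (hnZ j) hPt hPu
      simp only [ha, hb]
      rw [S.Xm_succ, S.Xm_succ, S.Zm_succ, S.Zm_succ]
      exact this)
    (by
      have h1 := (S.CP_XZm m H).el_bd
      have h2 := (S.CP_XZm m H').el_bd
      simp only [hb]
      refine (abs_sub _ _).trans ?_
      linarith)
    (by linarith)
  have hD : ∀ n, |S.Lam n H - S.Lam n H'| ≤ ∑ j ∈ Finset.range n,
      (1.98e-2 * r j + 6.3e-5 * (a j + b j)) / 0.998 := by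
    intro n
    induction n with
    | zero => simp [S.Lam_zero]
    | succ n ih =>
      rw [Finset.sum_range_succ, S.Lam_succ, S.Lam_succ]
      have h1 := abs_log_sub_le (x := S.gg (S.Xm n H) (S.Zm n H))
        (y := S.gg (S.Xm n H') (S.Zm n H')) (c := 0.998) (by norm_num)
        (S.gg_pos n H).le (S.gg_pos n H').le
      have h2 := four_gg (S.CP_XZm n H) (S.CP_XZm n H') (hnX n) (hnZ n) hPt
      have e : S.Lam n H + log (S.gg (S.Xm n H) (S.Zm n H)) + (log (ww n) - log (ww (n + 1))) -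
        (S.Lam n H' + log (S.gg (S.Xm n H') (S.Zm n H')) + (log (ww n) - log (ww (n + 1)))) =
        (S.Lam n H - S.Lam n H') + (log (S.gg (S.Xm n H) (S.Zm n H)) -
          log (S.gg (S.Xm n H') (S.Zm n H'))) := by ring
      rw [e]
      refine (abs_add_le _ _).trans ?_
      refine add_le_add ih (h1.trans ?_)
      gcongr
  have hDm := hD m
  rw [← Finset.sum_div, Finset.sum_add_distrib, ← Finset.mul_sum, ← Finset.mul_sum,
    le_div_iff₀ (by norm_num)] at hDm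
  have hLam : |S.Lam m H - S.Lam m H'| ≤ 7.2e-3 := by linarith
  have hTT : |S.TT m H - S.TT m H'| ≤ 9.3e-5 := by
    have h1 := (S.CP_r m hH).t
    unfold TT
    rw [abs_sub_comm]
    unfold du at hd
    linarith
  have e : S.zz m H - S.zz m H' = (S.TT m H - S.TT m H') - 0.01 * (S.Lam m H - S.Lam m H') := by
    unfold zz; ring
  rw [e]
  refine (abs_sub _ _).trans ?_
  rw [abs_mul, abs_of_pos (by norm_num : (0:ℝ) < 0.01)]
  linarith

lemma continuous_Xm (m : ℕ) : Continuous (S.Xm m) :=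
  (S.continuous_iter m).comp (S.continuous_pt 0 0)
lemma continuous_Zm (m : ℕ) : Continuous (S.Zm m) :=
  (S.continuous_iter m).comp (S.continuous_pt 0 1e-12)
lemma continuous_TT (m : ℕ) : Continuous (S.TT m) := by
  unfold TT; have := S.continuous_Xm m; fun_prop
lemma continuous_xx (m : ℕ) : Continuous (S.xx m) := by
  unfold xx; have := S.continuous_Xm m; fun_prop
lemma continuous_xi (m : ℕ) : Continuous (S.xi m) := by
  unfold xi; have := S.continuous_Xm m; have := S.continuous_Zm m; fun_prop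
lemma continuous_Lam (m : ℕ) : Continuous (S.Lam m) := by
  unfold Lam
  exact ((S.continuous_xi m).log (fun H => (S.xi_pos m H).ne')).sub continuous_const
lemma continuous_zz (m : ℕ) : Continuous (S.zz m) := by
  unfold zz; have := S.continuous_TT m; have := S.continuous_Lam m; fun_prop

lemma xx_mono (m : ℕ) {H H' : ℝ} (hH : H < H') :
    (1 - 1e-5) * S.du m H H' ≤ S.xx m H' - S.xx m H ∧
    S.xx m H' - S.xx m H ≤ (1 + 1e-5) * S.du m H H' := by
  have h := S.CP_r m hH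
  have h1 := abs_le.1 h.s
  have e : S.xx m H' - S.xx m H = ((S.Xm m H').1 - (S.Xm m H).1) + S.du m H H' := by
    unfold xx du; ring
  rw [e]
  unfold du
  constructor <;> linarith [h1.1, h1.2]

/-- good orbits up to time `m` -/
def Good (m : ℕ) (H : ℝ) : Prop := ∀ j ≤ m, |S.zz j H| ≤ 1.81e-4 ∧ |S.Lam j H| ≤ 0.04

variable {S}

lemma exists_sub (m : ℕ) {α β A B : ℝ} (hαβ : α < β) (h1 : S.xx m α ≤ A) (h2 : A < B)
    (h3 : B ≤ S.xx m β) : ∃ α' β', α ≤ α' ∧ α' < β' ∧ β' ≤ β ∧ S.xx m α' = A ∧ S.xx m β' = B ∧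
      ∀ H ∈ Icc α' β', A ≤ S.xx m H ∧ S.xx m H ≤ B := by
  have hc := S.continuous_xx m
  obtain ⟨α', ha, ha'⟩ := intermediate_value_Icc hαβ.le hc.continuousOn
    (show A ∈ Icc (S.xx m α) (S.xx m β) from ⟨h1, by linarith⟩)
  have hlt : α' < β := by
    rcases lt_or_eq_of_le ha.2 with h | h
    · exact h
    · rw [h] at ha'; linarith
  obtain ⟨β', hb, hb'⟩ := intermediate_value_Icc hlt.le hc.continuousOn
    (show B ∈ Icc (S.xx m α') (S.xx m β) from ⟨by linarith, h3⟩)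
  have hlt' : α' < β' := by
    rcases lt_or_eq_of_le hb.1 with h | h
    · exact h
    · rw [← h] at hb'; linarith
  have mono : ∀ H H', H ≤ H' → S.xx m H ≤ S.xx m H' := by
    intro H H' hH
    rcases lt_or_eq_of_le hH with h | h
    · have h1 := (S.xx_mono m h).1
      have h2 := S.du_pos m h
      nlinarith
    · rw [h]
  refine ⟨α', β', ha.1, hlt', hb.2, ha', hb', fun H hH => ⟨?_, ?_⟩⟩
  · rw [← ha']; exact mono _ _ hH.1
  · rw [← hb']; exact mono _ _ hH.2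

lemma interval_induction (hP : S.C2) (m : ℕ) : ∃ α β, 0 ≤ α ∧ α < β ∧ β ≤ 2 ∧
    (∀ H ∈ Icc α β, S.Good m H) ∧ 4/3 ≤ S.xx m β - S.xx m α ∧ S.du m α β ≤ 9.3 := by
  induction m with
  | zero =>
    have k : ∀ H, |S.U 0 0 H - H| ≤ 1e-14 := by
      intro H
      have := S.abs_h_sub (S.pt 0 0 H)
      rw [S.h_pt] at this
      rw [abs_sub_comm]; exact this
    have k0 := abs_le.1 (k 0)
    have k2 := abs_le.1 (k 2)
    refine ⟨0, 2, le_rfl, by norm_num, le_rfl, ?_, ?_, ?_⟩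
    · intro H _ j hj
      have : j = 0 := by omega
      subst this
      rw [S.zz_zero, S.Lam_zero]
      constructor <;> norm_num
    · show 4/3 ≤ (0 + S.U 0 0 2) - (0 + S.U 0 0 0)
      linarith [k0.1, k0.2, k2.1, k2.2]
    · show S.U 0 0 2 - S.U 0 0 0 ≤ 9.3
      linarith [k0.1, k0.2, k2.1, k2.2]
  | succ m ih =>
    obtain ⟨α, β, h0, hαβ, h2, hG, hx, hdu⟩ := ih
    -- variation relative to alpha
    have hvar : ∀ H ∈ Icc α β, |S.zz m α - S.zz m H| ≤ 1.7e-4 := by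
      intro H hH
      rcases lt_or_eq_of_le hH.1 with h | h
      · apply variation hP m h
        rcases lt_or_eq_of_le hH.2 with h' | h'
        · have := S.du_pos m h'
          unfold du at *
          linarith
        · rw [h']; exact hdu
      · rw [h]; simp; norm_num
    have hsg : ∀ α' β' A B, α ≤ α' → α' < β' → β' ≤ β → S.xx m α' = A → S.xx m β' = B →
        B - A = 1/3 → 4/3 ≤ S.xx (m+1) β' - S.xx (m+1) α' ∧ S.du (m+1) α' β' ≤ 9.3 := by
      intro α' β' A B h1 h2 h3 h4 h5 h6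
      have e1 := S.xx_mono m h2
      have e2 := S.xx_mono (m+1) h2
      have e3 := S.du_step' m h2
      rw [h4, h5] at e1
      constructor <;> nlinarith
    rcases le_or_gt (S.zz m α) 0 with hs | hs
    · -- push up
      obtain ⟨n, hn1, hn2⟩ : ∃ n : ℤ, S.xx m α + 1/6 ≤ n ∧ (n:ℝ) < S.xx m α + 7/6 := by
        refine ⟨⌈S.xx m α + 1/6⌉, Int.le_ceil _, ?_⟩
        have := Int.ceil_lt_add_one (S.xx m α + 1/6)
        linarith
      obtain ⟨α', β', i1, i2, i3, i4, i5, i6⟩ := exists_sub (S := S) m hαβ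
        (A := (n:ℝ) - 1/6) (B := (n:ℝ) + 1/6) (by linarith) (by linarith) (by linarith)
      have hf := hsg α' β' _ _ i1 i2 i3 i4 i5 (by ring)
      refine ⟨α', β', by linarith, i2, by linarith, ?_, hf.1, hf.2⟩
      intro H hH
      have hHm : H ∈ Icc α β := ⟨by linarith [hH.1], by linarith [hH.2]⟩
      have hGm := hG H hHm
      have hv := abs_le.1 (hvar H hHm)
      have hc := cc_ge_half (i6 H hH).1 (i6 H hH).2
      have hc1 := abs_le.1 (abs_cc_le (S.xx m H))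
      have hst := S.control_step m H (hGm m le_rfl).1 (hGm m le_rfl).2
      have hst2 := abs_le.1 hst.2
      have hzm := abs_le.1 (hGm m le_rfl).1
      intro j hj
      rcases Nat.lt_or_ge j (m+1) with hj' | hj'
      · exact hGm j (by omega)
      · have : j = m+1 := by omega
        subst this
        refine ⟨?_, hst.1⟩
        rw [abs_le]
        constructor <;> linarith [hst2.1, hst2.2, hzm.1, hzm.2, hv.1, hv.2, hc1.1, hc1.2]
    · obtain ⟨n, hn1, hn2⟩ : ∃ n : ℤ, S.xx m α - 1/3 ≤ n ∧ (n:ℝ) < S.xx m α + 2/3 := by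
        refine ⟨⌈S.xx m α - 1/3⌉, Int.le_ceil _, ?_⟩
        have := Int.ceil_lt_add_one (S.xx m α - 1/3)
        linarith
      obtain ⟨α', β', i1, i2, i3, i4, i5, i6⟩ := exists_sub (S := S) m hαβ
        (A := (n:ℝ) + 1/3) (B := (n:ℝ) + 2/3) (by linarith) (by linarith) (by linarith)
      have hf := hsg α' β' _ _ i1 i2 i3 i4 i5 (by ring)
      refine ⟨α', β', by linarith, i2, by linarith, ?_, hf.1, hf.2⟩
      intro H hH
      have hHm : H ∈ Icc α β := ⟨by linarith [hH.1], by linarith [hH.2]⟩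
      have hGm := hG H hHm
      have hv := abs_le.1 (hvar H hHm)
      have hc := cc_le_neg_half (i6 H hH).1 (i6 H hH).2
      have hc1 := abs_le.1 (abs_cc_le (S.xx m H))
      have hst := S.control_step m H (hGm m le_rfl).1 (hGm m le_rfl).2
      have hst2 := abs_le.1 hst.2
      have hzm := abs_le.1 (hGm m le_rfl).1
      intro j hj
      rcases Nat.lt_or_ge j (m+1) with hj' | hj'
      · exact hGm j (by omega)
      · have : j = m+1 := by omega
        subst this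
        refine ⟨?_, hst.1⟩
        rw [abs_le]
        constructor <;> linarith [hst2.1, hst2.2, hzm.1, hzm.2, hv.1, hv.2, hc1.1, hc1.2]

/-- there is a leaf label whose orbit pair is good for all times -/
theorem exists_good (hP : S.C2) : ∃ H, ∀ m, |S.TT m H| ≤ 6e-4 ∧
    0.9 * ww m ≤ S.xi m H ∧ S.xi m H ≤ 1.1 * ww m := by
  have hne : (⋂ m : ℕ, {H | H ∈ Icc (0:ℝ) 2 ∧ S.Good m H}).Nonempty := by
    apply IsCompact.nonempty_iInter_of_sequence_nonempty_isCompact_isClosed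
    · intro m H hH
      exact ⟨hH.1, fun j hj => hH.2 j (by omega)⟩
    · intro m
      obtain ⟨α, β, h0, hαβ, h2, hG, -, -⟩ := interval_induction hP m
      exact ⟨α, ⟨⟨h0, by linarith⟩, hG α ⟨le_rfl, hαβ.le⟩⟩⟩
    · apply isCompact_Icc.of_isClosed_subset _ (fun H hH => hH.1)
      have : {H | H ∈ Icc (0:ℝ) 2 ∧ S.Good 0 H} = Icc (0:ℝ) 2 ∩
          ⋂ j ∈ Finset.range 1, {H | |S.zz j H| ≤ 1.81e-4 ∧ |S.Lam j H| ≤ 0.04} := by
        ext H
        simp [Good]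
      rw [this]
      refine isClosed_Icc.inter (isClosed_biInter (fun j _ => ?_))
      exact (isClosed_le (S.continuous_zz j).abs continuous_const).inter
        (isClosed_le (S.continuous_Lam j).abs continuous_const)
    · intro m
      have : {H | H ∈ Icc (0:ℝ) 2 ∧ S.Good m H} = Icc (0:ℝ) 2 ∩
          ⋂ j ∈ {j | j ≤ m}, {H | |S.zz j H| ≤ 1.81e-4 ∧ |S.Lam j H| ≤ 0.04} := by
        ext H
        simp [Good]
      rw [this]
      refine isClosed_Icc.inter (isClosed_biInter (fun j _ => ?_))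
      exact (isClosed_le (S.continuous_zz j).abs continuous_const).inter
        (isClosed_le (S.continuous_Lam j).abs continuous_const)
  obtain ⟨H, hH⟩ := hne
  rw [mem_iInter] at hH
  refine ⟨H, fun m => ?_⟩
  have h1 := (hH m).2 m le_rfl
  have h2 := abs_le.1 h1.1
  have h3 := abs_le.1 h1.2
  have hT : S.TT m H = S.zz m H + 0.01 * S.Lam m H := by unfold zz; ring
  have he := exp_bd h1.2
  have hw := ww_pos m
  refine ⟨?_, ?_, ?_⟩
  · rw [hT, abs_le]; constructor <;> linarith [h2.1, h2.2, h3.1, h3.2]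
  · rw [S.xi_eq]; nlinarith [he.1]
  · rw [S.xi_eq]; nlinarith [he.2]

end Sys

end Pool.Agent.H47

/-! ### Left -/

namespace Pool.Agent.H47

open Real Set Filter Topology

lemma sup_bound (a b ρ : ℕ → ℝ) (ha : ∀ j, 0 ≤ a j) (hb : ∀ j, 0 ≤ b j)
    (ha1 : ∀ j, a j ≤ 1) (hb1 : ∀ j, b j ≤ 1) (hρ : ∀ j, 0 ≤ ρ j)
    (ha0 : a 0 = 0)
    (h1 : ∀ j, a (j+1) ≤ 0.05 * a j + 1e-13 * (ρ j + b j))
    (h2 : ∀ j, b j ≤ 0.05 * b (j+1) + 1e-14 * (ρ j + a j))
    (h3 : ∀ j, ρ (j+1) ≤ 1.002 * ρ j) (h4 : ∀ j, 0.998 * ρ j ≤ ρ (j+1)) (j : ℕ) :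
    a j ≤ 1.2e-13 * ρ j ∧ b j ≤ 1.2e-13 * ρ j := by
  have key : ∀ δ : ℝ, 0 < δ → ∀ j, a j ≤ 1.2e-13 * (ρ j + δ) ∧ b j ≤ 1.2e-13 * (ρ j + δ) := by
    intro δ hδ
    have hW : ∀ j, 0 < ρ j + δ := fun j => by linarith [hρ j]
    set f : ℕ → ℝ := fun j => max (a j) (b j) / (ρ j + δ) with hf
    have hbdd : BddAbove (Set.range f) := by
      refine ⟨1/δ, ?_⟩
      rintro _ ⟨j, rfl⟩
      simp only [hf]
      have : max (a j) (b j) ≤ 1 := max_le (ha1 j) (hb1 j)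
      gcongr
      linarith [hρ j]
    obtain ⟨M, hM⟩ : ∃ M, M = ⨆ j, f j := ⟨_, rfl⟩
    have hfa : ∀ j, a j ≤ M * (ρ j + δ) := by
      intro j
      have h := le_ciSup hbdd j
      rw [← hM] at h
      simp only [hf] at h
      rw [div_le_iff₀ (hW j)] at h
      exact (le_max_left _ _).trans h
    have hfb : ∀ j, b j ≤ M * (ρ j + δ) := by
      intro j
      have h := le_ciSup hbdd j
      rw [← hM] at h
      simp only [hf] at h
      rw [div_le_iff₀ (hW j)] at h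
      exact (le_max_right _ _).trans h
    have hM0 : 0 ≤ M := by
      have h := le_ciSup hbdd 0
      rw [← hM] at h
      have : 0 ≤ f 0 := by
        simp only [hf]
        exact div_nonneg (le_max_of_le_left (ha 0)) (hW 0).le
      linarith
    have hMle' : ∀ j, f j ≤ 0.06 * M + 1.1e-13 := by
      intro j
      simp only [hf]
      rw [div_le_iff₀ (hW j)]
      apply max_le
      · rcases j with _ | j
        · rw [ha0]; have := hW 0; positivity
        · have i1 := h1 j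
          have i2 := hfa j
          have i3 := hfb j
          have i4 := h4 j
          have i5 : ρ j + δ ≤ 1.003 * (ρ (j+1) + δ) := by linarith [hρ j]
          have i6 : M * (ρ j + δ) ≤ M * (1.003 * (ρ (j+1) + δ)) :=
            mul_le_mul_of_nonneg_left i5 hM0
          have i7 := mul_nonneg hM0 (hW (j+1)).le
          have i8 := hW (j+1)
          linarith
      · have i1 := h2 j
        have i2 := hfa j
        have i3 := hfb (j+1)
        have i4 := h3 j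
        have i5 : ρ (j+1) + δ ≤ 1.002 * (ρ j + δ) := by linarith [hρ j]
        have i6 : M * (ρ (j+1) + δ) ≤ M * (1.002 * (ρ j + δ)) :=
            mul_le_mul_of_nonneg_left i5 hM0
        have i7 := mul_nonneg hM0 (hW j).le
        have i8 := hW j
        linarith
    have hMle : M ≤ 0.06 * M + 1.1e-13 := by
      rw [hM] at hMle' ⊢
      exact ciSup_le hMle'
    have hMb : M ≤ 1.2e-13 := by linarith
    intro j
    have := hfa j
    have := hfb j
    have := mul_le_mul_of_nonneg_right hMb (hW j).le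
    constructor <;> linarith
  constructor
  · apply le_of_forall_pos_le_add
    intro δ hδ
    have := (key δ hδ j).1
    linarith
  · apply le_of_forall_pos_le_add
    intro δ hδ
    have := (key δ hδ j).2
    linarith

lemma not_summable_ww : ¬ Summable ww := by
  intro h
  have h1 : Summable (fun n : ℕ => 1 / ((n:ℝ))) := by
    rw [← summable_nat_add_iff (10^12)]
    refine h.congr (fun n => ?_)
    unfold ww
    push_cast
    norm_num
  exact Real.not_summable_one_div_natCast h1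

namespace Sys

variable {S : Sys}

/-- forward invariance of the trap -/
lemma trap_step (p : E3) (h1 : -(1/2) ≤ p.2.1) (h2 : p.2.1 ≤ -(1/12)) :
    -(1/2) ≤ (S.F p).2.1 ∧ (S.F p).2.1 ≤ -(1/12) := by
  rw [S.ht]
  have hP := abs_le.1 (S.t1.bd p)
  have hv := abs_le.1 (abs_vv_le p.2.1)
  have hc := abs_le.1 (abs_cc_le (p.1 + p.2.2))
  constructor
  · rcases le_or_gt (-(1/2) + 1e-3) p.2.1 with h | h
    · linarith
    · have h3 := vv_lip p.2.1 (-(1/2))
      rw [vv_at2, abs_le, abs_of_nonneg (by linarith : 0 ≤ p.2.1 - -(1/2))] at h3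
      linarith [h3.1]
  · rcases le_or_gt p.2.1 (-(1/12) - 1e-3) with h | h
    · linarith
    · have h3 := vv_lip p.2.1 (-(1/12))
      have h4 := vv_at
      rw [abs_le, abs_of_nonpos (by linarith : p.2.1 - -(1/12) ≤ 0)] at h3
      linarith [h3.2]

lemma trap_iter (p : E3) (h1 : -(1/2) ≤ p.2.1) (h2 : p.2.1 ≤ -(1/12)) (n : ℕ) :
    -(1/2) ≤ (S.F^[n] p).2.1 ∧ (S.F^[n] p).2.1 ≤ -(1/12) := by
  induction n with
  | zero => exact ⟨h1, h2⟩
  | succ n ih => rw [Function.iterate_succ_apply']; exact trap_step _ ih.1 ih.2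

/-- if an orbit starting above `-1/12` goes below, then it is trapped -/
lemma trapped_of_exists (p : E3) (h0 : -(1/12) ≤ p.2.1) (h : ∃ m, (S.F^[m] p).2.1 < -(1/12)) :
    ∃ M, ∀ m ≥ M, -(1/2) ≤ (S.F^[m] p).2.1 ∧ (S.F^[m] p).2.1 ≤ -(1/12) := by
  classical
  let m := Nat.find h
  have hm := Nat.find_spec h
  have hmin : ∀ k < m, -(1/12) ≤ (S.F^[k] p).2.1 := by
    intro k hk
    have := Nat.find_min h hk
    exact le_of_not_gt this
  have hm0 : m ≠ 0 := by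
    intro h'
    have hm' : (S.F^[m] p).2.1 < -(1/12) := hm
    rw [h'] at hm'
    simp at hm'
    linarith
  obtain ⟨k, hk⟩ := Nat.exists_eq_succ_of_ne_zero hm0
  have hkm := hmin k (by omega)
  have hlow : -(1/2) ≤ (S.F^[m] p).2.1 := by
    rw [hk, Nat.succ_eq_add_one, Function.iterate_succ_apply', S.ht]
    have hP := abs_le.1 (S.t1.bd (S.F^[k] p))
    have hv := abs_le.1 (abs_vv_le (S.F^[k] p).2.1)
    have hc := abs_le.1 (abs_cc_le ((S.F^[k] p).1 + (S.F^[k] p).2.2))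
    linarith
  refine ⟨m, fun n hn => ?_⟩
  obtain ⟨l, rfl⟩ := Nat.exists_eq_add_of_le hn
  rw [add_comm m l, Function.iterate_add_apply]
  exact trap_iter _ hlow hm.le l

/-- the left points are repelled until they are trapped -/
theorem left_escapes (hP : S.C2) {H : ℝ} (hT : ∀ m, |S.TT m H| ≤ 6e-4)
    (hx1 : ∀ m, 0.9 * ww m ≤ S.xi m H) (hx2 : ∀ m, S.xi m H ≤ 1.1 * ww m)
    {η : ℝ} (hη : 0 < η) : ∃ m, (S.F^[m] (S.pt 0 (-η) H)).2.1 < -(1/12) := by
  by_contra hcon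
  push Not at hcon
  set y : ℕ → E3 := fun m => S.F^[m] (S.pt 0 (-η) H) with hy
  have hys : ∀ m, y (m+1) = S.F (y m) := fun m => by
    simp only [hy]; rw [Function.iterate_succ_apply']
  have hcp1 : ∀ m, S.CP (y m) (S.Xm m H) := by
    intro m
    refine CP.iter (p := S.pt 0 (-η) H) (q := S.X H) ⟨?_, ?_, ?_⟩ m
    · unfold X; rw [S.h_pt, S.h_pt]
    · unfold X; simp only [pt_snd]; linarith
    · unfold X; simp only [pt_snd, pt_fst, sub_self, abs_zero]; linarith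
  have hcp2 : ∀ m, S.CP (S.Xm m H) (S.Zm m H) := fun m => S.CP_XZm m H
  set et : ℕ → ℝ := fun m => (S.Xm m H).2.1 - (y m).2.1 with het
  have het0 : ∀ m, 0 < et m := fun m => by have := (hcp1 m).lt; simp only [het]; linarith
  have hxi0 : ∀ m, 0 < S.xi m H := fun m => S.xi_pos m H
  have hets : ∀ m, et (m+1) = S.gg (y m) (S.Xm m H) * et m := by
    intro m
    have := (hcp1 m).gg_mul
    simp only [het]
    rw [hys, S.Xm_succ]
    exact this
  set ρ : ℕ → ℝ := fun m => et m + S.xi m H with hρ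
  have hg1 : ∀ m, 0.998 ≤ S.gg (y m) (S.Xm m H) ∧ S.gg (y m) (S.Xm m H) ≤ 1.002 := by
    intro m
    have := abs_le.1 (hcp1 m).gg_bd
    constructor <;> linarith [this.1, this.2]
  have hg2 : ∀ m, 0.998 ≤ S.gg (S.Xm m H) (S.Zm m H) ∧ S.gg (S.Xm m H) (S.Zm m H) ≤ 1.002 := by
    intro m
    have := abs_le.1 (hcp2 m).gg_bd
    constructor <;> linarith [this.1, this.2]
  have hn1 : ∀ m, Near (y m) (S.Xm m H) (ρ m) := by
    intro m
    have h1 := (hcp1 m).cone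
    have h2 := (hcp1 m).flat
    have h3 := het0 m
    have h4 := hxi0 m
    simp only [het] at h3
    refine ⟨?_, ?_, ?_⟩
    · simp only [hρ, het]; linarith
    · rw [abs_of_pos h3]; simp only [hρ, het]; linarith
    · simp only [hρ, het]; linarith
  have hn2 : ∀ m, Near (S.Xm m H) (S.Zm m H) (ρ m) := by
    intro m
    have h1 := (hcp2 m).cone
    have h2 := (hcp2 m).flat
    have h3 := het0 m
    have h4 := hxi0 m
    unfold xi at h4
    refine ⟨?_, ?_, ?_⟩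
    · simp only [hρ, xi]; linarith
    · rw [abs_of_pos h4]; simp only [hρ, xi]; linarith
    · simp only [hρ, xi]; linarith
  set a : ℕ → ℝ := fun m => |sg (y m) (S.Xm m H) - sg (S.Xm m H) (S.Zm m H)| with ha
  set b : ℕ → ℝ := fun m => |el (y m) (S.Xm m H) - el (S.Xm m H) (S.Zm m H)| with hb
  have hab := sup_bound a b ρ (fun j => abs_nonneg _) (fun j => abs_nonneg _)
    (fun j => by
      have h1 := (hcp1 j).sg_bd
      have h2 := (hcp2 j).sg_bd
      refine (abs_sub _ _).trans ?_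
      linarith)
    (fun j => by
      have h1 := (hcp1 j).el_bd
      have h2 := (hcp2 j).el_bd
      refine (abs_sub _ _).trans ?_
      linarith)
    (fun j => (hn1 j).nonneg)
    (by
      simp only [ha, hy, Xm, Zm, Function.iterate_zero, id_eq, sg, X, Z, pt_fst]
      simp)
    (fun j => by
      have := four_sg (hcp1 j) (hcp2 j) (hn1 j) (hn2 j) hP.t hP.s
      simp only [ha, hb]
      rw [S.Xm_succ, S.Zm_succ, hys]
      exact this)
    (fun j => by
      have := four_el (hcp1 j) (hcp2 j) (hn1 j) (hn2 j) hP.t hP.u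
      simp only [ha, hb]
      rw [S.Xm_succ, S.Zm_succ, hys]
      exact this)
    (fun j => by
      simp only [hρ]
      rw [hets, S.xi_succ]
      have := mul_le_mul_of_nonneg_right (hg1 j).2 (het0 j).le
      have := mul_le_mul_of_nonneg_right (hg2 j).2 (hxi0 j).le
      linarith)
    (fun j => by
      simp only [hρ]
      rw [hets, S.xi_succ]
      have := mul_le_mul_of_nonneg_right (hg1 j).1 (het0 j).le
      have := mul_le_mul_of_nonneg_right (hg2 j).1 (hxi0 j).le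
      linarith)
  -- the gap of expansion rates
  have hgap : ∀ m, 1.9e-3 * ρ m ≤ S.gg (y m) (S.Xm m H) - S.gg (S.Xm m H) (S.Zm m H) := by
    intro m
    have h1 := four_RR (hcp1 m) (hcp2 m) (hn1 m) (hn2 m) hP.t
    have h2 := (hab m).1
    have h3 := (hab m).2
    simp only [ha, hb] at h2 h3
    rw [(hcp1 m).gg_eq, (hcp2 m).gg_eq]
    have hTm := abs_le.1 (hT m)
    unfold TT at hTm
    have hxm : S.xi m H ≤ 1e-3 := by
      have := hx2 m
      have := ww_le m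
      linarith
    have h4 := vv_concave_slope (a := (y m).2.1) (b := (S.Xm m H).2.1) (c := (S.Zm m H).2.1)
      (hcon m) (hcp1 m).lt (hcp2 m).lt (by unfold xi at hxm; linarith)
    have e : (S.Zm m H).2.1 - (y m).2.1 = ρ m := by simp only [hρ, het, xi]; ring
    rw [e] at h4
    unfold vq
    have h5 := (abs_le.1 h1).1
    have h6 := (hn1 m).nonneg
    linarith
  -- the ratio
  have hstep : ∀ m, S.xi (m+1) H / et (m+1) ≤ S.xi m H / et m - 1e-3 * S.xi m H := by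
    intro m
    have h1 := hgap m
    have h2 := het0 m
    have h3 := hxi0 m
    have h4 := hg1 m
    have h5 := het0 (m+1)
    rw [div_le_iff₀ h5, hets, S.xi_succ]
    set g1 := S.gg (y m) (S.Xm m H)
    set g2 := S.gg (S.Xm m H) (S.Zm m H)
    have e : (S.xi m H / et m - 1e-3 * S.xi m H) * (g1 * et m) =
      g1 * S.xi m H - 1e-3 * g1 * (S.xi m H * et m) := by field_simp
    rw [e]
    have h6 : et m ≤ ρ m := by simp only [hρ]; linarith
    have h7 : g2 ≤ g1 - 1.9e-3 * et m := by linarith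
    have h8 : g2 * S.xi m H ≤ (g1 - 1.9e-3 * et m) * S.xi m H :=
      mul_le_mul_of_nonneg_right h7 h3.le
    have h9 : 1e-3 * g1 * (S.xi m H * et m) ≤ 1e-3 * 1.002 * (S.xi m H * et m) := by
      gcongr; exact h4.2
    have h10 : 0 < S.xi m H * et m := by positivity
    linarith
  have hsum : ∀ n, ∑ j ∈ Finset.range n, S.xi j H ≤ 1e3 * (S.xi 0 H / et 0) := by
    intro n
    have : ∑ j ∈ Finset.range n, S.xi j H ≤ 1e3 * (S.xi 0 H / et 0 - S.xi n H / et n) := by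
      induction n with
      | zero => simp
      | succ n ih =>
        rw [Finset.sum_range_succ]
        have := hstep n
        linarith
    have h2 : 0 < S.xi n H / et n := div_pos (hxi0 n) (het0 n)
    linarith
  have hsummable : Summable (fun j => S.xi j H) :=
    summable_of_sum_range_le (fun j => (hxi0 j).le) hsum
  apply not_summable_ww
  refine Summable.of_nonneg_of_le (fun j => (ww_pos j).le) (fun j => ?_)
    (hsummable.mul_left (1/0.9))
  have := hx1 j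
  linarith

/-- main consequence for the left points -/
theorem left_trapped (hP : S.C2) {H : ℝ} (hT : ∀ m, |S.TT m H| ≤ 6e-4)
    (hx1 : ∀ m, 0.9 * ww m ≤ S.xi m H) (hx2 : ∀ m, S.xi m H ≤ 1.1 * ww m)
    {η : ℝ} (hη : 0 < η) (hη' : η ≤ 1/12) :
    ∃ M, ∀ m ≥ M, -(1/2) ≤ (S.F^[m] (S.pt 0 (-η) H)).2.1 ∧
      (S.F^[m] (S.pt 0 (-η) H)).2.1 ≤ -(1/12) := by
  apply trapped_of_exists
  · simp only [pt_snd]; linarith
  · exact left_escapes hP hT hx1 hx2 hη

end Sys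

end Pool.Agent.H47

/-! ### Final -/

namespace Pool.Agent.H47

open Real Set Filter Topology

namespace Sys

/-- the linear part acting on lattice vectors -/
noncomputable def Lm (S : Sys) (γ : E3) : E3 := (S.lam⁻¹ * γ.1, γ.2.1, S.lam * γ.2.2)

/-- lattice of periods -/
structure Lat (S : Sys) (Γ : AddSubgroup E3) : Prop where
  per : ∀ γ ∈ Γ, ∀ p, S.F (p + γ) = S.F p + S.Lm γ
  map : ∀ γ ∈ Γ, S.Lm γ ∈ Γ
  countable : (Γ : Set E3).Countable
  discrete : ∃ δ > 0, ∀ γ ∈ Γ, ‖γ‖ < δ → γ = 0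
  tint : ∀ γ ∈ Γ, ∃ n : ℤ, γ.2.1 = n
  uzero : ∀ γ ∈ Γ, γ.2.2 = 0 → γ.1 = 0

/-- asymptotic modulo the lattice -/
def Asym (S : Sys) (Γ : AddSubgroup E3) (p x : E3) : Prop :=
  ∃ γ : ℕ → E3, (∀ m, γ m ∈ Γ) ∧ Tendsto (fun m => S.F^[m] p - S.F^[m] x - γ m) atTop (𝓝 0)

variable {S : Sys} {Γ : AddSubgroup E3}

lemma Lat.iter (hL : S.Lat Γ) {γ : E3} (hγ : γ ∈ Γ) (p : E3) (n : ℕ) :
    S.F^[n] (p + γ) = S.F^[n] p + S.Lm^[n] γ := by
  have hm : ∀ n, S.Lm^[n] γ ∈ Γ := by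
    intro n
    induction n with
    | zero => simpa using hγ
    | succ n ih => rw [Function.iterate_succ_apply']; exact hL.map _ ih
  induction n with
  | zero => simp
  | succ n ih =>
    rw [Function.iterate_succ_apply', Function.iterate_succ_apply', Function.iterate_succ_apply',
      ih, hL.per _ (hm n)]

lemma Lm_iter_u (γ : E3) (n : ℕ) : (S.Lm^[n] γ).2.2 = S.lam ^ n * γ.2.2 := by
  induction n with
  | zero => simp
  | succ n ih =>
    rw [Function.iterate_succ_apply']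
    simp only [Lm]
    rw [ih]; ring

lemma eq_zero_of_pow_bound {L d C : ℝ} (hL : 1 < L) (h : ∀ᶠ n : ℕ in atTop, L ^ n * |d| ≤ C) :
    d = 0 := by
  by_contra hd
  have hd' : 0 < |d| := abs_pos.2 hd
  have h1 : Tendsto (fun n : ℕ => L ^ n * |d|) atTop atTop :=
    (tendsto_pow_atTop_atTop_of_one_lt hL).atTop_mul_const hd'
  obtain ⟨n, hn1, hn2⟩ := (h.and (h1.eventually_gt_atTop C)).exists
  linarith

lemma Lat.h_add (hL : S.Lat Γ) {γ : E3} (hγ : γ ∈ Γ) (p : E3) :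
    S.h (p + γ) = S.h p + γ.2.2 := by
  have : S.h (p + γ) - S.h p - γ.2.2 = 0 := by
    apply eq_zero_of_pow_bound (L := S.lam) (C := 2e-14) (by linarith [S.hlam])
    refine Eventually.of_forall (fun n => ?_)
    have h1 := abs_le.1 (S.abs_h_sub (S.F^[n] (p + γ)))
    have h2 := abs_le.1 (S.abs_h_sub (S.F^[n] p))
    rw [S.h_iter] at h1 h2
    rw [hL.iter hγ] at h1
    have h3 := Lm_iter_u (S := S) γ n
    simp only [Prod.snd_add] at h1
    rw [h3] at h1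
    have hp : (0:ℝ) < S.lam ^ n := pow_pos S.lam_pos n
    rw [← abs_of_pos hp, ← abs_mul, abs_le]
    constructor <;> nlinarith [h1.1, h1.2, h2.1, h2.2]
  linarith

lemma lipF (S : Sys) : LipschitzWith 30 S.F := by
  apply LipschitzWith.of_dist_le_mul
  intro p q
  have hd : ∀ a b : E3, dist a b = max |b.1 - a.1| (max |b.2.1 - a.2.1| |b.2.2 - a.2.2|) := by
    intro a b
    rw [dist_comm, Prod.dist_eq, Prod.dist_eq, Real.dist_eq, Real.dist_eq, Real.dist_eq]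
  have d1 : |q.1 - p.1| ≤ dist p q := by rw [hd]; exact le_max_left _ _
  have d2 : |q.2.1 - p.2.1| ≤ dist p q := by
    rw [hd]; exact (le_max_left _ _).trans (le_max_right _ _)
  have d3 : |q.2.2 - p.2.2| ≤ dist p q := by
    rw [hd]; exact (le_max_right _ _).trans (le_max_right _ _)
  have h1 := S.dt_step p q
  have h2 := S.ds_step p q
  have h3 := S.du_step p q
  have h6 : |S.lam⁻¹ * (q.1 - p.1)| ≤ 0.0372 * |q.1 - p.1| := by
    rw [abs_mul, abs_of_pos S.lami_pos]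
    exact mul_le_mul_of_nonneg_right S.lami_lt.le (abs_nonneg _)
  have h7 : |S.lam * (q.2.2 - p.2.2)| ≤ 27 * |q.2.2 - p.2.2| := by
    rw [abs_mul, abs_of_pos S.lam_pos]
    exact mul_le_mul_of_nonneg_right S.hlam'.le (abs_nonneg _)
  have h8 : |(q.1 - p.1) + (q.2.2 - p.2.2)| ≤ |q.1 - p.1| + |q.2.2 - p.2.2| := abs_add_le _ _
  have k1 : |(S.F q).1 - (S.F p).1| ≤ |S.lam⁻¹ * (q.1 - p.1)| +
      |((S.F q).1 - (S.F p).1) - S.lam⁻¹ * (q.1 - p.1)| := by
    have := abs_add_le (S.lam⁻¹ * (q.1 - p.1)) (((S.F q).1 - (S.F p).1) - S.lam⁻¹ * (q.1 - p.1))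
    simpa using this
  have k2 : |(S.F q).2.1 - (S.F p).2.1| ≤ |q.2.1 - p.2.1| +
      |((S.F q).2.1 - (S.F p).2.1) - (q.2.1 - p.2.1)| := by
    have := abs_add_le (q.2.1 - p.2.1) (((S.F q).2.1 - (S.F p).2.1) - (q.2.1 - p.2.1))
    simpa using this
  have k3 : |(S.F q).2.2 - (S.F p).2.2| ≤ |S.lam * (q.2.2 - p.2.2)| +
      |((S.F q).2.2 - (S.F p).2.2) - S.lam * (q.2.2 - p.2.2)| := by
    have := abs_add_le (S.lam * (q.2.2 - p.2.2))
      (((S.F q).2.2 - (S.F p).2.2) - S.lam * (q.2.2 - p.2.2))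
    simpa using this
  have h9 : dd p q ≤ 3 * dist p q := by unfold dd; linarith
  have h0 : 0 ≤ dist p q := dist_nonneg
  rw [hd (S.F p)]
  push_cast
  refine max_le ?_ (max_le ?_ ?_) <;> linarith

lemma Lat.asym_h (hL : S.Lat Γ) {p x : E3} (h : S.Asym Γ p x) :
    ∃ (M : ℕ) (γ : E3), γ ∈ Γ ∧ S.h p = S.h x + S.lam⁻¹ ^ M * γ.2.2 := by
  obtain ⟨γ, hγ, ht⟩ := h
  obtain ⟨δ, hδ, hdis⟩ := hL.discrete
  -- eventually the lattice vectors satisfy the recursion
  have hrec : ∀ᶠ m in atTop, γ (m+1) = S.Lm (γ m) := by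
    have t1 : Tendsto (fun m => S.F^[m+1] p - S.F^[m+1] x - γ (m+1)) atTop (𝓝 0) :=
      ht.comp (tendsto_add_atTop_nat 1)
    have t2 : Tendsto (fun m => S.F (S.F^[m] p) - S.F (S.F^[m] x + γ m)) atTop (𝓝 0) := by
      rw [tendsto_zero_iff_norm_tendsto_zero]
      have t3 : Tendsto (fun m => 30 * ‖S.F^[m] p - S.F^[m] x - γ m‖) atTop (𝓝 0) := by
        have := (tendsto_zero_iff_norm_tendsto_zero.1 ht).const_mul 30
        simpa using this
      refine squeeze_zero (fun m => norm_nonneg _) (fun m => ?_) t3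
      have := S.lipF.dist_le_mul (S.F^[m] p) (S.F^[m] x + γ m)
      rw [dist_eq_norm, dist_eq_norm] at this
      rw [sub_sub]
      exact_mod_cast this
    have t4 : Tendsto (fun m => γ (m+1) - S.Lm (γ m)) atTop (𝓝 0) := by
      have := t2.sub t1
      rw [sub_zero] at this
      refine this.congr (fun m => ?_)
      rw [Function.iterate_succ_apply', Function.iterate_succ_apply', hL.per _ (hγ m)]
      abel
    have t5 := (tendsto_zero_iff_norm_tendsto_zero.1 t4).eventually (gt_mem_nhds hδ)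
    filter_upwards [t5] with m hm
    have := hdis _ (Γ.sub_mem (hγ (m+1)) (hL.map _ (hγ m))) hm
    exact sub_eq_zero.1 this
  obtain ⟨M, hM⟩ := eventually_atTop.1 hrec
  refine ⟨M, γ M, hγ M, ?_⟩
  have hiter : ∀ k, γ (M + k) = S.Lm^[k] (γ M) := by
    intro k
    induction k with
    | zero => simp
    | succ k ih =>
      rw [Function.iterate_succ_apply', ← ih, ← hM (M+k) (by omega)]; rfl
  have hz : S.h p - S.h x - S.lam⁻¹ ^ M * (γ M).2.2 = 0 := by
    apply eq_zero_of_pow_bound (L := S.lam) (C := 2) (by linarith [S.hlam])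
    have t5 := (tendsto_zero_iff_norm_tendsto_zero.1 ht).eventually (gt_mem_nhds one_pos)
    filter_upwards [t5, eventually_ge_atTop M] with m hm hmM
    obtain ⟨k, rfl⟩ := Nat.exists_eq_add_of_le hmM
    have hu : |(S.F^[M+k] p).2.2 - (S.F^[M+k] x).2.2 - (γ (M+k)).2.2| < 1 := by
      refine lt_of_le_of_lt ?_ hm
      have := norm_snd_le (S.F^[M+k] p - S.F^[M+k] x - γ (M+k))
      refine le_trans ?_ this
      exact norm_snd_le (S.F^[M+k] p - S.F^[M+k] x - γ (M+k)).2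
    rw [hiter, Lm_iter_u, abs_lt] at hu
    have h1 := abs_le.1 (S.abs_h_sub (S.F^[M+k] p))
    have h2 := abs_le.1 (S.abs_h_sub (S.F^[M+k] x))
    rw [S.h_iter] at h1 h2
    have hp : (0:ℝ) < S.lam ^ (M+k) := pow_pos S.lam_pos _
    have e : S.lam ^ (M+k) * (S.lam⁻¹ ^ M * (γ M).2.2) = S.lam ^ k * (γ M).2.2 := by
      rw [pow_add, inv_pow]
      have := (pow_pos S.lam_pos M).ne'
      field_simp
    rw [← abs_of_pos hp, ← abs_mul, abs_le, mul_sub, mul_sub, e]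
    constructor <;> linarith [h1.1, h1.2, h2.1, h2.2, hu.1, hu.2]
  linarith

/-- The final contradiction. -/
theorem no_cell (hL : S.Lat Γ) (s₀ t₀ H : ℝ) (O : Set (ℝ × ℝ)) (hO : IsOpen O)
    (hOne : O.Nonempty) (hright : ∀ q ∈ O, S.Asym Γ (S.pt q.1 q.2 H) (S.pt s₀ t₀ H))
    (hleft : ∀ δ > 0, ∃ q : ℝ × ℝ, dist q (s₀, t₀) < δ ∧
      ¬ S.Asym Γ (S.pt q.1 q.2 H) (S.pt s₀ t₀ H))
    (k : ℕ) (Φ : (Fin k → ℝ) → E3) (hΦ : ContDiff ℝ 1 Φ)
    (himm : ∀ w, Function.Injective (fderiv ℝ Φ w))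
    (hrange : ∀ p : E3, (∃ w, ∃ γ ∈ Γ, Φ w = p + γ) ↔ S.Asym Γ p (S.pt s₀ t₀ H)) : False := by
  set x := S.pt s₀ t₀ H with hx
  have hAx : S.Asym Γ x x := ⟨fun _ => 0, fun _ => Γ.zero_mem, by simp⟩
  obtain ⟨w₀, γ₀, hγ₀, hw₀⟩ := (hrange x).2 hAx
  -- the leaf label is constant along Φ
  have hconst : ∀ w, S.h (Φ w) = S.h (Φ w₀) := by
    have hcount : (range (fun w => S.h (Φ w))).Countable := by
      have : range (fun w => S.h (Φ w)) ⊆
          (fun q : ℕ × E3 => S.h x + S.lam⁻¹ ^ q.1 * q.2.2.2) '' (univ ×ˢ (Γ : Set E3)) := by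
        rintro _ ⟨w, rfl⟩
        obtain ⟨M, γ, hγ, he⟩ := hL.asym_h ((hrange (Φ w)).1 ⟨w, 0, Γ.zero_mem, by simp⟩)
        exact ⟨(M, γ), ⟨mem_univ _, hγ⟩, he.symm⟩
      exact ((countable_univ.prod hL.countable).image _).mono this
    have hpre : IsPreconnected (range (fun w => S.h (Φ w))) :=
      isPreconnected_range (S.continuous_h.comp hΦ.continuous)
    intro w
    exact hcount.isTotallyDisconnected _ le_rfl hpre ⟨w, rfl⟩ ⟨w₀, rfl⟩
  set Ψ : (Fin k → ℝ) → E3 := fun w => Φ w - γ₀ with hΨ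
  have hΨh : ∀ w, S.h (Ψ w) = H := by
    intro w
    have h1 : S.h (Ψ w) = S.h (Φ w) + (-γ₀).2.2 := by
      simp only [hΨ, sub_eq_add_neg]
      exact hL.h_add (Γ.neg_mem hγ₀) _
    have h2 : S.h (Φ w₀) = S.h x + γ₀.2.2 := by
      rw [hw₀]; exact hL.h_add hγ₀ _
    have h3 : S.h x = H := S.h_pt _ _ _
    rw [h1, hconst w, h2, h3]
    simp
  have hΨc : ContDiff ℝ 1 Ψ := hΦ.sub contDiff_const
  set G : (Fin k → ℝ) → ℝ × ℝ := fun w => ((Ψ w).1, (Ψ w).2.1) with hG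
  have hGc : ContDiff ℝ 1 G := by
    have h1 : ContDiff ℝ 1 (fun w => (Ψ w).1) := hΨc.fst
    have h2 : ContDiff ℝ 1 (fun w => (Ψ w).2.1) := hΨc.snd.fst
    exact h1.prodMk h2
  have hΨpt : ∀ w, Ψ w = S.pt (G w).1 (G w).2 H := by
    intro w
    conv_lhs => rw [S.eq_pt (Ψ w), hΨh w]
  have hΨd : ∀ w, HasFDerivAt Ψ (fderiv ℝ Φ w) w := by
    intro w
    have := ((hΦ.differentiable one_ne_zero) w).hasFDerivAt
    exact this.sub_const γ₀
  have hGd : ∀ w, HasFDerivAt G (((ContinuousLinearMap.fst ℝ ℝ (ℝ × ℝ)).comp (fderiv ℝ Φ w)).prod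
      (((ContinuousLinearMap.fst ℝ ℝ ℝ).comp (ContinuousLinearMap.snd ℝ ℝ (ℝ × ℝ))).comp
        (fderiv ℝ Φ w))) w := by
    intro w
    have h1 := (hΨd w)
    exact ((ContinuousLinearMap.fst ℝ ℝ (ℝ × ℝ)).hasFDerivAt.comp w h1).prodMk
      (((ContinuousLinearMap.fst ℝ ℝ ℝ).comp
        (ContinuousLinearMap.snd ℝ ℝ (ℝ × ℝ))).hasFDerivAt.comp w h1)
  -- injectivity of the derivative of the projection
  have hcone : ∀ w e, |(fderiv ℝ Φ w e).2.2| ≤
      1e-14 * (|(fderiv ℝ Φ w e).1| + |(fderiv ℝ Φ w e).2.1|) := by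
    intro w e
    have hlim := (hΨd w).lim_real e
    have hc1 : Tendsto (fun c : ℝ => |(c • (Ψ (w + c⁻¹ • e) - Ψ w)).2.2|) atTop
        (𝓝 |(fderiv ℝ Φ w e).2.2|) :=
      ((continuous_snd.comp continuous_snd).abs.tendsto _).comp hlim
    have hc2 : Tendsto (fun c : ℝ => 1e-14 * (|(c • (Ψ (w + c⁻¹ • e) - Ψ w)).1| +
        |(c • (Ψ (w + c⁻¹ • e) - Ψ w)).2.1|)) atTop
        (𝓝 (1e-14 * (|(fderiv ℝ Φ w e).1| + |(fderiv ℝ Φ w e).2.1|))) := by
      have hcont : Continuous (fun q : E3 => 1e-14 * (|q.1| + |q.2.1|)) := by fun_prop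
      exact (hcont.tendsto _).comp hlim
    refine le_of_tendsto_of_tendsto hc1 hc2 (Eventually.of_forall (fun c => ?_))
    have hfl := S.flat_of_leaf (p := Ψ w) (q := Ψ (w + c⁻¹ • e)) (by rw [hΨh, hΨh])
    simp only [Prod.smul_snd, Prod.smul_fst, Prod.fst_sub, Prod.snd_sub, smul_eq_mul, abs_mul]
    have := mul_le_mul_of_nonneg_left hfl (abs_nonneg c)
    linarith
  have hinj : ∀ w, Function.Injective (fderiv ℝ G w) := by
    intro w
    rw [(hGd w).fderiv]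
    rw [injective_iff_map_eq_zero]
    intro e he
    have h1 : (fderiv ℝ Φ w e).1 = 0 := congrArg Prod.fst he
    have h2 : (fderiv ℝ Φ w e).2.1 = 0 := congrArg Prod.snd he
    have h3 := hcone w e
    rw [h1, h2] at h3
    simp only [abs_zero, add_zero, mul_zero] at h3
    have h4 : (fderiv ℝ Φ w e).2.2 = 0 := abs_nonpos_iff.1 h3
    have h5 : fderiv ℝ Φ w e = 0 := by
      ext
      · exact h1
      · exact h2
      · exact h4
    exact (injective_iff_map_eq_zero _).1 (himm w) e h5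
  have hk2 : k ≤ 2 := by
    have := LinearMap.finrank_le_finrank_of_injective (f := (fderiv ℝ G w₀).toLinearMap) (hinj w₀)
    simpa using this
  -- Hausdorff dimension
  have hcover : O ⊆ ⋃ l : ℤ, range (fun w => G w - (0, (l:ℝ))) := by
    intro q hq
    obtain ⟨w, γ, hγ, hw⟩ := (hrange _).2 (hright q hq)
    have h1 : Ψ w = S.pt q.1 q.2 H + (γ - γ₀) := by simp only [hΨ, hw]; abel
    have hmem : γ - γ₀ ∈ Γ := Γ.sub_mem hγ hγ₀
    have h2 : S.h (Ψ w) = H + (γ - γ₀).2.2 := by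
      rw [h1, hL.h_add hmem, S.h_pt]
    rw [hΨh w] at h2
    have h3 : (γ - γ₀).2.2 = 0 := by linarith
    have h4 := hL.uzero _ hmem h3
    obtain ⟨l, hl⟩ := hL.tint _ hmem
    refine mem_iUnion.2 ⟨l, w, ?_⟩
    simp only [hG]
    rw [h1]
    ext
    · simp only [Prod.fst_sub, Prod.fst_add, pt_fst, sub_zero] at h4 ⊢
      rw [h4]; ring
    · simp only [Prod.snd_sub, Prod.snd_add, Prod.fst_add, pt_snd] at hl ⊢
      rw [hl]; ring
  have hdim : (2 : ENNReal) ≤ k := by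
    have h1 : dimH O = 2 := by
      have := Real.dimH_of_nonempty_interior (s := O) (by rw [hO.interior_eq]; exact hOne)
      rw [this]
      simp
    have h2 : dimH (⋃ l : ℤ, range (fun w => G w - (0, (l:ℝ)))) ≤ k := by
      rw [dimH_iUnion]
      apply iSup_le
      intro l
      have hc : ContDiff ℝ 1 (fun w => G w - (0, (l:ℝ))) := hGc.sub contDiff_const
      have := hc.dimH_range_le
      simpa using this
    rw [← h1]
    exact (dimH_mono hcover).trans h2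
  have hk2' : 2 ≤ k := by exact_mod_cast hdim
  have hk : k = 2 := le_antisymm hk2 hk2'
  -- openness of G at w₀
  have hsurj : Function.Surjective (fderiv ℝ G w₀) := by
    have := (LinearMap.injective_iff_surjective_of_finrank_eq_finrank
      (f := (fderiv ℝ G w₀).toLinearMap) (by simp [hk])).1 (hinj w₀)
    exact this
  have hstrict : HasStrictFDerivAt G (fderiv ℝ G w₀) w₀ :=
    hGc.contDiffAt.hasStrictFDerivAt one_ne_zero
  have hmap := hstrict.map_nhds_eq_of_surj (LinearMap.range_eq_top.2 hsurj)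
  have hG0 : G w₀ = (s₀, t₀) := by
    have : Ψ w₀ = x := by simp only [hΨ, hw₀]; abel
    simp only [hG, this]; rfl
  have hrangeG : range G ∈ 𝓝 (s₀, t₀) := by
    rw [← hG0, ← hmap]
    exact Filter.mem_map.2 (by simp)
  obtain ⟨δ, hδ, hball⟩ := Metric.mem_nhds_iff.1 hrangeG
  obtain ⟨q, hq1, hq2⟩ := hleft δ hδ
  obtain ⟨w, hw⟩ := hball hq1
  apply hq2
  rw [← hrange]
  refine ⟨w, γ₀, hγ₀, ?_⟩
  have := hΨpt w
  rw [hw] at this
  rw [← this]
  simp [hΨ]

/-- trapped points are not asymptotic to the centre orbit -/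
lemma not_asym_of_trapped (hL : S.Lat Γ) {y x : E3} {c : ℝ} (hc : c ≤ 1e-2)
    (hx : ∀ m, |(S.F^[m] x).2.1| ≤ c)
    (hy : ∃ M, ∀ m ≥ M, -(1/2) ≤ (S.F^[m] y).2.1 ∧ (S.F^[m] y).2.1 ≤ -(1/12)) :
    ¬ S.Asym Γ y x := by
  rintro ⟨γ, hγ, ht⟩
  obtain ⟨M, hM⟩ := hy
  have t5 := (tendsto_zero_iff_norm_tendsto_zero.1 ht).eventually
    (gt_mem_nhds (by norm_num : (0:ℝ) < 1e-2))
  obtain ⟨m, hm, hmM⟩ := (t5.and (eventually_ge_atTop M)).exists
  have hu : |(S.F^[m] y).2.1 - (S.F^[m] x).2.1 - (γ m).2.1| < 1e-2 := by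
    refine lt_of_le_of_lt ?_ hm
    have := norm_snd_le (S.F^[m] y - S.F^[m] x - γ m)
    refine le_trans ?_ this
    exact norm_fst_le (S.F^[m] y - S.F^[m] x - γ m).2
  obtain ⟨l, hl⟩ := hL.tint _ (hγ m)
  rw [hl, abs_lt] at hu
  have h1 := hM m hmM
  have h2 := abs_le.1 (hx m)
  have h3 : (l:ℝ) < 0 := by linarith [hu.1, hu.2, h1.1, h1.2, h2.1, h2.2]
  have h4 : (-1:ℝ) < l := by linarith [hu.1, hu.2, h1.1, h1.2, h2.1, h2.2]
  have h5 : l < 0 := by exact_mod_cast h3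
  have h6 : -1 < l := by exact_mod_cast h4
  omega

/-- the strip between x and z is asymptotic to x -/
lemma right_asym {H : ℝ} (hx2 : ∀ m, S.xi m H ≤ 1.1 * ww m) {s t : ℝ} (h1 : 0 < t)
    (h2 : t < 1e-12) (h3 : |s| < 2e-14 * t) (h4 : |s| < 2e-14 * (1e-12 - t)) :
    S.Asym Γ (S.pt s t H) (S.pt 0 0 H) := by
  refine ⟨fun _ => 0, fun _ => Γ.zero_mem, ?_⟩
  have hc1 : S.CP (S.X H) (S.pt s t H) := by
    refine ⟨?_, ?_, ?_⟩
    · unfold X; rw [S.h_pt, S.h_pt]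
    · unfold X; simpa using h1
    · unfold X; simp only [pt_snd, pt_fst, sub_zero]; exact h3.le
  have hc2 : S.CP (S.pt s t H) (S.Z H) := by
    refine ⟨?_, ?_, ?_⟩
    · unfold Z; rw [S.h_pt, S.h_pt]
    · unfold Z; simpa using h2
    · unfold Z; simp only [pt_snd, pt_fst, zero_sub, abs_neg]; exact h4.le
  rw [tendsto_zero_iff_norm_tendsto_zero]
  have hw : Tendsto (fun m => 1.1 * ww m) atTop (𝓝 0) := by
    have : Tendsto ww atTop (𝓝 0) := by
      unfold ww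
      apply Tendsto.div_atTop tendsto_const_nhds
      exact tendsto_atTop_add_const_right _ _ tendsto_natCast_atTop_atTop
    simpa using this.const_mul 1.1
  refine squeeze_zero (fun m => norm_nonneg _) (fun m => ?_) hw
  have i1 := hc1.iter m
  have i2 := hc2.iter m
  have j0 := i1.lt
  have j1 := i2.lt
  have j2 := i1.cone
  have j3 := i1.flat
  have j4 := hx2 m
  unfold xi Xm Zm at j4
  have e : (S.pt 0 0 H) = S.X H := rfl
  rw [e, sub_zero]
  have j5 : (S.F^[m] (S.pt s t H)).2.1 - (S.F^[m] (S.X H)).2.1 ≤ 1.1 * ww m := by linarith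
  rw [Prod.norm_def, Prod.norm_def]
  simp only [Real.norm_eq_abs, Prod.fst_sub, Prod.snd_sub]
  refine max_le (by linarith) (max_le ?_ (by linarith))
  rw [abs_of_pos (by linarith)]
  exact j5

/-- **Core theorem.** -/
theorem core (hP : S.C2) (hL : S.Lat Γ) : ∃ x : E3, ∀ (k : ℕ) (Φ : (Fin k → ℝ) → E3),
    ContDiff ℝ 1 Φ → (∀ w, Function.Injective (fderiv ℝ Φ w)) →
    ¬ (∀ p : E3, (∃ w, ∃ γ ∈ Γ, Φ w = p + γ) ↔ S.Asym Γ p x) := by
  obtain ⟨H, hH⟩ := exists_good hP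
  have hT : ∀ m, |S.TT m H| ≤ 6e-4 := fun m => (hH m).1
  have hx1 : ∀ m, 0.9 * ww m ≤ S.xi m H := fun m => (hH m).2.1
  have hx2 : ∀ m, S.xi m H ≤ 1.1 * ww m := fun m => (hH m).2.2
  refine ⟨S.pt 0 0 H, fun k Φ hΦ himm hrange => ?_⟩
  refine no_cell hL 0 0 H {q : ℝ × ℝ | 0 < q.2 ∧ q.2 < 1e-12 ∧ |q.1| < 2e-14 * q.2 ∧
    |q.1| < 2e-14 * (1e-12 - q.2)} ?_ ⟨(0, 5e-13), ?_⟩ ?_ ?_ k Φ hΦ himm hrange
  · have o1 : IsOpen {q : ℝ × ℝ | 0 < q.2} := isOpen_lt (by fun_prop) (by fun_prop)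
    have o2 : IsOpen {q : ℝ × ℝ | q.2 < 1e-12} := isOpen_lt (by fun_prop) (by fun_prop)
    have o3 : IsOpen {q : ℝ × ℝ | |q.1| < 2e-14 * q.2} := isOpen_lt (by fun_prop) (by fun_prop)
    have o4 : IsOpen {q : ℝ × ℝ | |q.1| < 2e-14 * (1e-12 - q.2)} :=
      isOpen_lt (by fun_prop) (by fun_prop)
    exact o1.inter (o2.inter (o3.inter o4))
  · refine ⟨?_, ?_, ?_, ?_⟩
    · show (0:ℝ) < 5e-13
      norm_num
    · show (5e-13:ℝ) < 1e-12
      norm_num
    · show |(0:ℝ)| < 2e-14 * 5e-13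
      norm_num
    · show |(0:ℝ)| < 2e-14 * (1e-12 - 5e-13)
      norm_num
  · rintro q ⟨h1, h2, h3, h4⟩
    exact right_asym hx2 h1 h2 h3 h4
  · intro δ hδ
    have hη : 0 < min (δ/2) (1/12) := by positivity
    refine ⟨(0, -(min (δ/2) (1/12))), ?_, ?_⟩
    · rw [Prod.dist_eq, Real.dist_eq, Real.dist_eq]
      simp only [sub_zero, abs_zero, abs_neg]
      rw [abs_of_pos hη]
      exact max_lt hδ (lt_of_le_of_lt (min_le_left _ _) (by linarith))
    · exact not_asym_of_trapped hL (c := 6e-4) (by norm_num) hT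
        (left_trapped hP hT hx1 hx2 hη (min_le_right _ _))

end Sys

end Pool.Agent.H47

/-! ### Rates -/

namespace Pool.Agent.H47

open Real Set Filter Topology

/-- value bound of the potential -/
lemma vv_le_at {t : ℝ} (h0 : 0 < t) (h : t ≤ 1/12) : vv t ≤ -19.7 * t^2 := by
  have h1 := vv_concave_slope (a := -t) (b := 0) (c := t) (by linarith) (by linarith) h0 h
  rw [vv_zero, vv_neg] at h1
  have e : (0 - vv t) / (0 - -t) - (vv t - 0) / (t - 0) = -2 * vv t / t := by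
    rw [show (0:ℝ) - -t = t by ring, sub_zero, sub_zero]
    ring
  rw [e, le_div_iff₀ h0] at h1
  nlinarith

lemma vv_at08 : vv (-(0.08)) ≤ -0.126 := by
  have := vv_le_at (t := 0.08) (by norm_num) (by norm_num)
  rw [vv_neg]
  norm_num at this ⊢
  linarith

namespace Sys

variable {S : Sys}

lemma CP.gg_le_of_pos {p q : E3} (hp : S.CP p q) {m : ℝ} (hm : 0 ≤ m) (h1 : m ≤ p.2.1)
    (h2 : q.2.1 ≤ 1/12) : S.gg p q ≤ 1 - 39.4e-4 * m + 1.1e-14 := by
  have h := vv_slope_pos hm h1 hp.lt h2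
  have hR := abs_le.1 hp.RR_bd
  rw [hp.gg_eq]
  unfold vq
  linarith [hR.2]

lemma CP.gg_ge_of_neg {p q : E3} (hp : S.CP p q) {m : ℝ} (hm : 0 ≤ m) (h1 : q.2.1 ≤ -m)
    (h2 : -(1/12) ≤ p.2.1) : 1 + 39.4e-4 * m - 1.1e-14 ≤ S.gg p q := by
  have h := vv_slope_neg hm h1 hp.lt h2
  have hR := abs_le.1 hp.RR_bd
  rw [hp.gg_eq]
  unfold vq
  linarith [hR.1]

lemma CP.gg_abs_of_small {p q : E3} (hp : S.CP p q) {m : ℝ} (h1 : -m ≤ p.2.1)
    (h2 : q.2.1 ≤ m) : |S.gg p q - 1| ≤ 197.4e-4 * m + 1.1e-14 := by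
  have h := abs_le.1 (vq_bd_of_abs hp.lt h1 h2)
  have hR := abs_le.1 hp.RR_bd
  rw [hp.gg_eq, abs_le]
  unfold vq
  constructor <;> linarith [hR.1, hR.2, h.1, h.2]

/-- forward invariance of the larger trap -/
lemma trap2_step (p : E3) (h1 : -(1/2) ≤ p.2.1) (h2 : p.2.1 ≤ -(0.08)) :
    -(1/2) ≤ (S.F p).2.1 ∧ (S.F p).2.1 ≤ -(0.08) := by
  rw [S.ht]
  have hP := abs_le.1 (S.t1.bd p)
  have hv := abs_le.1 (abs_vv_le p.2.1)
  have hc := abs_le.1 (abs_cc_le (p.1 + p.2.2))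
  constructor
  · rcases le_or_gt (-(1/2) + 1e-3) p.2.1 with h | h
    · linarith
    · have h3 := vv_lip p.2.1 (-(1/2))
      rw [vv_at2, abs_le, abs_of_nonneg (by linarith : 0 ≤ p.2.1 - -(1/2))] at h3
      linarith [h3.1]
  · rcases le_or_gt p.2.1 (-(0.08) - 1e-3) with h | h
    · linarith
    · have h3 := vv_lip p.2.1 (-(0.08))
      have h4 := vv_at08
      rw [abs_le, abs_of_nonpos (by linarith : p.2.1 - -(0.08) ≤ 0)] at h3
      linarith [h3.2]

lemma trap2_iter (p : E3) (h1 : -(1/2) ≤ p.2.1) (h2 : p.2.1 ≤ -(0.08)) (n : ℕ) :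
    -(1/2) ≤ (S.F^[n] p).2.1 ∧ (S.F^[n] p).2.1 ≤ -(0.08) := by
  induction n with
  | zero => exact ⟨h1, h2⟩
  | succ n ih => rw [Function.iterate_succ_apply']; exact trap2_step _ ih.1 ih.2

/-- trapped points are not asymptotic to the centre orbit -/
lemma not_asym_of_trap2 {Γ : AddSubgroup E3} (hL : S.Lat Γ) {y x : E3}
    (hx : ∀ m, |(S.F^[m] x).2.1| ≤ 1e-2)
    (hy : ∃ M, ∀ m ≥ M, -(1/2) ≤ (S.F^[m] y).2.1 ∧ (S.F^[m] y).2.1 ≤ -(0.08)) :
    ¬ S.Asym Γ y x := by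
  rintro ⟨γ, hγ, ht⟩
  obtain ⟨M, hM⟩ := hy
  have t5 := (tendsto_zero_iff_norm_tendsto_zero.1 ht).eventually
    (gt_mem_nhds (by norm_num : (0:ℝ) < 1e-2))
  obtain ⟨m, hm, hmM⟩ := (t5.and (eventually_ge_atTop M)).exists
  have hu : |(S.F^[m] y).2.1 - (S.F^[m] x).2.1 - (γ m).2.1| < 1e-2 := by
    refine lt_of_le_of_lt ?_ hm
    have := norm_snd_le (S.F^[m] y - S.F^[m] x - γ m)
    refine le_trans ?_ this
    exact norm_fst_le (S.F^[m] y - S.F^[m] x - γ m).2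
  obtain ⟨l, hl⟩ := hL.tint _ (hγ m)
  rw [hl, abs_lt] at hu
  have h1 := hM m hmM
  have h2 := abs_le.1 (hx m)
  have h3 : (l:ℝ) < 0 := by linarith [hu.1, hu.2, h1.1, h1.2, h2.1, h2.2]
  have h4 : (-1:ℝ) < l := by linarith [hu.1, hu.2, h1.1, h1.2, h2.1, h2.2]
  have h5 : l < 0 := by exact_mod_cast h3
  have h6 : -1 < l := by exact_mod_cast h4
  omega

/-- the strip between x and z is asymptotic to x if the width tends to zero -/
lemma right_asym' {Γ : AddSubgroup E3} {H : ℝ} (hx2 : Tendsto (fun m => S.xi m H) atTop (𝓝 0))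
    {s t : ℝ} (h1 : 0 < t)
    (h2 : t < 1e-12) (h3 : |s| < 2e-14 * t) (h4 : |s| < 2e-14 * (1e-12 - t)) :
    S.Asym Γ (S.pt s t H) (S.pt 0 0 H) := by
  refine ⟨fun _ => 0, fun _ => Γ.zero_mem, ?_⟩
  have hc1 : S.CP (S.X H) (S.pt s t H) := by
    refine ⟨?_, ?_, ?_⟩
    · unfold X; rw [S.h_pt, S.h_pt]
    · unfold X; simpa using h1
    · unfold X; simp only [pt_snd, pt_fst, sub_zero]; exact h3.le
  have hc2 : S.CP (S.pt s t H) (S.Z H) := by
    refine ⟨?_, ?_, ?_⟩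
    · unfold Z; rw [S.h_pt, S.h_pt]
    · unfold Z; simpa using h2
    · unfold Z; simp only [pt_snd, pt_fst, zero_sub, abs_neg]; exact h4.le
  rw [tendsto_zero_iff_norm_tendsto_zero]
  refine squeeze_zero (fun m => norm_nonneg _) (fun m => ?_) hx2
  have i1 := hc1.iter m
  have i2 := hc2.iter m
  have j0 := i1.lt
  have j1 := i2.lt
  have j2 := i1.cone
  have j3 := i1.flat
  have e : (S.pt 0 0 H) = S.X H := rfl
  rw [e, sub_zero]
  have j5 : (S.F^[m] (S.pt s t H)).2.1 - (S.F^[m] (S.X H)).2.1 ≤ S.xi m H := by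
    unfold xi Xm Zm; linarith
  rw [Prod.norm_def, Prod.norm_def]
  simp only [Real.norm_eq_abs, Prod.fst_sub, Prod.snd_sub]
  refine max_le (by linarith) (max_le ?_ (by linarith))
  rw [abs_of_pos (by linarith)]
  exact j5

/-- criterion for a bad point, in terms of the centre dynamics -/
theorem bad_of {Γ : AddSubgroup E3} (hL : S.Lat Γ) {H : ℝ}
    (hT : ∀ m, |(S.F^[m] (S.pt 0 0 H)).2.1| ≤ 1e-2)
    (hxi : Tendsto (fun m => S.xi m H) atTop (𝓝 0))
    (hleft : ∀ δ > 0, ∃ η, 0 < η ∧ η < δ ∧ ∃ m, -(1/2) ≤ (S.F^[m] (S.pt 0 (-η) H)).2.1 ∧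
      (S.F^[m] (S.pt 0 (-η) H)).2.1 ≤ -(0.08)) :
    ∃ x : E3, ∀ (k : ℕ) (Φ : (Fin k → ℝ) → E3),
    ContDiff ℝ 1 Φ → (∀ w, Function.Injective (fderiv ℝ Φ w)) →
    ¬ (∀ p : E3, (∃ w, ∃ γ ∈ Γ, Φ w = p + γ) ↔ S.Asym Γ p x) := by
  refine ⟨S.pt 0 0 H, fun k Φ hΦ himm hrange => ?_⟩
  refine no_cell hL 0 0 H {q : ℝ × ℝ | 0 < q.2 ∧ q.2 < 1e-12 ∧ |q.1| < 2e-14 * q.2 ∧
    |q.1| < 2e-14 * (1e-12 - q.2)} ?_ ⟨(0, 5e-13), ?_⟩ ?_ ?_ k Φ hΦ himm hrange
  · have o1 : IsOpen {q : ℝ × ℝ | 0 < q.2} := isOpen_lt (by fun_prop) (by fun_prop)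
    have o2 : IsOpen {q : ℝ × ℝ | q.2 < 1e-12} := isOpen_lt (by fun_prop) (by fun_prop)
    have o3 : IsOpen {q : ℝ × ℝ | |q.1| < 2e-14 * q.2} := isOpen_lt (by fun_prop) (by fun_prop)
    have o4 : IsOpen {q : ℝ × ℝ | |q.1| < 2e-14 * (1e-12 - q.2)} :=
      isOpen_lt (by fun_prop) (by fun_prop)
    exact o1.inter (o2.inter (o3.inter o4))
  · refine ⟨?_, ?_, ?_, ?_⟩
    · show (0:ℝ) < 5e-13
      norm_num
    · show (5e-13:ℝ) < 1e-12
      norm_num
    · show |(0:ℝ)| < 2e-14 * 5e-13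
      norm_num
    · show |(0:ℝ)| < 2e-14 * (1e-12 - 5e-13)
      norm_num
  · rintro q ⟨h1, h2, h3, h4⟩
    exact right_asym' hxi h1 h2 h3 h4
  · intro δ hδ
    obtain ⟨η, h0, h1, m, hm1, hm2⟩ := hleft δ hδ
    refine ⟨(0, -η), ?_, ?_⟩
    · rw [Prod.dist_eq, Real.dist_eq, Real.dist_eq]
      simp only [sub_zero, abs_zero, abs_neg]
      rw [abs_of_pos h0]
      exact max_lt hδ h1
    · refine not_asym_of_trap2 hL hT ⟨m, fun n hn => ?_⟩
      obtain ⟨l, rfl⟩ := Nat.exists_eq_add_of_le hn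
      rw [add_comm m l, Function.iterate_add_apply]
      exact trap2_iter _ hm1 hm2 l

end Sys

end Pool.Agent.H47

/-! ### Ctl -/

namespace Pool.Agent.H47

open Real Set Filter Topology

namespace Sys

variable (S : Sys)

lemma NC_pt (s t : ℝ) (m : ℕ) {H H' : ℝ} (hH : H < H') :
    NC (S.F^[m] (S.pt s t H)) (S.F^[m] (S.pt s t H')) := by
  apply S.NC_iter
  have : 0 < S.U s t H' - S.U s t H := by
    have := (S.U s t).strictMono hH
    linarith
  refine ⟨this, ?_, ?_⟩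
  · simp [pt]; linarith
  · simp [pt]; linarith

lemma du_near (s t : ℝ) (n : ℕ) (H H' : ℝ) :
    |((S.F^[n] (S.pt s t H')).2.2 - (S.F^[n] (S.pt s t H)).2.2) - S.lam ^ n * (H' - H)|
      ≤ 2e-14 := by
  have h1 := abs_le.1 (S.abs_h_sub (S.F^[n] (S.pt s t H)))
  have h2 := abs_le.1 (S.abs_h_sub (S.F^[n] (S.pt s t H')))
  rw [S.h_iter, S.h_pt] at h1 h2
  rw [abs_le]
  constructor <;> linarith [h1.1, h1.2, h2.1, h2.2]

lemma lam_pow_prefix (n : ℕ) {H H' : ℝ} (h : H' ≤ H + 2 * S.lam⁻¹ ^ n) :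
    S.lam ^ n * (H' - H) ≤ 2 := by
  have hp : (0:ℝ) < S.lam ^ n := pow_pos S.lam_pos n
  have h1 : S.lam ^ n * (H' - H) ≤ S.lam ^ n * (2 * S.lam⁻¹ ^ n) := by
    apply mul_le_mul_of_nonneg_left _ hp.le
    linarith
  have h2 : S.lam ^ n * (2 * S.lam⁻¹ ^ n) = 2 := by
    rw [inv_pow]; field_simp
  linarith

/-- orbits of nearby leaf labels stay close for a long time -/
lemma t_prefix (s t : ℝ) {n j : ℕ} (hj : j ≤ n) {H H' : ℝ} (h1 : H ≤ H')
    (h2 : H' ≤ H + 2 * S.lam⁻¹ ^ n) :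
    |(S.F^[j] (S.pt s t H')).2.1 - (S.F^[j] (S.pt s t H)).2.1| ≤ 2.01e-5 * (1/26.8)^(n-j) := by
  rcases lt_or_eq_of_le h1 with h | h
  · obtain ⟨k, rfl⟩ := Nat.exists_eq_add_of_le hj
    have i1 := (S.NC_pt s t j h).t
    have i2 := S.NC_back (S.NC_pt s t 0 h) j k
    simp only [Function.iterate_zero, id_eq] at i2
    have i3 := abs_le.1 (S.du_near s t (j+k) H H')
    have i4 := S.lam_pow_prefix (j+k) h2
    have e : j + k - j = k := by omega
    rw [e]
    have hp : (0:ℝ) < 26.8 ^ k := by positivity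
    have i5 : 26.8 ^ k * ((S.F^[j] (S.pt s t H')).2.2 - (S.F^[j] (S.pt s t H)).2.2) ≤ 2.01 := by
      linarith [i3.2]
    have i6 : (S.F^[j] (S.pt s t H')).2.2 - (S.F^[j] (S.pt s t H)).2.2 ≤ 2.01 * (1/26.8)^k := by
      rw [one_div, inv_pow, ← div_eq_mul_inv, le_div_iff₀ hp]
      linarith
    linarith
  · rw [h]; simp; positivity

lemma u_prefix (s t : ℝ) {n : ℕ} {H H' : ℝ} (h1 : H ≤ H')
    (h2 : H' ≤ H + 2 * S.lam⁻¹ ^ n) :
    |(S.pt s t H').2.2 - (S.pt s t H).2.2| ≤ 2.01 * (1/26.8)^n := by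
  rcases lt_or_eq_of_le h1 with h | h
  · have i2 := S.NC_back (S.NC_pt s t 0 h) 0 n
    simp only [Function.iterate_zero, id_eq, zero_add] at i2
    have i3 := abs_le.1 (S.du_near s t n H H')
    have i4 := S.lam_pow_prefix n h2
    have i7 := (S.NC_pt s t 0 h).pos
    simp only [Function.iterate_zero, id_eq] at i7
    have hp : (0:ℝ) < 26.8 ^ n := by positivity
    rw [abs_of_pos i7, one_div, inv_pow, ← div_eq_mul_inv, le_div_iff₀ hp]
    linarith [i3.2]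
  · rw [h]; simp; positivity

lemma xi_prefix {n j : ℕ} (hj : j ≤ n) {H H' : ℝ} (h1 : H ≤ H')
    (h2 : H' ≤ H + 2 * S.lam⁻¹ ^ n) :
    |S.xi j H' - S.xi j H| ≤ 4.02e-5 * (1/26.8)^(n-j) := by
  have i1 := abs_le.1 (S.t_prefix 0 0 hj h1 h2)
  have i2 := abs_le.1 (S.t_prefix 0 1e-12 hj h1 h2)
  unfold xi Xm Zm X Z
  rw [abs_le]
  constructor <;> linarith [i1.1, i1.2, i2.1, i2.2]

structure Stg (m : ℕ) (α β : ℝ) : Prop where
  lt : α < β
  xx : 4/3 ≤ S.xx m β - S.xx m α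
  du : S.du m α β ≤ 9.3

lemma stg_prefix (n : ℕ) (H : ℝ) : S.Stg n H (H + 2 * S.lam⁻¹ ^ n) := by
  have hp : (0:ℝ) < S.lam⁻¹ ^ n := pow_pos S.lami_pos n
  have hlt : H < H + 2 * S.lam⁻¹ ^ n := by linarith
  have h2 : S.lam ^ n * (H + 2 * S.lam⁻¹ ^ n - H) = 2 := by
    have := (pow_pos S.lam_pos n).ne'
    rw [inv_pow]; field_simp; ring
  have h3 := abs_le.1 (S.du_near 0 0 n H (H + 2 * S.lam⁻¹ ^ n))
  rw [h2] at h3
  have h4 : S.du n H (H + 2 * S.lam⁻¹ ^ n) = (S.F^[n] (S.pt 0 0 (H + 2 * S.lam⁻¹ ^ n))).2.2 -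
    (S.F^[n] (S.pt 0 0 H)).2.2 := rfl
  rw [← h4] at h3
  have h5 := S.xx_mono n hlt
  exact ⟨hlt, by linarith [h3.1, h5.1], by linarith [h3.2]⟩

variable {S}

lemma TT_sub_le (m : ℕ) {H H' : ℝ} (h : H ≤ H') :
    |S.TT m H' - S.TT m H| ≤ 1e-5 * S.du m H H' := by
  rcases lt_or_eq_of_le h with h | h
  · exact (S.CP_r m h).t
  · subst h
    unfold du
    simp

lemma du_mono (m : ℕ) {α β H : ℝ} (h1 : α ≤ H) (h2 : H ≤ β) : S.du m α H ≤ S.du m α β := by
  rcases lt_or_eq_of_le h2 with h | h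
  · have := S.du_pos m h
    unfold du at *
    linarith
  · rw [h]

lemma ctl_step {m : ℕ} {α β : ℝ} (h : S.Stg m α β) (L : ℝ) :
    ∃ α' β', α ≤ α' ∧ β' ≤ β ∧ S.Stg (m+1) α' β' ∧ ∀ H ∈ Icc α' β',
      (S.TT m H ≤ L - 9.4e-5 → 1/2 ≤ cc (S.xx m H)) ∧
      (L + 9.4e-5 ≤ S.TT m H → cc (S.xx m H) ≤ -(1/2)) := by
  obtain ⟨hαβ, hx, hdu⟩ := h
  have hvar : ∀ H ∈ Icc α β, |S.TT m H - S.TT m α| ≤ 9.3e-5 := by
    intro H hH
    have h1 := TT_sub_le (S := S) m hH.1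
    have h2 := du_mono (S := S) m hH.1 hH.2
    linarith
  have hsg : ∀ α' β' A B, α ≤ α' → α' < β' → β' ≤ β → S.xx m α' = A → S.xx m β' = B →
      B - A = 1/3 → S.Stg (m+1) α' β' := by
    intro α' β' A B h1 h2 h3 h4 h5 h6
    have e1 := S.xx_mono m h2
    have e2 := S.xx_mono (m+1) h2
    have e3 := S.du_step' m h2
    rw [h4, h5] at e1
    refine ⟨h2, ?_, ?_⟩ <;> nlinarith
  rcases le_or_gt (S.TT m α) L with hs | hs
  · obtain ⟨n, hn1, hn2⟩ : ∃ n : ℤ, S.xx m α + 1/6 ≤ n ∧ (n:ℝ) < S.xx m α + 7/6 := by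
      refine ⟨⌈S.xx m α + 1/6⌉, Int.le_ceil _, ?_⟩
      have := Int.ceil_lt_add_one (S.xx m α + 1/6)
      linarith
    obtain ⟨α', β', i1, i2, i3, i4, i5, i6⟩ := exists_sub (S := S) m hαβ
      (A := (n:ℝ) - 1/6) (B := (n:ℝ) + 1/6) (by linarith) (by linarith) (by linarith)
    refine ⟨α', β', i1, i3, hsg α' β' _ _ i1 i2 i3 i4 i5 (by ring), ?_⟩
    intro H hH
    have hHm : H ∈ Icc α β := ⟨by linarith [hH.1], by linarith [hH.2]⟩
    have hv := abs_le.1 (hvar H hHm)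
    have hc := cc_ge_half (i6 H hH).1 (i6 H hH).2
    refine ⟨fun _ => hc, fun hcon => ?_⟩
    exfalso
    linarith [hv.2]
  · obtain ⟨n, hn1, hn2⟩ : ∃ n : ℤ, S.xx m α - 1/3 ≤ n ∧ (n:ℝ) < S.xx m α + 2/3 := by
      refine ⟨⌈S.xx m α - 1/3⌉, Int.le_ceil _, ?_⟩
      have := Int.ceil_lt_add_one (S.xx m α - 1/3)
      linarith
    obtain ⟨α', β', i1, i2, i3, i4, i5, i6⟩ := exists_sub (S := S) m hαβ
      (A := (n:ℝ) + 1/3) (B := (n:ℝ) + 2/3) (by linarith) (by linarith) (by linarith)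
    refine ⟨α', β', i1, i3, hsg α' β' _ _ i1 i2 i3 i4 i5 (by ring), ?_⟩
    intro H hH
    have hHm : H ∈ Icc α β := ⟨by linarith [hH.1], by linarith [hH.2]⟩
    have hv := abs_le.1 (hvar H hHm)
    have hc := cc_le_neg_half (i6 H hH).1 (i6 H hH).2
    refine ⟨fun hcon => ?_, fun _ => hc⟩
    exfalso
    linarith [hv.1]

/-- control of the centre coordinate along a prescribed sequence of levels -/
theorem control {n₀ : ℕ} {H₀ H₁ : ℝ} (h : S.Stg n₀ H₀ H₁) (lvl : ℕ → ℝ) :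
    ∃ H, H₀ ≤ H ∧ H ≤ H₁ ∧ ∀ m ≥ n₀, (S.TT m H ≤ lvl m - 9.4e-5 → 1/2 ≤ cc (S.xx m H)) ∧
      (lvl m + 9.4e-5 ≤ S.TT m H → cc (S.xx m H) ≤ -(1/2)) := by
  have step : ∀ (k : ℕ) (q : {q : ℝ × ℝ // S.Stg (n₀ + k) q.1 q.2}),
      ∃ q' : {q : ℝ × ℝ // S.Stg (n₀ + (k+1)) q.1 q.2}, q.1.1 ≤ q'.1.1 ∧ q'.1.2 ≤ q.1.2 ∧
      ∀ H ∈ Icc q'.1.1 q'.1.2,
      (S.TT (n₀ + k) H ≤ lvl (n₀ + k) - 9.4e-5 → 1/2 ≤ cc (S.xx (n₀ + k) H)) ∧
      (lvl (n₀ + k) + 9.4e-5 ≤ S.TT (n₀ + k) H → cc (S.xx (n₀ + k) H) ≤ -(1/2)) := by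
    rintro k ⟨q, hq⟩
    obtain ⟨α', β', h1, h2, h3, h4⟩ := ctl_step hq (lvl (n₀ + k))
    exact ⟨⟨(α', β'), h3⟩, h1, h2, h4⟩
  choose f hf using step
  let I : ∀ k, {q : ℝ × ℝ // S.Stg (n₀ + k) q.1 q.2} := fun k => Nat.rec ⟨(H₀, H₁), h⟩ f k
  have hI : ∀ k, I (k+1) = f k (I k) := fun k => rfl
  have hmono : Monotone (fun k => (I k).1.1) := by
    apply monotone_nat_of_le_succ
    intro k
    rw [hI]
    exact (hf k (I k)).1
  have hanti : Antitone (fun k => (I k).1.2) := by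
    apply antitone_nat_of_succ_le
    intro k
    rw [hI]
    exact (hf k (I k)).2.1
  have hle : (fun k => (I k).1.1) ≤ (fun k => (I k).1.2) := fun k => (I k).2.lt.le
  have hmem := hmono.ciSup_mem_iInter_Icc_of_antitone hanti hle
  rw [mem_iInter] at hmem
  refine ⟨_, (hmem 0).1, (hmem 0).2, ?_⟩
  intro m hm
  obtain ⟨k, rfl⟩ := Nat.exists_eq_add_of_le hm
  have := (hf k (I k)).2.2 _ (by rw [← hI]; exact hmem (k+1))
  exact this

lemma TT_step (m : ℕ) (H : ℝ) (h : |S.TT m H| ≤ 0.006) :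
    |S.TT (m+1) H - S.TT m H| ≤ 1.1e-5 ∧
    (1/2 ≤ cc (S.xx m H) → S.TT m H + 4e-6 ≤ S.TT (m+1) H) ∧
    (cc (S.xx m H) ≤ -(1/2) → S.TT (m+1) H ≤ S.TT m H - 4e-6) := by
  have hTs : S.TT (m+1) H = S.TT m H + 1e-4 * vv (S.TT m H) + 1e-5 * cc (S.xx m H) +
      S.Pt (S.Xm m H) := by
    unfold TT xx
    rw [S.Xm_succ, S.ht]
  have hP := abs_le.1 (S.t1.bd (S.Xm m H))
  have hv := abs_le.1 (abs_vv_le_sq (S.TT m H))
  have hsq : (S.TT m H)^2 ≤ (0.006)^2 := by
    rw [← sq_abs]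
    gcongr
  have hc := abs_le.1 (abs_cc_le (S.xx m H))
  rw [hTs]
  refine ⟨?_, fun hcc => ?_, fun hcc => ?_⟩
  · rw [abs_le]
    constructor <;> linarith [hP.1, hP.2, hv.1, hv.2, hc.1, hc.2]
  · linarith [hP.1, hP.2, hv.1, hv.2, hc.1, hc.2]
  · linarith [hP.1, hP.2, hv.1, hv.2, hc.1, hc.2]

end Sys

/-- controlled walk towards the level `L` during the times `n ≤ m < n'` -/
def Walk (T : ℕ → ℝ) (L : ℝ) (n n' : ℕ) : Prop :=
  ∀ m, n ≤ m → m < n' → |T m| ≤ 0.006 → |T (m+1) - T m| ≤ 1.1e-5 ∧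
    (T m ≤ L - 9.4e-5 → T m + 4e-6 ≤ T (m+1)) ∧ (L + 9.4e-5 ≤ T m → T (m+1) ≤ T m - 4e-6)

lemma Walk.mono {T : ℕ → ℝ} {L : ℝ} {n n' k k' : ℕ} (h : Walk T L n n') (h1 : n ≤ k)
    (h2 : k' ≤ n') : Walk T L k k' := fun m hm hm' => h m (by omega) (by omega)

lemma Walk.hull {T : ℕ → ℝ} {L : ℝ} {n n' : ℕ} (h : Walk T L n n') {lo hi : ℝ}
    (h1 : -0.006 ≤ lo) (h2 : lo ≤ L - 1.05e-4) (h3 : L + 1.05e-4 ≤ hi) (h4 : hi ≤ 0.006)
    (h5 : lo ≤ T n) (h6 : T n ≤ hi) : ∀ m, n ≤ m → m ≤ n' → lo ≤ T m ∧ T m ≤ hi := by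
  intro m hm hm'
  induction m, hm using Nat.le_induction with
  | base => exact ⟨h5, h6⟩
  | succ m hm ih =>
    have ih' := ih (by omega)
    have hs := h m hm (by omega) (abs_le.2 ⟨by linarith [ih'.1], by linarith [ih'.2]⟩)
    have h7 := abs_le.1 hs.1
    constructor
    · rcases le_or_gt (T m) (L - 9.4e-5) with hc | hc
      · have := hs.2.1 hc
        linarith [ih'.1]
      · linarith [h7.1]
    · rcases le_or_gt (L + 9.4e-5) (T m) with hc | hc
      · have := hs.2.2 hc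
        linarith [ih'.2]
      · linarith [h7.2]

lemma Walk.near {T : ℕ → ℝ} {L : ℝ} {n n' : ℕ} (h : Walk T L n n')
    (h0 : ∀ m, n ≤ m → m < n' → |T m| ≤ 0.006) :
    ∀ k, n + k ≤ n' → |T (n+k) - L| ≤ max (|T n - L| - 4e-6 * k) 1.05e-4 := by
  intro k
  induction k with
  | zero => intro _; simp
  | succ k ih =>
    intro hk
    have ih' := ih (by omega)
    have hs := h (n+k) (by omega) (by omega) (h0 _ (by omega) (by omega))
    have h7 := abs_le.1 hs.1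
    have e : n + (k+1) = n + k + 1 := by omega
    rw [e]
    push_cast
    rcases le_or_gt (T (n+k)) (L - 9.4e-5) with hc | hc
    · have h8 := hs.2.1 hc
      have h9 : |T (n+k) - L| = L - T (n+k) := by rw [abs_of_neg (by linarith)]; ring
      have h10 : |T (n+k+1) - L| = L - T (n+k+1) := by
        rw [abs_of_neg (by linarith [h7.2])]; ring
      rw [h9] at ih'
      rw [h10]
      rcases le_max_iff.1 ih' with h11 | h11
      · apply le_max_of_le_left; linarith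
      · apply le_max_of_le_right; linarith
    · rcases le_or_gt (L + 9.4e-5) (T (n+k)) with hc' | hc'
      · have h8 := hs.2.2 hc'
        have h9 : |T (n+k) - L| = T (n+k) - L := by rw [abs_of_pos (by linarith)]
        have h10 : |T (n+k+1) - L| = T (n+k+1) - L := by
          rw [abs_of_pos (by linarith [h7.1])]
        rw [h9] at ih'
        rw [h10]
        rcases le_max_iff.1 ih' with h11 | h11
        · apply le_max_of_le_left; linarith
        · apply le_max_of_le_right; linarith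
      · apply le_max_of_le_right
        rw [abs_le]
        constructor <;> linarith [h7.1, h7.2]

/-- in the band after at most 2800 steps -/
lemma Walk.band {T : ℕ → ℝ} {L : ℝ} {n n' : ℕ} (h : Walk T L n n')
    (hL : |L| ≤ 0.005) (h5 : |T n| ≤ 0.0056) {m : ℕ} (hm : n + 2800 ≤ m) (hm' : m ≤ n') :
    |T m - L| ≤ 1.05e-4 := by
  have hL' := abs_le.1 hL
  have h5' := abs_le.1 h5
  have h0 := h.hull (lo := -0.0056) (hi := 0.0056) (by norm_num) (by linarith) (by linarith)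
    (by norm_num) (by linarith) (by linarith)
  obtain ⟨k, rfl⟩ := Nat.exists_eq_add_of_le (show n ≤ m by omega)
  have h1 := h.near (fun m hm hm' => by
    have := h0 m hm (by omega)
    rw [abs_le]; constructor <;> linarith [this.1, this.2]) k hm'
  have hk : (2800:ℝ) ≤ k := by
    have : 2800 ≤ k := by omega
    exact_mod_cast this
  have h2 : |T n - L| ≤ 0.0106 := by
    rw [abs_le]; constructor <;> linarith
  rcases le_max_iff.1 h1 with h3 | h3
  · linarith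
  · exact h3

/-- the distance to the level does not increase outside the band -/
lemma Walk.stay {T : ℕ → ℝ} {L : ℝ} {n n' : ℕ} (h : Walk T L n n')
    {d : ℝ} (hd : 1.05e-4 ≤ d) (hL : |L| + d ≤ 0.006) (h5 : |T n - L| ≤ d) {m : ℕ} (hm : n ≤ m)
    (hm' : m ≤ n') : |T m - L| ≤ d := by
  have h6 := abs_le.1 h5
  have h7 := neg_abs_le L
  have h8 := le_abs_self L
  have h0 := h.hull (lo := L - d) (hi := L + d) (by linarith) (by linarith) (by linarith)
    (by linarith) (by linarith) (by linarith) m hm hm'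
  rw [abs_le]
  constructor <;> linarith [h0.1, h0.2]

end Pool.Agent.H47

/-! ### Time -/

namespace Pool.Agent.H47

open Real Set Filter Topology

lemma pow_le_16 {k : ℕ} (hk : k ≤ 2800) : (1 + 1.31e-4 : ℝ)^k ≤ 1.6 := by
  have h2 : (1 + 1.31e-4 : ℝ) ≤ exp (1.31e-4) := by
    have := add_one_le_exp (1.31e-4 : ℝ); linarith
  have hk' : (k:ℝ) ≤ 2800 := by exact_mod_cast hk
  have h3 : (1 + 1.31e-4 : ℝ)^k ≤ exp (0.3668) := by
    calc (1 + 1.31e-4 : ℝ)^k ≤ (exp (1.31e-4))^k := pow_le_pow_left₀ (by norm_num) h2 k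
      _ = exp (k * 1.31e-4) := by rw [← exp_nat_mul]
      _ ≤ exp (0.3668) := exp_le_exp.2 (by linarith)
  have h4 : exp (0.3668) ≤ 1.6 := by
    have h5 := add_one_le_exp (-0.3668 : ℝ)
    rw [exp_neg, ← one_div, le_div_iff₀ (exp_pos _)] at h5
    nlinarith [exp_pos (0.3668 : ℝ)]
  exact h3.trans h4

namespace Sys

variable {S : Sys}

lemma xi_hold {m : ℕ} {H : ℝ} (h1 : 0.0045 ≤ S.TT m H) (h2 : S.TT m H + S.xi m H ≤ 1/12) :
    S.xi (m+1) H ≤ (1 - 1.7e-5) * S.xi m H := by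
  rw [S.xi_succ]
  have h3 := (S.CP_XZm m H).gg_le_of_pos (m := 0.0045) (by norm_num) h1 (by
    unfold TT xi at h2; linarith)
  have := S.xi_pos m H
  nlinarith

lemma xi_small {m : ℕ} {H : ℝ} (h1 : |S.TT m H| ≤ 0.0056) (h2 : S.xi m H ≤ 1e-3) :
    S.xi (m+1) H ≤ (1 + 1.31e-4) * S.xi m H := by
  rw [S.xi_succ]
  have h1' := abs_le.1 h1
  have h3 := abs_le.1 ((S.CP_XZm m H).gg_abs_of_small (m := 0.0066) (by
    unfold TT at h1'; linarith) (by
    unfold TT xi at *; linarith))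
  have := S.xi_pos m H
  nlinarith [h3.2]

lemma xi_step_le (m : ℕ) (H : ℝ) : S.xi (m+1) H ≤ 1.0019 * S.xi m H := by
  rw [S.xi_succ]
  have h3 := abs_le.1 (S.CP_XZm m H).gg_bd
  have := S.xi_pos m H
  nlinarith [h3.2]

lemma xi_step_ge (m : ℕ) (H : ℝ) : 0.998 * S.xi m H ≤ S.xi (m+1) H := by
  rw [S.xi_succ]
  have h3 := S.gg_pos m H
  have := S.xi_pos m H
  nlinarith

lemma xi_hold_iter {n : ℕ} {H : ℝ} {n' : ℕ}
    (hT : ∀ m, n ≤ m → m < n' → |S.TT m H - 0.005| ≤ 5e-4)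
    (hx : S.xi n H ≤ 1e-3) : ∀ k, n + k ≤ n' → S.xi (n+k) H ≤ (1 - 1.7e-5)^k * S.xi n H := by
  intro k
  induction k with
  | zero => simp
  | succ k ih =>
    intro hk
    have ih' := ih (by omega)
    have h1 := abs_le.1 (hT (n+k) (by omega) (by omega))
    have h2 := S.xi_pos n H
    have h3 : (1 - 1.7e-5 : ℝ)^k ≤ 1 := pow_le_one₀ (by norm_num) (by norm_num)
    have h4 : S.xi (n+k) H ≤ 1e-3 := by nlinarith
    have h5 := xi_hold (S := S) (m := n+k) (H := H) (by linarith) (by linarith)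
    rw [← add_assoc, pow_succ]
    nlinarith [h5]

/-- final phase: climb to the upper level and stay there -/
theorem finish (S : Sys) (n : ℕ) (Hc : ℝ) (hT : |S.TT n Hc| ≤ 0.0055) :
    ∃ H, Hc ≤ H ∧ H ≤ Hc + 2 * S.lam⁻¹ ^ n ∧ (∀ m ≥ n, |S.TT m H| ≤ 0.0056) ∧
      (∀ m ≥ n + 2800, |S.TT m H - 0.005| ≤ 1.05e-4) ∧
      (|S.TT n Hc - 0.005| ≤ 2.1e-4 → ∀ m ≥ n, |S.TT m H - 0.005| ≤ 2.4e-4) ∧
      (S.xi n H ≤ 5e-4 → (∀ m ≥ n, S.xi m H ≤ 1.6 * S.xi n H) ∧
        Tendsto (fun m => S.xi m H) atTop (𝓝 0)) := by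
  obtain ⟨H, h1, h2, hc⟩ := control (S.stg_prefix n Hc) (fun _ => 0.005)
  have hw : ∀ n', Walk (fun m => S.TT m H) 0.005 n n' := by
    intro n' m hm _ hT'
    have i1 := TT_step (S := S) m H hT'
    have i2 := hc m hm
    exact ⟨i1.1, fun h => i1.2.1 (i2.1 h), fun h => i1.2.2 (i2.2 h)⟩
  have hpre := S.t_prefix 0 0 (le_refl n) h1 h2
  have hpre' : |S.TT n H - S.TT n Hc| ≤ 2.01e-5 := by
    have : |S.TT n H - S.TT n Hc| ≤ 2.01e-5 * (1/26.8)^(n-n) := hpre
    simpa using this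
  have hp := abs_le.1 hpre'
  have hTc := abs_le.1 hT
  have hTn : |S.TT n H| ≤ 0.0056 := by
    rw [abs_le]; constructor <;> linarith [hp.1, hp.2]
  have hall : ∀ m ≥ n, |S.TT m H| ≤ 0.0056 := by
    intro m hm
    have hTn' := abs_le.1 hTn
    have := (hw m).hull (lo := -0.0056) (hi := 0.0056) (by norm_num) (by norm_num) (by norm_num)
      (by norm_num) hTn'.1 hTn'.2 m hm le_rfl
    exact abs_le.2 this
  have hband : ∀ m ≥ n + 2800, |S.TT m H - 0.005| ≤ 1.05e-4 := by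
    intro m hm
    exact (hw m).band (by norm_num [abs_of_pos]) hTn hm le_rfl
  refine ⟨H, h1, h2, hall, hband, ?_, ?_⟩
  · intro hd m hm
    have hd' := abs_le.1 hd
    refine (hw m).stay (d := 2.4e-4) (by norm_num) (by norm_num [abs_of_pos]) ?_ hm le_rfl
    rw [abs_le]
    constructor <;> linarith [hp.1, hp.2]
  · intro hx
    have hx0 := S.xi_pos n H
    have hgrow : ∀ k ≤ 2800, S.xi (n+k) H ≤ (1 + 1.31e-4)^k * S.xi n H := by
      intro k
      induction k with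
      | zero => simp
      | succ k ih =>
        intro hk
        have ih' := ih (by omega)
        have h3 := pow_le_16 (k := k) (by omega)
        have h4 : S.xi (n+k) H ≤ 1e-3 := by nlinarith
        have h5 := xi_small (S := S) (m := n+k) (H := H) (hall _ (by omega)) h4
        rw [← add_assoc, pow_succ]
        nlinarith
    have hgrow' : ∀ k ≤ 2800, S.xi (n+k) H ≤ 1.6 * S.xi n H := by
      intro k hk
      have h3 := pow_le_16 hk
      have := hgrow k hk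
      nlinarith
    have hhold : ∀ k, S.xi (n+2800+k) H ≤ (1 - 1.7e-5)^k * S.xi (n+2800) H := by
      intro k
      apply xi_hold_iter (n := n+2800) (n' := n+2800+k) _ _ k le_rfl
      · intro m hm _
        exact (hband m hm).trans (by norm_num)
      · have := hgrow' 2800 le_rfl
        linarith
    have hx2 := hgrow' 2800 le_rfl
    have hx3 := S.xi_pos (n+2800) H
    constructor
    · intro m hm
      obtain ⟨k, rfl⟩ := Nat.exists_eq_add_of_le hm
      rcases le_or_gt k 2800 with hk | hk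
      · exact hgrow' k hk
      · obtain ⟨l, rfl⟩ := Nat.exists_eq_add_of_le hk.le
        have := hhold l
        rw [add_assoc] at this
        have h3 : (1 - 1.7e-5 : ℝ)^l ≤ 1 := pow_le_one₀ (by norm_num) (by norm_num)
        nlinarith
    · rw [← tendsto_add_atTop_iff_nat (n+2800)]
      have ht : Tendsto (fun k : ℕ => (1 - 1.7e-5 : ℝ)^k * S.xi (n+2800) H) atTop (𝓝 0) := by
        have := (tendsto_pow_atTop_nhds_zero_of_lt_one (r := (1 - 1.7e-5 : ℝ)) (by norm_num)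
          (by norm_num)).mul_const (S.xi (n+2800) H)
        simpa using this
      refine squeeze_zero (fun k => (S.xi_pos _ H).le) (fun k => ?_) ht
      have := hhold k
      rw [add_comm k]
      exact this

/-- hold at the upper level until time `m₂`, then drop to the lower level forever -/
theorem timeline (S : Sys) {M₁ n₀ m₂ : ℕ} (hM : M₁ ≤ n₀) (hm₂ : n₀ ≤ m₂) {Hc : ℝ}
    (hT : ∀ j, M₁ ≤ j → j ≤ n₀ → |S.TT j Hc - 0.005| ≤ 2.1e-4) :
    ∃ H, Hc ≤ H ∧ H ≤ Hc + 2 * S.lam⁻¹ ^ n₀ ∧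
      (∀ j, M₁ ≤ j → j ≤ m₂ → |S.TT j H - 0.005| ≤ 2.4e-4) ∧
      (∀ j ≥ m₂, |S.TT j H| ≤ 0.0056) ∧
      (∀ j ≥ m₂ + 2800, |S.TT j H + 0.005| ≤ 1.05e-4) ∧
      ∃ t, m₂ < t ∧ t ≤ m₂ + 2800 ∧ (∀ j, M₁ ≤ j → j < t → S.TT t H + 4e-6 ≤ S.TT j H) ∧
        (∀ j ≥ t, S.TT j H ≤ 0) := by
  obtain ⟨H, h1, h2, hc⟩ := control (S.stg_prefix n₀ Hc)
    (fun m => if m < m₂ then 0.005 else -0.005)
  have hw1 : Walk (fun m => S.TT m H) 0.005 n₀ m₂ := by
    intro m hm hm' hT'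
    have i1 := TT_step (S := S) m H hT'
    have i2 := hc m hm
    simp only [hm', if_true] at i2
    exact ⟨i1.1, fun h => i1.2.1 (i2.1 h), fun h => i1.2.2 (i2.2 h)⟩
  have hw2 : ∀ n', Walk (fun m => S.TT m H) (-0.005) m₂ n' := by
    intro n' m hm _ hT'
    have i1 := TT_step (S := S) m H hT'
    have i2 := hc m (by omega)
    have hm' : ¬ (m < m₂) := by omega
    simp only [hm', if_false] at i2
    exact ⟨i1.1, fun h => i1.2.1 (i2.1 h), fun h => i1.2.2 (i2.2 h)⟩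
  have hpre : ∀ j ≤ n₀, |S.TT j H - S.TT j Hc| ≤ 2.01e-5 := by
    intro j hj
    have h3 : |S.TT j H - S.TT j Hc| ≤ 2.01e-5 * (1/26.8)^(n₀-j) := S.t_prefix 0 0 hj h1 h2
    have h4 : (1/26.8 : ℝ)^(n₀-j) ≤ 1 := pow_le_one₀ (by norm_num) (by norm_num)
    nlinarith
  have hA : ∀ j, M₁ ≤ j → j ≤ m₂ → |S.TT j H - 0.005| ≤ 2.4e-4 := by
    intro j hj hj'
    rcases le_or_gt j n₀ with h | h
    · have i1 := abs_le.1 (hpre j h)
      have i2 := abs_le.1 (hT j hj h)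
      rw [abs_le]
      constructor <;> linarith [i1.1, i1.2, i2.1, i2.2]
    · refine hw1.stay (d := 2.4e-4) (by norm_num) (by norm_num [abs_of_pos]) ?_ h.le hj'
      have i1 := abs_le.1 (hpre n₀ le_rfl)
      have i2 := abs_le.1 (hT n₀ hM le_rfl)
      rw [abs_le]
      constructor <;> linarith [i1.1, i1.2, i2.1, i2.2]
  have hm2 := abs_le.1 (hA m₂ (by omega) le_rfl)
  have hm2' : |S.TT m₂ H| ≤ 0.0056 := by
    rw [abs_le]; constructor <;> linarith
  have hB : ∀ j ≥ m₂, |S.TT j H| ≤ 0.0056 := by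
    intro j hj
    have h' := abs_le.1 hm2'
    have := (hw2 j).hull (lo := -0.0056) (hi := 0.0056) (by norm_num) (by norm_num) (by norm_num)
      (by norm_num) h'.1 h'.2 j hj le_rfl
    exact abs_le.2 this
  have hC : ∀ j ≥ m₂ + 2800, |S.TT j H + 0.005| ≤ 1.05e-4 := by
    intro j hj
    have := (hw2 j).band (by norm_num [abs_of_pos]) hm2' hj le_rfl
    simpa using this
  refine ⟨H, h1, h2, hA, hB, hC, ?_⟩
  classical
  have hex : ∃ t, m₂ ≤ t ∧ S.TT t H ≤ 0 := by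
    refine ⟨m₂ + 2800, by omega, ?_⟩
    have := abs_le.1 (hC (m₂ + 2800) le_rfl)
    linarith [this.2]
  let t := Nat.find hex
  have ht := Nat.find_spec hex
  have hmin : ∀ j, m₂ ≤ j → j < t → 0 < S.TT j H := by
    intro j hj hjt
    have := Nat.find_min hex hjt
    by_contra hcon
    exact this ⟨hj, not_lt.1 hcon⟩
  have htl : t ≤ m₂ + 2800 := by
    apply Nat.find_min' hex
    refine ⟨by omega, ?_⟩
    have := abs_le.1 (hC (m₂ + 2800) le_rfl)
    linarith [this.2]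
  have htm : m₂ < t := by
    rcases Nat.lt_or_ge m₂ t with h | h
    · exact h
    · have e : t = m₂ := le_antisymm h ht.1
      have h3 : S.TT t H ≤ 0 := ht.2
      rw [e] at h3
      linarith
  refine ⟨t, htm, htl, ?_, ?_⟩
  · have hdown : ∀ k, m₂ ≤ t - 1 - k → k ≤ t - 1 → S.TT t H + 4e-6 ≤ S.TT (t - 1 - k) H := by
      intro k
      induction k with
      | zero =>
        intro h3 _
        have h4 := hmin (t-1) h3 (by omega)
        have h5 := hw2 t (t-1) h3 (by omega) ((hB _ h3).trans (by norm_num))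
        have h6 := h5.2.2 (by linarith)
        have e : t - 1 + 1 = t := by omega
        rw [e] at h6
        simp only [Nat.sub_zero]
        linarith
      | succ k ih =>
        intro h3 h7
        have ih' := ih (by omega) (by omega)
        have h4 := hmin (t-1-(k+1)) h3 (by omega)
        have h5 := hw2 t (t-1-(k+1)) h3 (by omega) ((hB _ h3).trans (by norm_num))
        have h6 := h5.2.2 (by linarith)
        have e : t - 1 - (k+1) + 1 = t - 1 - k := by omega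
        rw [e] at h6
        linarith
    intro j hj hjt
    rcases le_or_gt m₂ j with h | h
    · have := hdown (t - 1 - j) (by omega) (by omega)
      have e : t - 1 - (t - 1 - j) = j := by omega
      rw [e] at this
      exact this
    · have i2 := abs_le.1 (hA j hj h.le)
      have h3 : S.TT t H ≤ 0 := ht.2
      linarith
  · intro j hj
    have h3 : S.TT t H ≤ 0 := ht.2
    have h4 := abs_le.1 (hB t (by omega))
    have := ((hw2 j).mono htm.le le_rfl).hull (lo := -0.0056) (hi := 0) (by norm_num)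
      (by norm_num) (by norm_num) (by norm_num) h4.1 h3 j hj le_rfl
    exact this.2

end Sys

end Pool.Agent.H47
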