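import Mathlib

namespace Pool.Agent.H47

open Real Set

/-- the centre potential -/
noncomputable def vv (t : ℝ) : ℝ := cos (4*π*t) - cos (2*π*t)
noncomputable def vv' (t : ℝ) : ℝ := -(4*π) * sin (4*π*t) + (2*π) * sin (2*π*t)
noncomputable def vv'' (t : ℝ) : ℝ := -(16*π^2) * cos (4*π*t) + (4*π^2) * cos (2*π*t)
/-- the base observable -/
noncomputable def cc (x : ℝ) : ℝ := cos (2*π*x)
noncomputable def cc' (x : ℝ) : ℝ := -(2*π) * sin (2*π*x)

lemma pi_sq_lt : π^2 < 9.8697 := by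
  have h1 := pi_lt_d4
  have h0 := pi_pos
  nlinarith

lemma pi_sq_gt : 9.869 < π^2 := by
  have h1 := pi_gt_d4
  nlinarith

lemma hasDerivAt_vv (t : ℝ) : HasDerivAt vv (vv' t) t := by
  unfold vv vv'
  have h1 : HasDerivAt (fun t : ℝ => 4*π*t) (4*π) t := by
    simpa using (hasDerivAt_id t).const_mul (4*π)
  have h2 : HasDerivAt (fun t : ℝ => 2*π*t) (2*π) t := by
    simpa using (hasDerivAt_id t).const_mul (2*π)
  have h := (h1.cos).sub (h2.cos)
  exact h.congr_deriv (by ring)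

lemma hasDerivAt_vv' (t : ℝ) : HasDerivAt vv' (vv'' t) t := by
  unfold vv' vv''
  have h1 : HasDerivAt (fun t : ℝ => 4*π*t) (4*π) t := by
    simpa using (hasDerivAt_id t).const_mul (4*π)
  have h2 : HasDerivAt (fun t : ℝ => 2*π*t) (2*π) t := by
    simpa using (hasDerivAt_id t).const_mul (2*π)
  have h := ((h1.sin).const_mul (-(4*π))).add ((h2.sin).const_mul (2*π))
  exact h.congr_deriv (by ring)

lemma hasDerivAt_cc (t : ℝ) : HasDerivAt cc (cc' t) t := by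
  unfold cc cc'
  have h2 : HasDerivAt (fun t : ℝ => 2*π*t) (2*π) t := by
    simpa using (hasDerivAt_id t).const_mul (2*π)
  have h := (h2.cos)
  exact h.congr_deriv (by ring)

lemma hasDerivAt_cc' (t : ℝ) : HasDerivAt cc' (-(4*π^2) * cos (2*π*t)) t := by
  unfold cc'
  have h2 : HasDerivAt (fun t : ℝ => 2*π*t) (2*π) t := by
    simpa using (hasDerivAt_id t).const_mul (2*π)
  have h := (h2.sin).const_mul (-(2*π))
  exact h.congr_deriv (by ring)

lemma abs_vv'_le (t : ℝ) : |vv' t| ≤ 18.85 := by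
  unfold vv'
  have h1 := pi_lt_d4
  have h0 := pi_pos
  have a1 := abs_sin_le_one (4*π*t)
  have a2 := abs_sin_le_one (2*π*t)
  rw [abs_le] at *
  constructor <;> nlinarith

lemma abs_vv''_le (t : ℝ) : |vv'' t| ≤ 197.4 := by
  unfold vv''
  have h1 := pi_sq_lt
  have h0 : 0 < π^2 := by positivity
  have a1 := abs_cos_le_one (4*π*t)
  have a2 := abs_cos_le_one (2*π*t)
  rw [abs_le] at *
  constructor <;> nlinarith

lemma abs_cc'_le (t : ℝ) : |cc' t| ≤ 6.2832 := by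
  unfold cc'
  have h1 := pi_lt_d4
  have h0 := pi_pos
  have a2 := abs_sin_le_one (2*π*t)
  rw [abs_le] at *
  constructor <;> nlinarith

lemma abs_cc''_le (t : ℝ) : |-(4*π^2) * cos (2*π*t)| ≤ 39.48 := by
  have h1 := pi_sq_lt
  have h0 : 0 < π^2 := by positivity
  have a2 := abs_cos_le_one (2*π*t)
  rw [abs_le] at *
  constructor <;> nlinarith

lemma abs_cc_le (t : ℝ) : |cc t| ≤ 1 := abs_cos_le_one _

lemma vv''_le_of_small {t : ℝ} (h : |t| ≤ 1/12) : vv'' t ≤ -39.47 := by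
  unfold vv''
  have h1 := pi_sq_gt
  have hp := pi_pos
  rw [abs_le] at h
  have c1 : 1/2 ≤ cos (4*π*t) := by
    rw [← cos_pi_div_three, ← cos_abs (4*π*t)]
    apply cos_le_cos_of_nonneg_of_le_pi
    · positivity
    · linarith
    · rw [abs_le]; constructor <;> nlinarith
  have a2 := cos_le_one (2*π*t)
  nlinarith [mul_nonneg (sq_nonneg π) (sub_nonneg.2 c1), mul_nonneg (sq_nonneg π) (sub_nonneg.2 a2)]

/-- general Lipschitz from derivative bound on the line -/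
lemma lip_of_deriv {f f' : ℝ → ℝ} {C : ℝ} (hf : ∀ x, HasDerivAt f (f' x) x)
    (hC : ∀ x, |f' x| ≤ C) (a b : ℝ) : |f a - f b| ≤ C * |a - b| := by
  have := Convex.norm_image_sub_le_of_norm_hasDerivWithin_le (f := f) (f' := f') (s := univ)
    (x := b) (y := a) (C := C)
    (fun x _ => (hf x).hasDerivWithinAt) (fun x _ => by simpa using hC x) convex_univ
    (mem_univ _) (mem_univ _)
  simpa using this

lemma vv_lip (a b : ℝ) : |vv a - vv b| ≤ 18.85 * |a - b| :=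
  lip_of_deriv hasDerivAt_vv abs_vv'_le a b

lemma vv'_lip (a b : ℝ) : |vv' a - vv' b| ≤ 197.4 * |a - b| :=
  lip_of_deriv hasDerivAt_vv' abs_vv''_le a b

lemma cc_lip (a b : ℝ) : |cc a - cc b| ≤ 6.2832 * |a - b| :=
  lip_of_deriv hasDerivAt_cc abs_cc'_le a b

lemma cc'_lip (a b : ℝ) : |cc' a - cc' b| ≤ 39.48 * |a - b| :=
  lip_of_deriv hasDerivAt_cc' abs_cc''_le a b

/-- four-point estimate for difference quotients along straight segments. -/
lemma four_point_aux {f f' : ℝ → ℝ} {K M : ℝ} (hf : ∀ x, HasDerivAt f (f' x) x)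
    (hK : ∀ a b, |f' a - f' b| ≤ K * |a - b|) (hM : ∀ a, |f' a| ≤ M)
    (p₁ e₁ τ₁ p₂ e₂ τ₂ : ℝ) (h1 : τ₁ ≠ 0) (h2 : τ₂ ≠ 0) {r E : ℝ} (hE : |e₁| ≤ E) (hK0 : 0 ≤ K)
    (hr1 : |p₁ - p₂| ≤ r) (hr2 : |(p₁ + τ₁ * e₁) - (p₂ + τ₂ * e₂)| ≤ r) :
    |(f (p₁ + τ₁ * e₁) - f p₁) / τ₁ - (f (p₂ + τ₂ * e₂) - f p₂) / τ₂| ≤
      K * r * E + M * |e₁ - e₂| := by
  have hr : 0 ≤ r := le_trans (abs_nonneg _) hr1
  set φ : ℝ → ℝ := fun θ => f (p₁ + θ * (τ₁ * e₁)) / τ₁ - f (p₂ + θ * (τ₂ * e₂)) / τ₂ with hφ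
  have hd : ∀ θ, HasDerivAt φ (f' (p₁ + θ * (τ₁ * e₁)) * e₁ - f' (p₂ + θ * (τ₂ * e₂)) * e₂) θ := by
    intro θ
    have i1 : HasDerivAt (fun θ : ℝ => p₁ + θ * (τ₁ * e₁)) (τ₁ * e₁) θ := by
      simpa using ((hasDerivAt_id θ).mul_const (τ₁ * e₁)).const_add p₁
    have i2 : HasDerivAt (fun θ : ℝ => p₂ + θ * (τ₂ * e₂)) (τ₂ * e₂) θ := by
      simpa using ((hasDerivAt_id θ).mul_const (τ₂ * e₂)).const_add p₂
    have j1 := ((hf (p₁ + θ * (τ₁ * e₁))).comp θ i1).div_const τ₁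
    have j2 := ((hf (p₂ + θ * (τ₂ * e₂))).comp θ i2).div_const τ₂
    have j := j1.sub j2
    exact j.congr_deriv (by field_simp)
  have hb : ∀ θ ∈ Ico (0:ℝ) 1, ‖f' (p₁ + θ * (τ₁ * e₁)) * e₁ - f' (p₂ + θ * (τ₂ * e₂)) * e₂‖ ≤
      K * r * E + M * |e₁ - e₂| := by
    intro θ hθ
    have e : f' (p₁ + θ * (τ₁ * e₁)) * e₁ - f' (p₂ + θ * (τ₂ * e₂)) * e₂ =
      (f' (p₁ + θ * (τ₁ * e₁)) - f' (p₂ + θ * (τ₂ * e₂))) * e₁ +
        f' (p₂ + θ * (τ₂ * e₂)) * (e₁ - e₂) := by ring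
    rw [e]
    refine (norm_add_le _ _).trans ?_
    rw [norm_mul, norm_mul]
    simp only [Real.norm_eq_abs]
    have hc : |p₁ + θ * (τ₁ * e₁) - (p₂ + θ * (τ₂ * e₂))| ≤ r := by
      have e2 : p₁ + θ * (τ₁ * e₁) - (p₂ + θ * (τ₂ * e₂)) =
        (1 - θ) * (p₁ - p₂) + θ * ((p₁ + τ₁ * e₁) - (p₂ + τ₂ * e₂)) := by ring
      rw [e2]
      refine (abs_add_le _ _).trans ?_
      rw [abs_mul, abs_mul, abs_of_nonneg hθ.1, abs_of_nonneg (by linarith [hθ.2] : 0 ≤ 1 - θ)]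
      have := hθ.1; have := hθ.2
      nlinarith [mul_le_mul_of_nonneg_left hr1 (by linarith : 0 ≤ 1 - θ),
        mul_le_mul_of_nonneg_left hr2 hθ.1]
    have k1 := hK (p₁ + θ * (τ₁ * e₁)) (p₂ + θ * (τ₂ * e₂))
    have k2 := hM (p₂ + θ * (τ₂ * e₂))
    have k3 : |f' (p₁ + θ * (τ₁ * e₁)) - f' (p₂ + θ * (τ₂ * e₂))| ≤ K * r :=
      k1.trans (mul_le_mul_of_nonneg_left hc hK0)
    have k4 : |f' (p₁ + θ * (τ₁ * e₁)) - f' (p₂ + θ * (τ₂ * e₂))| * |e₁| ≤ K * r * E :=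
      mul_le_mul k3 hE (abs_nonneg _) (by positivity)
    have k5 : |f' (p₂ + θ * (τ₂ * e₂))| * |e₁ - e₂| ≤ M * |e₁ - e₂| :=
      mul_le_mul_of_nonneg_right k2 (abs_nonneg _)
    linarith
  have := norm_image_sub_le_of_norm_deriv_le_segment_01' (f := φ)
    (fun x _ => (hd x).hasDerivWithinAt) hb
  have e3 : φ 1 - φ 0 = (f (p₁ + τ₁ * e₁) - f p₁) / τ₁ - (f (p₂ + τ₂ * e₂) - f p₂) / τ₂ := by
    simp only [hφ]; ring_nf
  rw [← e3]
  simpa [Real.norm_eq_abs] using this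

/-- concavity: consecutive slopes on `[-1/12, 1/12]`. -/
lemma vv_concave_slope {a b c : ℝ} (ha : -(1/12) ≤ a) (hab : a < b) (hbc : b < c) (hc : c ≤ 1/12) :
    19.7 * (c - a) ≤ (vv b - vv a) / (b - a) - (vv c - vv b) / (c - b) := by
  set w : ℝ → ℝ := fun t => vv t + 19.7 * t^2 with hw
  have hd1 : ∀ t, HasDerivAt w (vv' t + 39.4 * t) t := by
    intro t
    have h := (hasDerivAt_vv t).add (((hasDerivAt_pow 2 t)).const_mul 19.7)
    exact h.congr_deriv (by norm_num; ring)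
  have hd2 : ∀ t, HasDerivAt (fun t => vv' t + 39.4 * t) (vv'' t + 39.4) t := by
    intro t
    have h := (hasDerivAt_vv' t).add (((hasDerivAt_id t)).const_mul 39.4)
    exact h.congr_deriv (by norm_num)
  have hconc : ConcaveOn ℝ (Icc (-(1/12):ℝ) (1/12)) w := by
    apply concaveOn_of_hasDerivWithinAt2_nonpos (convex_Icc _ _) (f' := fun t => vv' t + 39.4 * t)
      (f'' := fun t => vv'' t + 39.4)
    · exact fun t _ => (hd1 t).continuousAt.continuousWithinAt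
    · exact fun t _ => (hd1 t).hasDerivWithinAt
    · exact fun t _ => (hd2 t).hasDerivWithinAt
    · intro t ht
      rw [interior_Icc] at ht
      have := vv''_le_of_small (t := t) (by rw [abs_le]; constructor <;> linarith [ht.1, ht.2])
      linarith
  have h := hconc.slope_anti_adjacent (x := a) (y := b) (z := c) ⟨ha, by linarith⟩
    ⟨by linarith, hc⟩ hab hbc
  have hb' : 0 < b - a := by linarith
  have hc' : 0 < c - b := by linarith
  have e1 : (w b - w a) / (b - a) = (vv b - vv a) / (b - a) + 19.7 * (b + a) := by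
    simp only [hw]; field_simp; ring
  have e2 : (w c - w b) / (c - b) = (vv c - vv b) / (c - b) + 19.7 * (c + b) := by
    simp only [hw]; field_simp; ring
  rw [e1, e2] at h
  linarith

lemma vv_zero : vv 0 = 0 := by simp [vv]
lemma vv'_zero : vv' 0 = 0 := by simp [vv']

lemma abs_vv_le (t : ℝ) : |vv t| ≤ 2 := by
  unfold vv
  have a1 := abs_cos_le_one (4*π*t)
  have a2 := abs_cos_le_one (2*π*t)
  rw [abs_le] at *
  constructor <;> linarith

lemma abs_vv'_le_lin (t : ℝ) : |vv' t| ≤ 197.4 * |t| := by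
  have := vv'_lip t 0
  simpa [vv'_zero] using this

lemma abs_vv_le_sq (t : ℝ) : |vv t| ≤ 197.4 * t^2 := by
  have h := Convex.norm_image_sub_le_of_norm_hasDerivWithin_le (f := vv) (f' := vv')
    (s := Icc (-|t|) |t|)
    (x := 0) (y := t) (C := 197.4 * |t|)
    (fun x _ => (hasDerivAt_vv x).hasDerivWithinAt)
    (fun x hx => by
      have h1 := abs_vv'_le_lin x
      have h2 : |x| ≤ |t| := abs_le.2 hx
      rw [Real.norm_eq_abs]
      nlinarith) (convex_Icc _ _)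
    ⟨by linarith [abs_nonneg t], abs_nonneg t⟩ ⟨neg_abs_le t, le_abs_self t⟩
  rw [vv_zero] at h
  simp only [sub_zero, Real.norm_eq_abs] at h
  nlinarith [abs_mul_abs_self t]

/-- slopes of vv on the positive side -/
lemma vv_slope_pos {a b m : ℝ} (hm : 0 ≤ m) (ha : m ≤ a) (hab : a < b) (hb : b ≤ 1/12) :
    (vv b - vv a) / (b - a) ≤ -39.4 * m := by
  -- slope comparison with v' via concavity of w
  have hd : ∀ x ∈ Icc (0:ℝ) (1/12), vv' x ≤ -39.4 * x := by
    intro x hx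
    have := image_le_of_deriv_right_le_deriv_boundary (f := vv') (f' := vv'') (a := 0) (b := 1/12)
      (B := fun x => -39.4 * x) (B' := fun _ => -39.4)
      (fun t _ => (hasDerivAt_vv' t).continuousAt.continuousWithinAt)
      (fun t _ => (hasDerivAt_vv' t).hasDerivWithinAt)
      (by simp [vv'_zero])
      (by fun_prop)
      (fun t _ => by
        have h := ((hasDerivAt_id t).const_mul (-39.4)).hasDerivWithinAt (s := Ici t)
        simpa using h)
      (fun t ht => by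
        have := vv''_le_of_small (t := t) (by rw [abs_le]; constructor <;> linarith [ht.1, ht.2])
        linarith) hx
    exact this
  have hba : 0 < b - a := by linarith
  obtain ⟨c, hc, hce⟩ := exists_hasDerivAt_eq_slope vv vv' hab
    (fun t _ => (hasDerivAt_vv t).continuousAt.continuousWithinAt) (fun t _ => hasDerivAt_vv t)
  rw [← hce]
  have := hd c ⟨by linarith [hc.1], by linarith [hc.2]⟩
  have h1 := hc.1
  nlinarith

lemma vv_neg (t : ℝ) : vv (-t) = vv t := by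
  unfold vv
  rw [show 4*π*(-t) = -(4*π*t) by ring, show 2*π*(-t) = -(2*π*t) by ring, cos_neg, cos_neg]

lemma vv_slope_neg {a b m : ℝ} (hm : 0 ≤ m) (hb : b ≤ -m) (hab : a < b) (ha : -(1/12) ≤ a) :
    39.4 * m ≤ (vv b - vv a) / (b - a) := by
  have h := vv_slope_pos (a := -b) (b := -a) hm (by linarith) (by linarith) (by linarith)
  rw [vv_neg, vv_neg] at h
  have : (vv b - vv a) / (b - a) = -((vv a - vv b) / (-a - -b)) := by
    rw [show -a - -b = b - a by ring]; ring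
  rw [this]; linarith

lemma vv_at : vv (-(1/12)) ≤ -0.36 := by
  unfold vv
  rw [show 4*π*(-(1/12)) = -(π/3) by ring, show 2*π*(-(1/12)) = -(π/6) by ring, cos_neg, cos_neg,
    cos_pi_div_three, cos_pi_div_six]
  have : (1.72:ℝ) < √3 := by
    apply Real.lt_sqrt_of_sq_lt; norm_num
  linarith

lemma vv_at2 : vv (-(1/2)) = 2 := by
  unfold vv
  rw [show 4*π*(-(1/2)) = -(2*π) by ring, show 2*π*(-(1/2)) = -(π) by ring, cos_neg, cos_neg,
    cos_two_pi, cos_pi]
  norm_num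

end Pool.Agent.H47
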