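import Pool.Agent.H47.TorusDefs
import Pool.Agent.H47.V

/-! ### Perturb -/

namespace Pool.Agent.H47

open Set Filter Topology
open scoped NNReal

lemma one_le_cast {r : ℕ∞} (hr : 1 ≤ r) : (1 : WithTop ℕ∞) ≤ (r : WithTop ℕ∞) := by
  exact_mod_cast hr

lemma ne_zero_cast {r : ℕ∞} (hr : 1 ≤ r) : (r : WithTop ℕ∞) ≠ 0 := by
  intro h
  have h1 := one_le_cast hr
  rw [h] at h1
  exact absurd h1 (by simp)

/-- identity plus a contraction -/
lemma exists_inverse_id {r : ℕ∞} (hr : 1 ≤ r) {R : V3 → V3} (hR : ContDiff ℝ r R)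
    (perR : ∀ n p, R (p + zc n) = R p) (hlip : ∀ p q, ‖R p - R q‖ ≤ 1/2 * ‖p - q‖) :
    ∃ E : V3 → V3, ContDiff ℝ r E ∧ (∀ n p, E (p + zc n) = E p + zc n) ∧
      (∀ p, E (p + R p) = p) ∧ (∀ p, E p + R (E p) = p) := by
  have happ : ApproximatesLinearOn (fun p => p + R p)
      ((ContinuousLinearEquiv.refl ℝ V3 : V3 ≃L[ℝ] V3) : V3 →L[ℝ] V3) univ (1/2 : ℝ≥0) := by
    intro x _ y _
    have := hlip x y
    have e : (x + R x) - (y + R y) -
        ((ContinuousLinearEquiv.refl ℝ V3 : V3 ≃L[ℝ] V3) : V3 →L[ℝ] V3) (x - y) = R x - R y := by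
      simp only [ContinuousLinearEquiv.coe_refl, ContinuousLinearMap.coe_id', id_eq]
      abel
    rw [e]
    push_cast
    exact this
  have hnt : (1/2 : ℝ≥0) < ‖(((ContinuousLinearEquiv.refl ℝ V3 : V3 ≃L[ℝ] V3).symm) :
      V3 →L[ℝ] V3)‖₊⁻¹ := by
    have : ‖(((ContinuousLinearEquiv.refl ℝ V3 : V3 ≃L[ℝ] V3).symm) : V3 →L[ℝ] V3)‖₊ = 1 := by
      simp
    rw [this, inv_one]
    rw [div_lt_iff₀ (by norm_num)]
    norm_num
  set e : V3 ≃ₜ V3 := happ.toHomeomorph _ (Or.inr hnt) with he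
  have hecoe : ∀ p, e p = p + R p := fun p => rfl
  have hRlip : LipschitzWith (1/2 : ℝ≥0) R := by
    apply LipschitzWith.of_dist_le_mul
    intro p q
    rw [dist_eq_norm, dist_eq_norm]
    have := hlip p q
    push_cast
    exact this
  have hinj : ∀ a, Function.Injective (ContinuousLinearMap.id ℝ V3 + fderiv ℝ R a) := by
    intro a
    rw [injective_iff_map_eq_zero]
    intro v hv
    have h1 := (fderiv ℝ R a).le_opNorm v
    have h2 : ‖fderiv ℝ R a‖ ≤ ((1/2 : ℝ≥0) : ℝ) := norm_fderiv_le_of_lipschitz ℝ hRlip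
    have h3 : v = -(fderiv ℝ R a v) := by
      have : v + fderiv ℝ R a v = 0 := hv
      exact eq_neg_of_add_eq_zero_left this
    have h4 : ‖v‖ = ‖fderiv ℝ R a v‖ := by
      conv_lhs => rw [h3]
      rw [norm_neg]
    have h5 := norm_nonneg v
    push_cast at h2
    have h6 : ‖v‖ = 0 := by nlinarith
    exact norm_eq_zero.1 h6
  have hderiv : ∀ a, HasFDerivAt e
      (((LinearEquiv.ofInjectiveEndo (ContinuousLinearMap.id ℝ V3 + fderiv ℝ R a).toLinearMap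
        (hinj a)).toContinuousLinearEquiv : V3 ≃L[ℝ] V3) : V3 →L[ℝ] V3) a := by
    intro a
    have h1 : HasFDerivAt (fun p => p + R p) (ContinuousLinearMap.id ℝ V3 + fderiv ℝ R a) a :=
      (hasFDerivAt_id a).add (hR.differentiable (ne_zero_cast hr) a).hasFDerivAt
    have h2 : (((LinearEquiv.ofInjectiveEndo (ContinuousLinearMap.id ℝ V3 +
        fderiv ℝ R a).toLinearMap (hinj a)).toContinuousLinearEquiv : V3 ≃L[ℝ] V3) :
        V3 →L[ℝ] V3) = ContinuousLinearMap.id ℝ V3 + fderiv ℝ R a := by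
      ext v i
      rfl
    rw [h2]
    exact h1
  have hsm : ContDiff ℝ r e.symm := by
    apply e.contDiff_symm hderiv
    have : ContDiff ℝ r (fun p => p + R p) := contDiff_id.add hR
    exact this
  refine ⟨e.symm, hsm, ?_, ?_, ?_⟩
  · intro n p
    rw [Homeomorph.symm_apply_eq, hecoe, perR]
    have := e.apply_symm_apply p
    rw [hecoe] at this
    conv_lhs => rw [← this]
    abel
  · intro p
    rw [← hecoe]; exact e.symm_apply_apply p
  · intro p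
    rw [← hecoe]; exact e.apply_symm_apply p

/-- perturbation of a diffeomorphism of the cover -/
lemma exists_inverse {r : ℕ∞} (hr : 1 ≤ r) {F G : V3 → V3} (hG : ContDiff ℝ r G)
    (eG : Equi G) (h1 : ∀ p, G (F p) = p) (h2 : ∀ p, F (G p) = p) {K : ℝ}
    (hK : ∀ p q, ‖G p - G q‖ ≤ K * ‖p - q‖) {P : V3 → V3} (hP : ContDiff ℝ r P)
    (perP : ∀ n p, P (p + zc n) = P p) {c : ℝ} (hc0 : 0 ≤ c)
    (hc : ∀ p q, ‖P p - P q‖ ≤ c * ‖p - q‖) (hKc : c * K ≤ 1/2) :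
    ∃ G', ContDiff ℝ r G' ∧ Equi G' ∧ (∀ p, G' (F p + P p) = p) ∧
      (∀ p, F (G' p) + P (G' p) = p) := by
  obtain ⟨E, hE, perE, hE1, hE2⟩ := exists_inverse_id hr (R := P ∘ G) (hP.comp hG) (by
      intro n p
      obtain ⟨m, hm⟩ := eG n
      simp only [Function.comp_apply]
      rw [hm, perP]) (by
      intro p q
      simp only [Function.comp_apply]
      refine (hc _ _).trans ?_
      calc c * ‖G p - G q‖ ≤ c * (K * ‖p - q‖) := mul_le_mul_of_nonneg_left (hK p q) hc0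
        _ = (c * K) * ‖p - q‖ := by ring
        _ ≤ 1/2 * ‖p - q‖ := mul_le_mul_of_nonneg_right hKc (norm_nonneg _))
  refine ⟨fun p => G (E p), hG.comp hE, ?_, ?_, ?_⟩
  · intro n
    obtain ⟨m, hm⟩ := eG n
    exact ⟨m, fun p => by simp only [perE, hm]⟩
  · intro p
    have := hE1 (F p)
    simp only [Function.comp_apply, h1] at this
    show G (E (F p + P p)) = p
    rw [this, h1]
  · intro p
    show F (G (E p)) + P (G (E p)) = p
    rw [h2]
    exact hE2 p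

/-- continuous periodic maps are bounded -/
lemma bounded_of_periodic {W : Type*} [SeminormedAddCommGroup W] {H : V3 → W} (hH : Continuous H)
    (per : ∀ n p, H (p + zc n) = H p) : ∃ C, ∀ p, ‖H p‖ ≤ C := by
  obtain ⟨C, hC⟩ := (isCompact_Icc (a := (0 : V3)) (b := 1)).exists_bound_of_continuousOn
    hH.continuousOn
  refine ⟨C, fun p => ?_⟩
  have hp : p = (fun i => Int.fract (p i)) + zc (fun i => ⌊p i⌋) := by
    ext i
    simp [zc]
  rw [hp, per]
  apply hC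
  constructor
  · intro i; exact Int.fract_nonneg _
  · intro i; exact (Int.fract_lt_one _).le

lemma periodic_fderiv {F : V3 → V3} (eF : Equi F) (n : Fin 3 → ℤ) (p : V3) :
    fderiv ℝ F (p + zc n) = fderiv ℝ F p := by
  obtain ⟨m, hm⟩ := eF n
  rw [← fderiv_comp_add_right]
  have : (fun x => F (x + zc n)) = fun x => F x + zc m := funext hm
  rw [this, fderiv_add_const]

/-- equivariant `C^1` maps are Lipschitz -/
lemma lipschitz_of_equi {r : ℕ∞} (hr : 1 ≤ r) {G : V3 → V3} (hG : ContDiff ℝ r G)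
    (eG : Equi G) : ∃ K, 0 < K ∧ ∀ p q, ‖G p - G q‖ ≤ K * ‖p - q‖ := by
  obtain ⟨C, hC⟩ := bounded_of_periodic (H := fderiv ℝ G) (hG.continuous_fderiv (ne_zero_cast hr))
    (periodic_fderiv eG)
  refine ⟨max C 1, lt_max_of_lt_right one_pos, fun p q => ?_⟩
  have := Convex.norm_image_sub_le_of_norm_hasFDerivWithin_le (f := G) (f' := fderiv ℝ G)
    (s := univ) (x := q) (y := p) (C := max C 1)
    (fun x _ => (hG.differentiable (ne_zero_cast hr) x).hasFDerivAt.hasFDerivWithinAt)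
    (fun x _ => (hC x).trans (le_max_left _ _)) convex_univ (mem_univ _) (mem_univ _)
  exact this

lemma per_of_bdd_sub {F F' : V3 → V3} (eF : Equi F) (eF' : Equi F')
    (hb : ∀ p, ‖F' p - F p‖ ≤ 1/3) (n : Fin 3 → ℤ) (p : V3) :
    F' (p + zc n) - F (p + zc n) = F' p - F p := by
  obtain ⟨m, hm⟩ := eF n
  obtain ⟨m', hm'⟩ := eF' n
  have h1 := hb (p + zc n)
  have h2 := hb p
  rw [hm, hm'] at h1 ⊢
  have h3 : ‖zc (m' - m)‖ < 1 := by
    have e : zc (m' - m) = (F' p + zc m' - (F p + zc m)) - (F' p - F p) := by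
      rw [zc_sub]; abel
    rw [e]
    refine lt_of_le_of_lt (norm_sub_le _ _) ?_
    linarith
  have h4 : m' - m = 0 := by
    funext i
    have h4 := lt_of_le_of_lt (norm_le_pi_norm (zc (m' - m)) i) h3
    simp only [zc, Real.norm_eq_abs] at h4
    have h5 : |(m' - m) i| < 1 := by exact_mod_cast h4
    simpa using h5
  rw [sub_eq_zero.1 h4]
  abel

lemma dist_proj_le (a b : V3) (n : Fin 3 → ℤ) : dist (proj a) (proj b) ≤ ‖b - a - zc n‖ := by
  rw [dist_pi_le_iff (norm_nonneg _)]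
  intro i
  rw [dist_comm, dist_eq_norm]
  have h1 : proj b i - proj a i = ((b i - a i : ℝ) : UnitAddCircle) := rfl
  rw [h1, UnitAddCircle.norm_eq]
  refine (round_le _ (n i)).trans ?_
  exact norm_le_pi_norm (b - a - zc n) i

lemma exists_zc_dist (a b : V3) : ∃ n, ‖b - a - zc n‖ ≤ dist (proj a) (proj b) := by
  refine ⟨fun i => round (b i - a i), ?_⟩
  rw [pi_norm_le_iff_of_nonneg dist_nonneg]
  intro i
  have h0 := dist_le_pi_dist (proj a) (proj b) i
  rw [dist_comm, dist_eq_norm] at h0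
  have h1 : proj b i - proj a i = ((b i - a i : ℝ) : UnitAddCircle) := rfl
  rw [h1, UnitAddCircle.norm_eq] at h0
  exact h0

lemma mem_crBall_self {r : ℕ∞} (f : Dyn r) (n : ℕ) {ε : ℝ} (hε : 0 < ε) : f ∈ crBall f n ε := by
  obtain ⟨F, hF⟩ := f.lift
  exact ⟨F, F, hF, hF, 0, hε, fun j _ p => by simp⟩

lemma isOpen_crBall {r : ℕ∞} (f : Dyn r) {n : ℕ} (hn : (n : ℕ∞) ≤ r) {ε : ℝ} (hε : 0 < ε) :
    IsOpen (crBall f n ε) :=
  TopologicalSpace.isOpen_generateFrom_of_mem ⟨f, n, ε, hn, hε, rfl⟩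

end Pool.Agent.H47

/-! ### Baire -/

namespace Pool.Agent.H47

open Set Filter Topology
open scoped NNReal

abbrev Jr (r : ℕ∞) := {j : ℕ // (j : ℕ∞) ≤ r}
abbrev Wj (j : ℕ) := ContinuousMultilinearMap ℝ (fun _ : Fin j => V3) V3
abbrev Yr (r : ℕ∞) := ∀ j : Jr r, BoundedContinuousFunction V3 (Wj j.1)

/-- index zero -/
abbrev i0 (r : ℕ∞) : Jr r := ⟨0, by simp⟩
/-- index one -/
abbrev i1 {r : ℕ∞} (hr : 1 ≤ r) : Jr r := ⟨1, by exact_mod_cast hr⟩

instance completeYr (r : ℕ∞) : CompleteSpace (Yr r) := Pi.complete _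

instance cgYr (r : ℕ∞) : (uniformity (Yr r)).IsCountablyGenerated := inferInstance

/-- compatible families of derivatives of periodic maps -/
def XX (r : ℕ∞) : Set (Yr r) :=
  {φ | (∀ n p, φ (i0 r) (p + zc n) = φ (i0 r) p) ∧
    ∀ (j : ℕ) (hj : ((j+1 : ℕ) : ℕ∞) ≤ r) (x : V3),
      HasFDerivAt (φ ⟨j, le_trans (by exact_mod_cast Nat.le_succ j) hj⟩)
        ((φ ⟨j+1, hj⟩ x).curryLeft) x}

lemma isClosed_XX (r : ℕ∞) : IsClosed (XX r) := by
  apply isClosed_of_closure_subset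
  intro φ hφ
  rw [mem_closure_iff_seq_limit] at hφ
  obtain ⟨ψ, hψ, hlim⟩ := hφ
  rw [tendsto_pi_nhds] at hlim
  have hu : ∀ j : Jr r, TendstoUniformly (fun n => (ψ n j : V3 → Wj j.1)) (φ j) atTop :=
    fun j => BoundedContinuousFunction.tendsto_iff_tendstoUniformly.1 (hlim j)
  refine ⟨?_, ?_⟩
  · intro n p
    have h1 := (hu (i0 r)).tendsto_at (p + zc n)
    have h2 := (hu (i0 r)).tendsto_at p
    refine tendsto_nhds_unique h1 (h2.congr (fun k => ?_))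
    exact ((hψ k).1 n p).symm
  · intro j hj x
    have hun : TendstoUniformly (fun n => fun x => ((ψ n ⟨j+1, hj⟩ x).curryLeft :
        V3 →L[ℝ] Wj j)) (fun x => ((φ ⟨j+1, hj⟩ x).curryLeft : V3 →L[ℝ] Wj j)) atTop := by
      have hc : UniformContinuous (continuousMultilinearCurryLeftEquiv ℝ
          (fun _ : Fin (j+1) => V3) V3) :=
        (continuousMultilinearCurryLeftEquiv ℝ (fun _ : Fin (j+1) => V3) V3).isometry.uniformContinuous
      exact hc.comp_tendstoUniformly (hu ⟨j+1, hj⟩)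
    refine hasFDerivAt_of_tendstoUniformly hun (fun n x => (hψ n).2 j hj x) (fun x => ?_) x
    exact (hu ⟨j, _⟩).tendsto_at x

instance completeXX (r : ℕ∞) : CompleteSpace (XX r) := (isClosed_XX r).completeSpace_coe

instance baireXX (r : ℕ∞) : BaireSpace (XX r) := by
  have : (uniformity (XX r)).IsCountablyGenerated := inferInstance
  infer_instance

/-- the function underlying an element of `XX` -/
noncomputable def fn {r : ℕ∞} (φ : Yr r) (x : V3) : V3 := (φ (i0 r) x).curry0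

lemma coe_le {r : ℕ∞} {m : ℕ} (h : (m : WithTop ℕ∞) ≤ (r : WithTop ℕ∞)) : (m : ℕ∞) ≤ r := by
  have : ((m : ℕ∞) : WithTop ℕ∞) ≤ (r : WithTop ℕ∞) := h
  exact WithTop.coe_le_coe.1 this

lemma coe_le' {r : ℕ∞} {m : ℕ} (h : (m : ℕ∞) ≤ r) : (m : WithTop ℕ∞) ≤ (r : WithTop ℕ∞) :=
  WithTop.coe_le_coe.2 h

lemma taylor_fn {r : ℕ∞} {φ : Yr r} (hφ : φ ∈ XX r) :
    HasFTaylorSeriesUpTo r (fn φ)
      (fun x j => if h : (j : ℕ∞) ≤ r then φ ⟨j, h⟩ x else 0) := by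
  constructor
  · intro x
    have : ((0:ℕ) : ℕ∞) ≤ r := by simp
    simp only [dif_pos this]
    rfl
  · intro m hm x
    have hm' : (m : ℕ∞) < r := by
      have : ((m : ℕ∞) : WithTop ℕ∞) < (r : WithTop ℕ∞) := hm
      exact WithTop.coe_lt_coe.1 this
    have hs : ((m+1 : ℕ) : ℕ∞) ≤ r := by
      have := Order.add_one_le_of_lt hm'
      exact_mod_cast this
    have h1 := hφ.2 m hs x
    have e1 : (fun y => (if h : (m : ℕ∞) ≤ r then φ ⟨m, h⟩ y else 0)) = φ ⟨m, hm'.le⟩ := by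
      funext y
      rw [dif_pos hm'.le]
    have e2 : (if h : ((m.succ : ℕ) : ℕ∞) ≤ r then φ ⟨m.succ, h⟩ x else 0) = φ ⟨m+1, hs⟩ x := by
      rw [dif_pos hs]
    rw [e1, e2]
    exact h1
  · intro m hm
    have hm' := coe_le hm
    have e1 : (fun y => (if h : (m : ℕ∞) ≤ r then φ ⟨m, h⟩ y else 0)) = φ ⟨m, hm'⟩ := by
      funext y
      rw [dif_pos hm']
    rw [e1]
    exact (φ ⟨m, hm'⟩).continuous

lemma contDiff_fn {r : ℕ∞} {φ : Yr r} (hφ : φ ∈ XX r) : ContDiff ℝ r (fn φ) :=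
  (taylor_fn hφ).contDiff

lemma iter_fn {r : ℕ∞} {φ : Yr r} (hφ : φ ∈ XX r) (j : ℕ) (hj : (j : ℕ∞) ≤ r) (x : V3) :
    iteratedFDeriv ℝ j (fn φ) x = φ ⟨j, hj⟩ x := by
  have := (taylor_fn hφ).eq_iteratedFDeriv (coe_le' hj) x
  rw [← this]
  simp only [dif_pos hj]

lemma per_fn {r : ℕ∞} {φ : Yr r} (hφ : φ ∈ XX r) (n : Fin 3 → ℤ) (p : V3) :
    fn φ (p + zc n) = fn φ p := by
  unfold fn; rw [hφ.1]

lemma periodic_iter {P : V3 → V3} (per : ∀ n p, P (p + zc n) = P p) (j : ℕ) (n : Fin 3 → ℤ)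
    (p : V3) : iteratedFDeriv ℝ j P (p + zc n) = iteratedFDeriv ℝ j P p := by
  rw [← iteratedFDeriv_comp_add_right]
  have : (fun z => P (z + zc n)) = P := funext (fun z => per n z)
  rw [this]

lemma exists_ofFn {r : ℕ∞} {P : V3 → V3} (hP : ContDiff ℝ r P)
    (per : ∀ n p, P (p + zc n) = P p) : ∃ φ : Yr r, φ ∈ XX r ∧
      (∀ (j : Jr r) x, φ j x = iteratedFDeriv ℝ j.1 P x) ∧ fn φ = P := by
  have hc : ∀ j : Jr r, Continuous (iteratedFDeriv ℝ j.1 P) := fun j =>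
    hP.continuous_iteratedFDeriv (coe_le' j.2)
  have hb : ∀ j : Jr r, ∃ C, ∀ x, ‖iteratedFDeriv ℝ j.1 P x‖ ≤ C := fun j =>
    bounded_of_periodic (hc j) (periodic_iter per j.1)
  choose C hC using hb
  set φ : Yr r := fun j => BoundedContinuousFunction.ofNormedAddCommGroup
    (iteratedFDeriv ℝ j.1 P) (hc j) (C j) (hC j) with hφ
  have hφa : ∀ (j : Jr r) x, φ j x = iteratedFDeriv ℝ j.1 P x := fun j x => rfl
  refine ⟨φ, ⟨?_, ?_⟩, hφa, ?_⟩
  · intro n p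
    rw [hφa, hφa, periodic_iter per]
  · intro j hj x
    have h1 := (contDiff_iff_ftaylorSeries.1 hP).fderiv j (by
      have : (j : ℕ∞) < r := lt_of_lt_of_le (by exact_mod_cast Nat.lt_succ_self j) hj
      exact WithTop.coe_lt_coe.2 this) x
    exact h1
  · funext x
    show (iteratedFDeriv ℝ 0 P x).curry0 = P x
    simp [iteratedFDeriv_zero_apply]

/-- basic neighbourhoods -/
lemma basic_nhds {r : ℕ∞} (hr : 1 ≤ r) (φ : Yr r) {V : Set (Yr r)} (hV : V ∈ 𝓝 φ) :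
    ∃ (n : ℕ) (hn : (n : ℕ∞) ≤ r), 1 ≤ n ∧ ∃ δ > 0, ∀ ψ : Yr r,
      (∀ (j : ℕ) (hj : j ≤ n), dist (ψ ⟨j, le_trans (by exact_mod_cast hj) hn⟩)
        (φ ⟨j, le_trans (by exact_mod_cast hj) hn⟩) < δ) → ψ ∈ V := by
  rw [nhds_pi, Filter.mem_pi] at hV
  obtain ⟨I, hI, t, ht, hsub⟩ := hV
  have hn : ∃ n : ℕ, (n : ℕ∞) ≤ r ∧ 1 ≤ n ∧ ∀ j ∈ I, j.1 ≤ n := by
    clear hsub
    induction I, hI using Set.Finite.induction_on with
    | empty => exact ⟨1, by exact_mod_cast hr, le_rfl, by simp⟩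
    | insert _ _ ih =>
      rename_i a s _ _
      obtain ⟨n, h1, h2, h3⟩ := ih
      refine ⟨max n a.1, ?_, le_trans h2 (le_max_left _ _), ?_⟩
      · rcases max_cases n a.1 with ⟨h, _⟩ | ⟨h, _⟩ <;> rw [h]
        · exact h1
        · exact a.2
      · intro j hj
        rcases mem_insert_iff.1 hj with rfl | hj
        · exact le_max_right _ _
        · exact (h3 j hj).trans (le_max_left _ _)
  obtain ⟨n, hn, hn1, hI'⟩ := hn
  have hδ : ∀ᶠ δ in 𝓝[>] (0:ℝ), ∀ j ∈ I, Metric.ball (φ j) δ ⊆ t j := by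
    rw [Filter.eventually_all_finite hI]
    intro j hj
    obtain ⟨ε, hε, hb⟩ := Metric.mem_nhds_iff.1 (ht j)
    filter_upwards [Ioo_mem_nhdsGT hε] with δ hδ
    exact (Metric.ball_subset_ball hδ.2.le).trans hb
  obtain ⟨δ, hδ1, hδ2⟩ := (hδ.and self_mem_nhdsWithin).exists
  refine ⟨n, hn, hn1, δ, hδ2, fun ψ hψ => hsub ?_⟩
  intro j hj
  apply hδ1 j hj
  exact hψ j.1 (hI' j hj)

section chart

variable {r : ℕ∞} (hr : 1 ≤ r) {F G : V3 → V3} (hF : ContDiff ℝ r F) (hG : ContDiff ℝ r G)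
  (eF : Equi F) (eG : Equi G) (h1 : ∀ p, G (F p) = p) (h2 : ∀ p, F (G p) = p) {K : ℝ}
  (hK0 : 0 < K) (hK : ∀ p q, ‖G p - G q‖ ≤ K * ‖p - q‖)

/-- domain of the chart -/
def Ud (r : ℕ∞) (hr : 1 ≤ r) (K : ℝ) : Set (XX r) :=
  {φ | ‖φ.1 (i1 hr)‖ < 1 / (2 * K)}

lemma isOpen_Ud (r : ℕ∞) (hr : 1 ≤ r) (K : ℝ) : IsOpen (Ud r hr K) := by
  have hc0 : Continuous (fun φ : XX r => φ.1 (i1 hr)) :=
    (continuous_apply (i1 hr)).comp continuous_subtype_val
  have hc : Continuous (fun φ : XX r =>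
      ‖φ.1 (i1 hr)‖) := (continuous_norm (E := BoundedContinuousFunction V3 (Wj 1))).comp hc0
  exact isOpen_lt hc continuous_const

include hr hF hG eF eG h1 h2 hK0 hK in
lemma chart_exists (φ : Ud r hr K) : ∃ f : Dyn r, IsLift r f.toHomeo (fun p => F p + fn φ.1.1 p) := by
  have hφ := φ.1.2
  have hlt := φ.2
  have hder : ∀ p, ‖fderiv ℝ (fn φ.1.1) p‖ ≤ 1 / (2*K) := by
    intro p
    rw [← norm_iteratedFDeriv_one, iter_fn hφ 1 (by exact_mod_cast hr)]
    exact (BoundedContinuousFunction.norm_coe_le_norm _ p).trans hlt.le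
  have hP := contDiff_fn hφ
  have hlip : ∀ p q, ‖fn φ.1.1 p - fn φ.1.1 q‖ ≤ 1/(2*K) * ‖p - q‖ := fun p q =>
    Convex.norm_image_sub_le_of_norm_hasFDerivWithin_le (f := fn φ.1.1) (f' := fderiv ℝ (fn φ.1.1))
      (s := univ) (x := q) (y := p) (C := 1/(2*K))
      (fun x _ => (hP.differentiable (ne_zero_cast hr) x).hasFDerivAt.hasFDerivWithinAt)
      (fun x _ => hder x) convex_univ (mem_univ _) (mem_univ _)
  obtain ⟨G', hG', eG', i1, i2⟩ := exists_inverse hr (F := F) hG eG h1 h2 hK hP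
    (per_fn hφ) (c := 1/(2*K)) (by positivity) hlip (by
      have : 1 / (2*K) * K = 1/2 := by field_simp
      rw [this])
  have eF' : Equi (fun p => F p + fn φ.1.1 p) := by
    intro n
    obtain ⟨m, hm⟩ := eF n
    refine ⟨m, fun p => ?_⟩
    simp only [hm, per_fn hφ]
    abel
  exact ⟨ofLifts _ G' (hF.add hP) hG' eF' eG' i1 i2, ofLifts_lift _ _ _ _ _ _ _ _⟩

/-- the chart -/
noncomputable def chart (φ : Ud r hr K) : Dyn r :=
  (chart_exists hr hF hG eF eG h1 h2 hK0 hK φ).choose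

lemma chart_lift (φ : Ud r hr K) : IsLift r (chart hr hF hG eF eG h1 h2 hK0 hK φ).toHomeo
    (fun p => F p + fn φ.1.1 p) :=
  (chart_exists hr hF hG eF eG h1 h2 hK0 hK φ).choose_spec

lemma chart_continuous : Continuous (chart hr hF hG eF eG h1 h2 hK0 hK) := by
  apply continuous_generateFrom_iff.2
  rintro _ ⟨g, n, ε, hn, hε, rfl⟩
  rw [isOpen_iff_mem_nhds]
  rintro φ ⟨F₁, G₁, hF₁, hG₁, η, hη, hb⟩
  have hl := chart_lift hr hF hG eF eG h1 h2 hK0 hK φ
  obtain ⟨c, hc⟩ := lift_unique hl.1.continuous hG₁.1.continuous hl.2 hG₁.2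
  have hev : ∀ᶠ ψ : Ud r hr K in 𝓝 φ, ∀ i : Fin (n+1),
      dist (ψ.1.1 ⟨i.1, le_trans (by exact_mod_cast Nat.lt_succ_iff.1 i.2) hn⟩)
        (φ.1.1 ⟨i.1, le_trans (by exact_mod_cast Nat.lt_succ_iff.1 i.2) hn⟩) < (ε - η) / 2 := by
    rw [Filter.eventually_all]
    intro i
    have hc : Continuous (fun ψ : Ud r hr K =>
        ψ.1.1 ⟨i.1, le_trans (by exact_mod_cast Nat.lt_succ_iff.1 i.2) hn⟩) :=
      (continuous_apply (A := fun j : Jr r => BoundedContinuousFunction V3 (Wj j.1)) _).comp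
        (continuous_subtype_val.comp continuous_subtype_val)
    have hε' : 0 < (ε - η) / 2 := by linarith
    exact hc.continuousAt (Metric.ball_mem_nhds _ hε')
  filter_upwards [hev] with ψ hψ
  have hl' := chart_lift hr hF hG eF eG h1 h2 hK0 hK ψ
  refine ⟨F₁, fun p => F p + fn ψ.1.1 p + zc c, hF₁, ⟨hl'.1.add contDiff_const, fun p => ?_⟩,
    (ε + η)/2, by linarith, ?_⟩
  · rw [proj_add_zc]; exact hl'.2 p
  · intro j hj p
    have hjr : (j : ℕ∞) ≤ r := le_trans (by exact_mod_cast hj) hn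
    have hjr' : (j : WithTop ℕ∞) ≤ (r : WithTop ℕ∞) := coe_le' hjr
    have e : (fun p => F p + fn ψ.1.1 p + zc c) = (fn ψ.1.1 - fn φ.1.1) + G₁ := by
      funext q
      simp only [Pi.add_apply, Pi.sub_apply, hc]
      abel
    have hs1 : ContDiff ℝ j (fn ψ.1.1) := (contDiff_fn ψ.1.2).of_le hjr'
    have hs2 : ContDiff ℝ j (fn φ.1.1) := (contDiff_fn φ.1.2).of_le hjr'
    have hs3 : ContDiff ℝ j G₁ := hG₁.1.of_le hjr'
    have hs12 : ContDiff ℝ j (fn ψ.1.1 - fn φ.1.1) := hs1.sub hs2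
    rw [e, iteratedFDeriv_add hs12 hs3, iteratedFDeriv_sub hs1 hs2]
    simp only [Pi.add_apply, Pi.sub_apply]
    rw [iter_fn ψ.1.2 j hjr, iter_fn φ.1.2 j hjr]
    have k1 := hb j hj p
    have k2 := hψ ⟨j, Nat.lt_succ_iff.2 hj⟩
    have k3 := BoundedContinuousFunction.dist_coe_le_dist (f := ψ.1.1 ⟨j, hjr⟩)
      (g := φ.1.1 ⟨j, hjr⟩) p
    rw [dist_eq_norm] at k3
    have k4 : ‖ψ.1.1 ⟨j, hjr⟩ p - φ.1.1 ⟨j, hjr⟩ p + iteratedFDeriv ℝ j G₁ p -
        iteratedFDeriv ℝ j F₁ p‖ ≤ ‖ψ.1.1 ⟨j, hjr⟩ p - φ.1.1 ⟨j, hjr⟩ p‖ +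
        ‖iteratedFDeriv ℝ j G₁ p - iteratedFDeriv ℝ j F₁ p‖ := by
      rw [add_sub_assoc]; exact norm_add_le _ _
    refine k4.trans ?_
    have k5 := k3.trans k2.le
    linarith

lemma chart_isOpenMap : IsOpenMap (chart hr hF hG eF eG h1 h2 hK0 hK) := by
  intro W hW
  rw [isOpen_iff_mem_nhds]
  rintro _ ⟨φ, hφW, rfl⟩
  -- basic neighbourhood inside W
  have hWn : W ∈ 𝓝 φ := hW.mem_nhds hφW
  obtain ⟨V1, hV1, hV1W⟩ := mem_nhds_subtype _ _ _ |>.1 hWn
  obtain ⟨V2, hV2, hV2V1⟩ := mem_nhds_subtype _ _ _ |>.1 hV1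
  obtain ⟨n, hn, hn1, δ, hδ, hball⟩ := basic_nhds hr φ.1.1 hV2
  have hφn := φ.2
  set N := ‖φ.1.1 (i1 hr)‖ with hN
  have hgap : 0 < 1/(2*K) - N := by
    have : N < 1/(2*K) := hφn
    linarith
  set δ' := min (δ/2) (min (1/3) ((1/(2*K) - N)/2)) with hδ'
  have hδ'0 : 0 < δ' := by positivity
  have d1 : δ' ≤ δ/2 := min_le_left _ _
  have d2 : δ' ≤ 1/3 := (min_le_right _ _).trans (min_le_left _ _)
  have d3 : δ' ≤ (1/(2*K) - N)/2 := (min_le_right _ _).trans (min_le_right _ _)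
  have hl := chart_lift hr hF hG eF eG h1 h2 hK0 hK φ
  refine mem_of_superset ((isOpen_crBall _ hn hδ'0).mem_nhds
    (mem_crBall_self _ n hδ'0)) ?_
  rintro g ⟨F₁, G₁, hF₁, hG₁, η, hη, hb⟩
  obtain ⟨c, hc⟩ := lift_unique hl.1.continuous hF₁.1.continuous hl.2 hF₁.2
  have eF₁ := equi_of_lift hF₁.1.continuous hF₁.2
  have eG₁ := equi_of_lift hG₁.1.continuous hG₁.2
  have hD : ∀ j (hj : j ≤ n) p, ‖iteratedFDeriv ℝ j (G₁ - F₁) p‖ ≤ η := by
    intro j hj p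
    have hjr : (j : ℕ∞) ≤ r := le_trans (by exact_mod_cast hj) hn
    rw [iteratedFDeriv_sub (hG₁.1.of_le (coe_le' hjr)) (hF₁.1.of_le (coe_le' hjr))]
    exact hb j hj p
  have hη0 : 0 ≤ η := (norm_nonneg _).trans (hD 0 (by omega) 0)
  have hper : ∀ n p, (G₁ - F₁) (p + zc n) = (G₁ - F₁) p := by
    intro m p
    apply per_of_bdd_sub eF₁ eG₁
    intro q
    have := hD 0 (by omega) q
    rw [norm_iteratedFDeriv_zero] at this
    exact this.trans (by linarith)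
  obtain ⟨ψ, hψX, hψj, hψfn⟩ := exists_ofFn (P := fn φ.1.1 + (G₁ - F₁))
    ((contDiff_fn φ.1.2).add (hG₁.1.sub hF₁.1)) (fun m p => by
      simp only [Pi.add_apply]; rw [per_fn φ.1.2, hper])
  have hdist : ∀ (j : ℕ) (hj : j ≤ n), dist (ψ ⟨j, le_trans (by exact_mod_cast hj) hn⟩)
      (φ.1.1 ⟨j, le_trans (by exact_mod_cast hj) hn⟩) ≤ η := by
    intro j hj
    have hjr : (j : ℕ∞) ≤ r := le_trans (by exact_mod_cast hj) hn
    rw [BoundedContinuousFunction.dist_le hη0]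
    intro x
    rw [hψj, dist_eq_norm]
    have hs1 : ContDiff ℝ j (fn φ.1.1) := (contDiff_fn φ.1.2).of_le (coe_le' hjr)
    have hs2 : ContDiff ℝ j (G₁ - F₁) := (hG₁.1.sub hF₁.1).of_le (coe_le' hjr)
    simp only
    rw [iteratedFDeriv_add hs1 hs2]
    simp only [Pi.add_apply]
    rw [iter_fn φ.1.2 j hjr, add_sub_cancel_left]
    exact hD j hj x
  have hψU : (⟨ψ, hψX⟩ : XX r) ∈ Ud r hr K := by
    show ‖ψ (i1 hr)‖ < 1/(2*K)
    have h3 : ‖ψ (i1 hr) - φ.1.1 (i1 hr)‖ ≤ η :=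
      (dist_eq_norm (ψ (i1 hr)) (φ.1.1 (i1 hr))).symm.le.trans (hdist 1 hn1)
    have h4 : ‖ψ (i1 hr)‖ ≤
        ‖ψ (i1 hr) -
          φ.1.1 (i1 hr)‖ + N := by
      have e : ψ (i1 hr) = ψ (i1 hr) - φ.1.1 (i1 hr) + φ.1.1 (i1 hr) :=
        (sub_add_cancel (ψ (i1 hr)) (φ.1.1 (i1 hr))).symm
      have e' := congrArg (fun z : BoundedContinuousFunction V3 (Wj 1) => ‖z‖) e
      exact e'.le.trans (norm_add_le (ψ (i1 hr) - φ.1.1 (i1 hr)) (φ.1.1 (i1 hr)))
    linarith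
  refine ⟨⟨⟨ψ, hψX⟩, hψU⟩, ?_, ?_⟩
  · apply hV1W
    apply hV2V1
    apply hball
    intro j hj
    exact lt_of_le_of_lt (hdist j hj) (by linarith)
  · have hl2 := chart_lift hr hF hG eF eG h1 h2 hK0 hK ⟨⟨ψ, hψX⟩, hψU⟩
    apply Dyn.ext_lift hl2
    refine ⟨hl2.1, fun p => ?_⟩
    have e : F p + fn ψ p = G₁ p + zc (-c) := by
      rw [hψfn]
      simp only [Pi.add_apply, Pi.sub_apply, hc, zc_neg]
      abel
    simp only
    rw [e, proj_add_zc]
    exact hG₁.2 p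

end chart

/-- **`Diff^r(T³)` is a Baire space**, `1 ≤ r ≤ ∞`. -/
theorem baire_dyn {r : ℕ∞} (hr : 1 ≤ r) : BaireSpace (Dyn r) := by
  constructor
  intro f ho hd
  rw [dense_iff_inter_open]
  rintro V hV ⟨g, hg⟩
  obtain ⟨F, G, hF, hG, h1, h2⟩ := exists_lifts g
  have eF := equi_of_lift hF.1.continuous hF.2
  have eG := equi_of_lift hG.1.continuous hG.2
  obtain ⟨K, hK0, hK⟩ := lipschitz_of_equi hr hG.1 eG
  set Θ := chart hr hF.1 hG.1 eF eG h1 h2 hK0 hK with hΘ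
  have hc : Continuous Θ := chart_continuous hr hF.1 hG.1 eF eG h1 h2 hK0 hK
  have hop : IsOpenMap Θ := chart_isOpenMap hr hF.1 hG.1 eF eG h1 h2 hK0 hK
  have : BaireSpace (Ud r hr K) := (isOpen_Ud r hr K).baireSpace
  -- the zero perturbation
  obtain ⟨ψ, hψX, hψj, hψfn⟩ := exists_ofFn (r := r) (P := fun _ => (0 : V3)) contDiff_const
    (fun _ _ => rfl)
  have hψU : (⟨ψ, hψX⟩ : XX r) ∈ Ud r hr K := by
    show ‖ψ (i1 hr)‖ < 1 / (2 * K)
    have h3 : ψ (i1 hr) = 0 := by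
      ext1 x
      rw [hψj]
      have : (fun _ : V3 => (0 : V3)) = 0 := rfl
      rw [this]
      simp
    have h4 : ‖ψ (i1 hr)‖ = 0 := by
      rw [h3]; exact norm_zero (E := BoundedContinuousFunction V3 (Wj 1))
    rw [h4]
    positivity
  have hΘ0 : Θ ⟨⟨ψ, hψX⟩, hψU⟩ = g := by
    apply Dyn.ext_lift (chart_lift hr hF.1 hG.1 eF eG h1 h2 hK0 hK _)
    simp only [hψfn, add_zero]
    exact hF
  have hres : (⋂ n, f n) ∈ residual (Dyn r) :=
    countable_iInter_mem.2 (fun n => residual_of_dense_open (ho n) (hd n))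
  have hres' : Θ ⁻¹' (⋂ n, f n) ∈ residual (Ud r hr K) := tendsto_residual_of_isOpenMap hc hop hres
  have hdense := dense_of_mem_residual hres'
  obtain ⟨φ, hφV, hφf⟩ := hdense.inter_open_nonempty (Θ ⁻¹' V) (hV.preimage hc)
    ⟨_, by show Θ _ ∈ V; rw [hΘ0]; exact hg⟩
  exact ⟨Θ φ, hφV, hφf⟩

end Pool.Agent.H47

/-! ### Kink -/

namespace Pool.Agent.H47

open Real Set Filter Topology

noncomputable def NN (c v : V3) : ℝ :=
  sin (π*(v 0 - c 0))^2 + sin (π*(v 1 - c 1))^2 + sin (π*(v 2 - c 2))^2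
noncomputable def wk (c v : V3) : ℝ := sin (2*π*(v 2 - c 2)) / (2*π)
noncomputable def ps (σ w : ℝ) : ℝ := √(w^2 + σ^2) - σ
noncomputable def chi (s : ℝ) : ℝ := Real.smoothTransition (1.9 - s)
/-- a single localised kink -/
noncomputable def kk (η R σ : ℝ) (c v : V3) : ℝ := -η * (chi (NN c v / R^2) * ps σ (wk c v))

lemma ps_zero {σ : ℝ} (hσ : 0 < σ) : ps σ 0 = 0 := by
  unfold ps
  rw [show (0:ℝ)^2 + σ^2 = σ^2 by ring, sqrt_sq hσ.le, sub_self]

lemma ps_ge (σ w : ℝ) : |w| - σ ≤ ps σ w := by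
  unfold ps
  have : |w| ≤ √(w^2 + σ^2) := abs_le_sqrt (by nlinarith)
  linarith

lemma ps_le {σ : ℝ} (hσ : 0 < σ) (w : ℝ) : ps σ w ≤ |w| := by
  unfold ps
  have h0 := abs_nonneg w
  have : √(w^2 + σ^2) ≤ |w| + σ := by
    rw [sqrt_le_left (by positivity)]
    have := sq_abs w
    nlinarith
  linarith

lemma ps_nonneg {σ : ℝ} (hσ : 0 < σ) (w : ℝ) : 0 ≤ ps σ w := by
  unfold ps
  have : σ ≤ √(w^2 + σ^2) := le_sqrt_of_sq_le (by nlinarith)
  linarith

lemma hasDerivAt_ps {σ : ℝ} (hσ : 0 < σ) (w : ℝ) : HasDerivAt (ps σ) (w / √(w^2 + σ^2)) w := by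
  have h1 : HasDerivAt (fun w : ℝ => w^2 + σ^2) (2 * w) w := by
    simpa using (hasDerivAt_pow 2 w).add_const (σ^2)
  have h2 := (h1.sqrt (by positivity)).sub_const σ
  refine h2.congr_deriv ?_
  have : 0 < √(w^2 + σ^2) := sqrt_pos.2 (by positivity)
  field_simp

lemma abs_ps' {σ : ℝ} (hσ : 0 < σ) (w : ℝ) : |w / √(w^2 + σ^2)| ≤ 1 := by
  have h : 0 < √(w^2 + σ^2) := sqrt_pos.2 (by positivity)
  rw [abs_div, abs_of_pos h, div_le_one h]
  exact abs_le_sqrt (by nlinarith)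

lemma contDiff_ps {σ : ℝ} (hσ : 0 < σ) {n : WithTop ℕ∞} : ContDiff ℝ n (ps σ) := by
  unfold ps
  apply ContDiff.sub _ contDiff_const
  apply ContDiff.sqrt (by fun_prop)
  intro x
  positivity

lemma contDiff_chi {n : ℕ∞} : ContDiff ℝ n chi := by
  unfold chi
  exact Real.smoothTransition.contDiff.comp (contDiff_const.sub contDiff_id)

lemma chi_nonneg (s : ℝ) : 0 ≤ chi s := Real.smoothTransition.nonneg _
lemma chi_le_one (s : ℝ) : chi s ≤ 1 := Real.smoothTransition.le_one _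
lemma chi_one {s : ℝ} (h : s ≤ 0.9) : chi s = 1 :=
  Real.smoothTransition.one_of_one_le (by linarith)
lemma chi_zero {s : ℝ} (h : 1.9 ≤ s) : chi s = 0 :=
  Real.smoothTransition.zero_of_nonpos (by linarith)

lemma deriv_chi_zero {s : ℝ} (h : 1.9 ≤ s) : deriv chi s = 0 := by
  apply IsLocalMin.deriv_eq_zero
  apply Filter.Eventually.of_forall
  intro t
  rw [chi_zero h]
  exact chi_nonneg t

lemma deriv_chi_zero' {s : ℝ} (h : s ≤ 0.9) : deriv chi s = 0 := by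
  apply IsLocalMax.deriv_eq_zero
  apply Filter.Eventually.of_forall
  intro t
  rw [chi_one h]
  exact chi_le_one t

lemma exists_chi_bound : ∃ C, 0 ≤ C ∧ ∀ s, |deriv chi s| ≤ C := by
  have hc : Continuous (deriv chi) := (contDiff_chi (n := 1)).continuous_deriv le_rfl
  obtain ⟨C, hC⟩ := (isCompact_Icc (a := (0.9:ℝ)) (b := 1.9)).exists_bound_of_continuousOn
    hc.continuousOn
  have hC0 : 0 ≤ C := (norm_nonneg _).trans (hC 1 ⟨by norm_num, by norm_num⟩)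
  refine ⟨C, hC0, fun s => ?_⟩
  rcases le_or_gt s 0.9 with h | h
  · rw [deriv_chi_zero' h]; simpa using hC0
  · rcases le_or_gt 1.9 s with h' | h'
    · rw [deriv_chi_zero h']; simpa using hC0
    · exact hC s ⟨h.le, h'.le⟩

lemma hasFDerivAt_sinsq (c : V3) (i : Fin 3) (v : V3) :
    HasFDerivAt (fun v : V3 => sin (π*(v i - c i))^2)
      ((2 * sin (π*(v i - c i)) * (cos (π*(v i - c i)) * π)) •
        (ContinuousLinearMap.proj i : V3 →L[ℝ] ℝ)) v := by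
  have h1 : HasDerivAt (fun t : ℝ => sin (π*(t - c i))^2)
      (2 * sin (π*(v i - c i)) * (cos (π*(v i - c i)) * π)) (v i) := by
    have h2 : HasDerivAt (fun t : ℝ => π*(t - c i)) π (v i) := by
      simpa using ((hasDerivAt_id (v i)).sub_const (c i)).const_mul π
    have h3 := (h2.sin).pow 2
    refine h3.congr_deriv ?_
    norm_num
  have h2 : HasFDerivAt (fun v : V3 => v i) (ContinuousLinearMap.proj i : V3 →L[ℝ] ℝ) v :=
    (ContinuousLinearMap.proj i : V3 →L[ℝ] ℝ).hasFDerivAt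
  exact h1.comp_hasFDerivAt v h2

lemma hasFDerivAt_wk (c v : V3) : HasFDerivAt (wk c)
    ((cos (2*π*(v 2 - c 2))) • (ContinuousLinearMap.proj 2 : V3 →L[ℝ] ℝ)) v := by
  have h1 : HasDerivAt (fun t : ℝ => sin (2*π*(t - c 2)) / (2*π))
      (cos (2*π*(v 2 - c 2))) (v 2) := by
    have h2 : HasDerivAt (fun t : ℝ => 2*π*(t - c 2)) (2*π) (v 2) := by
      simpa using ((hasDerivAt_id (v 2)).sub_const (c 2)).const_mul (2*π)
    have h3 := (h2.sin).div_const (2*π)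
    refine h3.congr_deriv ?_
    have := pi_pos
    field_simp
  have h2 : HasFDerivAt (fun v : V3 => v 2) (ContinuousLinearMap.proj 2 : V3 →L[ℝ] ℝ) v :=
    (ContinuousLinearMap.proj 2 : V3 →L[ℝ] ℝ).hasFDerivAt
  exact h1.comp_hasFDerivAt v h2

lemma abs_sin_le_of_NN {c v : V3} {R : ℝ} (hR : 0 < R) (h : NN c v < 1.9 * R^2) (i : Fin 3) :
    |sin (π*(v i - c i))| ≤ 1.379 * R := by
  have h1 : sin (π*(v i - c i))^2 ≤ NN c v := by
    unfold NN
    fin_cases i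
    · have := sq_nonneg (sin (π*(v 1 - c 1))); have := sq_nonneg (sin (π*(v 2 - c 2)))
      simp only [Fin.zero_eta, Fin.isValue]; linarith
    · have := sq_nonneg (sin (π*(v 0 - c 0))); have := sq_nonneg (sin (π*(v 2 - c 2)))
      simp only [Fin.mk_one, Fin.isValue]; linarith
    · have := sq_nonneg (sin (π*(v 0 - c 0))); have := sq_nonneg (sin (π*(v 1 - c 1)))
      simp only [Fin.reduceFinMk, Fin.isValue]; linarith
  apply abs_le_of_sq_le_sq _ (by positivity)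
  nlinarith

lemma abs_wk_le {c v : V3} {R : ℝ} (hR : 0 < R) (h : NN c v < 1.9 * R^2) :
    |wk c v| ≤ 0.44 * R := by
  have h1 := abs_sin_le_of_NN hR h 2
  unfold wk
  rw [show 2*π*(v 2 - c 2) = 2*(π*(v 2 - c 2)) by ring, sin_two_mul]
  have hp := pi_gt_d4
  have hp0 := pi_pos
  have hc := abs_cos_le_one (π*(v 2 - c 2))
  rw [abs_div, abs_mul, abs_mul, abs_of_pos (by norm_num : (0:ℝ) < 2),
    abs_of_pos (by positivity : 0 < 2 * π), div_le_iff₀ (by positivity)]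
  have h2 : |sin (π*(v 2 - c 2))| * |cos (π*(v 2 - c 2))| ≤ 1.379 * R * 1 :=
    mul_le_mul h1 hc (abs_nonneg _) (by positivity)
  nlinarith

/-- derivative of the kink -/
lemma kk_deriv {Cχ : ℝ} (hCχ : ∀ s, |deriv chi s| ≤ Cχ) {η R σ : ℝ} (hη : 0 < η) (hR : 0 < R)
    (hσ : 0 < σ) (c v : V3) : ∃ D : V3 →L[ℝ] ℝ, HasFDerivAt (kk η R σ c) D v ∧
      ‖D‖ ≤ η * (12 * Cχ + 1) ∧ (1.9 * R^2 ≤ NN c v → D = 0) := by
  have hCχ0 : 0 ≤ Cχ := (abs_nonneg _).trans (hCχ 0)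
  set a0 := 2 * sin (π*(v 0 - c 0)) * (cos (π*(v 0 - c 0)) * π) with ha0
  set a1 := 2 * sin (π*(v 1 - c 1)) * (cos (π*(v 1 - c 1)) * π) with ha1
  set a2 := 2 * sin (π*(v 2 - c 2)) * (cos (π*(v 2 - c 2)) * π) with ha2
  have hN : HasFDerivAt (NN c) (a0 • (ContinuousLinearMap.proj 0 : V3 →L[ℝ] ℝ) +
      a1 • (ContinuousLinearMap.proj 1 : V3 →L[ℝ] ℝ) +
      a2 • (ContinuousLinearMap.proj 2 : V3 →L[ℝ] ℝ)) v :=
    ((hasFDerivAt_sinsq c 0 v).add (hasFDerivAt_sinsq c 1 v)).add (hasFDerivAt_sinsq c 2 v)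
  have hN2 : HasFDerivAt (fun v => NN c v / R^2) ((R^2)⁻¹ •
      (a0 • (ContinuousLinearMap.proj 0 : V3 →L[ℝ] ℝ) +
      a1 • (ContinuousLinearMap.proj 1 : V3 →L[ℝ] ℝ) +
      a2 • (ContinuousLinearMap.proj 2 : V3 →L[ℝ] ℝ))) v := by
    have := hN.const_smul ((R^2)⁻¹)
    refine this.congr_of_eventuallyEq (Filter.Eventually.of_forall (fun v => ?_))
    simp only [Pi.smul_apply, smul_eq_mul]
    rw [div_eq_inv_mul]
  have hchi : HasDerivAt chi (deriv chi (NN c v / R^2)) (NN c v / R^2) :=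
    ((contDiff_chi (n := 1)).differentiable one_ne_zero _).hasDerivAt
  have h1 := hchi.comp_hasFDerivAt v hN2
  have h2 := (hasDerivAt_ps hσ (wk c v)).comp_hasFDerivAt v (hasFDerivAt_wk c v)
  have h3 := (h1.mul h2).const_mul (-η)
  refine ⟨_, h3, ?_, ?_⟩
  · apply ContinuousLinearMap.opNorm_le_bound _ (by positivity)
    intro e
    have he : ∀ i, |e i| ≤ ‖e‖ := fun i => norm_le_pi_norm e i
    have hn := norm_nonneg e
    simp only [Function.comp_apply, smul_apply, add_apply,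
      ContinuousLinearMap.proj_apply, smul_eq_mul, Real.norm_eq_abs]
    rcases le_or_gt (1.9 * R^2) (NN c v) with h | h
    · have hs : 1.9 ≤ NN c v / R^2 := by rw [le_div_iff₀ (by positivity)]; exact h
      rw [chi_zero hs, deriv_chi_zero hs]
      simp
      positivity
    · have hp := pi_lt_d4
      have hp0 := pi_pos
      have k0 : ∀ i, |2 * sin (π*(v i - c i)) * (cos (π*(v i - c i)) * π)| ≤ 8.7 * R := by
        intro i
        have h1 := abs_sin_le_of_NN hR h i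
        have hc := abs_cos_le_one (π*(v i - c i))
        rw [abs_mul, abs_mul, abs_mul, abs_of_pos (by norm_num : (0:ℝ) < 2), abs_of_pos hp0]
        have h2 : |sin (π*(v i - c i))| * |cos (π*(v i - c i))| ≤ 1.379 * R * 1 :=
          mul_le_mul h1 hc (abs_nonneg _) (by positivity)
        have h3 : 0 ≤ |sin (π*(v i - c i))| * |cos (π*(v i - c i))| := by positivity
        nlinarith
      have k1 : |a0 * e 0 + a1 * e 1 + a2 * e 2| ≤ 26.1 * R * ‖e‖ := by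
        refine (abs_add_le _ _).trans ?_
        refine (add_le_add (abs_add_le _ _) le_rfl).trans ?_
        rw [abs_mul a0, abs_mul a1, abs_mul a2]
        have i0 := mul_le_mul (k0 0) (he 0) (abs_nonneg _) (by positivity)
        have i1 := mul_le_mul (k0 1) (he 1) (abs_nonneg _) (by positivity)
        have i2 := mul_le_mul (k0 2) (he 2) (abs_nonneg _) (by positivity)
        rw [← ha0] at i0
        rw [← ha1] at i1
        rw [← ha2] at i2
        linarith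
      have k2 : |ps σ (wk c v)| ≤ 0.44 * R := by
        rw [abs_of_nonneg (ps_nonneg hσ _)]
        exact (ps_le hσ _).trans (abs_wk_le hR h)
      have k3 := abs_ps' hσ (wk c v)
      have k4 := abs_cos_le_one (2*π*(v 2 - c 2))
      have k5 := hCχ (NN c v / R^2)
      have k6 := chi_nonneg (NN c v / R^2)
      have k7 := chi_le_one (NN c v / R^2)
      have m1 : |chi (NN c v / R^2) * (wk c v / √(wk c v ^ 2 + σ ^ 2) *
          (cos (2*π*(v 2 - c 2)) * e 2))| ≤ ‖e‖ := by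
        rw [abs_mul, abs_mul, abs_mul, abs_of_nonneg k6]
        have j1 : |cos (2*π*(v 2 - c 2))| * |e 2| ≤ 1 * ‖e‖ :=
          mul_le_mul k4 (he 2) (abs_nonneg _) (by norm_num)
        have j2 : |wk c v / √(wk c v ^ 2 + σ ^ 2)| * (|cos (2*π*(v 2 - c 2))| * |e 2|) ≤
          1 * (1 * ‖e‖) := mul_le_mul k3 j1 (by positivity) (by norm_num)
        have j3 : chi (NN c v / R^2) * (|wk c v / √(wk c v ^ 2 + σ ^ 2)| *
          (|cos (2*π*(v 2 - c 2))| * |e 2|)) ≤ 1 * (1 * (1 * ‖e‖)) :=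
          mul_le_mul k7 j2 (by positivity) (by norm_num)
        linarith
      have m2 : |ps σ (wk c v) * (deriv chi (NN c v / R^2) * ((R^2)⁻¹ *
          (a0 * e 0 + a1 * e 1 + a2 * e 2)))| ≤ 12 * Cχ * ‖e‖ := by
        rw [abs_mul, abs_mul, abs_mul, abs_of_pos (by positivity : 0 < (R^2)⁻¹)]
        have j1 : (R^2)⁻¹ * |a0 * e 0 + a1 * e 1 + a2 * e 2| ≤ (R^2)⁻¹ * (26.1 * R * ‖e‖) :=
          mul_le_mul_of_nonneg_left k1 (by positivity)
        have j2 : |deriv chi (NN c v / R^2)| * ((R^2)⁻¹ * |a0 * e 0 + a1 * e 1 + a2 * e 2|) ≤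
          Cχ * ((R^2)⁻¹ * (26.1 * R * ‖e‖)) := mul_le_mul k5 j1 (by positivity) hCχ0
        have j3 := mul_le_mul k2 j2 (by positivity) (by positivity)
        refine j3.trans ?_
        have e1 : 0.44 * R * (Cχ * ((R^2)⁻¹ * (26.1 * R * ‖e‖))) = 0.44 * 26.1 * Cχ * ‖e‖ := by
          field_simp
        rw [e1]
        have : 0 ≤ Cχ * ‖e‖ := by positivity
        linarith
      rw [abs_mul, abs_neg, abs_of_pos hη]
      have m3 := (abs_add_le _ _).trans (add_le_add m1 m2)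
      have m4 := mul_le_mul_of_nonneg_left m3 hη.le
      linarith
  · intro h
    have hs : 1.9 ≤ NN c v / R^2 := by rw [le_div_iff₀ (by positivity)]; exact h
    ext e
    simp only [Function.comp_apply, smul_apply, add_apply,
      ContinuousLinearMap.proj_apply, smul_eq_mul]
    rw [chi_zero hs, deriv_chi_zero hs]
    simp

end Pool.Agent.H47

/-! ### Kink2 -/

namespace Pool.Agent.H47

open Real Set Filter Topology

/-- sum of kinks -/
noncomputable def kb (η R σ : ℝ) (s : Finset ℕ) (c : ℕ → V3) (v : V3) : ℝ :=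
  ∑ m ∈ s, kk η R σ (c m) v

/-- separated centres -/
def Sep (R : ℝ) (s : Finset ℕ) (c : ℕ → V3) : Prop :=
  ∀ m ∈ s, ∀ m' ∈ s, m ≠ m' → ∀ n, 4 * R ≤ ‖c m - c m' - zc n‖

lemma abs_sin_pi_ge {x : ℝ} (h : |x| ≤ 1/2) : 2 * |x| ≤ |sin (π * x)| := by
  have h1 := mul_le_sin (x := π * |x|) (by positivity) (by have := pi_pos; nlinarith)
  have e : 2 / π * (π * |x|) = 2 * |x| := by have := pi_pos; field_simp
  rw [e] at h1
  rcases abs_cases x with ⟨h2, _⟩ | ⟨h2, _⟩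
  · rw [h2] at h1 ⊢
    exact h1.trans (le_abs_self _)
  · rw [h2] at h1 ⊢
    have : sin (π * -x) = - sin (π * x) := by rw [mul_neg, sin_neg]
    rw [this] at h1
    exact h1.trans (neg_le_abs _)

lemma sin_pi_sub_int (x : ℝ) (n : ℤ) : |sin (π * (x - n))| = |sin (π * x)| := by
  rw [mul_sub, mul_comm π (n:ℝ), sin_sub_int_mul_pi]
  rw [abs_mul]
  simp

lemma near_of_NN {c v : V3} {R : ℝ} (hR : 0 < R) (h : NN c v < 1.9 * R^2) :
    ∃ n, ‖v - c - zc n‖ ≤ 0.69 * R := by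
  refine ⟨fun i => round (v i - c i), ?_⟩
  rw [pi_norm_le_iff_of_nonneg (by positivity)]
  intro i
  have h1 := abs_sin_le_of_NN hR h i
  rw [← sin_pi_sub_int _ (round (v i - c i))] at h1
  have h2 := abs_sin_pi_ge (abs_sub_round (v i - c i))
  show |v i - c i - (round (v i - c i) : ℝ)| ≤ _
  linarith

lemma NN_ge {c v : V3} {R : ℝ} (hR : 0 < R) (h : ∀ n, R ≤ ‖v - c - zc n‖) :
    1.9 * R^2 ≤ NN c v := by
  by_contra hcon
  push Not at hcon
  obtain ⟨n, hn⟩ := near_of_NN hR hcon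
  have := h n
  linarith

lemma kk_zero {η R σ : ℝ} (hR : 0 < R) {c v : V3} (h : 1.9 * R^2 ≤ NN c v) :
    kk η R σ c v = 0 := by
  unfold kk
  have hs : 1.9 ≤ NN c v / R^2 := by rw [le_div_iff₀ (by positivity)]; exact h
  rw [chi_zero hs]; simp

lemma kk_abs {η R σ : ℝ} (hη : 0 < η) (hR : 0 < R) (hσ : 0 < σ) (c v : V3) :
    |kk η R σ c v| ≤ 0.44 * η * R := by
  rcases le_or_gt (1.9 * R^2) (NN c v) with h | h
  · rw [kk_zero hR h]; simp; positivity
  · unfold kk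
    have k2 : |ps σ (wk c v)| ≤ 0.44 * R := by
      rw [abs_of_nonneg (ps_nonneg hσ _)]
      exact (ps_le hσ _).trans (abs_wk_le hR h)
    have k6 := chi_nonneg (NN c v / R^2)
    have k7 := chi_le_one (NN c v / R^2)
    rw [abs_mul, abs_mul, abs_neg, abs_of_pos hη, abs_of_nonneg k6]
    have : chi (NN c v / R^2) * |ps σ (wk c v)| ≤ 1 * (0.44 * R) :=
      mul_le_mul k7 k2 (abs_nonneg _) (by norm_num)
    nlinarith

/-- separated centres: at most one is close -/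
lemma Sep.unique {R : ℝ} (hR : 0 < R) {s : Finset ℕ} {c : ℕ → V3} (hs : Sep R s c) {m m' : ℕ}
    (hm : m ∈ s) (hm' : m' ∈ s) {v : V3} (h : NN (c m) v < 1.9 * R^2)
    (h' : NN (c m') v < 1.9 * R^2) : m = m' := by
  by_contra hne
  obtain ⟨n, hn⟩ := near_of_NN hR h
  obtain ⟨n', hn'⟩ := near_of_NN hR h'
  have h1 := hs m hm m' hm' hne (n' - n)
  have e : c m - c m' - zc (n' - n) = (v - c m' - zc n') - (v - c m - zc n) := by
    rw [zc_sub]; abel
  rw [e] at h1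
  have h2 := norm_sub_le (v - c m' - zc n') (v - c m - zc n)
  linarith

lemma sum_bound_unique {E : Type*} [SeminormedAddCommGroup E] {s : Finset ℕ} {f : ℕ → E} {B : ℝ}
    (hB : 0 ≤ B) (hf : ∀ m ∈ s, ‖f m‖ ≤ B)
    (hu : ∀ m ∈ s, ∀ m' ∈ s, f m ≠ 0 → f m' ≠ 0 → m = m') : ‖∑ m ∈ s, f m‖ ≤ B := by
  by_cases h : ∃ m ∈ s, f m ≠ 0
  · obtain ⟨m, hm, hne⟩ := h
    rw [Finset.sum_eq_single_of_mem m hm (fun m' hm' hne' => by
      by_contra hcon
      exact hne' (hu m' hm' m hm hcon hne))]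
    exact hf m hm
  · push Not at h
    rw [Finset.sum_eq_zero h]
    simpa using hB

section

variable {η R σ : ℝ} {s : Finset ℕ} {c : ℕ → V3}

lemma kb_abs (hη : 0 < η) (hR : 0 < R) (hσ : 0 < σ) (hs : Sep R s c) (v : V3) :
    |kb η R σ s c v| ≤ 0.44 * η * R := by
  unfold kb
  rw [← Real.norm_eq_abs]
  apply sum_bound_unique (by positivity) (fun m _ => kk_abs hη hR hσ (c m) v)
  intro m hm m' hm' h1 h2
  apply hs.unique hR hm hm' (v := v)
  · by_contra hcon; exact h1 (kk_zero hR (not_lt.1 hcon))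
  · by_contra hcon; exact h2 (kk_zero hR (not_lt.1 hcon))

lemma kb_zero (hR : 0 < R) {v : V3} (h : ∀ m ∈ s, ∀ n, R ≤ ‖v - c m - zc n‖) :
    kb η R σ s c v = 0 := by
  unfold kb
  apply Finset.sum_eq_zero
  intro m hm
  exact kk_zero hR (NN_ge hR (h m hm))

lemma kb_deriv {Cχ : ℝ} (hCχ : ∀ s, |deriv chi s| ≤ Cχ) (hη : 0 < η) (hR : 0 < R)
    (hσ : 0 < σ) (hs : Sep R s c) (v : V3) : ∃ D : V3 →L[ℝ] ℝ,
    HasFDerivAt (kb η R σ s c) D v ∧ ‖D‖ ≤ η * (12 * Cχ + 1) := by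
  have hCχ0 : 0 ≤ Cχ := (abs_nonneg _).trans (hCχ 0)
  have h := fun m => kk_deriv hCχ hη hR hσ (c m) v
  choose D hD1 hD2 hD3 using h
  refine ⟨∑ m ∈ s, D m, ?_, ?_⟩
  · have := HasFDerivAt.fun_sum (u := s) (fun m _ => hD1 m)
    exact this
  · apply sum_bound_unique (by positivity) (fun m _ => hD2 m)
    intro m hm m' hm' h1 h2
    apply hs.unique hR hm hm' (v := v)
    · by_contra hcon; exact h1 (hD3 m (not_lt.1 hcon))
    · by_contra hcon; exact h2 (hD3 m' (not_lt.1 hcon))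

lemma contDiff_kb (hσ : 0 < σ) {n : ℕ∞} : ContDiff ℝ n (kb η R σ s c) := by
  unfold kb
  apply ContDiff.sum
  intro m _
  unfold kk
  apply contDiff_const.mul
  apply ContDiff.mul
  · apply contDiff_chi.comp
    unfold NN
    fun_prop
  · apply (contDiff_ps hσ).comp
    unfold wk
    fun_prop

lemma NN_per (c v : V3) (n : Fin 3 → ℤ) : NN c (v + zc n) = NN c v := by
  have key : ∀ i, sin (π * ((v + zc n) i - c i))^2 = sin (π * (v i - c i))^2 := by
    intro i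
    rw [← sq_abs, ← sq_abs (sin (π * (v i - c i)))]
    congr 1
    have : (v + zc n) i - c i = (v i - c i) - ((-n i : ℤ) : ℝ) := by
      simp [zc]; ring
    rw [this, sin_pi_sub_int]
  unfold NN
  rw [key, key, key]

lemma wk_per (c v : V3) (n : Fin 3 → ℤ) : wk c (v + zc n) = wk c v := by
  unfold wk
  have : 2*π*((v + zc n) 2 - c 2) = 2*π*(v 2 - c 2) + n 2 * (2*π) := by
    simp [zc]; ring
  rw [this, sin_add_int_mul_two_pi]

lemma kb_per (v : V3) (n : Fin 3 → ℤ) : kb η R σ s c (v + zc n) = kb η R σ s c v := by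
  unfold kb kk
  simp only [NN_per, wk_per]

lemma kb_near (hR : 0 < R) (hs : Sep R s c) {m : ℕ} (hm : m ∈ s) {v : V3}
    (h : ‖v - c m‖ ≤ R) : kb η R σ s c v = kk η R σ (c m) v := by
  unfold kb
  apply Finset.sum_eq_single_of_mem m hm
  intro m' hm' hne
  apply kk_zero hR
  apply NN_ge hR
  intro n
  have h1 := hs m hm m' hm' (fun h => hne h.symm) n
  have e : c m - c m' - zc n = (v - c m' - zc n) - (v - c m) := by abel
  rw [e] at h1
  have h2 := norm_sub_le (v - c m' - zc n) (v - c m)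
  linarith

lemma kk_self (hσ : 0 < σ) (c : V3) : kk η R σ c c = 0 := by
  unfold kk wk
  rw [sub_self, mul_zero, sin_zero, zero_div, ps_zero hσ]; simp

lemma kb_self (hR : 0 < R) (hσ : 0 < σ) (hs : Sep R s c) {m : ℕ} (hm : m ∈ s) :
    kb η R σ s c (c m) = 0 := by
  rw [kb_near hR hs hm (by simp; exact hR.le), kk_self hσ]

/-- exact value of a kink near its centre -/
lemma kk_val (hη : 0 < η) (hR : 0 < R) (hR1 : R ≤ 1e-6) (hσ : 0 < σ) {c v : V3} {τ : ℝ}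
    (hτ : 0 < τ) (hτR : τ ≤ R/6) (hστ : σ ≤ 0.01 * τ) (h0 : |v 0 - c 0| ≤ 1e-12 * τ)
    (h1 : |v 1 - c 1| ≤ 1e-12 * τ) (h2 : |v 2 - c 2| = τ) :
    -(η * τ) ≤ kk η R σ c v ∧ kk η R σ c v ≤ -(0.985 * (η * τ)) := by
  have hp := pi_lt_d4
  have hp3 := pi_gt_d4
  have hp0 := pi_pos
  have hp2 := pi_sq_lt
  have hs : ∀ x : ℝ, sin (π * x)^2 ≤ 9.8697 * x^2 := by
    intro x
    have h3 : |sin (π * x)| ≤ |π * x| := abs_sin_le_abs
    have h4 : sin (π * x)^2 ≤ (π * x)^2 := sq_le_sq.2 h3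
    have h5 : 0 ≤ x^2 := sq_nonneg x
    nlinarith
  have hN : NN c v ≤ 0.9 * R^2 := by
    unfold NN
    have k0 := hs (v 0 - c 0)
    have k1 := hs (v 1 - c 1)
    have k2 := hs (v 2 - c 2)
    have l0 : (v 0 - c 0)^2 ≤ (1e-12 * τ)^2 := sq_le_sq' (by linarith [(abs_le.1 h0).1])
      (by linarith [(abs_le.1 h0).2])
    have l1 : (v 1 - c 1)^2 ≤ (1e-12 * τ)^2 := sq_le_sq' (by linarith [(abs_le.1 h1).1])
      (by linarith [(abs_le.1 h1).2])
    have l2 : (v 2 - c 2)^2 = τ^2 := by rw [← sq_abs, h2]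
    have l3 : τ^2 ≤ (R/6)^2 := by gcongr
    nlinarith
  have hchi : chi (NN c v / R^2) = 1 := by
    apply chi_one
    rw [div_le_iff₀ (by positivity)]; exact hN
  have hw1 : |wk c v| ≤ τ := by
    unfold wk
    rw [abs_div, abs_of_pos (by positivity : 0 < 2*π), div_le_iff₀ (by positivity)]
    refine abs_sin_le_abs.trans ?_
    rw [abs_mul, abs_of_pos (by positivity : 0 < 2*π), h2]
    linarith
  have hw2 : 0.999 * τ ≤ |wk c v| := by
    have hx0 : 0 < 2*π*τ := by positivity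
    have hx1 : 2*π*τ ≤ 1e-5 := by nlinarith
    have h3 := sin_gt_sub_cube hx0
    have h4 : |sin (2*π*(v 2 - c 2))| = |sin (2*π*τ)| := by
      rcases abs_choice (v 2 - c 2) with h | h
      · rw [h] at h2; rw [h2]
      · rw [h] at h2
        have : v 2 - c 2 = -τ := by linarith
        rw [this, mul_neg, sin_neg, abs_neg]
    unfold wk
    rw [abs_div, abs_of_pos (by positivity : 0 < 2*π), le_div_iff₀ (by positivity), h4]
    have h5 : (2*π*τ)^3 ≤ 1e-10 * (2*π*τ) := by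
      have : (2*π*τ)^2 ≤ (1e-5)^2 := by gcongr
      nlinarith
    have h6 := le_abs_self (sin (2*π*τ))
    nlinarith
  have hp1 := ps_ge σ (wk c v)
  have hp4 := ps_le hσ (wk c v)
  unfold kk
  rw [hchi, one_mul]
  constructor
  · nlinarith
  · nlinarith

end

end Pool.Agent.H47
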