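import Pool.Agent.H47.CoreA
import Pool.Agent.H47.CoreT

/-! ### Link -/

namespace Pool.Agent.H47

open Real Set Filter Topology

/-- `ℓ¹` norm on `E3` -/
noncomputable def n1 (e : E3) : ℝ := |e.1| + |e.2.1| + |e.2.2|

lemma n1_nonneg (e : E3) : 0 ≤ n1 e := by unfold n1; positivity

lemma dd_eq (p q : E3) : dd p q = n1 (q - p) := rfl

lemma dd_comm (p q : E3) : dd p q = dd q p := by
  unfold dd; rw [abs_sub_comm, abs_sub_comm q.2.1, abs_sub_comm q.2.2]

/-- from a Lipschitz derivative to the four point condition -/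
lemma small2_of_deriv {P : E3 → ℝ} {P' : E3 → E3 →L[ℝ] ℝ} (hd : ∀ p, HasFDerivAt P (P' p) p)
    (h1 : ∀ p e, |P' p e| ≤ 1e-14 * n1 e) (h2 : ∀ p q e, |P' p e - P' q e| ≤ 3e-15 * dd p q * n1 e) :
    Small2 P := by
  constructor
  intro p₁ q₁ p₂ q₂ hτ₁ hτ₂ hs₁ hu₁ hs₂ hu₂
  have hτ₁' : 0 < q₁.2.1 - p₁.2.1 := by linarith
  have hτ₂' : 0 < q₂.2.1 - p₂.2.1 := by linarith
  set τ₁ := q₁.2.1 - p₁.2.1 with hT1
  set τ₂ := q₂.2.1 - p₂.2.1 with hT2
  set e₁ : E3 := τ₁⁻¹ • (q₁ - p₁) with he₁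
  set e₂ : E3 := τ₂⁻¹ • (q₂ - p₂) with he₂
  set φ : ℝ → ℝ := fun θ => P (p₁ + θ • (q₁ - p₁)) / τ₁ - P (p₂ + θ • (q₂ - p₂)) / τ₂ with hφ
  have hdφ : ∀ θ, HasDerivAt φ (P' (p₁ + θ • (q₁ - p₁)) e₁ - P' (p₂ + θ • (q₂ - p₂)) e₂) θ := by
    intro θ
    have i1 : HasDerivAt (fun θ : ℝ => p₁ + θ • (q₁ - p₁)) (q₁ - p₁) θ := by
      have := ((hasDerivAt_id θ).smul_const (q₁ - p₁)).const_add p₁
      simpa using this
    have i2 : HasDerivAt (fun θ : ℝ => p₂ + θ • (q₂ - p₂)) (q₂ - p₂) θ := by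
      have := ((hasDerivAt_id θ).smul_const (q₂ - p₂)).const_add p₂
      simpa using this
    have j1 := ((hd (p₁ + θ • (q₁ - p₁))).comp_hasDerivAt θ i1).div_const τ₁
    have j2 := ((hd (p₂ + θ • (q₂ - p₂))).comp_hasDerivAt θ i2).div_const τ₂
    have j := j1.sub j2
    refine j.congr_deriv ?_
    rw [he₁, he₂, map_smul, map_smul, smul_eq_mul, smul_eq_mul]
    ring
  have hc1 : e₁.1 = sg p₁ q₁ := by
    simp only [he₁, sg, Prod.smul_fst, Prod.fst_sub, smul_eq_mul]; rw [← hT1]; ring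
  have hc2 : e₁.2.1 = 1 := by
    simp only [he₁, Prod.smul_fst, Prod.smul_snd, Prod.fst_sub, Prod.snd_sub, smul_eq_mul]
    rw [← hT1]; field_simp
  have hc3 : e₁.2.2 = el p₁ q₁ := by
    simp only [he₁, el, Prod.smul_snd, Prod.snd_sub, smul_eq_mul]; rw [← hT1]; ring
  have hd1 : e₂.1 = sg p₂ q₂ := by
    simp only [he₂, sg, Prod.smul_fst, Prod.fst_sub, smul_eq_mul]; rw [← hT2]; ring
  have hd2 : e₂.2.1 = 1 := by
    simp only [he₂, Prod.smul_fst, Prod.smul_snd, Prod.fst_sub, Prod.snd_sub, smul_eq_mul]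
    rw [← hT2]; field_simp
  have hd3 : e₂.2.2 = el p₂ q₂ := by
    simp only [he₂, el, Prod.smul_snd, Prod.snd_sub, smul_eq_mul]; rw [← hT2]; ring
  have hs1' : |sg p₁ q₁| ≤ 1 := by
    unfold sg; rw [abs_div, ← hT1, abs_of_pos hτ₁', div_le_one hτ₁']; exact hs₁
  have hl1' : |el p₁ q₁| ≤ 1 := by
    unfold el; rw [abs_div, ← hT1, abs_of_pos hτ₁', div_le_one hτ₁']; exact hu₁
  have hn1 : n1 e₁ ≤ 3 := by
    unfold n1; rw [hc1, hc2, hc3]; simp only [abs_one]; linarith
  have hn2 : n1 (e₁ - e₂) = |sg p₁ q₁ - sg p₂ q₂| + |el p₁ q₁ - el p₂ q₂| := by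
    unfold n1
    simp only [Prod.fst_sub, Prod.snd_sub]
    rw [hc1, hc2, hc3, hd1, hd2, hd3]; simp
  have hb : ∀ θ ∈ Ico (0:ℝ) 1, ‖P' (p₁ + θ • (q₁ - p₁)) e₁ - P' (p₂ + θ • (q₂ - p₂)) e₂‖ ≤
      1e-14 * (dd p₁ p₂ + dd q₁ q₂ + |sg p₁ q₁ - sg p₂ q₂| + |el p₁ q₁ - el p₂ q₂|) := by
    intro θ hθ
    have e : P' (p₁ + θ • (q₁ - p₁)) e₁ - P' (p₂ + θ • (q₂ - p₂)) e₂ =
      (P' (p₁ + θ • (q₁ - p₁)) e₁ - P' (p₂ + θ • (q₂ - p₂)) e₁) +
        P' (p₂ + θ • (q₂ - p₂)) (e₁ - e₂) := by rw [map_sub]; ring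
    rw [e, Real.norm_eq_abs]
    refine (abs_add_le _ _).trans ?_
    have k1 := h2 (p₁ + θ • (q₁ - p₁)) (p₂ + θ • (q₂ - p₂)) e₁
    have k2 := h1 (p₂ + θ • (q₂ - p₂)) (e₁ - e₂)
    have k3 : dd (p₁ + θ • (q₁ - p₁)) (p₂ + θ • (q₂ - p₂)) ≤ dd p₁ p₂ + dd q₁ q₂ := by
      have hθ0 := hθ.1
      have hθ1 := hθ.2
      have key : ∀ a b c d : ℝ, |(c + θ * (d - c)) - (a + θ * (b - a))| ≤ |c - a| + |d - b| := by
        intro a b c d
        have e2 : (c + θ * (d - c)) - (a + θ * (b - a)) = (1 - θ) * (c - a) + θ * (d - b) := by ring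
        rw [e2]
        refine (abs_add_le _ _).trans ?_
        rw [abs_mul, abs_mul, abs_of_nonneg hθ0, abs_of_nonneg (by linarith : 0 ≤ 1 - θ)]
        have := abs_nonneg (c - a)
        have := abs_nonneg (d - b)
        nlinarith
      unfold dd
      have k1 := key p₁.1 q₁.1 p₂.1 q₂.1
      have k2 := key p₁.2.1 q₁.2.1 p₂.2.1 q₂.2.1
      have k3 := key p₁.2.2 q₁.2.2 p₂.2.2 q₂.2.2
      simp only [Prod.fst_add, Prod.snd_add, Prod.smul_fst, Prod.smul_snd, Prod.fst_sub,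
        Prod.snd_sub, smul_eq_mul]
      linarith
    rw [hn2] at k2
    have k4 : 3e-15 * dd (p₁ + θ • (q₁ - p₁)) (p₂ + θ • (q₂ - p₂)) * n1 e₁ ≤
        3e-15 * (dd p₁ p₂ + dd q₁ q₂) * 3 := by
      apply mul_le_mul _ hn1 (n1_nonneg _)
      · have := dd_nonneg p₁ p₂
        have := dd_nonneg q₁ q₂
        positivity
      · exact mul_le_mul_of_nonneg_left k3 (by norm_num)
    have := dd_nonneg p₁ p₂
    have := dd_nonneg q₁ q₂
    linarith
  have := norm_image_sub_le_of_norm_deriv_le_segment_01' (f := φ)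
    (fun x _ => (hdφ x).hasDerivWithinAt) hb
  have e3 : φ 1 - φ 0 = qP P p₁ q₁ - qP P p₂ q₂ := by
    simp only [hφ, qP, one_smul, zero_smul, add_zero, add_sub_cancel]
    rw [← hT1, ← hT2]
    ring
  rw [← e3]
  simpa [Real.norm_eq_abs] using this

/-! ### the hyperbolic matrix -/

/-- the golden-like unit -/
noncomputable def mu : ℝ := (5 + √29) / 2

lemma mu_sq : mu^2 = 5 * mu + 1 := by
  unfold mu
  have := Real.sq_sqrt (show (0:ℝ) ≤ 29 by norm_num)
  nlinarith

lemma mu_gt : 5.19 < mu := by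
  unfold mu
  have : (5.38:ℝ) < √29 := by
    apply Real.lt_sqrt_of_sq_lt; norm_num
  linarith

lemma mu_lt : mu < 5.195 := by
  unfold mu
  have : √29 < (5.39:ℝ) := by
    rw [Real.sqrt_lt' (by norm_num)]; norm_num
  linarith

lemma mu_pos : 0 < mu := by linarith [mu_gt]
lemma mu_inv : mu⁻¹ = mu - 5 := by
  have h := mu_sq
  have h0 := mu_pos
  field_simp
  nlinarith

lemma mu_irr : Irrational mu := by
  have h : Irrational (√29) := by
    have := Nat.Prime.irrational_sqrt (show Nat.Prime 29 by norm_num)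
    exact_mod_cast this
  unfold mu
  have h2 := (h.ratCast_add 5)
  have h3 := h2.div_ratCast (q := 2) (by norm_num)
  exact_mod_cast h3

/-- eigencoordinates to standard coordinates -/
noncomputable def toV (p : E3) : V3 := ![p.1 + p.2.2, (mu - 5) * p.2.2 - mu * p.1, p.2.1]

noncomputable def uf (v : V3) : ℝ := (mu * v 0 + v 1) / (2 * mu - 5)

noncomputable def toE (v : V3) : E3 := (v 0 - uf v, v 2, uf v)

lemma uf_add (v w : V3) : uf (v + w) = uf v + uf w := by
  unfold uf; simp only [Pi.add_apply]; ring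

lemma uf_smul (c : ℝ) (w : V3) : uf (c • w) = c * uf w := by
  unfold uf; simp only [Pi.smul_apply, smul_eq_mul]; ring

noncomputable def psiL : E3 ≃ₗ[ℝ] V3 where
  toFun := toV
  invFun := toE
  map_add' p q := by
    ext i
    fin_cases i <;> simp [toV] <;> ring
  map_smul' c q := by
    ext i
    fin_cases i <;> simp [toV] <;> ring
  left_inv p := by
    have h : 2 * mu - 5 ≠ 0 := by linarith [mu_gt]
    have hu : uf (toV p) = p.2.2 := by
      unfold uf
      simp only [toV, Matrix.cons_val_zero, Matrix.cons_val_one]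
      rw [div_eq_iff h]
      ring
    unfold toE
    rw [hu]
    ext
    · simp [toV]
    · simp [toV]
    · rfl
  right_inv v := by
    have h : 2 * mu - 5 ≠ 0 := by linarith [mu_gt]
    ext i
    fin_cases i
    · simp [toV, toE]
    · have hu : uf v * (2 * mu - 5) = mu * v 0 + v 1 := div_mul_cancel₀ _ h
      show (mu - 5) * uf v - mu * (v 0 - uf v) = v 1
      linear_combination hu
    · simp [toV, toE]

noncomputable def psi : E3 ≃L[ℝ] V3 := psiL.toContinuousLinearEquiv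

lemma psi_apply (p : E3) : psi p = toV p := rfl
lemma psi_symm_apply (v : V3) : psi.symm v = toE v := rfl

lemma uf_bd (v : V3) : |uf v| ≤ 1.2 * ‖v‖ := by
  have h0 := norm_le_pi_norm v 0
  have h1 := norm_le_pi_norm v 1
  have hm := mu_gt
  have hm' := mu_lt
  unfold uf
  rw [abs_div, abs_of_pos (by linarith : 0 < 2 * mu - 5), div_le_iff₀ (by linarith)]
  refine (abs_add_le _ _).trans ?_
  rw [abs_mul, abs_of_pos mu_pos]
  rw [Real.norm_eq_abs] at h0 h1
  have := norm_nonneg v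
  nlinarith

lemma toE_bd1 (v : V3) : |(toE v).1| ≤ 2.2 * ‖v‖ := by
  have h0 := norm_le_pi_norm v 0
  have := uf_bd v
  rw [Real.norm_eq_abs] at h0
  unfold toE
  refine (abs_sub _ _).trans ?_
  linarith

lemma toE_bd2 (v : V3) : |(toE v).2.1| ≤ ‖v‖ := by
  have h0 := norm_le_pi_norm v 2
  rw [Real.norm_eq_abs] at h0
  exact h0

lemma toE_bd3 (v : V3) : |(toE v).2.2| ≤ 1.2 * ‖v‖ := uf_bd v

lemma toV_bd (p : E3) : ‖toV p‖ ≤ 5.2 * n1 p := by
  have hm := mu_gt
  have hm' := mu_lt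
  have a1 := abs_nonneg p.1
  have a2 := abs_nonneg p.2.1
  have a3 := abs_nonneg p.2.2
  unfold n1
  rw [pi_norm_le_iff_of_nonneg (by positivity)]
  intro i
  fin_cases i
  · simp only [toV]
    refine (abs_add_le _ _).trans ?_
    linarith
  · simp only [toV]
    refine (abs_sub _ _).trans ?_
    rw [abs_mul, abs_mul, abs_of_pos mu_pos, abs_of_pos (by linarith : 0 < mu - 5)]
    nlinarith
  · simp only [toV]
    show |p.2.1| ≤ _
    linarith

/-- the model map on the cover -/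
noncomputable def F0 (v : V3) : V3 :=
  ![26 * v 0 + 5 * v 1, 5 * v 0 + v 1, v 2 + 1e-4 * vv (v 2) + 1e-5 * cc (v 0)]

lemma F0_toV (p : E3) : F0 (toV p) =
    toV ((mu^2)⁻¹ * p.1, p.2.1 + 1e-4 * vv p.2.1 + 1e-5 * cc (p.1 + p.2.2), mu^2 * p.2.2) := by
  have h := mu_sq
  have hi : (mu^2)⁻¹ = 26 - 5 * mu := by
    rw [← inv_pow, mu_inv]; linarith
  rw [hi]
  have h3 : mu^3 = 26 * mu + 5 := by
    have : mu^3 = mu * mu^2 := by ring
    rw [this, h]; linarith
  ext i
  fin_cases i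
  · simp only [F0, toV]
    simp
    linear_combination (-p.2.2) * h
  · simp only [F0, toV]
    simp
    linear_combination (p.1 * (-5)) * h + p.2.2 * (-h3 + 5 * h)
  · simp [F0, toV]

/-- smallness conditions on the periodic perturbation, first order -/
structure QQ (Q : V3 → V3) : Prop where
  per : ∀ n p, Q (p + zc n) = Q p
  bd : ∀ p, ‖Q p‖ ≤ 1e-17
  lip : ∀ p q, ‖Q p - Q q‖ ≤ 1e-17 * ‖p - q‖

lemma small1_of {Q : V3 → V3} (h : QQ Q) {ℓ : V3 → ℝ} (hℓ : ∀ v, |ℓ v| ≤ 2.2 * ‖v‖)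
    (hs : ∀ v w, ℓ (v - w) = ℓ v - ℓ w) : Small1 (fun p => ℓ (Q (toV p))) := by
  constructor
  · intro p
    have h1 := hℓ (Q (toV p))
    have h2 := h.bd (toV p)
    linarith
  · intro p q
    have h1 := hℓ (Q (toV q) - Q (toV p))
    have h2 := h.lip (toV q) (toV p)
    have h3 : toV q - toV p = toV (q - p) := (map_sub psi q p).symm
    have h4 := toV_bd (q - p)
    rw [← dd_eq] at h4
    rw [h3] at h2
    rw [hs] at h1
    have := dd_nonneg p q
    linarith

/-- the system attached to a small perturbation -/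
noncomputable def mkSys (Q : V3 → V3) (h : QQ Q) : Sys where
  F p := toE (F0 (toV p) + Q (toV p))
  lam := mu^2
  Ps p := (toE (Q (toV p))).1
  Pt p := (toE (Q (toV p))).2.1
  Pu p := (toE (Q (toV p))).2.2
  hlam := by rw [mu_sq]; linarith [mu_gt]
  hlam' := by rw [mu_sq]; linarith [mu_lt]
  hs p := by
    have : toE (F0 (toV p) + Q (toV p)) = toE (F0 (toV p)) + toE (Q (toV p)) :=
      map_add psi.symm _ _
    rw [this, F0_toV]
    have h2 : ∀ q, toE (toV q) = q := psi.symm_apply_apply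
    rw [h2]
    rfl
  ht p := by
    have : toE (F0 (toV p) + Q (toV p)) = toE (F0 (toV p)) + toE (Q (toV p)) :=
      map_add psi.symm _ _
    rw [this, F0_toV]
    have h2 : ∀ q, toE (toV q) = q := psi.symm_apply_apply
    rw [h2]
    rfl
  hu p := by
    have : toE (F0 (toV p) + Q (toV p)) = toE (F0 (toV p)) + toE (Q (toV p)) :=
      map_add psi.symm _ _
    rw [this, F0_toV]
    have h2 : ∀ q, toE (toV q) = q := psi.symm_apply_apply
    rw [h2]
    rfl
  s1 := small1_of h (ℓ := fun v => (toE v).1) toE_bd1 (fun v w => by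
    have : toE (v - w) = toE v - toE w := map_sub psi.symm _ _
    simp only [this]; rfl)
  t1 := small1_of h (ℓ := fun v => (toE v).2.1) (fun v => by
      have := toE_bd2 v
      have := norm_nonneg v
      linarith) (fun v w => by
    have : toE (v - w) = toE v - toE w := map_sub psi.symm _ _
    simp only [this]; rfl)
  u1 := small1_of h (ℓ := fun v => (toE v).2.2) (fun v => by
      have := toE_bd3 v
      have := norm_nonneg v
      linarith) (fun v w => by
    have : toE (v - w) = toE v - toE w := map_sub psi.symm _ _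
    simp only [this]; rfl)

lemma small2_of {Q : V3 → V3} {Q' : V3 → V3 →L[ℝ] V3} (hd : ∀ p, HasFDerivAt Q (Q' p) p)
    (hb : ∀ p, ‖Q' p‖ ≤ 1e-17) (hl : ∀ p q, ‖Q' p - Q' q‖ ≤ 1e-17 * ‖p - q‖)
    (ℓ : V3 →L[ℝ] ℝ) (hℓ : ∀ v, |ℓ v| ≤ 2.2 * ‖v‖) : Small2 (fun p => ℓ (Q (toV p))) := by
  apply small2_of_deriv (P' := fun p => (ℓ.comp (Q' (toV p))).comp (psi : E3 →L[ℝ] V3))
  · intro p
    have h1 : HasFDerivAt toV (psi : E3 →L[ℝ] V3) p := psi.hasFDerivAt
    exact (ℓ.hasFDerivAt.comp _ (hd (toV p))).comp p h1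
  · intro p e
    simp only [ContinuousLinearMap.comp_apply]
    have h1 := hℓ (Q' (toV p) (toV e))
    have h2 := (Q' (toV p)).le_opNorm (toV e)
    have h3 := hb (toV p)
    have h4 := toV_bd e
    have h5 := norm_nonneg (toV e)
    have h6 : ‖Q' (toV p)‖ * ‖toV e‖ ≤ 1e-17 * ‖toV e‖ := mul_le_mul_of_nonneg_right h3 h5
    have h7 := n1_nonneg e
    show |ℓ (Q' (toV p) (toV e))| ≤ _
    linarith
  · intro p q e
    simp only [ContinuousLinearMap.comp_apply]
    have h1 := hℓ ((Q' (toV p) - Q' (toV q)) (toV e))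
    have h2 := (Q' (toV p) - Q' (toV q)).le_opNorm (toV e)
    have h3 := hl (toV p) (toV q)
    have h4 := toV_bd e
    have h5 := norm_nonneg (toV e)
    have h7 := n1_nonneg e
    have h8 : toV p - toV q = toV (p - q) := (map_sub psi p q).symm
    have h9 := toV_bd (p - q)
    rw [← dd_eq, dd_comm] at h9
    rw [h8] at h3
    have h10 := dd_nonneg p q
    have h11 : ‖Q' (toV p) - Q' (toV q)‖ * ‖toV e‖ ≤ (1e-17 * (5.2 * dd p q)) * (5.2 * n1 e) := by
      apply mul_le_mul _ h4 h5 (by positivity)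
      exact h3.trans (mul_le_mul_of_nonneg_left h9 (by norm_num))
    have h12 : 0 ≤ dd p q * n1 e := by positivity
    show |ℓ (Q' (toV p) (toV e)) - ℓ (Q' (toV q) (toV e))| ≤ _
    rw [← map_sub, ← sub_apply]
    nlinarith

lemma mkSys_C2 {Q : V3 → V3} (h : QQ Q) {Q' : V3 → V3 →L[ℝ] V3}
    (hd : ∀ p, HasFDerivAt Q (Q' p) p)
    (hb : ∀ p, ‖Q' p‖ ≤ 1e-17) (hl : ∀ p q, ‖Q' p - Q' q‖ ≤ 1e-17 * ‖p - q‖) :
    (mkSys Q h).C2 := by
  refine ⟨?_, ?_, ?_⟩
  · exact small2_of hd hb hl ((ContinuousLinearMap.fst ℝ ℝ (ℝ × ℝ)).comp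
      (psi.symm : V3 →L[ℝ] E3)) toE_bd1
  · exact small2_of hd hb hl (((ContinuousLinearMap.fst ℝ ℝ ℝ).comp
      (ContinuousLinearMap.snd ℝ ℝ (ℝ × ℝ))).comp
      (psi.symm : V3 →L[ℝ] E3)) (fun v => by
        have := toE_bd2 v
        have := norm_nonneg v
        show |(toE v).2.1| ≤ _
        linarith)
  · exact small2_of hd hb hl (((ContinuousLinearMap.snd ℝ ℝ ℝ).comp
      (ContinuousLinearMap.snd ℝ ℝ (ℝ × ℝ))).comp
      (psi.symm : V3 →L[ℝ] E3)) (fun v => by
        have := toE_bd3 v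
        have := norm_nonneg v
        show |(toE v).2.2| ≤ _
        linarith)

/-- the lattice in eigencoordinates -/
noncomputable def Gam : AddSubgroup E3 where
  carrier := {γ | ∃ n, toV γ = zc n}
  add_mem' := by
    rintro a b ⟨m, hm⟩ ⟨n, hn⟩
    refine ⟨m + n, ?_⟩
    have : toV (a + b) = toV a + toV b := map_add psi a b
    rw [this, hm, hn, zc_add]
  zero_mem' := ⟨0, by
    have : toV 0 = 0 := map_zero psi
    rw [this]; simp⟩
  neg_mem' := by
    rintro a ⟨m, hm⟩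
    refine ⟨-m, ?_⟩
    have : toV (-a) = -toV a := map_neg psi a
    rw [this, hm, zc_neg]

lemma mem_Gam {γ : E3} : γ ∈ Gam ↔ ∃ n, toV γ = zc n := Iff.rfl

lemma toE_zc_mem (n : Fin 3 → ℤ) : toE (zc n) ∈ Gam := by
  refine ⟨n, ?_⟩
  exact psi.apply_symm_apply (zc n)

lemma vv_add_int (t : ℝ) (n : ℤ) : vv (t + n) = vv t := by
  unfold vv
  have h1 : 4*π*(t+n) = 4*π*t + ((2*n : ℤ) : ℝ) * (2*π) := by push_cast; ring
  have h2 : 2*π*(t+n) = 2*π*t + n * (2*π) := by ring
  rw [h1, h2, Real.cos_add_int_mul_two_pi, Real.cos_add_int_mul_two_pi]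

lemma cc_add_int (t : ℝ) (n : ℤ) : cc (t + n) = cc t := by
  unfold cc
  have h2 : 2*π*(t+n) = 2*π*t + n * (2*π) := by ring
  rw [h2, Real.cos_add_int_mul_two_pi]

/-- action of the model map on integer vectors -/
def actA (n : Fin 3 → ℤ) : Fin 3 → ℤ := ![26 * n 0 + 5 * n 1, 5 * n 0 + n 1, n 2]

lemma F0_add_zc (v : V3) (n : Fin 3 → ℤ) : F0 (v + zc n) = F0 v + zc (actA n) := by
  ext i
  fin_cases i
  · simp [F0, zc, actA]; ring
  · simp [F0, zc, actA]; ring
  · show v 2 + (n 2:ℝ) + 1e-4 * vv (v 2 + (n 2:ℝ)) + 1e-5 * cc (v 0 + (n 0:ℝ)) =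
      v 2 + 1e-4 * vv (v 2) + 1e-5 * cc (v 0) + (n 2:ℝ)
    rw [vv_add_int, cc_add_int]; ring

lemma mkSys_lat (Q : V3 → V3) (h : QQ Q) : (mkSys Q h).Lat Gam := by
  have hh : ∀ q, toE (toV q) = q := psi.symm_apply_apply
  have hh' : ∀ q, toV (toE q) = q := psi.apply_symm_apply
  have hLm : ∀ γ : E3, ∀ n, toV γ = zc n → toV ((mkSys Q h).Lm γ) = zc (actA n) := by
    intro γ n hn
    have h1 := F0_add_zc 0 n
    have h2 := F0_toV γ
    rw [hn] at h2
    have h0 : F0 0 = ![0, 0, 1e-4 * vv 0 + 1e-5 * cc 0] := by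
      ext i; fin_cases i <;> simp [F0]
    rw [zero_add, h2, h0] at h1
    have e0 := congrFun h1 0
    have e1 := congrFun h1 1
    have e2 := congrFun hn 2
    ext i
    fin_cases i
    · simpa [Sys.Lm, mkSys, toV] using e0
    · simpa [Sys.Lm, mkSys, toV] using e1
    · simpa [Sys.Lm, mkSys, toV, zc, actA] using e2
  refine ⟨?_, ?_, ?_, ?_, ?_, ?_⟩
  · rintro γ ⟨n, hn⟩ p
    show toE (F0 (toV (p + γ)) + Q (toV (p + γ))) = toE (F0 (toV p) + Q (toV p)) + _
    have h1 : toV (p + γ) = toV p + toV γ := map_add psi p γ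
    rw [h1, hn, F0_add_zc, h.per, ← hLm γ n hn]
    have h2 : ∀ a b, toE (a + b) = toE a + toE b := map_add psi.symm
    rw [h2, h2, h2, hh]
    abel
  · rintro γ ⟨n, hn⟩
    exact ⟨actA n, hLm γ n hn⟩
  · have : (Gam : Set E3) ⊆ range (fun n => toE (zc n)) := by
      rintro γ ⟨n, hn⟩
      exact ⟨n, by simp only; rw [← hn, hh]⟩
    exact (countable_range _).mono this
  · refine ⟨0.05, by norm_num, ?_⟩
    rintro γ ⟨n, hn⟩ hγ
    have hb : n1 γ ≤ 3 * ‖γ‖ := by
      unfold n1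
      have i1 : |γ.1| ≤ ‖γ‖ := norm_fst_le γ
      have i2 : |γ.2.1| ≤ ‖γ‖ := (norm_fst_le γ.2).trans (norm_snd_le γ)
      have i3 : |γ.2.2| ≤ ‖γ‖ := (norm_snd_le γ.2).trans (norm_snd_le γ)
      linarith
    have h1 := toV_bd γ
    have h2 : ‖zc n‖ < 1 := by rw [← hn]; linarith
    have h3 : n = 0 := by
      funext i
      have h4 := lt_of_le_of_lt (norm_le_pi_norm (zc n) i) h2
      simp only [zc, Real.norm_eq_abs] at h4
      have h5 : |n i| < 1 := by exact_mod_cast h4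
      simpa using h5
    rw [h3, zc_zero] at hn
    have h6 : toE (toV γ) = toE 0 := by rw [hn]
    rw [hh] at h6
    rw [h6]
    exact map_zero psi.symm
  · rintro γ ⟨n, hn⟩
    exact ⟨n 2, by simpa [toV, zc] using congrFun hn 2⟩
  · rintro γ ⟨n, hn⟩ hu
    have e0 := congrFun hn 0
    have e1 := congrFun hn 1
    simp [toV, zc, hu] at e0 e1
    rw [e0] at e1 ⊢
    by_contra hne
    have hne' : (n 0 : ℤ) ≠ 0 := by exact_mod_cast hne
    have : mu = ((-(n 1) / (n 0) : ℚ) : ℝ) := by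
      push_cast
      field_simp
      linarith
    exact mu_irr ⟨_, this.symm⟩

end Pool.Agent.H47

/-! ### Dist -/

namespace Pool.Agent.H47

open Real Set Filter Topology

/-- four point condition with a modulus -/
structure Mod (P : E3 → ℝ) (θ C : ℝ) : Prop where
  four : ∀ p₁ q₁ p₂ q₂ : E3, p₁.2.1 < q₁.2.1 → p₂.2.1 < q₂.2.1 →
    |q₁.1 - p₁.1| ≤ q₁.2.1 - p₁.2.1 → |q₁.2.2 - p₁.2.2| ≤ q₁.2.1 - p₁.2.1 →
    |q₂.1 - p₂.1| ≤ q₂.2.1 - p₂.2.1 → |q₂.2.2 - p₂.2.2| ≤ q₂.2.1 - p₂.2.1 →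
    |qP P p₁ q₁ - qP P p₂ q₂| ≤ θ + C * (dd p₁ p₂ + dd q₁ q₂) +
      1e-14 * (|sg p₁ q₁ - sg p₂ q₂| + |el p₁ q₁ - el p₂ q₂|)

/-- from a modulus of the derivative to the four point condition -/
lemma mod_of_deriv {P : E3 → ℝ} {P' : E3 → E3 →L[ℝ] ℝ} {θ C : ℝ} (hθ : 0 ≤ θ) (hC : 0 ≤ C)
    (hd : ∀ p, HasFDerivAt P (P' p) p)
    (h1 : ∀ p e, |P' p e| ≤ 1e-14 * n1 e)
    (h2 : ∀ p q e, |P' p e - P' q e| ≤ (θ + C * dd p q) * n1 e) :
    Mod P (3 * θ) (3 * C) := by
  constructor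
  intro p₁ q₁ p₂ q₂ hτ₁ hτ₂ hs₁ hu₁ hs₂ hu₂
  have hτ₁' : 0 < q₁.2.1 - p₁.2.1 := by linarith
  have hτ₂' : 0 < q₂.2.1 - p₂.2.1 := by linarith
  set τ₁ := q₁.2.1 - p₁.2.1 with hT1
  set τ₂ := q₂.2.1 - p₂.2.1 with hT2
  set e₁ : E3 := τ₁⁻¹ • (q₁ - p₁) with he₁
  set e₂ : E3 := τ₂⁻¹ • (q₂ - p₂) with he₂
  set φ : ℝ → ℝ := fun θ => P (p₁ + θ • (q₁ - p₁)) / τ₁ - P (p₂ + θ • (q₂ - p₂)) / τ₂ with hφ
  have hdφ : ∀ θ, HasDerivAt φ (P' (p₁ + θ • (q₁ - p₁)) e₁ - P' (p₂ + θ • (q₂ - p₂)) e₂) θ := by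
    intro θ
    have i1 : HasDerivAt (fun θ : ℝ => p₁ + θ • (q₁ - p₁)) (q₁ - p₁) θ := by
      have := ((hasDerivAt_id θ).smul_const (q₁ - p₁)).const_add p₁
      simpa using this
    have i2 : HasDerivAt (fun θ : ℝ => p₂ + θ • (q₂ - p₂)) (q₂ - p₂) θ := by
      have := ((hasDerivAt_id θ).smul_const (q₂ - p₂)).const_add p₂
      simpa using this
    have j1 := ((hd (p₁ + θ • (q₁ - p₁))).comp_hasDerivAt θ i1).div_const τ₁
    have j2 := ((hd (p₂ + θ • (q₂ - p₂))).comp_hasDerivAt θ i2).div_const τ₂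
    have j := j1.sub j2
    refine j.congr_deriv ?_
    rw [he₁, he₂, map_smul, map_smul, smul_eq_mul, smul_eq_mul]
    ring
  have hc1 : e₁.1 = sg p₁ q₁ := by
    simp only [he₁, sg, Prod.smul_fst, Prod.fst_sub, smul_eq_mul]; rw [← hT1]; ring
  have hc2 : e₁.2.1 = 1 := by
    simp only [he₁, Prod.smul_fst, Prod.smul_snd, Prod.fst_sub, Prod.snd_sub, smul_eq_mul]
    rw [← hT1]; field_simp
  have hc3 : e₁.2.2 = el p₁ q₁ := by
    simp only [he₁, el, Prod.smul_snd, Prod.snd_sub, smul_eq_mul]; rw [← hT1]; ring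
  have hd1 : e₂.1 = sg p₂ q₂ := by
    simp only [he₂, sg, Prod.smul_fst, Prod.fst_sub, smul_eq_mul]; rw [← hT2]; ring
  have hd2 : e₂.2.1 = 1 := by
    simp only [he₂, Prod.smul_fst, Prod.smul_snd, Prod.fst_sub, Prod.snd_sub, smul_eq_mul]
    rw [← hT2]; field_simp
  have hd3 : e₂.2.2 = el p₂ q₂ := by
    simp only [he₂, el, Prod.smul_snd, Prod.snd_sub, smul_eq_mul]; rw [← hT2]; ring
  have hs1' : |sg p₁ q₁| ≤ 1 := by
    unfold sg; rw [abs_div, ← hT1, abs_of_pos hτ₁', div_le_one hτ₁']; exact hs₁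
  have hl1' : |el p₁ q₁| ≤ 1 := by
    unfold el; rw [abs_div, ← hT1, abs_of_pos hτ₁', div_le_one hτ₁']; exact hu₁
  have hn1 : n1 e₁ ≤ 3 := by
    unfold n1; rw [hc1, hc2, hc3]; simp only [abs_one]; linarith
  have hn2 : n1 (e₁ - e₂) = |sg p₁ q₁ - sg p₂ q₂| + |el p₁ q₁ - el p₂ q₂| := by
    unfold n1
    simp only [Prod.fst_sub, Prod.snd_sub]
    rw [hc1, hc2, hc3, hd1, hd2, hd3]; simp
  have hb : ∀ s ∈ Ico (0:ℝ) 1, ‖P' (p₁ + s • (q₁ - p₁)) e₁ - P' (p₂ + s • (q₂ - p₂)) e₂‖ ≤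
      3 * θ + 3 * C * (dd p₁ p₂ + dd q₁ q₂) +
      1e-14 * (|sg p₁ q₁ - sg p₂ q₂| + |el p₁ q₁ - el p₂ q₂|) := by
    intro θ' hθ'
    have e : P' (p₁ + θ' • (q₁ - p₁)) e₁ - P' (p₂ + θ' • (q₂ - p₂)) e₂ =
      (P' (p₁ + θ' • (q₁ - p₁)) e₁ - P' (p₂ + θ' • (q₂ - p₂)) e₁) +
        P' (p₂ + θ' • (q₂ - p₂)) (e₁ - e₂) := by rw [map_sub]; ring
    rw [e, Real.norm_eq_abs]
    refine (abs_add_le _ _).trans ?_
    have k1 := h2 (p₁ + θ' • (q₁ - p₁)) (p₂ + θ' • (q₂ - p₂)) e₁
    have k2 := h1 (p₂ + θ' • (q₂ - p₂)) (e₁ - e₂)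
    have k3 : dd (p₁ + θ' • (q₁ - p₁)) (p₂ + θ' • (q₂ - p₂)) ≤ dd p₁ p₂ + dd q₁ q₂ := by
      have hθ0 := hθ'.1
      have hθ1 := hθ'.2
      have key : ∀ a b c d : ℝ, |(c + θ' * (d - c)) - (a + θ' * (b - a))| ≤ |c - a| + |d - b| := by
        intro a b c d
        have e2 : (c + θ' * (d - c)) - (a + θ' * (b - a)) = (1 - θ') * (c - a) + θ' * (d - b) := by
          ring
        rw [e2]
        refine (abs_add_le _ _).trans ?_
        rw [abs_mul, abs_mul, abs_of_nonneg hθ0, abs_of_nonneg (by linarith : 0 ≤ 1 - θ')]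
        have := abs_nonneg (c - a)
        have := abs_nonneg (d - b)
        nlinarith
      unfold dd
      have k1 := key p₁.1 q₁.1 p₂.1 q₂.1
      have k2 := key p₁.2.1 q₁.2.1 p₂.2.1 q₂.2.1
      have k3 := key p₁.2.2 q₁.2.2 p₂.2.2 q₂.2.2
      simp only [Prod.fst_add, Prod.snd_add, Prod.smul_fst, Prod.smul_snd, Prod.fst_sub,
        Prod.snd_sub, smul_eq_mul]
      linarith
    rw [hn2] at k2
    have k4 : (θ + C * dd (p₁ + θ' • (q₁ - p₁)) (p₂ + θ' • (q₂ - p₂))) * n1 e₁ ≤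
        (θ + C * (dd p₁ p₂ + dd q₁ q₂)) * 3 := by
      have := dd_nonneg p₁ p₂
      have := dd_nonneg q₁ q₂
      apply mul_le_mul _ hn1 (n1_nonneg _)
      · positivity
      · have := mul_le_mul_of_nonneg_left k3 hC
        linarith
    linarith
  have := norm_image_sub_le_of_norm_deriv_le_segment_01' (f := φ)
    (fun x _ => (hdφ x).hasDerivWithinAt) hb
  have e3 : φ 1 - φ 0 = qP P p₁ q₁ - qP P p₂ q₂ := by
    simp only [hφ, qP, one_smul, zero_smul, add_zero, add_sub_cancel]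
    rw [← hT1, ← hT2]
    ring
  rw [← e3]
  simpa [Real.norm_eq_abs] using this

lemma sum_bound2 (a e s : ℕ → ℝ) (m : ℕ) (ha : ∀ j, 0 ≤ a j) (he : ∀ j, 0 ≤ e j)
    (hs : ∀ j, 0 ≤ s j) (ha0 : a 0 = 0)
    (h1 : ∀ j, a (j+1) ≤ 0.05 * a j + 1.01 * s j + 1e-13 * e j)
    (h2 : ∀ j, e j ≤ 0.05 * e (j+1) + 0.2 * s j + 1e-13 * a j)
    (hem : e m ≤ 1) :
    ∑ j ∈ Finset.range m, (a j + e j) ≤ 1.3 * ∑ j ∈ Finset.range m, s j + 0.06 := by
  have hA : ∑ j ∈ Finset.range m, a j ≤ 0.05 * ∑ j ∈ Finset.range m, a j +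
      1.01 * ∑ j ∈ Finset.range m, s j + 1e-13 * ∑ j ∈ Finset.range m, e j := by
    have e1 : ∑ j ∈ Finset.range m, a j ≤ ∑ j ∈ Finset.range m, a (j+1) := by
      have := Finset.sum_range_succ a m
      have h' := Finset.sum_range_succ' a m
      have := ha m
      linarith
    have e2 : ∑ j ∈ Finset.range m, a (j+1) ≤
        ∑ j ∈ Finset.range m, (0.05 * a j + 1.01 * s j + 1e-13 * e j) :=
      Finset.sum_le_sum (fun j _ => h1 j)
    rw [Finset.sum_add_distrib, Finset.sum_add_distrib, ← Finset.mul_sum, ← Finset.mul_sum,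
      ← Finset.mul_sum] at e2
    linarith
  have hB : ∑ j ∈ Finset.range m, e j ≤ 0.05 * (∑ j ∈ Finset.range m, e j + e m) +
      0.2 * ∑ j ∈ Finset.range m, s j + 1e-13 * ∑ j ∈ Finset.range m, a j := by
    have e1 : ∑ j ∈ Finset.range m, e (j+1) ≤ ∑ j ∈ Finset.range m, e j + e m := by
      have := Finset.sum_range_succ e m
      have h' := Finset.sum_range_succ' e m
      have := he 0
      linarith
    have e2 : ∑ j ∈ Finset.range m, e j ≤
        ∑ j ∈ Finset.range m, (0.05 * e (j+1) + 0.2 * s j + 1e-13 * a j) :=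
      Finset.sum_le_sum (fun j _ => h2 j)
    rw [Finset.sum_add_distrib, Finset.sum_add_distrib, ← Finset.mul_sum, ← Finset.mul_sum,
      ← Finset.mul_sum] at e2
    linarith
  rw [Finset.sum_add_distrib]
  have hA0 : 0 ≤ ∑ j ∈ Finset.range m, a j := Finset.sum_nonneg (fun j _ => ha j)
  have hB0 : 0 ≤ ∑ j ∈ Finset.range m, e j := Finset.sum_nonneg (fun j _ => he j)
  have hS0 : 0 ≤ ∑ j ∈ Finset.range m, s j := Finset.sum_nonneg (fun j _ => hs j)
  linarith

lemma log_sub_le {x y : ℝ} (hx : 0.998 ≤ x) (hx' : x ≤ 1.002) (hy : 0.998 ≤ y) :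
    log y - log x ≤ -(x - y) + 0.003 * |x - y| := by
  have hx0 : 0 < x := by linarith
  have hy0 : 0 < y := by linarith
  rw [← log_div hy0.ne' hx0.ne']
  refine (log_le_sub_one_of_pos (div_pos hy0 hx0)).trans ?_
  have e : y / x - 1 = -(x - y) + (y - x) * (1 - x) / x := by field_simp; ring
  rw [e]
  have h1 : (y - x) * (1 - x) / x ≤ 0.003 * |x - y| := by
    rw [div_le_iff₀ hx0]
    calc (y - x) * (1 - x) ≤ |(y - x) * (1 - x)| := le_abs_self _
      _ = |x - y| * |1 - x| := by rw [abs_mul, abs_sub_comm y x]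
      _ ≤ |x - y| * 0.002 := by
          apply mul_le_mul_of_nonneg_left _ (abs_nonneg _)
          rw [abs_le]; constructor <;> linarith
      _ ≤ 0.003 * |x - y| * x := by
          have := abs_nonneg (x - y)
          nlinarith
  linarith

noncomputable def ll (y x : ℕ → E3) (j : ℕ) : ℝ := (x j).2.1 - (y j).2.1

namespace Sys

variable {S : Sys}

structure Triple (S : Sys) (y x z : ℕ → E3) : Prop where
  hy : ∀ j, y (j+1) = S.F (y j)
  hx : ∀ j, x (j+1) = S.F (x j)
  hz : ∀ j, z (j+1) = S.F (z j)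
  c1 : ∀ j, S.CP (y j) (x j)
  c2 : ∀ j, S.CP (x j) (z j)
  s0 : sg (y 0) (x 0) = sg (x 0) (z 0)

variable {y x z : ℕ → E3}

lemma Triple.l_pos (hT : S.Triple y x z) (j : ℕ) : 0 < ll y x j := by
  have := (hT.c1 j).lt; unfold ll; linarith
lemma Triple.r_pos (hT : S.Triple y x z) (j : ℕ) : 0 < ll x z j := by
  have := (hT.c2 j).lt; unfold ll; linarith
lemma Triple.l_succ (hT : S.Triple y x z) (j : ℕ) :
    ll y x (j+1) = S.gg (y j) (x j) * ll y x j := by
  unfold ll; rw [hT.hx, hT.hy]; exact (hT.c1 j).gg_mul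
lemma Triple.r_succ (hT : S.Triple y x z) (j : ℕ) :
    ll x z (j+1) = S.gg (x j) (z j) * ll x z j := by
  unfold ll; rw [hT.hx, hT.hz]; exact (hT.c2 j).gg_mul

lemma Triple.near1 (hT : S.Triple y x z) (j : ℕ) :
    Near (y j) (x j) (ll y x j + ll x z j) := by
  have h1 := (hT.c1 j).cone
  have h2 := (hT.c1 j).flat
  have h3 := hT.l_pos j
  have h4 := hT.r_pos j
  unfold ll at *
  refine ⟨?_, ?_, ?_⟩
  · linarith
  · rw [abs_of_pos h3]; linarith
  · linarith

lemma Triple.near2 (hT : S.Triple y x z) (j : ℕ) :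
    Near (x j) (z j) (ll y x j + ll x z j) := by
  have h1 := (hT.c2 j).cone
  have h2 := (hT.c2 j).flat
  have h3 := hT.l_pos j
  have h4 := hT.r_pos j
  unfold ll at *
  refine ⟨?_, ?_, ?_⟩
  · linarith
  · rw [abs_of_pos h4]; linarith
  · linarith

lemma Triple.dd_le (hT : S.Triple y x z) (j : ℕ) :
    dd (y j) (x j) + dd (x j) (z j) ≤ 1.01 * (ll y x j + ll x z j) := by
  have h1 := (hT.c1 j).dd_le
  have h2 := (hT.c2 j).dd_le
  unfold ll; linarith

lemma Triple.four_Q (hT : S.Triple y x z) {P : E3 → ℝ} {θ C : ℝ} (hP : Mod P θ C) (hC : 0 ≤ C)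
    (j : ℕ) :
    |qP P (y j) (x j) - qP P (x j) (z j)| ≤ θ + 1.01 * C * (ll y x j + ll x z j) +
      1e-14 * (|sg (y j) (x j) - sg (x j) (z j)| + |el (y j) (x j) - el (x j) (z j)|) := by
  have a1 := (hT.c1 j).lt
  have a2 := (hT.c2 j).lt
  have b1 := (hT.c1 j).cone
  have b2 := (hT.c2 j).cone
  have c1 := (hT.c1 j).flat
  have c2 := (hT.c2 j).flat
  have := hP.four (y j) (x j) (x j) (z j) a1 a2 (by linarith) (by linarith) (by linarith)
    (by linarith)
  have d := mul_le_mul_of_nonneg_left (hT.dd_le j) hC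
  linarith

/-- **Distortion estimate.** -/
theorem dist_core (hT : S.Triple y x z) {P₀ b : E3 → ℝ} {θ C : ℝ} (hθ : 0 ≤ θ) (hC : 0 ≤ C)
    (hdec : ∀ p, S.Pt p = P₀ p + b p) (ms : Mod S.Ps θ C) (mt : Mod P₀ θ C)
    (mu : Mod S.Pu θ C) (m : ℕ) (hy : ∀ j < m, -(1/12) ≤ (y j).2.1)
    (hz : ∀ j < m, (z j).2.1 ≤ 1/12) :
    log (ll x z m) - log (ll y x m) ≤ log (ll x z 0) - log (ll y x 0) +
      ∑ j ∈ Finset.range m, (-(qP b (y j) (x j) - qP b (x j) (z j)) +
        0.004 * |qP b (y j) (x j) - qP b (x j) (z j)| +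
        1.01 * (θ + 1.01 * C * (ll y x j + ll x z j))) + 1e-4 := by
  set ρ : ℕ → ℝ := fun j => ll y x j + ll x z j with hρ
  set κ : ℕ → ℝ := fun j => qP b (y j) (x j) - qP b (x j) (z j) with hκ
  set a : ℕ → ℝ := fun j => |sg (y j) (x j) - sg (x j) (z j)| with ha
  set e : ℕ → ℝ := fun j => |el (y j) (x j) - el (x j) (z j)| with he
  set w : ℕ → ℝ := fun j => θ + 1.01 * C * ρ j with hw
  set G : ℕ → ℝ := fun j => S.gg (y j) (x j) - S.gg (x j) (z j) with hG
  have hρ0 : ∀ j, 0 < ρ j := fun j => by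
    have := hT.l_pos j; have := hT.r_pos j; simp only [hρ]; linarith
  have ha0 : ∀ j, 0 ≤ a j := fun j => abs_nonneg _
  have he0 : ∀ j, 0 ≤ e j := fun j => abs_nonneg _
  have hw0 : ∀ j, 0 ≤ w j := fun j => by
    have := (hρ0 j).le; simp only [hw]; positivity
  -- basic expansion of G
  have hqt : ∀ j, qP S.Pt (y j) (x j) - qP S.Pt (x j) (z j) =
      (qP P₀ (y j) (x j) - qP P₀ (x j) (z j)) + κ j := by
    intro j
    simp only [hκ, qP, hdec]
    ring
  have hGeq : ∀ j, G j = 1e-4 * (vq (y j) (x j) - vq (x j) (z j)) +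
      1e-5 * ((cc ((x j).1 + (x j).2.2) - cc ((y j).1 + (y j).2.2)) / ((x j).2.1 - (y j).2.1) -
      (cc ((z j).1 + (z j).2.2) - cc ((x j).1 + (x j).2.2)) / ((z j).2.1 - (x j).2.1)) +
      (qP P₀ (y j) (x j) - qP P₀ (x j) (z j)) + κ j := by
    intro j
    have := hqt j
    simp only [hG]
    rw [(hT.c1 j).gg_eq, (hT.c2 j).gg_eq]
    unfold RR
    linear_combination this
  have hfc : ∀ j, |(cc ((x j).1 + (x j).2.2) - cc ((y j).1 + (y j).2.2)) /
      ((x j).2.1 - (y j).2.1) - (cc ((z j).1 + (z j).2.2) - cc ((x j).1 + (x j).2.2)) /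
      ((z j).2.1 - (x j).2.1)| ≤ 1e-11 * ρ j + 6.2832 * (a j + e j) := fun j =>
    four_c (hT.c1 j) (hT.c2 j) (hT.near1 j) (hT.near2 j)
  have hfv : ∀ j, |vq (y j) (x j) - vq (x j) (z j)| ≤ 197.4 * ρ j := fun j =>
    four_v (hT.c1 j) (hT.c2 j) (hT.near1 j) (hT.near2 j)
  have hfp : ∀ j, |qP P₀ (y j) (x j) - qP P₀ (x j) (z j)| ≤ w j + 1e-14 * (a j + e j) :=
    fun j => hT.four_Q mt hC j
  have hfs : ∀ j, |qP S.Ps (y j) (x j) - qP S.Ps (x j) (z j)| ≤ w j + 1e-14 * (a j + e j) :=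
    fun j => hT.four_Q ms hC j
  have hfu : ∀ j, |qP S.Pu (y j) (x j) - qP S.Pu (x j) (z j)| ≤ w j + 1e-14 * (a j + e j) :=
    fun j => hT.four_Q mu hC j
  have hGabs : ∀ j, |G j| ≤ 1.98e-2 * ρ j + 6.3e-5 * (a j + e j) + w j + |κ j| := by
    intro j
    have i1 := abs_le.1 (hfc j)
    have i2 := abs_le.1 (hfv j)
    have i3 := abs_le.1 (hfp j)
    have i4 := neg_abs_le (κ j)
    have i5 := le_abs_self (κ j)
    have i6 := (hρ0 j).le
    have i7 := ha0 j
    have i8 := he0 j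
    rw [hGeq j, abs_le]
    constructor
    · linarith [i1.1, i2.1, i3.1]
    · linarith [i1.2, i2.2, i3.2]
  -- slopes
  set s : ℕ → ℝ := fun j => w j + 1e-13 * (ρ j + |κ j|) with hs
  have hs0 : ∀ j, 0 ≤ s j := fun j => by
    have := hw0 j; have := (hρ0 j).le; have := abs_nonneg (κ j); simp only [hs]; positivity
  have ha1 : ∀ j, a (j+1) ≤ 0.05 * a j + 1.01 * s j + 1e-13 * e j := by
    intro j
    have b1 := (hT.c1 j).sg_step
    have b2 := (hT.c2 j).sg_step
    have c1 := (abs_le.1 (hT.c1 j).gg_bd).1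
    have c2 := (hT.c2 j).step.sg_bd
    rw [← hT.hx, ← hT.hz] at c2
    rw [← hT.hx, ← hT.hy] at b1
    rw [← hT.hx, ← hT.hz] at b2
    set A := sg (y (j+1)) (x (j+1))
    set B := sg (x (j+1)) (z (j+1))
    have e0 : (A - B) * S.gg (y j) (x j) = S.lam⁻¹ * (sg (y j) (x j) - sg (x j) (z j)) +
        (qP S.Ps (y j) (x j) - qP S.Ps (x j) (z j)) - B * G j := by
      simp only [hG]
      linear_combination b1 - b2
    have e1 : |A - B| * S.gg (y j) (x j) ≤ 0.0372 * a j +
        |qP S.Ps (y j) (x j) - qP S.Ps (x j) (z j)| + 2e-14 * |G j| := by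
      have hg : 0 < S.gg (y j) (x j) := by linarith
      have hg' : |A - B| * S.gg (y j) (x j) = |(A - B) * S.gg (y j) (x j)| := by
        rw [abs_mul, abs_of_pos hg]
      rw [hg', e0]
      refine (abs_sub _ _).trans ?_
      refine (add_le_add (abs_add_le _ _) le_rfl).trans ?_
      rw [abs_mul, abs_mul, abs_of_pos S.lami_pos]
      have := mul_le_mul_of_nonneg_right S.lami_lt.le (ha0 j)
      have := mul_le_mul_of_nonneg_right c2 (abs_nonneg (G j))
      linarith
    have e2 : 0.998 * |A - B| ≤ |A - B| * S.gg (y j) (x j) := by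
      have := mul_le_mul_of_nonneg_left (by linarith : 0.998 ≤ S.gg (y j) (x j))
        (abs_nonneg (A - B))
      linarith
    have e3 := hfs j
    have e4 := hGabs j
    have i6 := (hρ0 j).le
    have i7 := ha0 j
    have i8 := he0 j
    have i9 := hw0 j
    have i10 := abs_nonneg (κ j)
    show |A - B| ≤ _
    simp only [hs]
    linarith
  have he1 : ∀ j, e j ≤ 0.05 * e (j+1) + 0.2 * s j + 1e-13 * a j := by
    intro j
    have b1 := (hT.c1 j).el_step
    have b2 := (hT.c2 j).el_step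
    have c0 := (abs_le.1 (hT.c1 j).gg_bd).1
    have c1 := (abs_le.1 (hT.c1 j).gg_bd).2
    have c2 := (hT.c2 j).step.el_bd
    rw [← hT.hx, ← hT.hz] at c2
    rw [← hT.hx, ← hT.hy] at b1
    rw [← hT.hx, ← hT.hz] at b2
    set A := el (y (j+1)) (x (j+1))
    set B := el (x (j+1)) (z (j+1))
    have e0 : S.lam * (el (y j) (x j) - el (x j) (z j)) = (A - B) * S.gg (y j) (x j)
        - (qP S.Pu (y j) (x j) - qP S.Pu (x j) (z j)) + B * G j := by
      simp only [hG]
      linear_combination b2 - b1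
    have e1 : S.lam * e j ≤ 1.002 * |A - B| +
        |qP S.Pu (y j) (x j) - qP S.Pu (x j) (z j)| + 1.01e-14 * |G j| := by
      have e' : S.lam * e j = |S.lam * (el (y j) (x j) - el (x j) (z j))| := by
        rw [abs_mul, abs_of_pos S.lam_pos]
      rw [e', e0]
      refine (abs_add_le _ _).trans ?_
      refine (add_le_add (abs_sub _ _) le_rfl).trans ?_
      rw [abs_mul, abs_mul, abs_of_pos (by linarith : 0 < S.gg (y j) (x j))]
      have := mul_le_mul_of_nonneg_left (by linarith : S.gg (y j) (x j) ≤ 1.002)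
        (abs_nonneg (A - B))
      have := mul_le_mul_of_nonneg_right c2 (abs_nonneg (G j))
      linarith
    have e2 := mul_le_mul_of_nonneg_right S.hlam.le (he0 j)
    have e3 := hfu j
    have e4 := hGabs j
    have i6 := (hρ0 j).le
    have i7 := ha0 j
    have i8 := he0 j
    have i9 := hw0 j
    have i10 := abs_nonneg (κ j)
    have i11 : e (j+1) = |A - B| := rfl
    have i12 := abs_nonneg (A - B)
    simp only [hs]
    rw [i11]
    linarith
  have hsum := sum_bound2 a e s m ha0 he0 hs0 (by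
      simp only [ha]; rw [hT.s0]; simp) ha1 he1 (by
      have h1 := (hT.c1 m).el_bd
      have h2 := (hT.c2 m).el_bd
      simp only [he]
      refine (abs_sub _ _).trans ?_
      linarith)
  -- logarithms
  have hlog : ∀ n ≤ m, log (ll x z n) - log (ll y x n) ≤ log (ll x z 0) - log (ll y x 0) +
      ∑ j ∈ Finset.range n, (-κ j + 0.003 * |κ j| + 1.003 * w j + 6.4e-5 * (a j + e j) -
        1e-3 * ρ j) := by
    intro n
    induction n with
    | zero => intro _; simp
    | succ n ih =>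
      intro hn
      have ih' := ih (by omega)
      rw [Finset.sum_range_succ, hT.l_succ, hT.r_succ]
      have g1 := abs_le.1 (hT.c1 n).gg_bd
      have g2 := abs_le.1 (hT.c2 n).gg_bd
      rw [log_mul (by linarith) (hT.r_pos n).ne', log_mul (by linarith) (hT.l_pos n).ne']
      have h1 := log_sub_le (x := S.gg (y n) (x n)) (y := S.gg (x n) (z n)) (by linarith)
        (by linarith) (by linarith)
      have h2 : log (S.gg (x n) (z n)) - log (S.gg (y n) (x n)) ≤ -G n + 0.003 * |G n| := h1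
      have h3 := vv_concave_slope (a := (y n).2.1) (b := (x n).2.1) (c := (z n).2.1)
        (hy n (by omega)) (hT.c1 n).lt (hT.c2 n).lt (hz n (by omega))
      have h4 : (z n).2.1 - (y n).2.1 = ρ n := by simp only [hρ, ll]; ring
      rw [h4] at h3
      have h5 : 19.7 * ρ n ≤ vq (y n) (x n) - vq (x n) (z n) := h3
      have i1 := abs_le.1 (hfc n)
      have i3 := abs_le.1 (hfp n)
      have e4 := hGabs n
      have i6 := (hρ0 n).le
      have i7 := ha0 n
      have i8 := he0 n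
      have i9 := hw0 n
      have i10 := abs_nonneg (κ n)
      have h6 := hGeq n
      have h7 : -G n ≤ -κ n + w n + 6.3e-5 * (a n + e n) - 1.9e-3 * ρ n := by
        rw [h6]
        linarith [i1.1, i3.1]
      linarith
  have h1 := hlog m le_rfl
  have h2 : ∑ j ∈ Finset.range m, (-κ j + 0.003 * |κ j| + 1.003 * w j + 6.4e-5 * (a j + e j) -
        1e-3 * ρ j) =
      ∑ j ∈ Finset.range m, (-κ j + 0.003 * |κ j| + 1.003 * w j - 1e-3 * ρ j) +
      6.4e-5 * ∑ j ∈ Finset.range m, (a j + e j) := by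
    rw [Finset.mul_sum, ← Finset.sum_add_distrib]
    apply Finset.sum_congr rfl
    intro j _
    ring
  have h3 : ∑ j ∈ Finset.range m, (-κ j + 0.003 * |κ j| + 1.003 * w j - 1e-3 * ρ j) +
      6.4e-5 * (1.3 * ∑ j ∈ Finset.range m, s j) ≤
      ∑ j ∈ Finset.range m, (-κ j + 0.004 * |κ j| + 1.01 * w j) := by
    rw [Finset.mul_sum, Finset.mul_sum, ← Finset.sum_add_distrib]
    apply Finset.sum_le_sum
    intro j _
    have i6 := (hρ0 j).le
    have i9 := hw0 j
    have i10 := abs_nonneg (κ j)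
    simp only [hs]
    linarith
  rw [h2] at h1
  have h4 : ∑ j ∈ Finset.range m, (-(qP b (y j) (x j) - qP b (x j) (z j)) +
        0.004 * |qP b (y j) (x j) - qP b (x j) (z j)| +
        1.01 * (θ + 1.01 * C * (ll y x j + ll x z j))) =
      ∑ j ∈ Finset.range m, (-κ j + 0.004 * |κ j| + 1.01 * w j) := rfl
  rw [h4]
  linarith

end Sys

end Pool.Agent.H47

/-! ### Esc -/

namespace Pool.Agent.H47

open Real Set Filter Topology

lemma pow_hold {k n : ℕ} (h : 300000 * k ≤ n) : (1 - 1.6e-5 : ℝ)^n ≤ (1/64)^k := by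
  have h1 : (1 - 1.6e-5 : ℝ) ≤ exp (-1.6e-5) := by
    have := add_one_le_exp (-1.6e-5 : ℝ); linarith
  have hk : (300000:ℝ) * k ≤ n := by exact_mod_cast h
  have h4 : (64:ℝ) ≤ exp 4.8 := by
    have e1 : exp 4.8 = (exp 1)^4 * exp 0.8 := by
      rw [← exp_nat_mul, ← exp_add]; norm_num
    have e2 : (1.8:ℝ) ≤ exp 0.8 := by
      have := add_one_le_exp (0.8 : ℝ); linarith
    have e3 : (2.7:ℝ) ≤ exp 1 := by have := exp_one_gt_d9; linarith
    have e4 : (2.7:ℝ)^4 ≤ (exp 1)^4 := by gcongr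
    rw [e1]
    nlinarith [exp_pos (0.8:ℝ)]
  calc (1 - 1.6e-5 : ℝ)^n ≤ (exp (-1.6e-5))^n := pow_le_pow_left₀ (by norm_num) h1 n
    _ = exp (-(n * 1.6e-5)) := by rw [← exp_nat_mul]; congr 1; ring
    _ ≤ exp (-(k * 4.8)) := exp_le_exp.2 (by linarith)
    _ = (exp 4.8)⁻¹ ^ k := by rw [← exp_neg, ← exp_nat_mul]; congr 1; ring
    _ ≤ (1/64)^k := by
        apply pow_le_pow_left₀ (inv_nonneg.2 (exp_pos _).le)
        rw [one_div]
        exact inv_anti₀ (by norm_num) h4

lemma neg_log_le {g c d : ℝ} (hc : 0 < c) (hg : c ≤ g) (hd : 1 / c - 1 ≤ d) : -log g ≤ d := by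
  have hg0 : 0 < g := by linarith
  have h1 := one_sub_inv_le_log_of_pos hg0
  have h2 : g⁻¹ ≤ c⁻¹ := inv_anti₀ hc hg
  rw [one_div] at hd
  linarith

/-- the cut off size function -/
noncomputable def ff (R t : ℝ) : ℝ := if t < R then 0 else R / t

lemma ff_le_one {R t : ℝ} (hR : 0 < R) : ff R t ≤ 1 := by
  unfold ff
  split_ifs with h
  · norm_num
  · rw [div_le_one (by linarith)]; linarith

lemma ff_nonneg {R t : ℝ} (hR : 0 < R) : 0 ≤ ff R t := by
  unfold ff
  split_ifs with h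
  · exact le_rfl
  · have : 0 < t := by linarith
    positivity

lemma ff_potential {R t t' : ℝ} (hR : 0 < R) (ht' : 0 < t') (h1 : t' ≤ (1 - 1.6e-5) * t)
    (h2 : 0.998 * t ≤ t') :
    ff R t ≤ (min (R/t') 2 - min (R/t) 2) / 1.6e-5 := by
  have ht : 0 < t := by nlinarith
  unfold ff
  split_ifs with h
  · apply div_nonneg _ (by norm_num)
    have : R/t ≤ R/t' := by
      apply div_le_div_of_nonneg_left hR.le ht'
      nlinarith
    have := min_le_min_right 2 this
    linarith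
  · push Not at h
    have h3 : R / t ≤ 1 := by rw [div_le_one ht]; exact h
    have h4 : R / t' ≤ 1.01 := by
      rw [div_le_iff₀ ht']; nlinarith
    rw [min_eq_left (by linarith), min_eq_left (by linarith), le_div_iff₀ (by norm_num)]
    have h5 : R / t * (1 + 1.6e-5) ≤ R / t' := by
      rw [div_mul_eq_mul_div, div_le_div_iff₀ ht ht']
      have : (1 + 1.6e-5) * t' ≤ t := by nlinarith
      nlinarith
    linarith

namespace Sys

variable {S : Sys} {y x z : ℕ → E3}

/-- data of a controlled triple -/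
structure Plan (S : Sys) (y x z : ℕ → E3) (M₁ n₀ N a m₂ : ℕ) : Prop where
  tr : S.Triple y x z
  hM : M₁ ≤ n₀
  ha : a = n₀ + 300000 * (N + M₁ + 2810)
  hm : m₂ = a + N + M₁
  x0 : ∀ j ≤ M₁, |(x j).2.1| ≤ 0.01
  x1 : ∀ j, M₁ ≤ j → j ≤ m₂ → |(x j).2.1 - 0.005| ≤ 2.4e-4
  x2 : ∀ j ≥ m₂, |(x j).2.1| ≤ 0.0056
  x3 : ∀ j ≥ m₂ + 2800, |(x j).2.1 + 0.005| ≤ 1.05e-4
  l0 : ∀ j ≤ M₁, ll y x j ≤ 5e-4
  r0 : ∀ j ≤ M₁, ll x z j ≤ 1e-3
  r1 : ll x z M₁ ≤ 1e-4

variable {M₁ n₀ N a m₂ : ℕ}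

lemma Plan.gl (hp : S.Plan y x z M₁ n₀ N a m₂) (j : ℕ) :
    0.998 ≤ S.gg (y j) (x j) ∧ S.gg (y j) (x j) ≤ 1.0019 := by
  have := abs_le.1 (hp.tr.c1 j).gg_bd
  constructor <;> linarith [this.1, this.2]

lemma Plan.gr (hp : S.Plan y x z M₁ n₀ N a m₂) (j : ℕ) :
    0.998 ≤ S.gg (x j) (z j) ∧ S.gg (x j) (z j) ≤ 1.0019 := by
  have := abs_le.1 (hp.tr.c2 j).gg_bd
  constructor <;> linarith [this.1, this.2]

lemma Plan.hold (hp : S.Plan y x z M₁ n₀ N a m₂) : ∀ j, M₁ ≤ j → j ≤ m₂ →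
    ll y x j ≤ (1 - 1.6e-5)^(j - M₁) * 5e-4 ∧ ll x z j ≤ (1 - 1.6e-5)^(j - M₁) * ll x z M₁ ∧
    (j < m₂ → ll y x (j+1) ≤ (1 - 1.6e-5) * ll y x j ∧
      ll x z (j+1) ≤ (1 - 1.6e-5) * ll x z j) := by
  have hstep : ∀ j, M₁ ≤ j → j ≤ m₂ → ll y x j ≤ 5e-4 → ll x z j ≤ 1e-4 →
      ll y x (j+1) ≤ (1 - 1.6e-5) * ll y x j ∧ ll x z (j+1) ≤ (1 - 1.6e-5) * ll x z j := by
    intro j h1 h2 h3 h4
    have hx := abs_le.1 (hp.x1 j h1 h2)
    have hl0 := hp.tr.l_pos j
    have hr0 := hp.tr.r_pos j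
    have i1 := (hp.tr.c1 j).gg_le_of_pos (m := 0.00426) (by norm_num) (by unfold ll at h3; linarith)
      (by linarith)
    have i2 := (hp.tr.c2 j).gg_le_of_pos (m := 0.00476) (by norm_num) (by linarith)
      (by unfold ll at h4; linarith)
    rw [hp.tr.l_succ, hp.tr.r_succ]
    constructor
    · exact mul_le_mul_of_nonneg_right (by linarith) hl0.le
    · exact mul_le_mul_of_nonneg_right (by linarith) hr0.le
  have hpow : ∀ k : ℕ, (1 - 1.6e-5 : ℝ)^k ≤ 1 := fun k => pow_le_one₀ (by norm_num) (by norm_num)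
  have hrM := hp.tr.r_pos M₁
  have hmain : ∀ j, M₁ ≤ j → j ≤ m₂ →
    ll y x j ≤ (1 - 1.6e-5)^(j - M₁) * 5e-4 ∧ ll x z j ≤ (1 - 1.6e-5)^(j - M₁) * ll x z M₁ := by
    intro j hj
    induction j, hj using Nat.le_induction with
    | base =>
      intro _
      simp only [Nat.sub_self, pow_zero, one_mul]
      exact ⟨hp.l0 M₁ le_rfl, le_rfl⟩
    | succ j hj ih =>
      intro hj'
      have ih' := ih (by omega)
      have k1 := hpow (j - M₁)
      have h := hstep j hj (by omega) (by linarith) (by have := hp.r1; nlinarith)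
      have e : j + 1 - M₁ = (j - M₁) + 1 := by omega
      rw [e, pow_succ]
      constructor
      · linarith
      · linarith
  intro j h1 h2
  have h3 := hmain j h1 h2
  have k1 := hpow (j - M₁)
  refine ⟨h3.1, h3.2, fun h4 => hstep j h1 h2 (by linarith) (by have := hp.r1; nlinarith)⟩

/-- the radius of the kinks -/
noncomputable def RR2 (N M₁ : ℕ) : ℝ := 1e-6 * (1/32)^(N + M₁ + 2800)

lemma RR2_pos (N M₁ : ℕ) : 0 < RR2 N M₁ := by unfold RR2; positivity
lemma RR2_le (N M₁ : ℕ) : RR2 N M₁ ≤ 1e-6 := by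
  unfold RR2
  have : (1/32:ℝ)^(N + M₁ + 2800) ≤ 1 := pow_le_one₀ (by norm_num) (by norm_num)
  linarith

lemma Plan.small_a (hp : S.Plan y x z M₁ n₀ N a m₂) : ∀ j, a ≤ j → j ≤ m₂ →
    ll y x j ≤ RR2 N M₁ / 10 ∧ ll x z j ≤ RR2 N M₁ / 10 := by
  have haM : M₁ ≤ a := by have := hp.hM; have := hp.ha; omega
  have ham : a ≤ m₂ := by have := hp.hm; omega
  have h1 : (1 - 1.6e-5 : ℝ)^(a - M₁) ≤ (1/64)^(N + M₁ + 2810) := by
    apply pow_hold
    have := hp.ha
    have := hp.hM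
    omega
  have h2 : (1/64 : ℝ)^(N + M₁ + 2810) ≤ 1e-17 * (1/32)^(N + M₁ + 2800) := by
    have e : N + M₁ + 2810 = (N + M₁ + 2800) + 10 := by omega
    rw [e, pow_add]
    have h3 : (1/64 : ℝ)^(N + M₁ + 2800) ≤ (1/32)^(N + M₁ + 2800) := by
      apply pow_le_pow_left₀ (by norm_num) (by norm_num)
    have h4 : (1/64 : ℝ)^10 ≤ 1e-17 := by norm_num
    have h5 : (0:ℝ) ≤ (1/64 : ℝ)^(N + M₁ + 2800) := by positivity
    have h6 : (0:ℝ) ≤ (1/64 : ℝ)^10 := by positivity
    calc (1/64 : ℝ)^(N + M₁ + 2800) * (1/64)^10 ≤ (1/32)^(N + M₁ + 2800) * 1e-17 := by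
          apply mul_le_mul h3 h4 h6 (h5.trans h3)
      _ = _ := by ring
  have hpw : (0:ℝ) < (1/32 : ℝ)^(N + M₁ + 2800) := by positivity
  intro j hj
  induction j, hj using Nat.le_induction with
  | base =>
    intro _
    have h3 := hp.hold a haM ham
    have h4 := hp.r1
    have h5 := hp.tr.r_pos M₁
    have h6 : (0:ℝ) ≤ (1 - 1.6e-5 : ℝ)^(a - M₁) := pow_nonneg (by norm_num) _
    have h7 : (1 - 1.6e-5 : ℝ)^(a - M₁) * ll x z M₁ ≤ (1 - 1.6e-5 : ℝ)^(a - M₁) * 1e-4 :=
      mul_le_mul_of_nonneg_left h4 h6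
    unfold RR2
    constructor
    · linarith [h3.1]
    · linarith [h3.2.1]
  | succ j hj ih =>
    intro hj'
    have ih' := ih (by omega)
    have h3 := (hp.hold j (by omega) (by omega)).2.2 (by omega)
    have := hp.tr.l_pos j
    have := hp.tr.r_pos j
    constructor <;> linarith [h3.1, h3.2]

lemma Plan.small_b (hp : S.Plan y x z M₁ n₀ N a m₂) : ∀ j, a ≤ j → j ≤ m₂ + 2800 →
    ll y x j ≤ RR2 N M₁ / 6 ∧ ll x z j ≤ RR2 N M₁ / 6 := by
  have hR := RR2_pos N M₁
  have hR1 := RR2_le N M₁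
  have hstep : ∀ k, k ≤ 2800 →
      ll y x (m₂ + k) ≤ (1 + 1.31e-4)^k * (RR2 N M₁ / 10) ∧
      ll x z (m₂ + k) ≤ (1 + 1.31e-4)^k * (RR2 N M₁ / 10) := by
    intro k
    induction k with
    | zero =>
      intro _
      have := hp.small_a m₂ (by have := hp.hm; omega) le_rfl
      simpa using this
    | succ k ih =>
      intro hk
      have ih' := ih (by omega)
      have h3 := pow_le_16 (k := k) (by omega)
      have hx := abs_le.1 (hp.x2 (m₂ + k) (by omega))
      have hl0 := hp.tr.l_pos (m₂ + k)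
      have hr0 := hp.tr.r_pos (m₂ + k)
      have hl1 : ll y x (m₂ + k) ≤ 1e-6 := by nlinarith [ih'.1]
      have hr1 : ll x z (m₂ + k) ≤ 1e-6 := by nlinarith [ih'.2]
      have i1 := abs_le.1 ((hp.tr.c1 (m₂ + k)).gg_abs_of_small (m := 0.0066)
        (by unfold ll at hl1; linarith) (by linarith))
      have i2 := abs_le.1 ((hp.tr.c2 (m₂ + k)).gg_abs_of_small (m := 0.0066)
        (by linarith) (by unfold ll at hr1; linarith))
      rw [← add_assoc, hp.tr.l_succ, hp.tr.r_succ, pow_succ]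
      constructor
      · have := mul_le_mul_of_nonneg_right (show S.gg (y (m₂+k)) (x (m₂+k)) ≤ 1 + 1.31e-4 by
          linarith [i1.2]) hl0.le
        nlinarith [ih'.1]
      · have := mul_le_mul_of_nonneg_right (show S.gg (x (m₂+k)) (z (m₂+k)) ≤ 1 + 1.31e-4 by
          linarith [i2.2]) hr0.le
        nlinarith [ih'.2]
  intro j h1 h2
  rcases le_or_gt j m₂ with h | h
  · have := hp.small_a j h1 h
    constructor <;> linarith [this.1, this.2]
  · obtain ⟨k, rfl⟩ := Nat.exists_eq_add_of_le h.le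
    have h3 := hstep k (by omega)
    have h4 := pow_le_16 (k := k) (by omega)
    constructor <;> nlinarith [h3.1, h3.2]

/-- expansion of the left arc in the last phase -/
lemma Plan.expand (hp : S.Plan y x z M₁ n₀ N a m₂) {j : ℕ} (hj : m₂ + 2800 ≤ j)
    (hy : -(1/12) ≤ (y j).2.1) : (1 + 1.9e-5) * ll y x j ≤ ll y x (j+1) := by
  have hx := abs_le.1 (hp.x3 j hj)
  have i1 := (hp.tr.c1 j).gg_ge_of_neg (m := 0.00489) (by norm_num) (by linarith) hy
  rw [hp.tr.l_succ]
  exact mul_le_mul_of_nonneg_right (by linarith) (hp.tr.l_pos j).le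

/-- before the last phase, the left point is far from the trap -/
lemma Plan.y_high (hp : S.Plan y x z M₁ n₀ N a m₂) {j : ℕ} (hj : j ≤ m₂ + 2800) :
    -0.02 ≤ (y j).2.1 := by
  have hR1 := RR2_le N M₁
  have haM : M₁ ≤ a := by have := hp.hM; have := hp.ha; omega
  rcases le_or_gt j M₁ with h | h
  · have h1 := abs_le.1 (hp.x0 j h)
    have h2 := hp.l0 j h
    unfold ll at h2
    linarith
  · rcases le_or_gt j m₂ with h' | h'
    · have h1 := abs_le.1 (hp.x1 j h.le h')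
      have h2 := (hp.hold j h.le h').1
      have h3 : (1 - 1.6e-5 : ℝ)^(j-M₁) ≤ 1 := pow_le_one₀ (by norm_num) (by norm_num)
      unfold ll at h2
      linarith
    · have h1 := abs_le.1 (hp.x2 j h'.le)
      have h2 := (hp.small_b j (by have := hp.hm; omega) hj).1
      unfold ll at h2
      linarith

/-- exit time of the left point -/
lemma Plan.exit (hp : S.Plan y x z M₁ n₀ N a m₂) : ∃ m, m₂ + 2800 < m ∧ (y m).2.1 < -0.0801 ∧
    ∀ j < m, -0.0801 ≤ (y j).2.1 := by
  classical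
  have hex : ∃ m, (y m).2.1 < -0.0801 := by
    by_contra hcon
    push Not at hcon
    have hgrow : ∀ k, (1 + 1.9e-5)^k * ll y x (m₂ + 2800) ≤ ll y x (m₂ + 2800 + k) := by
      intro k
      induction k with
      | zero => simp
      | succ k ih =>
        have h1 := hp.expand (j := m₂ + 2800 + k) (by omega) (by
          have := hcon (m₂ + 2800 + k); linarith)
        rw [← add_assoc, pow_succ]
        linarith
    have hl := hp.tr.l_pos (m₂ + 2800)
    obtain ⟨k, hk⟩ := pow_unbounded_of_one_lt (1 / ll y x (m₂ + 2800))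
      (by norm_num : (1:ℝ) < 1 + 1.9e-5)
    rw [div_lt_iff₀ hl] at hk
    have h1 := hgrow k
    have h2 := abs_le.1 (hp.x2 (m₂ + 2800 + k) (by omega))
    have h3 := hcon (m₂ + 2800 + k)
    have h4 : ll y x (m₂ + 2800 + k) ≤ 0.1 := by unfold ll; linarith
    linarith
  refine ⟨Nat.find hex, ?_, Nat.find_spec hex, ?_⟩
  · by_contra hcon
    push Not at hcon
    have h1 := hp.y_high hcon
    have h2 := Nat.find_spec hex
    linarith
  · intro j hj
    have := Nat.find_min hex hj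
    exact not_lt.1 this

end Sys

end Pool.Agent.H47

/-! ### Esc2 -/

namespace Pool.Agent.H47

open Real Set Filter Topology

namespace Sys

variable {S : Sys} {y x z : ℕ → E3} {M₁ n₀ N a m₂ : ℕ}

lemma Plan.l_low (hp : S.Plan y x z M₁ n₀ N a m₂) :
    -log (ll y x (m₂ + 2800)) ≤ -log (ll y x 0) + 0.00201 * M₁ +
      1.32e-4 * ((m₂ + 2800 : ℕ) : ℝ) := by
  have hR1 := RR2_le N M₁
  have hMm : M₁ ≤ m₂ := by have := hp.hM; have := hp.ha; have := hp.hm; omega
  have h1 : ∀ j ≤ M₁, -log (ll y x j) ≤ -log (ll y x 0) + 0.00201 * j := by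
    intro j
    induction j with
    | zero => intro _; simp
    | succ j ih =>
      intro hj
      have ih' := ih (by omega)
      have hg := (hp.gl j).1
      have hn := neg_log_le (g := S.gg (y j) (x j)) (c := 0.998) (d := 0.00201) (by norm_num) hg
        (by norm_num)
      rw [hp.tr.l_succ, log_mul (by linarith) (hp.tr.l_pos j).ne']
      push_cast
      linarith
  have h2 : ∀ j, M₁ ≤ j → j ≤ m₂ + 2800 → -log (ll y x j) ≤ -log (ll y x M₁) +
      1.32e-4 * ((j:ℝ) - M₁) := by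
    intro j hj
    induction j, hj using Nat.le_induction with
    | base => intro _; simp
    | succ j hj ih =>
      intro hj'
      have ih' := ih (by omega)
      have hx : |(x j).2.1| ≤ 0.0056 := by
        rcases le_or_gt j m₂ with h | h
        · have := abs_le.1 (hp.x1 j hj h)
          rw [abs_le]; constructor <;> linarith
        · exact hp.x2 j h.le
      have hl : ll y x j ≤ 1e-3 := by
        rcases le_or_gt j m₂ with h | h
        · have h2 := (hp.hold j hj h).1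
          have h3 : (1 - 1.6e-5 : ℝ)^(j-M₁) ≤ 1 := pow_le_one₀ (by norm_num) (by norm_num)
          linarith
        · have h2 := (hp.small_b j (by have := hp.hm; omega) (by omega)).1
          linarith
      have hx' := abs_le.1 hx
      have i1 := abs_le.1 ((hp.tr.c1 j).gg_abs_of_small (m := 0.0066)
        (by unfold ll at hl; linarith) (by linarith))
      have hn := neg_log_le (g := S.gg (y j) (x j)) (c := 1 - 1.31e-4) (d := 1.32e-4)
        (by norm_num) (by linarith [i1.1]) (by norm_num)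
      have hg := (hp.gl j).1
      rw [hp.tr.l_succ, log_mul (by linarith) (hp.tr.l_pos j).ne']
      push_cast
      linarith
  have h3 := h1 M₁ le_rfl
  have h4 := h2 (m₂ + 2800) (by omega) le_rfl
  have h5 : (0:ℝ) ≤ M₁ := Nat.cast_nonneg _
  push_cast at h4 ⊢
  linarith

/-- upper bound for the exit time -/
lemma Plan.exit_le (hp : S.Plan y x z M₁ n₀ N a m₂) {m : ℕ} (hm : m₂ + 2800 < m)
    (hy : ∀ j < m, -0.0801 ≤ (y j).2.1) :
    (m:ℝ) ≤ 2.5e6 * N + (8 * n₀ + 2.5e6 * (M₁ + 2811) + 200 * M₁ + 6e4 * (-log (ll y x 0))) := by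
  have hgrow : ∀ k, m₂ + 2800 + k < m → (1 + 1.9e-5)^k * ll y x (m₂ + 2800) ≤
      ll y x (m₂ + 2800 + k) := by
    intro k
    induction k with
    | zero => simp
    | succ k ih =>
      intro hk
      have ih' := ih (by omega)
      have h1 := hp.expand (j := m₂ + 2800 + k) (by omega) (by
        have := hy (m₂ + 2800 + k) (by omega); linarith)
      rw [← add_assoc, pow_succ]
      linarith
  obtain ⟨k, hk⟩ := Nat.exists_eq_add_of_le (show m₂ + 2800 + 1 ≤ m by omega)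
  have h1 := hgrow k (by omega)
  have h2 := abs_le.1 (hp.x2 (m₂ + 2800 + k) (by omega))
  have h3 := hy (m₂ + 2800 + k) (by omega)
  have h4 : ll y x (m₂ + 2800 + k) ≤ 1 := by unfold ll; linarith
  have hl := hp.tr.l_pos (m₂ + 2800)
  have h5 : log ((1 + 1.9e-5)^k * ll y x (m₂ + 2800)) ≤ 0 :=
    log_nonpos (by positivity) (by linarith)
  rw [log_mul (by positivity) hl.ne', log_pow] at h5
  have h6 : 1.89e-5 ≤ log (1 + 1.9e-5) := by
    have := one_sub_inv_le_log_of_pos (x := 1 + 1.9e-5) (by norm_num)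
    refine le_trans ?_ this
    norm_num
  have hk0 : (0:ℝ) ≤ k := Nat.cast_nonneg _
  have h7 : (k:ℝ) * 1.89e-5 ≤ k * log (1 + 1.9e-5) := mul_le_mul_of_nonneg_left h6 hk0
  have h8 := hp.l_low
  have hl0 : 0 ≤ -log (ll y x 0) := by
    have h9 := hp.l0 0 (Nat.zero_le _)
    have := log_nonpos (hp.tr.l_pos 0).le (by linarith)
    linarith
  have e1 : (m:ℝ) = m₂ + 2801 + k := by rw [hk]; push_cast; ring
  have e2 : (m₂:ℝ) = n₀ + 300000 * (N + M₁ + 2810) + N + M₁ := by
    rw [hp.hm, hp.ha]; push_cast; ring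
  have hn0 : (0:ℝ) ≤ n₀ := Nat.cast_nonneg _
  have hM0 : (0:ℝ) ≤ M₁ := Nat.cast_nonneg _
  have hN0 : (0:ℝ) ≤ N := Nat.cast_nonneg _
  push_cast at h8
  rw [e1]
  rw [e2] at h8 ⊢
  nlinarith

/-- bound of the total arc length -/
lemma Plan.sum_rho (hp : S.Plan y x z M₁ n₀ N a m₂) {m : ℕ}
    (hy : ∀ j < m, -0.0801 ≤ (y j).2.1) (n : ℕ) (hn : n ≤ m)
    (hr : ∀ j, a + N ≤ j → j < n → ll x z j ≤ ll y x j) :
    ∑ j ∈ Finset.range n, (ll y x j + ll x z j) ≤ 2e-3 * M₁ + 1e4 := by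
  have hR1 := RR2_le N M₁
  have hR0 := RR2_pos N M₁
  have hMm : M₁ ≤ m₂ := by have := hp.hM; have := hp.ha; have := hp.hm; omega
  have ham : a + N ≤ m₂ := by have := hp.hm; omega
  have hM0 : (0:ℝ) ≤ M₁ := Nat.cast_nonneg _
  have hl := hp.tr.l_pos
  have hr0 := hp.tr.r_pos
  have s1 : ∀ n ≤ M₁, ∑ j ∈ Finset.range n, (ll y x j + ll x z j) ≤ 2e-3 * n := by
    intro n
    induction n with
    | zero => intro _; simp
    | succ n ih =>
      intro h
      have ih' := ih (by omega)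
      have := hp.l0 n (by omega)
      have := hp.r0 n (by omega)
      rw [Finset.sum_range_succ]
      push_cast
      linarith
  have s2 : ∀ n, M₁ ≤ n → n ≤ m₂ → ∑ j ∈ Finset.range n, (ll y x j + ll x z j) ≤
      2e-3 * M₁ + (6e-4 - (ll y x n + ll x z n)) / 1.6e-5 := by
    intro n hn
    induction n, hn using Nat.le_induction with
    | base =>
      intro _
      have h1 := s1 M₁ le_rfl
      have := hp.l0 M₁ le_rfl
      have := hp.r1
      have : 0 ≤ (6e-4 - (ll y x M₁ + ll x z M₁)) / 1.6e-5 := by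
        apply div_nonneg _ (by norm_num); linarith
      linarith
    | succ n hn ih =>
      intro h
      have ih' := ih (by omega)
      have h1 := (hp.hold n hn (by omega)).2.2 (by omega)
      rw [Finset.sum_range_succ]
      rw [← sub_le_iff_le_add', le_div_iff₀ (by norm_num)] at ih' ⊢
      linarith [h1.1, h1.2]
  have s3 : ∀ k ≤ 2800, ∑ j ∈ Finset.range (m₂ + k), (ll y x j + ll x z j) ≤
      2e-3 * M₁ + 37.5 + 1e-6 * k := by
    intro k
    induction k with
    | zero =>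
      intro _
      have h1 := s2 m₂ hMm le_rfl
      have h2 : (6e-4 - (ll y x m₂ + ll x z m₂)) / 1.6e-5 ≤ 37.5 := by
        rw [div_le_iff₀ (by norm_num)]
        have := hl m₂
        have := hr0 m₂
        linarith
      simp only [Nat.cast_zero, mul_zero, add_zero]
      linarith
    | succ k ih =>
      intro h
      have ih' := ih (by omega)
      have h1 := hp.small_b (m₂ + k) (by omega) (by omega)
      rw [← add_assoc, Finset.sum_range_succ]
      push_cast
      linarith [h1.1, h1.2]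
  have s4 : ∀ n, m₂ + 2800 ≤ n → n ≤ m → (∀ j, a + N ≤ j → j < n → ll x z j ≤ ll y x j) →
      ∑ j ∈ Finset.range n, (ll y x j + ll x z j) ≤ 2e-3 * M₁ + 38 + 2 * ll y x n / 1.9e-5 := by
    intro n hn
    induction n, hn using Nat.le_induction with
    | base =>
      intro _ _
      have h1 := s3 2800 le_rfl
      have : 0 ≤ 2 * ll y x (m₂ + 2800) / 1.9e-5 := by
        have := hl (m₂ + 2800); positivity
      push_cast at h1
      linarith
    | succ n hn ih =>
      intro h h'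
      have ih' := ih (by omega) (fun j h1 h2 => h' j h1 (by omega))
      have h1 := hp.expand (j := n) hn (by have := hy n (by omega); linarith)
      have h2 := h' n (by omega) (by omega)
      rw [Finset.sum_range_succ]
      rw [← sub_le_iff_le_add', le_div_iff₀ (by norm_num)] at ih' ⊢
      linarith
  rcases le_or_gt n M₁ with h | h
  · have h1 := s1 n h
    have : (n:ℝ) ≤ M₁ := by exact_mod_cast h
    linarith
  · rcases le_or_gt n m₂ with h' | h'
    · have h1 := s2 n h.le h'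
      have h2 : (6e-4 - (ll y x n + ll x z n)) / 1.6e-5 ≤ 37.5 := by
        rw [div_le_iff₀ (by norm_num)]
        have := hl n
        have := hr0 n
        linarith
      linarith
    · rcases le_or_gt n (m₂ + 2800) with h'' | h''
      · obtain ⟨k, rfl⟩ := Nat.exists_eq_add_of_le h'.le
        have h1 := s3 k (by omega)
        have : (k:ℝ) ≤ 2800 := by exact_mod_cast (by omega : k ≤ 2800)
        linarith
      · have h1 := s4 n h''.le hn hr
        obtain ⟨k, rfl⟩ := Nat.exists_eq_add_of_le (show m₂ + 2800 + 1 ≤ n by omega)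
        have h3 := hy (m₂ + 2800 + k) (by omega)
        have h4 := abs_le.1 (hp.x3 (m₂ + 2800 + k) (by omega))
        have h5 : ll y x (m₂ + 2800 + k) ≤ 0.0801 := by unfold ll; linarith
        have h6 := (hp.gl (m₂ + 2800 + k)).2
        have h7 := hp.tr.l_succ (m₂ + 2800 + k)
        have h8 := hl (m₂ + 2800 + k)
        have e : m₂ + 2800 + 1 + k = m₂ + 2800 + k + 1 := by omega
        rw [e] at h1 ⊢
        have h9 : ll y x (m₂ + 2800 + k + 1) ≤ 0.09 := by rw [h7]; nlinarith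
        have h10 : 2 * ll y x (m₂ + 2800 + k + 1) / 1.9e-5 ≤ 9500 := by
          rw [div_le_iff₀ (by norm_num)]; linarith
        linarith

/-- bound of the kink contributions -/
lemma Plan.sum_kappa (hp : S.Plan y x z M₁ n₀ N a m₂) {κ : ℕ → ℝ} {η : ℝ} (hη : 0 < η)
    (k1 : ∀ j < a, |κ j| ≤ 0.45 * η * (ff (RR2 N M₁) (ll y x j) + ff (RR2 N M₁) (ll x z j)))
    (k2 : ∀ j, a ≤ j → j < a + N → 1.97 * η ≤ κ j ∧ κ j ≤ 2 * η)
    (n : ℕ) (hn : a + N ≤ n) (k3 : ∀ j, a + N ≤ j → j < n → κ j = 0) :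
    ∑ j ∈ Finset.range n, (-(κ j) + 0.004 * |κ j|) ≤ η * (M₁ + 1.2e5) - 1.96 * η * N := by
  have hR0 := RR2_pos N M₁
  have haM : M₁ ≤ a := by have := hp.hM; have := hp.ha; omega
  have hl := hp.tr.l_pos
  have hr0 := hp.tr.r_pos
  have s1 : ∀ n ≤ M₁, ∑ j ∈ Finset.range n, (-(κ j) + 0.004 * |κ j|) ≤ η * n := by
    intro n
    induction n with
    | zero => intro _; simp
    | succ n ih =>
      intro h
      have ih' := ih (by omega)
      have h1 := k1 n (by omega)
      have h2 := ff_le_one (R := RR2 N M₁) (t := ll y x n) hR0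
      have h3 := ff_le_one (R := RR2 N M₁) (t := ll x z n) hR0
      have h4 := neg_abs_le (κ n)
      rw [Finset.sum_range_succ]
      push_cast
      nlinarith
  have s2 : ∀ n, M₁ ≤ n → n ≤ a → ∑ j ∈ Finset.range n, (-(κ j) + 0.004 * |κ j|) ≤
      η * M₁ + 0.452 * η * ((min (RR2 N M₁ / ll y x n) 2 + min (RR2 N M₁ / ll x z n) 2) /
        1.6e-5) := by
    intro n hn
    induction n, hn using Nat.le_induction with
    | base =>
      intro _
      have h1 := s1 M₁ le_rfl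
      have h2 : 0 ≤ 0.452 * η * ((min (RR2 N M₁ / ll y x M₁) 2 + min (RR2 N M₁ / ll x z M₁) 2) /
        1.6e-5) := by
        have := hl M₁
        have := hr0 M₁
        positivity
      linarith
    | succ n hn ih =>
      intro h
      have ih' := ih (by omega)
      have h1 := (hp.hold n hn (by have := hp.hm; omega)).2.2 (by have := hp.hm; omega)
      have h2 := k1 n (by omega)
      have h3 := ff_potential (R := RR2 N M₁) (t := ll y x n) (t' := ll y x (n+1)) hR0
        (hl (n+1)) h1.1 (by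
          rw [hp.tr.l_succ]
          exact mul_le_mul_of_nonneg_right (hp.gl n).1 (hl n).le)
      have h4 := ff_potential (R := RR2 N M₁) (t := ll x z n) (t' := ll x z (n+1)) hR0
        (hr0 (n+1)) h1.2 (by
          rw [hp.tr.r_succ]
          exact mul_le_mul_of_nonneg_right (hp.gr n).1 (hr0 n).le)
      have h5 := neg_abs_le (κ n)
      have h6 := ff_nonneg (R := RR2 N M₁) (t := ll y x n) hR0
      have h7 := ff_nonneg (R := RR2 N M₁) (t := ll x z n) hR0
      rw [Finset.sum_range_succ]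
      set A := min (RR2 N M₁ / ll y x n) 2
      set A' := min (RR2 N M₁ / ll y x (n+1)) 2
      set B := min (RR2 N M₁ / ll x z n) 2
      set B' := min (RR2 N M₁ / ll x z (n+1)) 2
      have h8 : -κ n + 0.004 * |κ n| ≤ 0.452 * η * ((A' - A) / 1.6e-5 + (B' - B) / 1.6e-5) := by
        have h9 : -κ n + 0.004 * |κ n| ≤ 1.004 * |κ n| := by linarith
        have h10 : 1.004 * |κ n| ≤ 1.004 * (0.45 * η * (ff (RR2 N M₁) (ll y x n) +
          ff (RR2 N M₁) (ll x z n))) := by linarith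
        have h11 : 0 ≤ η * (ff (RR2 N M₁) (ll y x n) + ff (RR2 N M₁) (ll x z n)) := by positivity
        have h12 : η * (ff (RR2 N M₁) (ll y x n) + ff (RR2 N M₁) (ll x z n)) ≤
          η * ((A' - A) / 1.6e-5 + (B' - B) / 1.6e-5) :=
          mul_le_mul_of_nonneg_left (by linarith) hη.le
        linarith
      have e : 0.452 * η * ((A' + B') / 1.6e-5) = 0.452 * η * ((A + B) / 1.6e-5) +
        0.452 * η * ((A' - A) / 1.6e-5 + (B' - B) / 1.6e-5) := by ring
      rw [e]
      linarith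
  have s2' : ∑ j ∈ Finset.range a, (-(κ j) + 0.004 * |κ j|) ≤ η * (M₁ + 1.2e5) := by
    have h1 := s2 a haM le_rfl
    have h2 : (min (RR2 N M₁ / ll y x a) 2 + min (RR2 N M₁ / ll x z a) 2) / 1.6e-5 ≤ 250000 := by
      rw [div_le_iff₀ (by norm_num)]
      have := min_le_right (RR2 N M₁ / ll y x a) 2
      have := min_le_right (RR2 N M₁ / ll x z a) 2
      linarith
    nlinarith
  have s3 : ∀ k ≤ N, ∑ j ∈ Finset.range (a + k), (-(κ j) + 0.004 * |κ j|) ≤
      η * (M₁ + 1.2e5) - 1.96 * η * k := by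
    intro k
    induction k with
    | zero => intro _; simpa using s2'
    | succ k ih =>
      intro h
      have ih' := ih (by omega)
      have h1 := k2 (a + k) (by omega) (by omega)
      have h2 : |κ (a+k)| ≤ 2 * η := by rw [abs_le]; constructor <;> linarith [h1.1, h1.2]
      rw [← add_assoc, Finset.sum_range_succ]
      push_cast
      linarith [h1.1]
  obtain ⟨k, rfl⟩ := Nat.exists_eq_add_of_le hn
  rw [Finset.sum_range_add]
  have h1 := s3 N le_rfl
  have h2 : ∑ j ∈ Finset.range k, (-(κ (a + N + j)) + 0.004 * |κ (a + N + j)|) = 0 := by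
    apply Finset.sum_eq_zero
    intro j hj
    rw [Finset.mem_range] at hj
    rw [k3 (a + N + j) (by omega) (by omega)]
    simp
  rw [h2]
  linarith

/-- **Escape of the left point while the right arc becomes tiny.** -/
theorem escape (hp : S.Plan y x z M₁ n₀ N a m₂) {P₀ b : E3 → ℝ} {θ C η ε : ℝ} (hθ : 0 ≤ θ)
    (hC : 0 ≤ C) (hη : 0 < η) (hθη : θ ≤ 1e-9 * η) (hε : 0 < ε) (hε' : ε ≤ 1e-2)
    (hdec : ∀ p, S.Pt p = P₀ p + b p) (ms : Mod S.Ps θ C) (mt : Mod P₀ θ C)
    (mu : Mod S.Pu θ C)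
    (k1 : ∀ j < a, |qP b (y j) (x j) - qP b (x j) (z j)| ≤
      0.45 * η * (ff (RR2 N M₁) (ll y x j) + ff (RR2 N M₁) (ll x z j)))
    (k2 : ∀ j, a ≤ j → j < a + N → 1.97 * η ≤ qP b (y j) (x j) - qP b (x j) (z j) ∧
      qP b (y j) (x j) - qP b (x j) (z j) ≤ 2 * η)
    (k3 : ∀ j, a + N ≤ j → ll x z j ≤ 1e-3 → (j < m₂ + 2800 ∨ -0.0801 ≤ (y j).2.1) →
      qP b (y j) (x j) - qP b (x j) (z j) = 0)
    (hB : log (ll x z 0) - log (ll y x 0) + η * (M₁ + 1.2e5) + 1.01 * (1e-9 * η *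
      (8 * n₀ + 2.5e6 * (M₁ + 2811) + 200 * M₁ + 6e4 * (-log (ll y x 0))) +
      1.01 * C * (2e-3 * M₁ + 1e4)) + 1e-4 - log ε ≤ 1.95 * η * N) :
    ∃ m, m₂ + 2800 < m ∧ (y m).2.1 < -0.0801 ∧ -(0.09) ≤ (y m).2.1 ∧
      (∀ j, M₁ ≤ j → j ≤ m → ll x z j ≤ max (ll x z M₁) ε) ∧ ll x z m ≤ ε := by
  obtain ⟨m, hm1, hm2, hm3⟩ := hp.exit
  have hexit := hp.exit_le hm1 hm3
  have hR1 := RR2_le N M₁
  have hR0 := RR2_pos N M₁
  have haM : M₁ ≤ a := by have := hp.hM; have := hp.ha; omega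
  have ham : a + N ≤ m₂ := by have := hp.hm; omega
  have hl := hp.tr.l_pos
  have hr0 := hp.tr.r_pos
  have hN0 : (0:ℝ) ≤ N := Nat.cast_nonneg _
  -- bounds for the left arc
  have hlb : ∀ j ≤ m, ll y x j ≤ 0.1 := by
    intro j hj
    rcases Nat.eq_zero_or_pos j with h | h
    · rw [h]; have := hp.l0 0 (Nat.zero_le _); linarith
    · obtain ⟨i, rfl⟩ : ∃ i, j = i + 1 := ⟨j - 1, by omega⟩
      have h3 := hm3 i (by omega)
      have hx : (x i).2.1 ≤ 0.01 := by
        rcases le_or_gt i M₁ with h | h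
        · exact (abs_le.1 (hp.x0 i h)).2
        · rcases le_or_gt i m₂ with h' | h'
          · have := abs_le.1 (hp.x1 i h.le h'); linarith
          · have := abs_le.1 (hp.x2 i h'.le); linarith
      have h6 := (hp.gl i).2
      have h8 := hl i
      have h9 : ll y x i ≤ 0.0901 := by unfold ll; linarith
      rw [hp.tr.l_succ]
      nlinarith
  -- right arcs before the drop
  have hrb : ∀ j < a + N, ll x z j ≤ 1e-3 := by
    intro j hj
    rcases le_or_gt j M₁ with h | h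
    · exact hp.r0 j h
    · have h2 := (hp.hold j h.le (by omega)).2.1
      have h3 : (1 - 1.6e-5 : ℝ)^(j-M₁) ≤ 1 := pow_le_one₀ (by norm_num) (by norm_num)
      have := hp.r1
      have := hr0 M₁
      nlinarith
  have hxb : ∀ j, (x j).2.1 ≤ 0.01 := by
    intro j
    rcases le_or_gt j M₁ with h | h
    · exact (abs_le.1 (hp.x0 j h)).2
    · rcases le_or_gt j m₂ with h' | h'
      · have := abs_le.1 (hp.x1 j h.le h'); linarith
      · have := abs_le.1 (hp.x2 j h'.le); linarith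
  -- main induction
  have main : ∀ n, a + N ≤ n → n ≤ m → ll x z n ≤ ε * ll y x n := by
    intro n
    induction n using Nat.strong_induction_on with
    | _ n ih =>
      intro hn1 hn2
      have hprev : ∀ j, a + N ≤ j → j < n → ll x z j ≤ ε * ll y x j :=
        fun j h1 h2 => ih j h2 h1 (by omega)
      have hprev2 : ∀ j, a + N ≤ j → j < n → ll x z j ≤ 1e-3 := by
        intro j h1 h2
        have h3 := hprev j h1 h2
        have h4 := hlb j (by omega)
        have h5 := hl j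
        nlinarith
      have hprev3 : ∀ j, a + N ≤ j → j < n → ll x z j ≤ ll y x j := by
        intro j h1 h2
        have h3 := hprev j h1 h2
        have h5 := hl j
        nlinarith
      have hrall : ∀ j < n, ll x z j ≤ 1e-3 := by
        intro j hj
        rcases Nat.lt_or_ge j (a + N) with h | h
        · exact hrb j h
        · exact hprev2 j h hj
      have hd := dist_core hp.tr hθ hC hdec ms mt mu n (fun j hj => by
        have := hm3 j (by omega); linarith) (fun j hj => by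
        have h1 := hrall j hj
        have h2 := hxb j
        unfold ll at h1
        linarith)
      have hs1 := hp.sum_rho hm3 n hn2 hprev3
      have hs2 := hp.sum_kappa (κ := fun j => qP b (y j) (x j) - qP b (x j) (z j)) hη k1 k2 n hn1
        (fun j h1 h2 => k3 j h1 (hprev2 j h1 h2) (Or.inr (hm3 j (by omega))))
      have hsplit : ∑ j ∈ Finset.range n, (-(qP b (y j) (x j) - qP b (x j) (z j)) +
        0.004 * |qP b (y j) (x j) - qP b (x j) (z j)| +
        1.01 * (θ + 1.01 * C * (ll y x j + ll x z j))) =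
        ∑ j ∈ Finset.range n, (-(qP b (y j) (x j) - qP b (x j) (z j)) +
        0.004 * |qP b (y j) (x j) - qP b (x j) (z j)|) +
        (1.01 * (n * θ) + 1.01 * (1.01 * C) * ∑ j ∈ Finset.range n, (ll y x j + ll x z j)) := by
        have e2 : ∑ j ∈ Finset.range n, 1.01 * (θ + 1.01 * C * (ll y x j + ll x z j)) =
            1.01 * (n * θ) + 1.01 * (1.01 * C) * ∑ j ∈ Finset.range n, (ll y x j + ll x z j) := by
          rw [← Finset.mul_sum, Finset.sum_add_distrib, ← Finset.mul_sum,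
            Finset.sum_const, Finset.card_range, nsmul_eq_mul]
          ring
        rw [← e2, ← Finset.sum_add_distrib]
      rw [hsplit] at hd
      have hnm : (n:ℝ) ≤ m := by exact_mod_cast hn2
      have hn0 : (0:ℝ) ≤ n := Nat.cast_nonneg _
      set D := (8 * (n₀:ℝ) + 2.5e6 * (M₁ + 2811) + 200 * M₁ + 6e4 * (-log (ll y x 0))) with hD
      have h1 : (n:ℝ) * θ ≤ 1e-9 * η * (2.5e6 * N + D) := by
        calc (n:ℝ) * θ ≤ n * (1e-9 * η) := mul_le_mul_of_nonneg_left hθη hn0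
          _ ≤ (2.5e6 * N + D) * (1e-9 * η) := by
              apply mul_le_mul_of_nonneg_right (hnm.trans hexit) (by positivity)
          _ = _ := by ring
      have h2 : 1.01 * (1.01 * C) * ∑ j ∈ Finset.range n, (ll y x j + ll x z j) ≤
          1.01 * (1.01 * C) * (2e-3 * M₁ + 1e4) :=
        mul_le_mul_of_nonneg_left hs1 (by positivity)
      have h3 : 0 ≤ η * N := by positivity
      have h4 : log (ll x z n) - log (ll y x n) ≤ log ε := by
        linarith
      have h5 : log (ll x z n) ≤ log (ε * ll y x n) := by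
        rw [log_mul hε.ne' (hl n).ne']; linarith
      exact (log_le_log_iff (hr0 n) (by have := hl n; positivity)).1 h5
  have hfin : ∀ j, a + N ≤ j → j ≤ m → ll x z j ≤ ε := by
    intro j h1 h2
    have h3 := main j h1 h2
    have h4 := hlb j h2
    nlinarith
  refine ⟨m, hm1, hm2, ?_, ?_, hfin m (by omega) le_rfl⟩
  · obtain ⟨i, rfl⟩ : ∃ i, m = i + 1 := ⟨m - 1, by omega⟩
    have h3 := hm3 i (by omega)
    have h4 := abs_le.1 (hp.x3 i (by omega))
    have h5 : ll y x i ≤ 0.0801 := by unfold ll; linarith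
    have h6 := (hp.gl i).2
    have h8 := hl i
    have h11 := mul_le_mul_of_nonneg_right h6 h8.le
    have h12 := hp.tr.l_succ i
    have h9 : ll y x (i+1) ≤ 0.081 := by linarith
    have h10 := abs_le.1 (hp.x3 (i+1) (by omega))
    unfold ll at h9
    linarith
  · intro j h1 h2
    rcases Nat.lt_or_ge j (a + N) with h | h
    · apply le_max_of_le_left
      have h2 := (hp.hold j h1 (by omega)).2.1
      have h3 : (1 - 1.6e-5 : ℝ)^(j-M₁) ≤ 1 := pow_le_one₀ (by norm_num) (by norm_num)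
      have := hr0 M₁
      nlinarith
    · exact le_max_of_le_right (hfin j h h2)

end Sys

end Pool.Agent.H47

/-! ### TorusMain -/

namespace Pool.Agent.H47

open Real Set Filter Topology

lemma toE_norm_le (v : V3) : ‖toE v‖ ≤ 2.2 * ‖v‖ := by
  have h1 := toE_bd1 v
  have h2 := toE_bd2 v
  have h3 := toE_bd3 v
  have h4 := norm_nonneg v
  rw [Prod.norm_def, Prod.norm_def]
  simp only [Real.norm_eq_abs]
  refine max_le (by linarith) (max_le (by linarith) (by linarith))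

lemma toE_sub (v w : V3) : toE (v - w) = toE v - toE w := map_sub psi.symm v w
lemma toV_sub (v w : E3) : toV (v - w) = toV v - toV w := map_sub psi v w
lemma toE_toV (p : E3) : toE (toV p) = p := psi.symm_apply_apply p
lemma toV_toE (p : V3) : toV (toE p) = p := psi.apply_symm_apply p

/-- relation between iterates on the torus and iterates of the system -/
lemma iter_rel {f : T3 → T3} {Q : V3 → V3} (h : QQ Q)
    (hf : ∀ p, proj (F0 p + Q p) = f (proj p)) (p : E3) (m : ℕ) :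
    f^[m] (proj (toV p)) = proj (toV ((mkSys Q h).F^[m] p)) := by
  induction m with
  | zero => rfl
  | succ m ih =>
    rw [Function.iterate_succ_apply', Function.iterate_succ_apply', ih, ← hf]
    show proj _ = proj (toV (toE (F0 (toV _) + Q (toV _))))
    rw [toV_toE]

lemma asym_iff {f : T3 → T3} {Q : V3 → V3} (h : QQ Q)
    (hf : ∀ p, proj (F0 p + Q p) = f (proj p)) (p x : E3) :
    (mkSys Q h).Asym Gam p x ↔ proj (toV p) ∈ stableSet f (proj (toV x)) := by
  unfold stableSet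
  show _ ↔ Tendsto (fun m => dist (f^[m] (proj (toV x))) (f^[m] (proj (toV p)))) atTop (𝓝 0)
  simp only [iter_rel h hf]
  set S := mkSys Q h
  constructor
  · rintro ⟨γ, hγ, ht⟩
    choose n hn using hγ
    have h1 : Tendsto (fun m => 5.2 * (3 * ‖S.F^[m] p - S.F^[m] x - γ m‖)) atTop (𝓝 0) := by
      have := ((tendsto_zero_iff_norm_tendsto_zero.1 ht).const_mul 3).const_mul 5.2
      simpa using this
    refine squeeze_zero (fun m => dist_nonneg) (fun m => ?_) h1
    refine (dist_proj_le _ _ (n m)).trans ?_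
    rw [← hn, ← toV_sub, ← toV_sub]
    refine (toV_bd _).trans ?_
    have hb : ∀ γ : E3, n1 γ ≤ 3 * ‖γ‖ := by
      intro γ
      unfold n1
      have i1 : |γ.1| ≤ ‖γ‖ := norm_fst_le γ
      have i2 : |γ.2.1| ≤ ‖γ‖ := (norm_fst_le γ.2).trans (norm_snd_le γ)
      have i3 : |γ.2.2| ≤ ‖γ‖ := (norm_snd_le γ.2).trans (norm_snd_le γ)
      linarith
    exact mul_le_mul_of_nonneg_left (hb _) (by norm_num)
  · intro ht
    have hex : ∀ m, ∃ n, ‖toV (S.F^[m] p) - toV (S.F^[m] x) - zc n‖ ≤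
        dist (proj (toV (S.F^[m] x))) (proj (toV (S.F^[m] p))) := fun m => exists_zc_dist _ _
    choose n hn using hex
    refine ⟨fun m => toE (zc (n m)), fun m => toE_zc_mem _, ?_⟩
    rw [tendsto_zero_iff_norm_tendsto_zero]
    have h1 := ht.const_mul 2.2
    rw [mul_zero] at h1
    refine squeeze_zero (fun m => norm_nonneg _) (fun m => ?_) h1
    have e : S.F^[m] p - S.F^[m] x - toE (zc (n m)) =
        toE (toV (S.F^[m] p) - toV (S.F^[m] x) - zc (n m)) := by
      rw [toE_sub, toE_sub, toE_toV, toE_toV]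
    rw [e]
    refine (toE_norm_le _).trans ?_
    exact mul_le_mul_of_nonneg_left (hn m) (by norm_num)

/-- if the conclusion of the core theorem holds at `x` then property (C) fails -/
lemma not_propC_of {r : ℕ∞} (hr : 1 ≤ r) {f : Dyn r} {Q : V3 → V3} (h : QQ Q)
    (hf : ∀ p, proj (F0 p + Q p) = f.toHomeo (proj p))
    (hx : ∃ x : E3, ∀ (k : ℕ) (Φ : (Fin k → ℝ) → E3),
      ContDiff ℝ 1 Φ → (∀ w, Function.Injective (fderiv ℝ Φ w)) →
      ¬ (∀ p : E3, (∃ w, ∃ γ ∈ Gam, Φ w = p + γ) ↔ (mkSys Q h).Asym Gam p x)) :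
    ¬ PropC f := by
  intro hC
  obtain ⟨x, hx⟩ := hx
  obtain ⟨k, Φ, hΦ, himm, -, hrange⟩ := hC (proj (toV x))
  have hΦ1 : ContDiff ℝ 1 Φ := hΦ.of_le (one_le_cast hr)
  apply hx k (fun w => psi.symm (Φ w)) (psi.symm.contDiff.comp hΦ1)
  · intro w
    have h1 : HasFDerivAt (fun w => psi.symm (Φ w))
        ((psi.symm : V3 →L[ℝ] E3).comp (fderiv ℝ Φ w)) w :=
      psi.symm.hasFDerivAt.comp w (hΦ1.differentiable one_ne_zero w).hasFDerivAt
    rw [h1.fderiv]
    exact psi.symm.injective.comp (himm w)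
  · intro p
    rw [asym_iff h hf, ← hrange]
    constructor
    · rintro ⟨w, γ, ⟨n, hn⟩, hw⟩
      refine ⟨w, ?_⟩
      have h1 : Φ w = toV p + zc n := by
        rw [← hn]
        have : toV (p + γ) = toV p + toV γ := map_add psi p γ
        rw [← this, ← hw]
        exact (psi.apply_symm_apply (Φ w)).symm
      show proj (Φ w) = proj (toV p)
      rw [h1, proj_add_zc]
    · rintro ⟨w, hw⟩
      obtain ⟨n, hn⟩ := (proj_eq_iff _ _).1 (show proj (toV p) = proj (Φ w) from hw.symm)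
      refine ⟨w, toE (zc n), toE_zc_mem n, ?_⟩
      show toE (Φ w) = _
      rw [hn]
      have : toE (toV p + zc n) = toE (toV p) + toE (zc n) := map_add psi.symm _ _
      rw [this, toE_toV]

/-! ### the model diffeomorphism -/

/-- linear part -/
def linL (v : V3) : V3 := ![26 * v 0 + 5 * v 1, 5 * v 0 + v 1, v 2]
def invL (v : V3) : V3 := ![v 0 - 5 * v 1, -5 * v 0 + 26 * v 1, v 2]
noncomputable def P0 (v : V3) : V3 := ![0, 0, 1e-4 * vv (v 2) + 1e-5 * cc (v 0)]

lemma F0_eq (v : V3) : F0 v = linL v + P0 v := by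
  ext i; fin_cases i <;> simp [F0, linL, P0]
  ring

lemma contDiff_vv {n : WithTop ℕ∞} : ContDiff ℝ n vv := by
  unfold vv; fun_prop
lemma contDiff_cc {n : WithTop ℕ∞} : ContDiff ℝ n cc := by
  unfold cc; fun_prop

lemma contDiff_linL {n : WithTop ℕ∞} : ContDiff ℝ n linL := by
  rw [contDiff_pi]; intro i; fin_cases i <;> simp only [linL] <;> simp <;> fun_prop
lemma contDiff_invL {n : WithTop ℕ∞} : ContDiff ℝ n invL := by
  rw [contDiff_pi]; intro i; fin_cases i <;> simp only [invL] <;> simp <;> fun_prop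
lemma contDiff_P0 {n : WithTop ℕ∞} : ContDiff ℝ n P0 := by
  rw [contDiff_pi]
  intro i
  fin_cases i
  · simp only [P0]; simp; exact contDiff_const
  · simp only [P0]; simp; exact contDiff_const
  · show ContDiff ℝ n (fun v : V3 => 1e-4 * vv (v 2) + 1e-5 * cc (v 0))
    have h1 : ContDiff ℝ n (fun v : V3 => vv (v 2)) := contDiff_vv.comp (by fun_prop)
    have h2 : ContDiff ℝ n (fun v : V3 => cc (v 0)) := contDiff_cc.comp (by fun_prop)
    exact (contDiff_const.mul h1).add (contDiff_const.mul h2)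

lemma P0_per (n : Fin 3 → ℤ) (p : V3) : P0 (p + zc n) = P0 p := by
  ext i
  fin_cases i
  · simp [P0]
  · simp [P0]
  · show 1e-4 * vv (p 2 + (n 2:ℝ)) + 1e-5 * cc (p 0 + (n 0:ℝ)) = 1e-4 * vv (p 2) + 1e-5 * cc (p 0)
    rw [vv_add_int, cc_add_int]

lemma P0_lip (p q : V3) : ‖P0 p - P0 q‖ ≤ 1/100 * ‖p - q‖ := by
  rw [pi_norm_le_iff_of_nonneg (by positivity)]
  intro i
  fin_cases i
  · simp [P0]
  · simp [P0]
  · show ‖(1e-4 * vv (p 2) + 1e-5 * cc (p 0)) - (1e-4 * vv (q 2) + 1e-5 * cc (q 0))‖ ≤ _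
    have h1 := vv_lip (p 2) (q 2)
    have h2 := cc_lip (p 0) (q 0)
    have h3 : |p 2 - q 2| ≤ ‖p - q‖ := norm_le_pi_norm (p - q) 2
    have h4 : |p 0 - q 0| ≤ ‖p - q‖ := norm_le_pi_norm (p - q) 0
    have e : (1e-4 * vv (p 2) + 1e-5 * cc (p 0)) - (1e-4 * vv (q 2) + 1e-5 * cc (q 0)) =
      1e-4 * (vv (p 2) - vv (q 2)) + 1e-5 * (cc (p 0) - cc (q 0)) := by ring
    rw [e, Real.norm_eq_abs]
    refine (abs_add_le _ _).trans ?_
    rw [abs_mul, abs_mul, abs_of_pos (by norm_num : (0:ℝ) < 1e-4),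
      abs_of_pos (by norm_num : (0:ℝ) < 1e-5)]
    have := norm_nonneg (p - q)
    linarith

lemma invL_lip (p q : V3) : ‖invL p - invL q‖ ≤ 31 * ‖p - q‖ := by
  have h3 : |p 2 - q 2| ≤ ‖p - q‖ := norm_le_pi_norm (p - q) 2
  have h4 : |p 0 - q 0| ≤ ‖p - q‖ := norm_le_pi_norm (p - q) 0
  have h5 : |p 1 - q 1| ≤ ‖p - q‖ := norm_le_pi_norm (p - q) 1
  rw [abs_le] at h3 h4 h5
  rw [pi_norm_le_iff_of_nonneg (by positivity)]
  intro i
  fin_cases i
  · show ‖(p 0 - 5 * p 1) - (q 0 - 5 * q 1)‖ ≤ _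
    rw [Real.norm_eq_abs, abs_le]; constructor <;> linarith [h3.1, h3.2, h4.1, h4.2, h5.1, h5.2]
  · show ‖(-5 * p 0 + 26 * p 1) - (-5 * q 0 + 26 * q 1)‖ ≤ _
    rw [Real.norm_eq_abs, abs_le]; constructor <;> linarith [h3.1, h3.2, h4.1, h4.2, h5.1, h5.2]
  · show ‖p 2 - q 2‖ ≤ _
    rw [Real.norm_eq_abs, abs_le]; constructor <;> linarith [h3.1, h3.2, h4.1, h4.2, h5.1, h5.2]

lemma linL_invL (p : V3) : linL (invL p) = p := by
  ext i; fin_cases i <;> simp [linL, invL] <;> ring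
lemma invL_linL (p : V3) : invL (linL p) = p := by
  ext i; fin_cases i <;> simp [linL, invL] <;> ring

lemma equi_invL : Equi invL := by
  intro n
  refine ⟨![n 0 - 5 * n 1, -5 * n 0 + 26 * n 1, n 2], fun p => ?_⟩
  ext i; fin_cases i <;> simp [invL, zc] <;> ring

lemma equi_F0 : Equi F0 := fun n => ⟨actA n, fun p => F0_add_zc p n⟩

lemma contDiff_F0 {n : WithTop ℕ∞} : ContDiff ℝ n F0 := by
  have : F0 = fun v => linL v + P0 v := funext F0_eq
  rw [this]
  exact contDiff_linL.add contDiff_P0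

/-- small periodic perturbations of the model map are lifts of diffeomorphisms -/
lemma exists_dyn {r : ℕ∞} (hr : 1 ≤ r) {Q : V3 → V3} (h : QQ Q) (hQ : ContDiff ℝ r Q) :
    ∃ f : Dyn r, IsLift r f.toHomeo (fun p => F0 p + Q p) := by
  obtain ⟨G', hG', eG', h1, h2⟩ := exists_inverse hr (F := linL) (G := invL)
    contDiff_invL equi_invL invL_linL linL_invL (K := 31) invL_lip (P := fun p => P0 p + Q p)
    (contDiff_P0.add hQ) (fun n p => by simp only [P0_per, h.per]) (c := 1.1/100) (by norm_num)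
    (fun p q => by
      have e : P0 p + Q p - (P0 q + Q q) = (P0 p - P0 q) + (Q p - Q q) := by abel
      rw [e]
      refine (norm_add_le _ _).trans ?_
      have := P0_lip p q
      have := h.lip p q
      have := norm_nonneg (p - q)
      linarith) (by norm_num)
  have e : ∀ p, F0 p + Q p = linL p + (P0 p + Q p) := fun p => by rw [F0_eq, add_assoc]
  have hF : ContDiff ℝ r (fun p => F0 p + Q p) := contDiff_F0.add hQ
  have eF : Equi (fun p => F0 p + Q p) := by
    intro n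
    obtain ⟨m, hm⟩ := equi_F0 n
    refine ⟨m, fun p => ?_⟩
    simp only [hm, h.per]
    abel
  refine ⟨ofLifts _ G' hF hG' eF eG' (fun p => by rw [e, h1]) (fun p => by rw [e, h2]),
    ofLifts_lift _ _ _ _ _ _ _ _⟩

lemma QQ_zero : QQ (fun _ => 0) where
  per _ _ := rfl
  bd _ := by rw [norm_zero]; norm_num
  lip p q := by simp; positivity

/-- a model diffeomorphism -/
lemma exists_f0 {r : ℕ∞} (hr : 1 ≤ r) : ∃ f : Dyn r, IsLift r f.toHomeo F0 := by
  obtain ⟨f, hf⟩ := exists_dyn hr QQ_zero (contDiff_const (c := (0 : V3)))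
  refine ⟨f, ?_⟩
  simpa using hf

/-- nearby diffeomorphisms are given by small periodic perturbations -/
lemma ball_param {r : ℕ∞} {n : ℕ} (hn : (n : ℕ∞) ≤ r) (hn1 : 1 ≤ n) {f₀ f : Dyn r}
    (h0 : IsLift r f₀.toHomeo F0) (hf : f ∈ crBall f₀ n 1e-17) :
    ∃ Q : V3 → V3, QQ Q ∧ ContDiff ℝ r Q ∧ (∀ p, proj (F0 p + Q p) = f.toHomeo (proj p)) ∧
      ∀ j ≤ n, ∀ p, ‖iteratedFDeriv ℝ j Q p‖ ≤ 1e-17 := by
  obtain ⟨F₁, G₁, hF₁, hG₁, η, hη, hb⟩ := hf
  obtain ⟨c, hc⟩ := lift_unique h0.1.continuous hF₁.1.continuous h0.2 hF₁.2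
  have hr1 : (1:ℕ∞) ≤ r := le_trans (by exact_mod_cast hn1) hn
  set Q : V3 → V3 := G₁ - F₁ with hQ
  have hQr : ContDiff ℝ r Q := hG₁.1.sub hF₁.1
  have hder : ∀ j ≤ n, ∀ p, ‖iteratedFDeriv ℝ j Q p‖ ≤ 1e-17 := by
    intro j hj p
    have hjr : ((j:ℕ) : WithTop ℕ∞) ≤ (r : WithTop ℕ∞) := by
      have : (j : ℕ∞) ≤ r := le_trans (by exact_mod_cast hj) hn
      exact_mod_cast this
    rw [hQ, iteratedFDeriv_sub (hG₁.1.of_le hjr) (hF₁.1.of_le hjr)]
    exact (hb j hj p).trans hη.le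
  have hQ0 : ∀ p, ‖Q p‖ ≤ 1e-17 := by
    intro p
    have := hder 0 (by omega) p
    rwa [norm_iteratedFDeriv_zero] at this
  have hQ1 : ∀ p, ‖fderiv ℝ Q p‖ ≤ 1e-17 := by
    intro p
    have := hder 1 hn1 p
    rwa [norm_iteratedFDeriv_one] at this
  have hQQ : QQ Q := by
    refine ⟨?_, hQ0, ?_⟩
    · intro m p
      have e1 : Equi F₁ := equi_of_lift hF₁.1.continuous hF₁.2
      have e2 : Equi G₁ := equi_of_lift hG₁.1.continuous hG₁.2
      exact per_of_bdd_sub e1 e2 (fun p => (hQ0 p).trans (by norm_num)) m p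
    · intro p q
      exact Convex.norm_image_sub_le_of_norm_hasFDerivWithin_le (f := Q) (f' := fderiv ℝ Q)
        (s := univ) (x := q) (y := p) (C := 1e-17)
        (fun x _ => (hQr.differentiable (ne_zero_cast hr1) x).hasFDerivAt.hasFDerivWithinAt)
        (fun x _ => hQ1 x) convex_univ (mem_univ _) (mem_univ _)
  refine ⟨Q, hQQ, hQr, fun p => ?_, hder⟩
  have e : F0 p + Q p = G₁ p + zc (-c) := by
    simp only [hQ, Pi.sub_apply, hc, zc_neg]
    abel
  rw [e, proj_add_zc, hG₁.2]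

/-- **Failure of property (C) on a `C^2`-ball.** -/
theorem fails_on_ball {r : ℕ∞} (hr : 2 ≤ r) {f₀ f : Dyn r}
    (h0 : IsLift r f₀.toHomeo F0) (hf : f ∈ crBall f₀ 2 1e-17) : ¬ PropC f := by
  obtain ⟨Q, hQQ, hQr, hlift, hder⟩ := ball_param (n := 2) (by exact_mod_cast hr) (by norm_num)
    h0 hf
  have hr1 : (1:ℕ∞) ≤ r := le_trans (by norm_num) hr
  apply not_propC_of hr1 hQQ hlift
  have hr2 : (2 : WithTop ℕ∞) ≤ (r : WithTop ℕ∞) := WithTop.coe_le_coe.2 hr
  have hQ2 : ContDiff ℝ 2 Q := hQr.of_le hr2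
  have hQ1 : ∀ p, ‖fderiv ℝ Q p‖ ≤ 1e-17 := by
    intro p
    have := hder 1 (by norm_num) p
    rwa [norm_iteratedFDeriv_one] at this
  have hD : ContDiff ℝ 1 (fderiv ℝ Q) := by
    have : ContDiff ℝ (1+1) Q := by norm_num; exact hQ2
    exact this.fderiv_right le_rfl
  have hQ2' : ∀ p, ‖fderiv ℝ (fderiv ℝ Q) p‖ ≤ 1e-17 := by
    intro p
    have h1 := hder 2 le_rfl p
    have h2 := norm_iteratedFDeriv_fderiv (𝕜 := ℝ) (f := Q) (x := p) (n := 1)
    rw [norm_iteratedFDeriv_one] at h2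
    rw [h2]; exact h1
  have hC2 : (mkSys Q hQQ).C2 := mkSys_C2 hQQ (Q' := fderiv ℝ Q)
    (fun p => (hQ2.differentiable two_ne_zero p).hasFDerivAt) hQ1 (fun p q =>
      Convex.norm_image_sub_le_of_norm_hasFDerivWithin_le (f := fderiv ℝ Q)
        (f' := fderiv ℝ (fderiv ℝ Q))
        (s := univ) (x := q) (y := p) (C := 1e-17)
        (fun x _ => (hD.differentiable one_ne_zero x).hasFDerivAt.hasFDerivWithinAt)
        (fun x _ => hQ2' x) convex_univ (mem_univ _) (mem_univ _))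
  exact Sys.core hC2 (mkSys_lat Q hQQ)

/-- **Property (C) fails on a nonempty open set of `C^r` diffeomorphisms of `T³`, `2 ≤ r ≤ ∞`.** -/
theorem exists_open_fail {r : ℕ∞} (hr : 2 ≤ r) : ∃ U : Set (Dyn r), IsOpen U ∧ U.Nonempty ∧
    ∀ f ∈ U, ¬ PropC f := by
  obtain ⟨f₀, h0⟩ := exists_f0 (r := r) (le_trans (by norm_num) hr)
  exact ⟨crBall f₀ 2 1e-17, isOpen_crBall f₀ (by exact_mod_cast hr) (by norm_num),
    ⟨f₀, mem_crBall_self f₀ 2 (by norm_num)⟩, fun f hf => fails_on_ball hr h0 hf⟩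

end Pool.Agent.H47

/-! ### Cont -/

namespace Pool.Agent.H47

open Real Set Filter Topology

/-- the space of small periodic perturbations of class `C¹` -/
def PPs : Set (Yr 1) :=
  {φ | φ ∈ XX 1 ∧ ‖φ (i0 1)‖ ≤ 1e-17 ∧ ‖φ (i1 (r := 1) le_rfl)‖ ≤ 1e-17}

abbrev PP := PPs.Elem

lemma isClosed_PPs : IsClosed PPs := by
  have c0 : Continuous (fun φ : Yr 1 => φ (i0 1)) := continuous_apply (i0 1)
  have c1 : Continuous (fun φ : Yr 1 => φ (i1 (r := 1) le_rfl)) := continuous_apply _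
  have d0 : Continuous (fun φ : Yr 1 => ‖φ (i0 1)‖) :=
    (continuous_norm (E := BoundedContinuousFunction V3 (Wj 0))).comp c0
  have d1 : Continuous (fun φ : Yr 1 => ‖φ (i1 (r := 1) le_rfl)‖) :=
    (continuous_norm (E := BoundedContinuousFunction V3 (Wj 1))).comp c1
  exact (isClosed_XX 1).inter ((isClosed_le d0 continuous_const).inter
    (isClosed_le d1 continuous_const))

lemma norm_fn_le {φ : Yr 1} (x : V3) : ‖fn φ x‖ ≤ ‖φ (i0 1)‖ := by
  have h1 := BoundedContinuousFunction.norm_coe_le_norm (φ (i0 1)) x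
  have h2 : ‖fn φ x‖ = ‖φ (i0 1) x‖ := by
    unfold fn
    exact (ContinuousMultilinearMap.fin0_apply_norm (φ (i0 1) x)).symm ▸ rfl
  rw [h2]; exact h1

lemma norm_fderiv_fn_le {φ : Yr 1} (hφ : φ ∈ XX 1) (x : V3) :
    ‖fderiv ℝ (fn φ) x‖ ≤ ‖φ (i1 (r := 1) le_rfl)‖ := by
  rw [← norm_iteratedFDeriv_one, iter_fn hφ 1 (by norm_num)]
  exact BoundedContinuousFunction.norm_coe_le_norm _ x

lemma qq (φ : PP) : QQ (fn φ.1) := by
  have hP := contDiff_fn φ.2.1
  refine ⟨fun n p => per_fn φ.2.1 n p, fun p => (norm_fn_le p).trans φ.2.2.1, fun p q => ?_⟩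
  exact Convex.norm_image_sub_le_of_norm_hasFDerivWithin_le (f := fn φ.1)
      (f' := fderiv ℝ (fn φ.1))
      (s := univ) (x := q) (y := p) (C := 1e-17)
      (fun x _ => (hP.differentiable (by norm_num) x).hasFDerivAt.hasFDerivWithinAt)
      (fun x _ => (norm_fderiv_fn_le φ.2.1 x).trans φ.2.2.2) convex_univ (mem_univ _) (mem_univ _)

/-- the system of a perturbation -/
noncomputable def SS (φ : PP) : Sys := mkSys (fn φ.1) (qq φ)

lemma continuous_toV : Continuous toV := psi.continuous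
lemma continuous_toE : Continuous toE := psi.symm.continuous

lemma cont_fn : Continuous (fun q : PP × V3 => fn q.1.1 q.2) := by
  have h1 : Continuous (fun q : PP × V3 => (q.1.1 (i0 1), q.2)) :=
    ((continuous_apply (i0 1)).comp (continuous_subtype_val.comp continuous_fst)).prodMk
      continuous_snd
  have h2 : Continuous (fun q : BoundedContinuousFunction V3 (Wj 0) × V3 => q.1 q.2) :=
    continuous_eval
  have h3 : Continuous (fun w : Wj 0 => w.curry0) :=
    (continuousMultilinearCurryFin0 ℝ V3 V3).continuous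
  exact h3.comp (h2.comp h1)

lemma cont_F : Continuous (fun q : PP × E3 => (SS q.1).F q.2) := by
  show Continuous (fun q : PP × E3 => toE (F0 (toV q.2) + fn q.1.1 (toV q.2)))
  apply continuous_toE.comp
  apply Continuous.add
  · exact (contDiff_F0 (n := 1)).continuous.comp (continuous_toV.comp continuous_snd)
  · exact cont_fn.comp (continuous_fst.prodMk (continuous_toV.comp continuous_snd))

lemma cont_iter (n : ℕ) : Continuous (fun q : PP × E3 => (SS q.1).F^[n] q.2) := by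
  induction n with
  | zero => exact continuous_snd
  | succ n ih =>
    have : (fun q : PP × E3 => (SS q.1).F^[n+1] q.2) =
        fun q : PP × E3 => (SS q.1).F ((SS q.1).F^[n] q.2) := by
      funext q; rw [Function.iterate_succ_apply']
    rw [this]
    exact cont_F.comp (continuous_fst.prodMk ih)

lemma cont_h : Continuous (fun q : PP × E3 => (SS q.1).h q.2) := by
  unfold Sys.h
  refine Continuous.add (by fun_prop) ?_
  refine continuous_tsum (u := fun n : ℕ => 0.0372 * 1e-14 * 0.0372^n) ?_ ?_ ?_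
  · intro n
    show Continuous (fun q : PP × E3 => (mu^2)⁻¹ ^ (n+1) *
      (toE (fn q.1.1 (toV ((SS q.1).F^[n] q.2)))).2.2)
    apply continuous_const.mul
    have h1 : Continuous (fun q : PP × E3 => fn q.1.1 (toV ((SS q.1).F^[n] q.2))) :=
      cont_fn.comp (continuous_fst.prodMk (continuous_toV.comp (cont_iter n)))
    exact (continuous_snd.comp continuous_snd).comp (continuous_toE.comp h1)
  · exact (summable_geometric_of_lt_one (by norm_num) (by norm_num)).mul_left _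
  · intro n q
    obtain ⟨φ, p⟩ := q
    rw [norm_mul, norm_pow, Real.norm_eq_abs, Real.norm_eq_abs, abs_of_pos (SS φ).lami_pos]
    have h1 := (SS φ).u1.bd ((SS φ).F^[n] p)
    have h2 := (SS φ).lami_lt
    have h3 := (SS φ).lami_pos
    have h4 : (SS φ).lam⁻¹ ^ (n+1) ≤ 0.0372^(n+1) := by gcongr
    calc (SS φ).lam⁻¹ ^ (n+1) * |(SS φ).Pu ((SS φ).F^[n] p)| ≤ 0.0372^(n+1) * 1e-14 := by
          apply mul_le_mul h4 h1 (abs_nonneg _) (by positivity)
      _ = _ := by ring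

lemma cont_U (t : ℝ) : Continuous (fun q : PP × ℝ => (SS q.1).U 0 t q.2) := by
  rw [continuous_iff_continuousAt]
  intro q₀
  rw [ContinuousAt, Metric.tendsto_nhds]
  intro ε hε
  set r₀ := (SS q₀.1).U 0 t q₀.2 with hr₀
  have hg : ∀ u : ℝ, Continuous (fun q : PP × ℝ => (SS q.1).h (0, t, u) - q.2) := by
    intro u
    have h1 : Continuous (fun q : PP × ℝ => (SS q.1).h (0, t, u)) :=
      cont_h.comp (continuous_fst.prodMk continuous_const)
    exact h1.sub continuous_snd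
  have h0 : (SS q₀.1).h (0, t, r₀) = q₀.2 := (SS q₀.1).h_U 0 t q₀.2
  have hlo : (SS q₀.1).h (0, t, r₀ - ε) - q₀.2 < 0 := by
    have := (SS q₀.1).h_strictMono 0 t (show r₀ - ε < r₀ by linarith)
    simp only at this
    linarith
  have hhi : 0 < (SS q₀.1).h (0, t, r₀ + ε) - q₀.2 := by
    have := (SS q₀.1).h_strictMono 0 t (show r₀ < r₀ + ε by linarith)
    simp only at this
    linarith
  have e1 := (hg (r₀ - ε)).continuousAt.eventually_lt (continuousAt_const (y := (0:ℝ))) hlo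
  have e2 := (continuousAt_const (y := (0:ℝ))).eventually_lt (hg (r₀ + ε)).continuousAt hhi
  filter_upwards [e1, e2] with q hq1 hq2
  have hq0 : (SS q.1).h (0, t, (SS q.1).U 0 t q.2) = q.2 := (SS q.1).h_U 0 t q.2
  have hm := (SS q.1).h_strictMono 0 t
  rw [Real.dist_eq, abs_lt]
  constructor
  · have : r₀ - ε < (SS q.1).U 0 t q.2 := by
      apply hm.lt_iff_lt.1
      show (SS q.1).h (0, t, _) < (SS q.1).h (0, t, _)
      linarith
    linarith
  · have : (SS q.1).U 0 t q.2 < r₀ + ε := by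
      apply hm.lt_iff_lt.1
      show (SS q.1).h (0, t, _) < (SS q.1).h (0, t, _)
      linarith
    linarith

/-- the centre coordinate at time `m` of the point over `(0,t)` in the leaf of `(0,0,i)` -/
noncomputable def GG (t : ℝ) (m : ℕ) (φ : PP) (i : ℝ) : ℝ :=
  ((SS φ).F^[m] ((SS φ).pt 0 t ((SS φ).h (0, 0, i)))).2.1

lemma cont_GG (t : ℝ) (m : ℕ) : Continuous (fun q : PP × ℝ => GG t m q.1 q.2) := by
  unfold GG Sys.pt
  have h1 : Continuous (fun q : PP × ℝ => (SS q.1).h (0, 0, q.2)) :=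
    cont_h.comp (continuous_fst.prodMk (by fun_prop))
  have h2 : Continuous (fun q : PP × ℝ => (SS q.1).U 0 t ((SS q.1).h (0, 0, q.2))) :=
    (cont_U t).comp (continuous_fst.prodMk h1)
  have h3 : Continuous (fun q : PP × ℝ => ((0:ℝ), t, (SS q.1).U 0 t ((SS q.1).h (0, 0, q.2)))) :=
    continuous_const.prodMk (continuous_const.prodMk h2)
  have h4 := (cont_iter m).comp (continuous_fst.prodMk h3)
  exact (continuous_fst.comp continuous_snd).comp h4

/-- a modulus of continuity for the derivative of a periodic map -/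
lemma exists_modulus {Q : V3 → V3} (hQ : ContDiff ℝ 1 Q) (per : ∀ n p, Q (p + zc n) = Q p)
    {θ : ℝ} (hθ : 0 < θ) : ∃ C, 0 ≤ C ∧ ∀ p q, ‖fderiv ℝ Q p - fderiv ℝ Q q‖ ≤
      θ + C * ‖p - q‖ := by
  have hc : Continuous (fderiv ℝ Q) := hQ.continuous_fderiv one_ne_zero
  have hper : ∀ n p, fderiv ℝ Q (p + zc n) = fderiv ℝ Q p := by
    intro n p
    rw [← fderiv_comp_add_right]
    have : (fun x => Q (x + zc n)) = Q := funext (fun z => per n z)
    rw [this]
  obtain ⟨B, hB⟩ := bounded_of_periodic hc hper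
  have hB0 : 0 ≤ B := (norm_nonneg _).trans (hB 0)
  have huc : UniformContinuousOn (fderiv ℝ Q) (Icc (-1 : V3) 2) :=
    isCompact_Icc.uniformContinuousOn_of_continuous hc.continuousOn
  rw [Metric.uniformContinuousOn_iff] at huc
  obtain ⟨δ, hδ, hδ'⟩ := huc θ hθ
  have key : ∀ p q, ‖p - q‖ < min δ 1 → ‖fderiv ℝ Q p - fderiv ℝ Q q‖ ≤ θ := by
    intro p q hpq
    set n : Fin 3 → ℤ := fun i => ⌊p i⌋ with hn
    have hp : p = (p - zc n) + zc n := by abel
    have hq : q = (q - zc n) + zc n := by abel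
    have h1 : ∀ i, 0 ≤ (p - zc n) i ∧ (p - zc n) i ≤ 1 := by
      intro i
      have e : (p - zc n) i = Int.fract (p i) := Int.self_sub_floor (p i)
      rw [e]
      exact ⟨Int.fract_nonneg _, (Int.fract_lt_one _).le⟩
    have h2 : ∀ i, |(p - zc n) i - (q - zc n) i| ≤ 1 := by
      intro i
      have e : (p - zc n) i - (q - zc n) i = (p - q) i := by
        simp only [Pi.sub_apply]; ring
      rw [e]
      have := norm_le_pi_norm (p - q) i
      rw [Real.norm_eq_abs] at this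
      exact this.trans (hpq.le.trans (min_le_right _ _))
    have m1 : p - zc n ∈ Icc (-1 : V3) 2 := by
      constructor <;> intro i
      · have := (h1 i).1; simp only [Pi.neg_apply, Pi.one_apply]; linarith
      · have := (h1 i).2
        show (p - zc n) i ≤ (2:ℝ)
        linarith
    have m2 : q - zc n ∈ Icc (-1 : V3) 2 := by
      constructor <;> intro i
      · have := (h1 i).1
        have h3 := abs_le.1 (h2 i)
        simp only [Pi.neg_apply, Pi.one_apply]; linarith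
      · have := (h1 i).2
        have h3 := abs_le.1 (h2 i)
        show (q - zc n) i ≤ (2:ℝ)
        linarith
    have h4 := hδ' _ m1 _ m2 (by
      rw [dist_eq_norm]
      have : p - zc n - (q - zc n) = p - q := by abel
      rw [this]
      exact hpq.trans_le (min_le_left _ _))
    rw [dist_eq_norm] at h4
    rw [hp, hq, hper, hper]
    exact h4.le
  have hm : 0 < min δ 1 := lt_min hδ one_pos
  refine ⟨2 * B / min δ 1, by positivity, fun p q => ?_⟩
  rcases lt_or_ge ‖p - q‖ (min δ 1) with h | h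
  · have h1 := key p q h
    have : 0 ≤ 2 * B / min δ 1 * ‖p - q‖ := by positivity
    linarith
  · have h1 : ‖fderiv ℝ Q p - fderiv ℝ Q q‖ ≤ 2 * B := by
      refine (norm_sub_le _ _).trans ?_
      linarith [hB p, hB q]
    have h2 : 2 * B ≤ 2 * B / min δ 1 * ‖p - q‖ := by
      rw [div_mul_eq_mul_div, le_div_iff₀ hm]
      exact mul_le_mul_of_nonneg_left h (by positivity)
    linarith

end Pool.Agent.H47
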