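import Pool.Agent.H47.CoreB

/-! ### Link2 -/

namespace Pool.Agent.H47

open Real Set Filter Topology

/-- vertical vector -/
noncomputable def vert (t : ℝ) : V3 := ![0, 0, t]

lemma norm_vert (t : ℝ) : ‖vert t‖ ≤ |t| := by
  rw [pi_norm_le_iff_of_nonneg (abs_nonneg t)]
  intro i
  fin_cases i <;> simp [vert]

lemma uf_vert (t : ℝ) : uf (vert t) = 0 := by
  unfold uf vert; simp

lemma toE_vert (v : V3) (t : ℝ) :
    toE (v + vert t) = ((toE v).1, (toE v).2.1 + t, (toE v).2.2) := by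
  unfold toE
  rw [uf_add, uf_vert, add_zero]
  simp [vert]

/-- vertical inclusion as a continuous linear map -/
noncomputable def vertL : ℝ →L[ℝ] V3 :=
  LinearMap.mkContinuous
    { toFun := vert
      map_add' := by intro a b; ext i; fin_cases i <;> simp [vert]
      map_smul' := by intro a b; ext i; fin_cases i <;> simp [vert] } 1
    (by intro t; rw [one_mul]; exact norm_vert t)

lemma vertL_apply (t : ℝ) : vertL t = vert t := rfl
lemma norm_vertL : ‖vertL‖ ≤ 1 := LinearMap.mkContinuous_norm_le _ zero_le_one _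

section vertical

variable {Q Q' : V3 → V3} (h : QQ Q) (h' : QQ Q') {g : V3 → ℝ}
  (hQ : ∀ v, Q' v = Q v + vert (g v))

include hQ

lemma F_vert (p : E3) : (mkSys Q' h').F p =
    (((mkSys Q h).F p).1, ((mkSys Q h).F p).2.1 + g (toV p), ((mkSys Q h).F p).2.2) := by
  show toE (F0 (toV p) + Q' (toV p)) = _
  rw [hQ, ← add_assoc, toE_vert]
  rfl

lemma F_vert_zero {p : E3} (hp : g (toV p) = 0) : (mkSys Q' h').F p = (mkSys Q h).F p := by
  rw [F_vert h h' hQ, hp, add_zero]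

lemma Ps_vert : (mkSys Q' h').Ps = (mkSys Q h).Ps := by
  funext p
  show (toE (Q' (toV p))).1 = (toE (Q (toV p))).1
  rw [hQ, toE_vert]

lemma Pu_vert : (mkSys Q' h').Pu = (mkSys Q h).Pu := by
  funext p
  show (toE (Q' (toV p))).2.2 = (toE (Q (toV p))).2.2
  rw [hQ, toE_vert]

lemma Pt_vert (p : E3) : (mkSys Q' h').Pt p = (mkSys Q h).Pt p + g (toV p) := by
  show (toE (Q' (toV p))).2.1 = (toE (Q (toV p))).2.1 + _
  rw [hQ, toE_vert]

end vertical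

lemma mod_of {Q : V3 → V3} {Q' : V3 → V3 →L[ℝ] V3} (hd : ∀ p, HasFDerivAt Q (Q' p) p)
    (hb : ∀ p, ‖Q' p‖ ≤ 1e-17) {θ C : ℝ} (hθ : 0 ≤ θ) (hC : 0 ≤ C)
    (hl : ∀ p q, ‖Q' p - Q' q‖ ≤ θ + C * ‖p - q‖)
    (ℓ : V3 →L[ℝ] ℝ) (hℓ : ∀ v, |ℓ v| ≤ 2.2 * ‖v‖) :
    Mod (fun p => ℓ (Q (toV p))) (3 * (11.5 * θ)) (3 * (60 * C)) := by
  apply mod_of_deriv (P' := fun p => (ℓ.comp (Q' (toV p))).comp (psi : E3 →L[ℝ] V3))
    (by positivity) (by positivity)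
  · intro p
    have h1 : HasFDerivAt toV (psi : E3 →L[ℝ] V3) p := psi.hasFDerivAt
    exact (ℓ.hasFDerivAt.comp _ (hd (toV p))).comp p h1
  · intro p e
    simp only [ContinuousLinearMap.comp_apply]
    have h1 := hℓ (Q' (toV p) (toV e))
    have h2 := (Q' (toV p)).le_opNorm (toV e)
    have h3 := hb (toV p)
    have h4 := toV_bd e
    have h5 := norm_nonneg (toV e)
    have h6 : ‖Q' (toV p)‖ * ‖toV e‖ ≤ 1e-17 * ‖toV e‖ := mul_le_mul_of_nonneg_right h3 h5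
    have h7 := n1_nonneg e
    show |ℓ (Q' (toV p) (toV e))| ≤ _
    linarith
  · intro p q e
    simp only [ContinuousLinearMap.comp_apply]
    have h1 := hℓ ((Q' (toV p) - Q' (toV q)) (toV e))
    have h2 := (Q' (toV p) - Q' (toV q)).le_opNorm (toV e)
    have h3 := hl (toV p) (toV q)
    have h4 := toV_bd e
    have h5 := norm_nonneg (toV e)
    have h7 := n1_nonneg e
    have h8 : toV p - toV q = toV (p - q) := (map_sub psi p q).symm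
    have h9 := toV_bd (p - q)
    rw [← dd_eq, dd_comm] at h9
    rw [h8] at h3
    have h10 := dd_nonneg p q
    have h11 : ‖Q' (toV p) - Q' (toV q)‖ ≤ θ + C * (5.2 * dd p q) :=
      h3.trans (by have := mul_le_mul_of_nonneg_left h9 hC; linarith)
    have h12 : ‖Q' (toV p) - Q' (toV q)‖ * ‖toV e‖ ≤ (θ + C * (5.2 * dd p q)) * (5.2 * n1 e) :=
      mul_le_mul h11 h4 h5 (by positivity)
    have h13 : 0 ≤ θ * n1 e := by positivity
    have h14 : 0 ≤ C * dd p q * n1 e := by positivity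
    show |ℓ (Q' (toV p) (toV e)) - ℓ (Q' (toV q) (toV e))| ≤ _
    rw [← map_sub, ← sub_apply]
    nlinarith

lemma mod_sys {Q : V3 → V3} (h : QQ Q) {Q' : V3 → V3 →L[ℝ] V3}
    (hd : ∀ p, HasFDerivAt Q (Q' p) p)
    (hb : ∀ p, ‖Q' p‖ ≤ 1e-17) {θ C : ℝ} (hθ : 0 ≤ θ) (hC : 0 ≤ C)
    (hl : ∀ p q, ‖Q' p - Q' q‖ ≤ θ + C * ‖p - q‖) :
    Mod (mkSys Q h).Ps (3 * (11.5 * θ)) (3 * (60 * C)) ∧
    Mod (mkSys Q h).Pt (3 * (11.5 * θ)) (3 * (60 * C)) ∧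
    Mod (mkSys Q h).Pu (3 * (11.5 * θ)) (3 * (60 * C)) := by
  refine ⟨?_, ?_, ?_⟩
  · exact mod_of hd hb hθ hC hl ((ContinuousLinearMap.fst ℝ ℝ (ℝ × ℝ)).comp
      (psi.symm : V3 →L[ℝ] E3)) toE_bd1
  · exact mod_of hd hb hθ hC hl (((ContinuousLinearMap.fst ℝ ℝ ℝ).comp
      (ContinuousLinearMap.snd ℝ ℝ (ℝ × ℝ))).comp
      (psi.symm : V3 →L[ℝ] E3)) (fun v => by
        have := toE_bd2 v
        have := norm_nonneg v
        show |(toE v).2.1| ≤ _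
        linarith)
  · exact mod_of hd hb hθ hC hl (((ContinuousLinearMap.snd ℝ ℝ ℝ).comp
      (ContinuousLinearMap.snd ℝ ℝ (ℝ × ℝ))).comp
      (psi.symm : V3 →L[ℝ] E3)) (fun v => by
        have := toE_bd3 v
        have := norm_nonneg v
        show |(toE v).2.2| ≤ _
        linarith)

namespace Sys

variable {S : Sys}

lemma Lat.iter_mem {Γ : AddSubgroup E3} (hL : S.Lat Γ) {γ : E3} (hγ : γ ∈ Γ) (n : ℕ) :
    S.Lm^[n] γ ∈ Γ := by
  induction n with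
  | zero => simpa using hγ
  | succ n ih => rw [Function.iterate_succ_apply']; exact hL.map _ ih

/-- separation of two points of an orbit, from a record of the centre coordinate -/
lemma sep_aux {Γ : AddSubgroup E3} (hL : S.Lat Γ) {x : ℕ → E3}
    (hx : ∀ j, x (j+1) = S.F (x j)) (hT : ∀ j, |(x j).2.1| ≤ 0.01) {M₁ t : ℕ}
    (hrec : ∀ j, M₁ ≤ j → j < t → (x t).2.1 + 4e-6 ≤ (x j).2.1) {j m : ℕ} (hjm : j < m)
    (hm : m ≤ t) (hM : M₁ ≤ j + (t - m)) {γ : E3} (hγ : γ ∈ Γ) :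
    4e-6 ≤ 30^(t-m) * ‖x j - x m - γ‖ := by
  have hit : ∀ (n k : ℕ), S.F^[n] (x k) = x (k + n) := by
    intro n
    induction n with
    | zero => intro k; simp
    | succ n ih =>
      intro k
      rw [Function.iterate_succ_apply', ih, ← hx]; rfl
  have h1 := (S.lipF.iterate (t-m)).dist_le_mul (x j) (x m + γ)
  rw [hL.iter hγ, hit, hit, dist_eq_norm, dist_eq_norm] at h1
  have e1 : m + (t - m) = t := by omega
  rw [e1] at h1
  have e2 : x j - (x m + γ) = x j - x m - γ := by abel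
  rw [e2] at h1
  push_cast at h1
  refine le_trans ?_ h1
  obtain ⟨n, hn⟩ := hL.tint _ (hL.iter_mem hγ (t-m))
  have h2 : |(x (j + (t-m))).2.1 - ((x t).2.1 + n)| ≤
      ‖x (j + (t-m)) - (x t + S.Lm^[t-m] γ)‖ := by
    have i1 := norm_snd_le (x (j + (t-m)) - (x t + S.Lm^[t-m] γ))
    have i2 := norm_fst_le (x (j + (t-m)) - (x t + S.Lm^[t-m] γ)).2
    refine le_trans ?_ (i2.trans i1)
    rw [Real.norm_eq_abs]
    simp only [Prod.snd_sub, Prod.fst_sub, Prod.snd_add, Prod.fst_add]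
    rw [hn]
  refine le_trans ?_ h2
  have h3 := hrec (j + (t-m)) hM (by omega)
  have h4 := abs_le.1 (hT (j + (t-m)))
  have h5 := abs_le.1 (hT t)
  rcases lt_trichotomy n 0 with h | h | h
  · have h6 : (n:ℝ) ≤ -1 := by exact_mod_cast Int.le_sub_one_of_lt h
    have := le_abs_self ((x (j + (t-m))).2.1 - ((x t).2.1 + n))
    linarith
  · subst h
    have := le_abs_self ((x (j + (t-m))).2.1 - ((x t).2.1 + ((0:ℤ):ℝ)))
    push_cast at this ⊢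
    linarith
  · have h6 : (1:ℝ) ≤ n := by exact_mod_cast h
    have := neg_abs_le ((x (j + (t-m))).2.1 - ((x t).2.1 + n))
    linarith

/-- separation in the standard coordinates -/
lemma sep_orbit (hL : S.Lat Gam) {x : ℕ → E3}
    (hx : ∀ j, x (j+1) = S.F (x j)) (hT : ∀ j, |(x j).2.1| ≤ 0.01) {M₁ t a N m₂ : ℕ}
    (haM : M₁ ≤ a) (hm₂ : m₂ = a + N + M₁) (ht : m₂ < t) (ht' : t ≤ m₂ + 2800)
    (hrec : ∀ j, M₁ ≤ j → j < t → (x t).2.1 + 4e-6 ≤ (x j).2.1) {j m : ℕ} (hj : j ≤ t)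
    (hm : a ≤ m) (hm' : m < a + N) (hjm : j ≠ m) (n : Fin 3 → ℤ) :
    4 * RR2 N M₁ ≤ ‖toV (x j) - toV (x m) - zc n‖ := by
  obtain ⟨K, hK⟩ : ∃ K, K = N + M₁ + 2800 := ⟨_, rfl⟩
  have hRK : RR2 N M₁ = 1e-6 * (1/32)^K := by unfold RR2; rw [hK]
  have hK' : 2800 ≤ K := by omega
  have hmain : ∀ i ≤ K, ∀ w : ℝ, 0 ≤ w → 4e-6 ≤ 30^i * (2.2 * w) →
      4 * RR2 N M₁ ≤ w := by
    intro i hi w hw h1
    rw [hRK]
    clear hK hRK
    have h2 : (30:ℝ)^i ≤ 30^K := pow_le_pow_right₀ (by norm_num) hi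
    have h3 : 4e-6 ≤ 30^K * (2.2 * w) :=
      h1.trans (mul_le_mul_of_nonneg_right h2 (by positivity))
    have h4 : (3:ℝ) * 30^K ≤ 32^K := by
      have h5 : (3:ℝ) ≤ (32/30)^K := by
        have h6 := one_add_mul_le_pow (a := (1/15:ℝ)) (by norm_num) K
        have h7 : (2800:ℝ) ≤ K := by exact_mod_cast hK'
        have e : (1 + 1/15 : ℝ) = 32/30 := by norm_num
        rw [e] at h6
        linarith
      rw [div_pow, le_div_iff₀ (by positivity)] at h5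
      exact h5
    have h8 : (0:ℝ) < 32^K := by positivity
    have h9 : (0:ℝ) < 30^K := by positivity
    rw [one_div, inv_pow]
    have h10 : 4 * (1e-6 * ((32:ℝ)^K)⁻¹) = 4e-6 / 32^K := by ring
    rw [h10, div_le_iff₀ h8]
    have h11 : 30^K * (2.2 * w) ≤ 32^K * w := by
      have := mul_le_mul_of_nonneg_right h4 hw
      nlinarith
    linarith
  have hto : ‖x j - x m - toE (zc n)‖ ≤ 2.2 * ‖toV (x j) - toV (x m) - zc n‖ := by
    have e : x j - x m - toE (zc n) = toE (toV (x j) - toV (x m) - zc n) := by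
      rw [toE_sub, toE_sub, toE_toV, toE_toV]
    rw [e]
    exact toE_norm_le _
  rcases lt_or_gt_of_ne hjm with h | h
  · have h1 := sep_aux hL hx hT hrec h (by omega) (by omega) (toE_zc_mem n)
    apply hmain (t - m) (by omega) _ (norm_nonneg _)
    refine h1.trans ?_
    exact mul_le_mul_of_nonneg_left hto (by positivity)
  · have h1 := sep_aux hL hx hT hrec h hj (by omega) (Gam.neg_mem (toE_zc_mem n))
    apply hmain (t - j) (by omega) _ (norm_nonneg _)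
    refine h1.trans ?_
    have e : x m - x j - -toE (zc n) = -(x j - x m - toE (zc n)) := by abel
    rw [e, norm_neg]
    exact mul_le_mul_of_nonneg_left hto (by positivity)

lemma CP.toV_bd {p q : E3} (hp : S.CP p q) :
    |toV q 0 - toV p 0| ≤ 1e-12 * (q.2.1 - p.2.1) ∧
    |toV q 1 - toV p 1| ≤ 1e-12 * (q.2.1 - p.2.1) ∧
    ‖toV q - toV p‖ ≤ q.2.1 - p.2.1 := by
  have h1 := hp.cone
  have h2 := hp.flat
  have h3 := hp.lt
  have h0 : |toV q 0 - toV p 0| ≤ 1e-12 * (q.2.1 - p.2.1) := by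
    have e : toV q 0 - toV p 0 = (q.1 - p.1) + (q.2.2 - p.2.2) := by simp [toV]; ring
    rw [e]
    refine (abs_add_le _ _).trans ?_
    linarith
  have h1' : |toV q 1 - toV p 1| ≤ 1e-12 * (q.2.1 - p.2.1) := by
    have e : toV q 1 - toV p 1 = (mu - 5) * (q.2.2 - p.2.2) - mu * (q.1 - p.1) := by
      simp [toV]; ring
    have hm := mu_gt
    have hm' := mu_lt
    rw [e]
    refine (abs_sub _ _).trans ?_
    rw [abs_mul, abs_mul, abs_of_pos mu_pos, abs_of_pos (by linarith : 0 < mu - 5)]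
    have i1 := abs_nonneg (q.1 - p.1)
    have i2 := abs_nonneg (q.2.2 - p.2.2)
    nlinarith
  refine ⟨h0, h1', ?_⟩
  rw [pi_norm_le_iff_of_nonneg (by linarith)]
  intro i
  fin_cases i
  · refine le_trans h0 (by linarith)
  · refine le_trans h1' (by linarith)
  · show |q.2.1 - p.2.1| ≤ _
    rw [abs_of_pos (by linarith)]

end Sys

end Pool.Agent.H47

/-! ### Stage -/

namespace Pool.Agent.H47

open Real Set Filter Topology

/-- closeness of perturbations -/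
def Cl (ψ φ : PP) (ρ : ℝ) : Prop :=
  dist (ψ.1 (i0 1)) (φ.1 (i0 1)) ≤ ρ ∧
  dist (ψ.1 (i1 (r := 1) le_rfl)) (φ.1 (i1 (r := 1) le_rfl)) ≤ ρ

lemma jr1_cases (j : Jr 1) : j = i0 1 ∨ j = i1 (r := 1) le_rfl := by
  obtain ⟨j, hj⟩ := j
  have : j ≤ 1 := by exact_mod_cast hj
  rcases Nat.le_one_iff_eq_zero_or_eq_one.1 this with h | h
  · left; subst h; rfl
  · right; subst h; rfl

/-- adding a vertical perturbation -/
lemma exists_add (φ : PP) {g : V3 → ℝ} (hg : ContDiff ℝ 1 g)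
    (per : ∀ n v, g (v + zc n) = g v) {B : ℝ} (hB0 : 0 ≤ B) (hB : ∀ v, |g v| ≤ B)
    (hD : ∀ v, ‖fderiv ℝ g v‖ ≤ B) (h0 : ‖φ.1 (i0 1)‖ + B ≤ 1e-17)
    (h1 : ‖φ.1 (i1 (r := 1) le_rfl)‖ + B ≤ 1e-17) :
    ∃ ψ : PP, (∀ v, fn ψ.1 v = fn φ.1 v + vert (g v)) ∧ Cl ψ φ B ∧
      ‖ψ.1 (i0 1)‖ ≤ ‖φ.1 (i0 1)‖ + B ∧
      ‖ψ.1 (i1 (r := 1) le_rfl)‖ ≤ ‖φ.1 (i1 (r := 1) le_rfl)‖ + B := by
  have hv : ContDiff ℝ 1 (fun v => vert (g v)) := vertL.contDiff.comp hg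
  have hf : ContDiff ℝ 1 (fn φ.1) := contDiff_fn φ.2.1
  obtain ⟨ψ, hψX, hψj, hψfn⟩ := exists_ofFn (r := 1) (P := fn φ.1 + fun v => vert (g v))
    (hf.add hv) (fun n p => by simp only [Pi.add_apply]; rw [per_fn φ.2.1, per])
  have hz : ∀ x, ‖iteratedFDeriv ℝ 0 (fun v => vert (g v)) x‖ ≤ B := by
    intro x
    rw [norm_iteratedFDeriv_zero]
    exact (norm_vert _).trans (hB x)
  have ho : ∀ x, ‖iteratedFDeriv ℝ 1 (fun v => vert (g v)) x‖ ≤ B := by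
    intro x
    rw [norm_iteratedFDeriv_one]
    have h2 : HasFDerivAt (fun v => vert (g v)) (vertL.comp (fderiv ℝ g x)) x :=
      vertL.hasFDerivAt.comp x (hg.differentiable one_ne_zero x).hasFDerivAt
    rw [h2.fderiv]
    refine (ContinuousLinearMap.opNorm_comp_le _ _).trans ?_
    have := norm_vertL
    have := hD x
    have := norm_nonneg (fderiv ℝ g x)
    nlinarith [norm_nonneg vertL]
  have hd0 : dist (ψ (i0 1)) (φ.1 (i0 1)) ≤ B := by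
    rw [BoundedContinuousFunction.dist_le hB0]
    intro x
    rw [hψj, dist_eq_norm]
    have hs1 : ContDiff ℝ ((0:ℕ) : WithTop ℕ∞) (fn φ.1) := hf.of_le (by norm_num)
    have hs2 : ContDiff ℝ ((0:ℕ) : WithTop ℕ∞) (fun v => vert (g v)) := hv.of_le (by norm_num)
    simp only
    rw [iteratedFDeriv_add hs1 hs2]
    simp only [Pi.add_apply]
    rw [iter_fn φ.2.1 0 (by norm_num), add_sub_cancel_left]
    exact hz x
  have hd1 : dist (ψ (i1 (r := 1) le_rfl)) (φ.1 (i1 (r := 1) le_rfl)) ≤ B := by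
    rw [BoundedContinuousFunction.dist_le hB0]
    intro x
    rw [hψj, dist_eq_norm]
    have hs1 : ContDiff ℝ ((1:ℕ) : WithTop ℕ∞) (fn φ.1) := hf.of_le (by norm_num)
    have hs2 : ContDiff ℝ ((1:ℕ) : WithTop ℕ∞) (fun v => vert (g v)) := hv.of_le (by norm_num)
    simp only
    rw [iteratedFDeriv_add hs1 hs2]
    simp only [Pi.add_apply]
    rw [iter_fn φ.2.1 1 (by norm_num), add_sub_cancel_left]
    exact ho x
  have hn0 : ‖ψ (i0 1)‖ ≤ ‖φ.1 (i0 1)‖ + B := by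
    rw [BoundedContinuousFunction.norm_le (by
      have := norm_nonneg (E := BoundedContinuousFunction V3 (Wj 0)) (φ.1 (i0 1)); linarith)]
    intro x
    have h2 := BoundedContinuousFunction.dist_coe_le_dist (f := ψ (i0 1)) (g := φ.1 (i0 1)) x
    have h3 := BoundedContinuousFunction.norm_coe_le_norm (φ.1 (i0 1)) x
    rw [dist_eq_norm] at h2
    have h4 : ‖ψ (i0 1) x‖ ≤ ‖φ.1 (i0 1) x‖ + ‖ψ (i0 1) x - φ.1 (i0 1) x‖ := by
      have := norm_add_le (φ.1 (i0 1) x) (ψ (i0 1) x - φ.1 (i0 1) x)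
      simpa using this
    linarith
  have hn1 : ‖ψ (i1 (r := 1) le_rfl)‖ ≤ ‖φ.1 (i1 (r := 1) le_rfl)‖ + B := by
    rw [BoundedContinuousFunction.norm_le (by
      have := norm_nonneg (E := BoundedContinuousFunction V3 (Wj 1))
        (φ.1 (i1 (r := 1) le_rfl)); linarith)]
    intro x
    have h2 := BoundedContinuousFunction.dist_coe_le_dist (f := ψ (i1 (r := 1) le_rfl))
      (g := φ.1 (i1 (r := 1) le_rfl)) x
    have h3 := BoundedContinuousFunction.norm_coe_le_norm (φ.1 (i1 (r := 1) le_rfl)) x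
    rw [dist_eq_norm] at h2
    have h4 : ‖ψ (i1 (r := 1) le_rfl) x‖ ≤ ‖φ.1 (i1 (r := 1) le_rfl) x‖ +
        ‖ψ (i1 (r := 1) le_rfl) x - φ.1 (i1 (r := 1) le_rfl) x‖ := by
      have := norm_add_le (φ.1 (i1 (r := 1) le_rfl) x)
        (ψ (i1 (r := 1) le_rfl) x - φ.1 (i1 (r := 1) le_rfl) x)
      simpa using this
    linarith
  refine ⟨⟨ψ, hψX, hn0.trans h0, hn1.trans h1⟩, ?_, ⟨hd0, hd1⟩, hn0, hn1⟩
  intro v
  show fn ψ v = _
  rw [hψfn]; rfl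

lemma qP_bound {b : E3 → ℝ} {p q : E3} (hlt : p.2.1 < q.2.1) {η R : ℝ} (hη : 0 < η) (hR : 0 < R)
    (hpq : b p = 0 ∨ b q = 0) (hb : ∀ p, |b p| ≤ 0.44 * η * R)
    (hz : q.2.1 - p.2.1 < R → b p = 0 ∧ b q = 0) :
    |qP b p q| ≤ 0.45 * η * ff R (q.2.1 - p.2.1) := by
  have hl : 0 < q.2.1 - p.2.1 := by linarith
  unfold qP ff
  split_ifs with h
  · obtain ⟨h1, h2⟩ := hz h
    rw [h1, h2]; simp
  · have h1 : |b q - b p| ≤ 0.44 * η * R := by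
      rcases hpq with h2 | h2
      · rw [h2, sub_zero]; exact hb q
      · rw [h2, zero_sub, abs_neg]; exact hb p
    rw [abs_div, abs_of_pos hl, div_le_iff₀ hl]
    have e : 0.45 * η * (R / (q.2.1 - p.2.1)) * (q.2.1 - p.2.1) = 0.45 * η * R := by
      field_simp
    rw [e]
    have : 0 < η * R := by positivity
    linarith

section kinks

variable {S : Sys} {η R σ : ℝ} {s : Finset ℕ} {x : ℕ → E3}

lemma g_near (hη : 0 < η) (hR : 0 < R) {j : ℕ}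
    (hsep : ∀ m ∈ s, ∀ n, 4 * R ≤ ‖toV (x j) - toV (x m) - zc n‖) {p : E3}
    (hp : ‖toV p - toV (x j)‖ ≤ R) : kb η R σ s (fun m => toV (x m)) (toV p) = 0 := by
  apply kb_zero hR
  intro m hm n
  have h1 := hsep m hm n
  have e : toV (x j) - toV (x m) - zc n = (toV p - toV (x m) - zc n) - (toV p - toV (x j)) := by
    abel
  rw [e] at h1
  have h2 := norm_sub_le (toV p - toV (x m) - zc n) (toV p - toV (x j))
  linarith

lemma g_low (hR : 0 < R) (hR1 : R ≤ 1e-6)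
    (hc : ∀ m ∈ s, |(x m).2.1 - 0.005| ≤ 2.4e-4) {p : E3} (h1 : -0.1 ≤ p.2.1)
    (h2 : p.2.1 ≤ 0.001) : kb η R σ s (fun m => toV (x m)) (toV p) = 0 := by
  apply kb_zero hR
  intro m hm n
  have h3 := abs_le.1 (hc m hm)
  have h4 := norm_le_pi_norm (toV p - toV (x m) - zc n) 2
  refine le_trans ?_ h4
  have e : (toV p - toV (x m) - zc n) 2 = p.2.1 - (x m).2.1 - n 2 := by
    simp [toV, zc]
  rw [e, Real.norm_eq_abs]
  rcases lt_trichotomy (n 2) 0 with h | h | h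
  · have h6 : ((n 2 : ℤ) : ℝ) ≤ -1 := by exact_mod_cast Int.le_sub_one_of_lt h
    have := le_abs_self (p.2.1 - (x m).2.1 - n 2)
    linarith
  · rw [h]
    have := neg_abs_le (p.2.1 - (x m).2.1 - ((0:ℤ):ℝ))
    push_cast at this ⊢
    linarith
  · have h6 : (1:ℝ) ≤ n 2 := by exact_mod_cast h
    have := neg_abs_le (p.2.1 - (x m).2.1 - n 2)
    linarith

/-- contribution of an exact kink -/
lemma kappa_val (hη : 0 < η) (hR : 0 < R) (hR1 : R ≤ 1e-6) (hσ : 0 < σ)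
    (hs : Sep R s (fun m => toV (x m))) {j : ℕ} (hj : j ∈ s) {y z : E3}
    (c1 : S.CP y (x j)) (c2 : S.CP (x j) z)
    (hl : (x j).2.1 - y.2.1 ≤ R/6) (hr : z.2.1 - (x j).2.1 ≤ R/6)
    (hσl : σ ≤ 0.01 * ((x j).2.1 - y.2.1)) (hσr : σ ≤ 0.01 * (z.2.1 - (x j).2.1)) :
    1.97 * η ≤ qP (fun p => kb η R σ s (fun m => toV (x m)) (toV p)) y (x j) -
      qP (fun p => kb η R σ s (fun m => toV (x m)) (toV p)) (x j) z ∧
    qP (fun p => kb η R σ s (fun m => toV (x m)) (toV p)) y (x j) -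
      qP (fun p => kb η R σ s (fun m => toV (x m)) (toV p)) (x j) z ≤ 2 * η := by
  have hl0 : 0 < (x j).2.1 - y.2.1 := by linarith [c1.lt]
  have hr0 : 0 < z.2.1 - (x j).2.1 := by linarith [c2.lt]
  have t1 := c1.toV_bd
  have t2 := c2.toV_bd
  have hx0 : kb η R σ s (fun m => toV (x m)) (toV (x j)) = 0 :=
    kb_self (c := fun m => toV (x m)) hR hσ hs hj
  have hy1 : kb η R σ s (fun m => toV (x m)) (toV y) = kk η R σ (toV (x j)) (toV y) := by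
    apply kb_near (c := fun m => toV (x m)) hR hs hj
    rw [norm_sub_rev]
    exact t1.2.2.trans (by linarith)
  have hz1 : kb η R σ s (fun m => toV (x m)) (toV z) = kk η R σ (toV (x j)) (toV z) := by
    apply kb_near (c := fun m => toV (x m)) hR hs hj
    exact t2.2.2.trans (by linarith)
  have vy := kk_val (c := toV (x j)) (v := toV y) (τ := (x j).2.1 - y.2.1) hη hR hR1 hσ hl0 hl hσl
    (by rw [abs_sub_comm]; exact t1.1) (by rw [abs_sub_comm]; exact t1.2.1)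
    (by
      show |y.2.1 - (x j).2.1| = _
      rw [abs_sub_comm, abs_of_pos hl0])
  have vz := kk_val (c := toV (x j)) (v := toV z) (τ := z.2.1 - (x j).2.1) hη hR hR1 hσ hr0 hr hσr
    t2.1 t2.2.1 (by
      show |z.2.1 - (x j).2.1| = _
      rw [abs_of_pos hr0])
  unfold qP
  simp only
  rw [hx0, hy1, hz1]
  have e1 : 0.985 * η ≤ (0 - kk η R σ (toV (x j)) (toV y)) / ((x j).2.1 - y.2.1) := by
    rw [le_div_iff₀ hl0]; linarith [vy.2]
  have e2 : (0 - kk η R σ (toV (x j)) (toV y)) / ((x j).2.1 - y.2.1) ≤ η := by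
    rw [div_le_iff₀ hl0]; linarith [vy.1]
  have e3 : (kk η R σ (toV (x j)) (toV z) - 0) / (z.2.1 - (x j).2.1) ≤ -(0.985 * η) := by
    rw [div_le_iff₀ hr0]; linarith [vz.2]
  have e4 : -η ≤ (kk η R σ (toV (x j)) (toV z) - 0) / (z.2.1 - (x j).2.1) := by
    rw [le_div_iff₀ hr0]; linarith [vz.1]
  constructor <;> linarith

end kinks

end Pool.Agent.H47

/-! ### Stage2 -/

namespace Pool.Agent.H47

open Real Set Filter Topology

lemma GG_eq (t : ℝ) (m : ℕ) (φ : PP) (i : ℝ) :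
    GG t m φ i = ((SS φ).F^[m] ((SS φ).pt 0 t ((SS φ).h (0, 0, i)))).2.1 := rfl

lemma X_lab (φ : PP) (i : ℝ) : (SS φ).X ((SS φ).h (0, 0, i)) = (0, 0, i) := by
  unfold Sys.X Sys.pt
  rw [(SS φ).U_h]

/-- second part of the construction: the perturbed system -/
theorem stage_two {φ ψ : PP} {i₁ : ℝ} {M₁ n₀ N a m₂ t : ℕ} {η σ e0 ε θ₀ C₀ : ℝ}
    {x : ℕ → E3} (hx : ∀ j, x (j+1) = (SS φ).F (x j)) (hx0 : x 0 = (0, 0, i₁))
    (hM : M₁ ≤ n₀) (ha : a = n₀ + 300000 * (N + M₁ + 2810)) (hm : m₂ = a + N + M₁)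
    (hT0 : ∀ j, |(x j).2.1| ≤ 0.01)
    (x1 : ∀ j, M₁ ≤ j → j ≤ m₂ → |(x j).2.1 - 0.005| ≤ 2.4e-4)
    (x2 : ∀ j ≥ m₂, |(x j).2.1| ≤ 0.0056)
    (x3 : ∀ j ≥ m₂ + 2800, |(x j).2.1 + 0.005| ≤ 1.05e-4)
    (ht : m₂ < t) (ht' : t ≤ m₂ + 2800)
    (hrec : ∀ j, M₁ ≤ j → j < t → (x t).2.1 + 4e-6 ≤ (x j).2.1)
    (hlow : ∀ j ≥ t, (x j).2.1 ≤ 0)
    (hψ : ∀ v, fn ψ.1 v = fn φ.1 v +
      vert (kb η (Sys.RR2 N M₁) σ (Finset.Ico a (a+N)) (fun m => toV (x m)) v))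
    (hη : 0 < η) (hσ : 0 < σ) (hσ' : σ ≤ 0.01 * (min e0 1e-12 * 0.998^(a+N)))
    (he0 : 0 < e0) (he0' : e0 * 1.0019^M₁ ≤ 5e-4)
    (hr0 : ∀ j ≤ M₁, GG 1e-12 j ψ i₁ - GG 0 j ψ i₁ ≤ 1e-3)
    (hr1 : GG 1e-12 M₁ ψ i₁ - GG 0 M₁ ψ i₁ ≤ 1e-4)
    (hθ0 : 0 ≤ θ₀) (hC0 : 0 ≤ C₀) (hθη : 3 * (11.5 * θ₀) ≤ 1e-9 * η)
    (hmod : ∀ p q, ‖fderiv ℝ (fn φ.1) p - fderiv ℝ (fn φ.1) q‖ ≤ θ₀ + C₀ * ‖p - q‖)
    (hε : 0 < ε) (hε' : ε ≤ 1e-2)
    (hB : log 1e-12 - log e0 + η * (M₁ + 1.2e5) + 1.01 * (1e-9 * η *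
      (8 * n₀ + 2.5e6 * (M₁ + 2811) + 200 * M₁ + 6e4 * (-log e0)) +
      1.01 * (3 * (60 * C₀)) * (2e-3 * M₁ + 1e4)) + 1e-4 - log ε ≤ 1.95 * η * N) :
    (∀ j, GG 0 j ψ i₁ = (x j).2.1) ∧
    ∃ m, m₂ + 2800 < m ∧ GG (-e0) m ψ i₁ < -0.0801 ∧ -(0.09) ≤ GG (-e0) m ψ i₁ ∧
      (∀ j, M₁ ≤ j → j ≤ m → GG 1e-12 j ψ i₁ - GG 0 j ψ i₁ ≤
        max (GG 1e-12 M₁ ψ i₁ - GG 0 M₁ ψ i₁) ε) ∧
      GG 1e-12 m ψ i₁ - GG 0 m ψ i₁ ≤ ε := by
  obtain ⟨R, hRdef⟩ : ∃ R, R = Sys.RR2 N M₁ := ⟨_, rfl⟩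
  have hR : 0 < R := by rw [hRdef]; exact Sys.RR2_pos N M₁
  have hR1 : R ≤ 1e-6 := by rw [hRdef]; exact Sys.RR2_le N M₁
  have haM : M₁ ≤ a := by omega
  have hL : (SS φ).Lat Gam := mkSys_lat _ _
  obtain ⟨s, hs⟩ : ∃ s, s = Finset.Ico a (a+N) := ⟨_, rfl⟩
  rw [← hs, ← hRdef] at hψ
  have hmem : ∀ m, m ∈ s ↔ a ≤ m ∧ m < a + N := by intro m; rw [hs, Finset.mem_Ico]
  -- separation
  have hsep : ∀ j ≤ t, ∀ m ∈ s, j ≠ m → ∀ n, 4 * R ≤ ‖toV (x j) - toV (x m) - zc n‖ := by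
    intro j hj m hms hne n
    rw [hRdef]
    have h := (hmem m).1 hms
    exact Sys.sep_orbit hL hx hT0 haM hm ht ht' hrec hj h.1 h.2 hne n
  have hSep : Sep R s (fun m => toV (x m)) := by
    intro m hms m' hms' hne n
    have h := (hmem m).1 hms
    exact hsep m (by omega) m' hms' hne n
  have hcs : ∀ m ∈ s, |(x m).2.1 - 0.005| ≤ 2.4e-4 := by
    intro m hms
    have h := (hmem m).1 hms
    exact x1 m (by omega) (by omega)
  obtain ⟨g, hg⟩ : ∃ g, g = kb η R σ s (fun m => toV (x m)) := ⟨_, rfl⟩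
  rw [← hg] at hψ
  have hgb : ∀ v, |g v| ≤ 0.44 * η * R := by intro v; rw [hg]; exact kb_abs hη hR hσ hSep v
  have hgnear : ∀ j ≤ t, j ∉ s → ∀ p : E3, ‖toV p - toV (x j)‖ ≤ R → g (toV p) = 0 := by
    intro j hj hjs p hp
    rw [hg]
    exact g_near hη hR (fun m hms n => hsep j hj m hms (fun h => hjs (h ▸ hms)) n) hp
  have hglow : ∀ p : E3, -0.1 ≤ p.2.1 → p.2.1 ≤ 0.001 → g (toV p) = 0 := by
    intro p h1 h2
    rw [hg]
    exact g_low hR hR1 hcs h1 h2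
  have hgx : ∀ j, g (toV (x j)) = 0 := by
    intro j
    by_cases hjs : j ∈ s
    · rw [hg]; exact kb_self (c := fun m => toV (x m)) hR hσ hSep hjs
    · rcases le_or_gt j t with h | h
      · exact hgnear j h hjs (x j) (by simp; exact hR.le)
      · have h1 := abs_le.1 (hT0 j)
        exact hglow (x j) (by linarith) (by have := hlow j h.le; linarith)
  -- the perturbed system
  obtain ⟨H, hH⟩ : ∃ H, H = (SS ψ).h (0, 0, i₁) := ⟨_, rfl⟩
  have hxx : ∀ j, (SS ψ).Xm j H = x j := by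
    intro j
    induction j with
    | zero =>
      show (SS ψ).X H = x 0
      rw [hH, X_lab, hx0]
    | succ j ih =>
      rw [Sys.Xm_succ, ih, hx]
      exact F_vert_zero (qq φ) (qq ψ) hψ (hgx j)
  have hG0 : ∀ j, GG 0 j ψ i₁ = (x j).2.1 := by
    intro j
    rw [← hxx j, hH]; rfl
  refine ⟨hG0, ?_⟩
  obtain ⟨y, hy⟩ : ∃ y : ℕ → E3, y = fun j => (SS ψ).F^[j] ((SS ψ).pt 0 (-e0) H) := ⟨_, rfl⟩
  obtain ⟨z, hz⟩ : ∃ z : ℕ → E3, z = fun j => (SS ψ).Zm j H := ⟨_, rfl⟩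
  have hyj : ∀ j, (y j).2.1 = GG (-e0) j ψ i₁ := by intro j; rw [hy, hH]; rfl
  have hzj : ∀ j, (z j).2.1 = GG 1e-12 j ψ i₁ := by intro j; rw [hz, hH]; rfl
  have hTr : (SS ψ).Triple y x z := by
    refine ⟨?_, ?_, ?_, ?_, ?_, ?_⟩
    · intro j; rw [hy]; simp only; rw [Function.iterate_succ_apply']
    · intro j; rw [hx]; exact (F_vert_zero (qq φ) (qq ψ) hψ (hgx j)).symm
    · intro j; rw [hz]; exact Sys.Zm_succ _ _ _
    · intro j
      rw [← hxx j, hy]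
      refine Sys.CP.iter (p := (SS ψ).pt 0 (-e0) H) (q := (SS ψ).X H) ⟨?_, ?_, ?_⟩ j
      · unfold Sys.X; rw [Sys.h_pt, Sys.h_pt]
      · unfold Sys.X; simp only [Sys.pt_snd]; linarith
      · unfold Sys.X; simp only [Sys.pt_snd, Sys.pt_fst, sub_self, abs_zero]; linarith
    · intro j
      rw [← hxx j, hz]
      exact Sys.CP_XZm _ j H
    · rw [← hxx 0, hy, hz]
      simp [sg, Sys.Xm, Sys.Zm, Sys.X, Sys.Z]
  have hr : ∀ j, ll x z j = GG 1e-12 j ψ i₁ - GG 0 j ψ i₁ := by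
    intro j
    unfold ll
    rw [hzj, hG0]
  have hl0 : ll y x 0 = e0 := by
    unfold ll
    rw [hx0, hy]
    simp
  have hr00 : ll x z 0 = 1e-12 := by
    unfold ll
    rw [hx0, hz]
    simp [Sys.Zm, Sys.Z]
  have hgl : ∀ j, 0.998 ≤ (SS ψ).gg (y j) (x j) ∧ (SS ψ).gg (y j) (x j) ≤ 1.0019 := by
    intro j
    have := abs_le.1 (hTr.c1 j).gg_bd
    constructor <;> linarith [this.1, this.2]
  have hgr : ∀ j, 0.998 ≤ (SS ψ).gg (x j) (z j) := by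
    intro j
    have := abs_le.1 (hTr.c2 j).gg_bd
    linarith [this.1]
  have hlup : ∀ j, ll y x j ≤ e0 * 1.0019^j := by
    intro j
    induction j with
    | zero => rw [hl0]; simp
    | succ j ih =>
      rw [hTr.l_succ, pow_succ]
      have h1 := mul_le_mul_of_nonneg_right (hgl j).2 (hTr.l_pos j).le
      linarith
  have hllow : ∀ j, e0 * 0.998^j ≤ ll y x j := by
    intro j
    induction j with
    | zero => rw [hl0]; simp
    | succ j ih =>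
      rw [hTr.l_succ, pow_succ]
      have h1 := mul_le_mul_of_nonneg_right (hgl j).1 (hTr.l_pos j).le
      linarith
  have hrlow : ∀ j, 1e-12 * 0.998^j ≤ ll x z j := by
    intro j
    induction j with
    | zero => rw [hr00]; simp
    | succ j ih =>
      rw [hTr.r_succ, pow_succ]
      have h1 := mul_le_mul_of_nonneg_right (hgr j) (hTr.r_pos j).le
      linarith
  have hplan : (SS ψ).Plan y x z M₁ n₀ N a m₂ := by
    refine ⟨hTr, hM, ha, hm, fun j _ => hT0 j, x1, x2, x3, ?_, ?_, ?_⟩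
    · intro j hj
      refine (hlup j).trans (le_trans ?_ he0')
      apply mul_le_mul_of_nonneg_left _ he0.le
      exact pow_le_pow_right₀ (by norm_num) hj
    · intro j hj; rw [hr]; exact hr0 j hj
    · rw [hr]; exact hr1
  -- moduli
  have hdf : ∀ p, HasFDerivAt (fn φ.1) (fderiv ℝ (fn φ.1) p) p := fun p =>
    ((contDiff_fn φ.2.1).differentiable (by norm_num) p).hasFDerivAt
  have hmods := mod_sys (qq φ) hdf (fun p => (norm_fderiv_fn_le φ.2.1 p).trans φ.2.2.2) hθ0 hC0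
    hmod
  obtain ⟨b, hb⟩ : ∃ b : E3 → ℝ, b = fun p => g (toV p) := ⟨_, rfl⟩
  have hbp : ∀ p, b p = g (toV p) := fun p => by rw [hb]
  have hbb : ∀ p, |b p| ≤ 0.44 * η * R := fun p => by rw [hbp]; exact hgb _
  have hkap : ∀ p q, qP b p q = qP (fun p => kb η R σ s (fun m => toV (x m)) (toV p)) p q := by
    intro p q; rw [hb, hg]
  have hσl : ∀ w : ℝ, min e0 1e-12 ≤ w → ∀ j < a + N, σ ≤ 0.01 * (w * 0.998^j) := by
    intro w hw j hj
    refine hσ'.trans ?_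
    have h1 : (0.998:ℝ)^(a+N) ≤ 0.998^j := pow_le_pow_of_le_one (by norm_num) (by norm_num) hj.le
    have h2 : 0 < min e0 1e-12 := lt_min he0 (by norm_num)
    have h3 : min e0 1e-12 * 0.998^(a+N) ≤ w * 0.998^j :=
      mul_le_mul hw h1 (by positivity) (h2.le.trans hw)
    linarith
  have hesc := Sys.escape hplan (P₀ := (SS φ).Pt) (b := b) (θ := 3 * (11.5 * θ₀))
    (C := 3 * (60 * C₀)) (η := η) (ε := ε)
    (by positivity) (by positivity) hη hθη hε hε'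
    (fun p => by rw [hbp]; exact Pt_vert (qq φ) (qq ψ) hψ p)
    (by
      have : (SS ψ).Ps = (SS φ).Ps := Ps_vert (qq φ) (qq ψ) hψ
      rw [this]; exact hmods.1)
    hmods.2.1
    (by
      have : (SS ψ).Pu = (SS φ).Pu := Pu_vert (qq φ) (qq ψ) hψ
      rw [this]; exact hmods.2.2)
    (by
      intro j hj
      rw [← hRdef]
      have hjs : j ∉ s := by rw [hmem]; omega
      have hjt : j ≤ t := by omega
      have q1 : |qP b (y j) (x j)| ≤ 0.45 * η * ff R (ll y x j) := by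
        apply qP_bound (hTr.c1 j).lt hη hR (Or.inr (by rw [hbp]; exact hgx j)) hbb
        intro h
        refine ⟨?_, by rw [hbp]; exact hgx j⟩
        rw [hbp]
        apply hgnear j hjt hjs
        rw [norm_sub_rev]
        exact (hTr.c1 j).toV_bd.2.2.trans h.le
      have q2 : |qP b (x j) (z j)| ≤ 0.45 * η * ff R (ll x z j) := by
        apply qP_bound (hTr.c2 j).lt hη hR (Or.inl (by rw [hbp]; exact hgx j)) hbb
        intro h
        refine ⟨by rw [hbp]; exact hgx j, ?_⟩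
        rw [hbp]
        apply hgnear j hjt hjs
        exact (hTr.c2 j).toV_bd.2.2.trans h.le
      refine (abs_sub _ _).trans ?_
      linarith)
    (by
      intro j hj1 hj2
      rw [hkap, hkap]
      have hjs : j ∈ s := by rw [hmem]; exact ⟨hj1, hj2⟩
      have hsm := hplan.small_b j hj1 (by omega)
      rw [← hRdef] at hsm
      apply kappa_val (S := SS ψ) hη hR hR1 hσ hSep hjs (hTr.c1 j) (hTr.c2 j) hsm.1 hsm.2
      · refine (hσl e0 (min_le_left _ _) j hj2).trans ?_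
        have := hllow j
        unfold ll at this
        linarith
      · refine (hσl 1e-12 (min_le_right _ _) j hj2).trans ?_
        have := hrlow j
        unfold ll at this
        linarith)
    (by
      intro j hj1 hj2 hj3
      have key : b (y j) = 0 ∧ b (x j) = 0 ∧ b (z j) = 0 := by
        refine ⟨?_, by rw [hbp]; exact hgx j, ?_⟩
        · rw [hbp]
          rcases le_or_gt j t with h | h
          · have hjs : j ∉ s := by rw [hmem]; omega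
            apply hgnear j h hjs
            rw [norm_sub_rev]
            refine (hTr.c1 j).toV_bd.2.2.trans ?_
            have hsm := (hplan.small_b j (by omega) (by omega)).1
            rw [← hRdef] at hsm
            unfold ll at hsm
            linarith
          · apply hglow
            · rcases hj3 with h3 | h3
              · have := hplan.y_high h3.le
                linarith
              · linarith
            · have h1 := hlow j h.le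
              have h2 := (hTr.c1 j).lt
              linarith
        · rw [hbp]
          rcases le_or_gt j t with h | h
          · have hjs : j ∉ s := by rw [hmem]; omega
            apply hgnear j h hjs
            refine (hTr.c2 j).toV_bd.2.2.trans ?_
            have hsm := (hplan.small_b j (by omega) (by omega)).2
            rw [← hRdef] at hsm
            unfold ll at hsm
            linarith
          · apply hglow
            · have h1 := abs_le.1 (hT0 j)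
              have h2 := (hTr.c2 j).lt
              linarith
            · have h1 := hlow j h.le
              unfold ll at hj2
              linarith
      unfold qP
      rw [key.1, key.2.1, key.2.2]
      simp)
    (by rw [hl0, hr00]; exact hB)
  obtain ⟨m, hm1, hm2, hm3, hm4, hm5⟩ := hesc
  refine ⟨m, hm1, by rw [← hyj]; exact hm2, by rw [← hyj]; exact hm3, ?_, ?_⟩
  · intro j hj1 hj2
    have := hm4 j hj1 hj2
    rw [hr, hr] at this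
    exact this
  · rw [← hr]; exact hm5

end Pool.Agent.H47

/-! ### Stage3 -/

namespace Pool.Agent.H47

open Real Set Filter Topology

lemma GG_lab (t : ℝ) (m : ℕ) (φ : PP) (H : ℝ) :
    GG t m φ ((SS φ).U 0 0 H) = ((SS φ).F^[m] ((SS φ).pt 0 t H)).2.1 := by
  unfold GG
  rw [(SS φ).h_U]

lemma Cl_self (φ : PP) {ρ : ℝ} (hρ : 0 ≤ ρ) : Cl φ φ ρ := by
  constructor
  · rw [dist_self (φ.1 (i0 1))]; exact hρ
  · rw [dist_self (φ.1 (i1 (r := 1) le_rfl))]; exact hρ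

lemma Cl.mono {ψ φ : PP} {ρ ρ' : ℝ} (h : Cl ψ φ ρ) (hρ : ρ ≤ ρ') : Cl ψ φ ρ' :=
  ⟨h.1.trans hρ, h.2.trans hρ⟩

/-- the perturbation making the left point escape -/
theorem stage_core {φ : PP} {i : ℝ} {M₁ n₀ : ℕ} (hM : M₁ ≤ n₀) {ρ ε e0 : ℝ} (hρ : 0 < ρ)
    (hε : 0 < ε) (hε' : ε ≤ 1e-2) (he0 : 0 < e0) (he0' : e0 * 1.0019^M₁ ≤ 5e-4)
    (hs0 : ‖φ.1 (i0 1)‖ < 1e-17) (hs1 : ‖φ.1 (i1 (r := 1) le_rfl)‖ < 1e-17)
    (hn₀ : 2.01 * (1/26.8)^n₀ ≤ ρ)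
    (hT : ∀ j, M₁ ≤ j → j ≤ n₀ → |GG 0 j φ i - 0.005| ≤ 2.1e-4)
    (hcont : ∀ (ψ : PP) (i' : ℝ), Cl ψ φ ρ → |i' - i| ≤ ρ →
      (∀ j ≤ M₁, |GG 0 j ψ i'| ≤ 0.01 ∧ GG 1e-12 j ψ i' - GG 0 j ψ i' ≤ 1e-3) ∧
      GG 1e-12 M₁ ψ i' - GG 0 M₁ ψ i' ≤ 1e-4) :
    ∃ (ψ : PP) (i' : ℝ) (m : ℕ), Cl ψ φ ρ ∧ |i' - i| ≤ ρ ∧ ‖ψ.1 (i0 1)‖ < 1e-17 ∧
      ‖ψ.1 (i1 (r := 1) le_rfl)‖ < 1e-17 ∧ n₀ ≤ m ∧
      (∀ j ≥ M₁, |GG 0 j ψ i'| ≤ 0.0056) ∧ (∀ j ≥ m, |GG 0 j ψ i'| ≤ 0.0055) ∧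
      (∀ j, M₁ ≤ j → j ≤ m → GG 1e-12 j ψ i' - GG 0 j ψ i' ≤
        max (GG 1e-12 M₁ ψ i' - GG 0 M₁ ψ i') ε) ∧
      GG 1e-12 m ψ i' - GG 0 m ψ i' ≤ ε ∧ -(0.09) ≤ GG (-e0) m ψ i' ∧
      GG (-e0) m ψ i' < -0.0801 := by
  obtain ⟨Cχ, hCχ0, hCχ⟩ := exists_chi_bound
  obtain ⟨B₀, hB₀⟩ : ∃ B₀, B₀ = 12 * Cχ + 1 := ⟨_, rfl⟩
  have hB₀0 : 0 < B₀ := by rw [hB₀]; positivity
  obtain ⟨sl, hsl⟩ : ∃ sl, sl = min (1e-17 - ‖φ.1 (i0 1)‖)
    (1e-17 - ‖φ.1 (i1 (r := 1) le_rfl)‖) := ⟨_, rfl⟩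
  have hsl0 : 0 < sl := by rw [hsl]; exact lt_min (by linarith) (by linarith)
  have hsl1 : sl ≤ 1e-17 - ‖φ.1 (i0 1)‖ := by rw [hsl]; exact min_le_left _ _
  have hsl2 : sl ≤ 1e-17 - ‖φ.1 (i1 (r := 1) le_rfl)‖ := by rw [hsl]; exact min_le_right _ _
  obtain ⟨η, hηdef⟩ : ∃ η, η = min ρ (sl/2) / B₀ := ⟨_, rfl⟩
  have hη : 0 < η := by rw [hηdef]; exact div_pos (lt_min hρ (by linarith)) hB₀0
  have hηB : η * B₀ = min ρ (sl/2) := by rw [hηdef]; field_simp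
  have hηB1 : η * B₀ ≤ ρ := by rw [hηB]; exact min_le_left _ _
  have hηB2 : η * B₀ ≤ sl/2 := by rw [hηB]; exact min_le_right _ _
  -- modulus
  obtain ⟨θ₀, hθdef⟩ : ∃ θ₀, θ₀ = 2e-11 * η := ⟨_, rfl⟩
  have hθ0 : 0 < θ₀ := by rw [hθdef]; positivity
  have hθη : 3 * (11.5 * θ₀) ≤ 1e-9 * η := by rw [hθdef]; linarith
  obtain ⟨C₀, hC0, hmod⟩ := exists_modulus (contDiff_fn φ.2.1) (fun n p => per_fn φ.2.1 n p) hθ0
  -- number of kinks
  obtain ⟨N, hN⟩ := exists_nat_gt ((log 1e-12 - log e0 + η * (M₁ + 1.2e5) + 1.01 * (1e-9 * η *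
      (8 * n₀ + 2.5e6 * (M₁ + 2811) + 200 * M₁ + 6e4 * (-log e0)) +
      1.01 * (3 * (60 * C₀)) * (2e-3 * M₁ + 1e4)) + 1e-4 - log ε) / (1.95 * η))
  rw [div_lt_iff₀ (by positivity)] at hN
  obtain ⟨a, ha⟩ : ∃ a, a = n₀ + 300000 * (N + M₁ + 2810) := ⟨_, rfl⟩
  obtain ⟨m₂, hm₂⟩ : ∃ m₂, m₂ = a + N + M₁ := ⟨_, rfl⟩
  -- first orbit
  have hTT : ∀ j, (SS φ).TT j ((SS φ).h (0, 0, i)) = GG 0 j φ i := fun j => rfl
  obtain ⟨H₁, h1, h2, x1, x2, x3, t, ht, ht', hrec, hlow⟩ := Sys.timeline (SS φ) hM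
    (show n₀ ≤ m₂ by omega) (Hc := (SS φ).h (0, 0, i)) (fun j hj1 hj2 => by
      rw [hTT]; exact hT j hj1 hj2)
  obtain ⟨i₁, hi₁⟩ : ∃ i₁, i₁ = (SS φ).U 0 0 H₁ := ⟨_, rfl⟩
  have hii : |i₁ - i| ≤ ρ := by
    have h3 := Sys.u_prefix (SS φ) 0 0 (n := n₀) h1 h2
    have h4 : ((SS φ).pt 0 0 ((SS φ).h (0, 0, i))).2.2 = i := (SS φ).U_h 0 0 i
    rw [h4] at h3
    rw [hi₁]
    exact h3.trans hn₀
  obtain ⟨x, hxdef⟩ : ∃ x : ℕ → E3, x = fun j => (SS φ).Xm j H₁ := ⟨_, rfl⟩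
  have hx : ∀ j, x (j+1) = (SS φ).F (x j) := by
    intro j; rw [hxdef]; exact Sys.Xm_succ _ _ _
  have hx0 : x 0 = (0, 0, i₁) := by rw [hxdef, hi₁]; rfl
  have hxT : ∀ j, (x j).2.1 = (SS φ).TT j H₁ := by intro j; rw [hxdef]; rfl
  have hxG : ∀ j, (x j).2.1 = GG 0 j φ i₁ := by
    intro j; rw [hi₁, GG_lab, hxdef]; rfl
  have hc0 := hcont φ i₁ (Cl_self φ hρ.le) hii
  have hT0 : ∀ j, |(x j).2.1| ≤ 0.01 := by
    intro j
    rcases le_or_gt j M₁ with h | h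
    · rw [hxG]; exact (hc0.1 j h).1
    · rcases le_or_gt j m₂ with h' | h'
      · have := abs_le.1 (x1 j h.le h')
        rw [hxT, abs_le]; constructor <;> linarith
      · rw [hxT]; exact (x2 j h'.le).trans (by norm_num)
  -- kinks
  obtain ⟨σ, hσdef⟩ : ∃ σ, σ = 0.01 * (min e0 1e-12 * (0.998:ℝ)^(a+N)) := ⟨_, rfl⟩
  have hσ : 0 < σ := by
    rw [hσdef]
    have : 0 < min e0 1e-12 := lt_min he0 (by norm_num)
    positivity
  have haM : M₁ ≤ a := by omega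
  have hR : 0 < Sys.RR2 N M₁ := Sys.RR2_pos N M₁
  have hR1 : Sys.RR2 N M₁ ≤ 1e-6 := Sys.RR2_le N M₁
  have hrec' : ∀ j, M₁ ≤ j → j < t → (x t).2.1 + 4e-6 ≤ (x j).2.1 := by
    intro j h3 h4
    rw [hxT, hxT]; exact hrec j h3 h4
  have hSep : Sep (Sys.RR2 N M₁) (Finset.Ico a (a+N)) (fun m => toV (x m)) := by
    intro m hms m' hms' hne n
    rw [Finset.mem_Ico] at hms hms'
    exact Sys.sep_orbit (mkSys_lat _ _) hx hT0 haM hm₂ ht ht' hrec' (by omega) hms'.1 hms'.2 hne n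
  obtain ⟨ψ, hψ, hψcl, hψ0, hψ1⟩ := exists_add φ
    (g := kb η (Sys.RR2 N M₁) σ (Finset.Ico a (a+N)) (fun m => toV (x m)))
    (contDiff_kb hσ) (fun n v => kb_per v n) (B := η * B₀) (by positivity)
    (fun v => (kb_abs hη hR hσ hSep v).trans (by
      have h5 : η * Sys.RR2 N M₁ ≤ η * 1e-6 := mul_le_mul_of_nonneg_left hR1 hη.le
      have h6 : η * 1 ≤ η * B₀ := mul_le_mul_of_nonneg_left (by rw [hB₀]; linarith) hη.le
      linarith))
    (fun v => by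
      obtain ⟨D, hD1, hD2⟩ := kb_deriv hCχ hη hR hσ hSep v
      rw [hD1.fderiv, hB₀]; exact hD2)
    (by linarith) (by linarith)
  have hcl : Cl ψ φ ρ := hψcl.mono hηB1
  have hc1 := hcont ψ i₁ hcl hii
  obtain ⟨hG0, m, hm1, hm2, hm3, hm4, hm5⟩ := stage_two hx hx0 hM ha hm₂ hT0
    (fun j h3 h4 => by rw [hxT]; exact x1 j h3 h4) (fun j h3 => by rw [hxT]; exact x2 j h3)
    (fun j h3 => by rw [hxT]; exact x3 j h3) ht ht' hrec'
    (fun j h3 => by rw [hxT]; exact hlow j h3) hψ hη hσ hσdef.le he0 he0'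
    (fun j h3 => (hc1.1 j h3).2) hc1.2 hθ0.le hC0 hθη hmod hε hε' (by linarith)
  refine ⟨ψ, i₁, m, hcl, hii, by linarith, by linarith, by omega, ?_, ?_, hm4, hm5, hm3, hm2⟩
  · intro j hj
    rw [hG0, hxT]
    rcases le_or_gt j m₂ with h' | h'
    · have := abs_le.1 (x1 j hj h')
      rw [abs_le]; constructor <;> linarith
    · exact x2 j h'.le
  · intro j hj
    rw [hG0, hxT]
    have := abs_le.1 (x3 j (by omega))
    rw [abs_le]; constructor <;> linarith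

/-- the final phase in terms of `GG` -/
theorem stage_fin (ψ : PP) (i : ℝ) (n : ℕ) (hT : |GG 0 n ψ i| ≤ 0.0055) :
    ∃ i', |i' - i| ≤ 2.01 * (1/26.8)^n ∧
      (∀ t, ∀ j ≤ n, |GG t j ψ i' - GG t j ψ i| ≤ 2.01e-5 * (1/26.8)^(n-j)) ∧
      (∀ j ≥ n, |GG 0 j ψ i'| ≤ 0.0056) ∧ (∀ j ≥ n + 2800, |GG 0 j ψ i' - 0.005| ≤ 1.05e-4) ∧
      (|GG 0 n ψ i - 0.005| ≤ 2.1e-4 → ∀ j ≥ n, |GG 0 j ψ i' - 0.005| ≤ 2.4e-4) ∧
      (GG 1e-12 n ψ i' - GG 0 n ψ i' ≤ 5e-4 →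
        (∀ j ≥ n, GG 1e-12 j ψ i' - GG 0 j ψ i' ≤ 1.6 * (GG 1e-12 n ψ i' - GG 0 n ψ i')) ∧
        Tendsto (fun j => GG 1e-12 j ψ i' - GG 0 j ψ i') atTop (𝓝 0)) := by
  have hTT : ∀ j, (SS ψ).TT j ((SS ψ).h (0, 0, i)) = GG 0 j ψ i := fun j => rfl
  obtain ⟨H, h1, h2, h3, h4, h5, h6⟩ := Sys.finish (SS ψ) n ((SS ψ).h (0, 0, i))
    (by rw [hTT]; exact hT)
  have hG : ∀ t j, GG t j ψ ((SS ψ).U 0 0 H) = ((SS ψ).F^[j] ((SS ψ).pt 0 t H)).2.1 :=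
    fun t j => GG_lab t j ψ H
  have hT' : ∀ j, GG 0 j ψ ((SS ψ).U 0 0 H) = (SS ψ).TT j H := fun j => hG 0 j
  have hX' : ∀ j, GG 1e-12 j ψ ((SS ψ).U 0 0 H) - GG 0 j ψ ((SS ψ).U 0 0 H) =
      (SS ψ).xi j H := by
    intro j
    rw [hG, hG]; rfl
  refine ⟨(SS ψ).U 0 0 H, ?_, ?_, ?_, ?_, ?_, ?_⟩
  · have h7 := Sys.u_prefix (SS ψ) 0 0 (n := n) h1 h2
    have h8 : ((SS ψ).pt 0 0 ((SS ψ).h (0, 0, i))).2.2 = i := (SS ψ).U_h 0 0 i
    rw [h8] at h7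
    exact h7
  · intro t j hj
    rw [hG]
    exact Sys.t_prefix (SS ψ) 0 t hj h1 h2
  · intro j hj; rw [hT']; exact h3 j hj
  · intro j hj; rw [hT']; exact h4 j hj
  · intro hd j hj
    rw [hT']
    exact h5 hd j hj
  · intro hx
    rw [hX'] at hx
    obtain ⟨k1, k2⟩ := h6 hx
    constructor
    · intro j hj
      rw [hX', hX']; exact k1 j hj
    · exact k2.congr (fun j => (hX' j).symm)

/-- nice triples -/
structure Nice (φ : PP) (i : ℝ) (M : ℕ → ℕ) : Prop where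
  s0 : ‖φ.1 (i0 1)‖ < 1e-17
  s1 : ‖φ.1 (i1 (r := 1) le_rfl)‖ < 1e-17
  T : ∀ m, |GG 0 m φ i| < 0.01
  X : ∀ m, GG 1e-12 m φ i - GG 0 m φ i < 9e-4
  M : ∀ l, ∀ m ≥ M l, GG 1e-12 m φ i - GG 0 m φ i < (1/2)^l
  E : ∃ M₀, ∀ m ≥ M₀, |GG 0 m φ i - 0.005| ≤ 2e-4

lemma exists_M {f : ℕ → ℝ} (hf : Tendsto f atTop (𝓝 0)) (M : ℕ → ℕ) (L : ℕ)
    (hM : ∀ l ≤ L, ∀ m ≥ M l, f m < (1/2)^l) :
    ∃ M' : ℕ → ℕ, (∀ l ≤ L, M' l = M l) ∧ ∀ l, ∀ m ≥ M' l, f m < (1/2)^l := by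
  have h : ∀ l : ℕ, ∃ k, ∀ m ≥ k, f m < (1/2)^l := by
    intro l
    have := hf.eventually_lt_const (show (0:ℝ) < (1/2)^l by positivity)
    exact eventually_atTop.1 this
  choose k hk using h
  refine ⟨fun l => if l ≤ L then M l else k l, fun l hl => by simp [hl], ?_⟩
  intro l m hm
  by_cases hl : l ≤ L
  · simp only [hl, if_true] at hm
    exact hM l hl m hm
  · simp only [hl, if_false] at hm
    exact hk l m hm

/-- existence of a nice triple -/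
lemma exists_nice : ∃ φ i M, Nice φ i M := by
  obtain ⟨ψ, hψX, hψj, hψfn⟩ := exists_ofFn (r := 1) (P := fun _ => (0 : V3)) contDiff_const
    (fun _ _ => rfl)
  have hz : ∀ j : Jr 1, ψ j = 0 := by
    intro j
    ext1 x
    rw [hψj]
    have : (fun _ : V3 => (0 : V3)) = 0 := rfl
    rw [this]
    simp
  have h0 : ‖ψ (i0 1)‖ = 0 := by
    rw [hz]; exact norm_zero (E := BoundedContinuousFunction V3 (Wj 0))
  have h1 : ‖ψ (i1 (r := 1) le_rfl)‖ = 0 := by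
    rw [hz]; exact norm_zero (E := BoundedContinuousFunction V3 (Wj 1))
  obtain ⟨φ, hφ⟩ : ∃ φ : PP, φ.1 = ψ := ⟨⟨ψ, hψX, by rw [h0]; norm_num, by rw [h1]; norm_num⟩, rfl⟩
  have hT0 : ∀ t i, GG t 0 φ i = t := by
    intro t i
    rw [GG_eq]; simp
  obtain ⟨i', h2, h3, h4, h5, h6, h7⟩ := stage_fin φ 0 0 (by rw [hT0]; norm_num)
  have h8 := h7 (by rw [hT0, hT0]; norm_num)
  rw [hT0, hT0] at h8
  obtain ⟨M', -, hM'⟩ := exists_M h8.2 (fun _ => 0) 0 (by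
    intro l hl m _
    have : l = 0 := by omega
    subst this
    have := h8.1 m (Nat.zero_le m)
    norm_num at this ⊢
    linarith)
  refine ⟨φ, i', M', ?_, ?_, ?_, ?_, hM', 2800, ?_⟩
  · rw [hφ, h0]; norm_num
  · rw [hφ, h1]; norm_num
  · intro m
    exact (h4 m (Nat.zero_le m)).trans_lt (by norm_num)
  · intro m
    have := h8.1 m (Nat.zero_le m)
    norm_num at this ⊢
    linarith
  · intro m hm
    exact (h5 m (by omega)).trans (by norm_num)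

end Pool.Agent.H47

/-! ### Dense -/

namespace Pool.Agent.H47

open Real Set Filter Topology

lemma exists_rho {φ : PP} {i : ℝ} {P : PP × ℝ → Prop} (h : ∀ᶠ q in 𝓝 (φ, i), P q) :
    ∃ ρ > 0, ∀ ψ i', Cl ψ φ ρ → |i' - i| ≤ ρ → P (ψ, i') := by
  rw [nhds_prod_eq, eventually_prod_iff] at h
  obtain ⟨pa, hpa, pb, hpb, hab⟩ := h
  obtain ⟨u, hu, hu'⟩ := mem_nhds_subtype _ _ _ |>.1 hpa
  obtain ⟨n, hn, hn1, δ, hδ, hball⟩ := basic_nhds le_rfl φ.1 hu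
  obtain ⟨ε, hε, hε'⟩ := Metric.eventually_nhds_iff.1 hpb
  refine ⟨min (δ/2) (ε/2), by positivity, fun ψ i' h1 h2 => ?_⟩
  have d1 : min (δ/2) (ε/2) ≤ δ/2 := min_le_left _ _
  have d2 : min (δ/2) (ε/2) ≤ ε/2 := min_le_right _ _
  apply hab
  · apply hu'
    apply hball
    intro j hj
    rcases jr1_cases ⟨j, le_trans (by exact_mod_cast hj) hn⟩ with h | h
    · rw [h]; exact lt_of_le_of_lt h1.1 (by linarith)
    · rw [h]; exact lt_of_le_of_lt h1.2 (by linarith)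
  · apply hε'
    rw [Real.dist_eq]
    linarith

lemma exists_n0 {ρ : ℝ} (hρ : 0 < ρ) (M : ℕ) : ∃ n₀ ≥ M, 2.01 * (1/26.8 : ℝ)^n₀ ≤ ρ := by
  have h1 : Tendsto (fun n : ℕ => 2.01 * (1/26.8 : ℝ)^n) atTop (𝓝 0) := by
    have := (tendsto_pow_atTop_nhds_zero_of_lt_one (r := (1/26.8 : ℝ)) (by norm_num)
      (by norm_num)).const_mul 2.01
    simpa using this
  obtain ⟨n, hn1, hn2⟩ := ((h1.eventually_le_const hρ).and (eventually_ge_atTop M)).exists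
  exact ⟨n, hn2, hn1⟩

lemma cont_XI (j : ℕ) : Continuous (fun q : PP × ℝ => GG 1e-12 j q.1 q.2 - GG 0 j q.1 q.2) :=
  (cont_GG _ j).sub (cont_GG _ j)

lemma ev_lt {X : Type*} [TopologicalSpace X] (f : X → ℝ) (hf : Continuous f) {x : X} {c : ℝ}
    (h : f x < c) : ∀ᶠ q in 𝓝 x, f q < c :=
  hf.continuousAt.eventually_lt continuousAt_const h

lemma ev_lt_T {φ : PP} {i : ℝ} (j : ℕ) {c : ℝ} (h : |GG 0 j φ i| < c) :
    ∀ᶠ q : PP × ℝ in 𝓝 (φ, i), |GG 0 j q.1 q.2| < c :=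
  ev_lt (fun q : PP × ℝ => |GG 0 j q.1 q.2|) (cont_GG 0 j).abs h

lemma ev_lt_X {φ : PP} {i : ℝ} (j : ℕ) {c : ℝ} (h : GG 1e-12 j φ i - GG 0 j φ i < c) :
    ∀ᶠ q : PP × ℝ in 𝓝 (φ, i), GG 1e-12 j q.1 q.2 - GG 0 j q.1 q.2 < c :=
  ev_lt (fun q : PP × ℝ => GG 1e-12 j q.1 q.2 - GG 0 j q.1 q.2) (cont_XI j) h

lemma ev_lt_D {φ : PP} {i : ℝ} (j : ℕ) {c : ℝ} (hc : 0 < c) :
    ∀ᶠ q : PP × ℝ in 𝓝 (φ, i), |GG 0 j q.1 q.2 - GG 0 j φ i| < c := by
  refine ev_lt (fun q : PP × ℝ => |GG 0 j q.1 q.2 - GG 0 j φ i|)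
    ((cont_GG 0 j).sub continuous_const).abs ?_
  simp only [sub_self, abs_zero]
  exact hc

lemma prep {φ : PP} {i : ℝ} {M : ℕ → ℕ} (hN : Nice φ i M) (L : ℕ) : ∃ M₁ : ℕ, ∃ ρ : ℝ, 0 < ρ ∧
    (∀ j ≥ M₁, |GG 0 j φ i - 0.005| ≤ 2e-4) ∧ (∀ l ≤ L, M l ≤ M₁) ∧
    ∀ ψ i', Cl ψ φ ρ → |i' - i| ≤ ρ → (∀ j ≤ M₁, |GG 0 j ψ i'| < 0.01 ∧
      GG 1e-12 j ψ i' - GG 0 j ψ i' < 9e-4 ∧
      ∀ l ≤ L, M l ≤ j → GG 1e-12 j ψ i' - GG 0 j ψ i' < (1/2)^l) ∧
      GG 1e-12 M₁ ψ i' - GG 0 M₁ ψ i' < (1/2)^(2*L+60) := by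
  obtain ⟨M₀, hM₀⟩ := hN.E
  obtain ⟨M₁, hM₁⟩ : ∃ M₁, M₁ = M₀ + M (2*L+60) + ∑ l ∈ Finset.range (L+1), M l := ⟨_, rfl⟩
  have hl : ∀ l ≤ L, M l ≤ M₁ := by
    intro l hl
    have h0 : l ∈ Finset.range (L+1) := Finset.mem_range.2 (Nat.lt_succ_of_le hl)
    have := Finset.single_le_sum (f := M) (fun i _ => Nat.zero_le _) h0
    omega
  have h1 : ∀ᶠ q in 𝓝 (φ, i), ∀ j ∈ Set.Iic M₁, |GG 0 j q.1 q.2| < 0.01 ∧
      GG 1e-12 j q.1 q.2 - GG 0 j q.1 q.2 < 9e-4 ∧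
      ∀ l ∈ Set.Iic L, M l ≤ j → GG 1e-12 j q.1 q.2 - GG 0 j q.1 q.2 < (1/2)^l := by
    rw [Filter.eventually_all_finite (Set.finite_Iic M₁)]
    intro j _
    refine Filter.Eventually.and ?_ (Filter.Eventually.and ?_ ?_)
    · exact ev_lt_T j (hN.T j)
    · exact ev_lt_X j (hN.X j)
    · rw [Filter.eventually_all_finite (Set.finite_Iic L)]
      intro l _
      by_cases h : M l ≤ j
      · filter_upwards [ev_lt_X j (hN.M l j h)] with q hq _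
        exact hq
      · exact Filter.Eventually.of_forall (fun q h' => absurd h' h)
  have h2 : ∀ᶠ q : PP × ℝ in 𝓝 (φ, i), GG 1e-12 M₁ q.1 q.2 - GG 0 M₁ q.1 q.2 <
      (1/2)^(2*L+60) := ev_lt_X M₁ (hN.M (2*L+60) M₁ (by omega))
  obtain ⟨ρ, hρ, hρ'⟩ := exists_rho (h1.and h2)
  refine ⟨M₁, ρ, hρ, fun j hj => hM₀ j (by omega), hl, fun ψ i' h3 h4 => ?_⟩
  have h5 := hρ' ψ i' h3 h4
  exact ⟨fun j hj => ⟨(h5.1 j hj).1, (h5.1 j hj).2.1, fun l hl => (h5.1 j hj).2.2 l hl⟩, h5.2⟩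

lemma half_pow_le {L : ℕ} : (1/2 : ℝ)^(2*L+60) ≤ 1e-10 := by
  have e : 2*L+60 = 2*L + 60 := rfl
  rw [pow_add]
  have h1 : (1/2 : ℝ)^(2*L) ≤ 1 := pow_le_one₀ (by norm_num) (by norm_num)
  have h2 : (1/2 : ℝ)^60 ≤ 1e-10 := by norm_num
  have h3 : (0:ℝ) ≤ (1/2 : ℝ)^60 := by positivity
  nlinarith

/-- passing to a perturbation with a dense property -/
theorem dense_a {P : PP → Prop} (hP : ∀ φ : PP, ‖φ.1 (i0 1)‖ < 1e-17 →
      ‖φ.1 (i1 (r := 1) le_rfl)‖ < 1e-17 → ∀ ρ > 0, ∃ ψ : PP, Cl ψ φ ρ ∧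
      ‖ψ.1 (i0 1)‖ < 1e-17 ∧ ‖ψ.1 (i1 (r := 1) le_rfl)‖ < 1e-17 ∧ P ψ)
    {φ : PP} {i : ℝ} {M : ℕ → ℕ} (hN : Nice φ i M) {ρ₀ : ℝ} (hρ₀ : 0 < ρ₀) (L : ℕ) :
    ∃ ψ i' M', Nice ψ i' M' ∧ Cl ψ φ ρ₀ ∧ |i' - i| ≤ ρ₀ ∧ (∀ l ≤ L, M' l = M l) ∧ P ψ := by
  obtain ⟨M₁, ρ₁, hρ₁, hE, hl, hnear⟩ := prep hN L
  obtain ⟨ρ, hρdef⟩ : ∃ ρ, ρ = min ρ₀ ρ₁ := ⟨_, rfl⟩
  have hρ : 0 < ρ := by rw [hρdef]; exact lt_min hρ₀ hρ₁
  have hρa : ρ ≤ ρ₀ := by rw [hρdef]; exact min_le_left _ _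
  have hρb : ρ ≤ ρ₁ := by rw [hρdef]; exact min_le_right _ _
  obtain ⟨n₀, hn₀M, hn₀⟩ := exists_n0 hρ M₁
  have h1 : ∀ᶠ q in 𝓝 (φ, i), ∀ j ∈ Set.Iic n₀, |GG 0 j q.1 q.2 - GG 0 j φ i| < 1e-6 := by
    rw [Filter.eventually_all_finite (Set.finite_Iic n₀)]
    intro j _
    exact ev_lt_D j (by norm_num)
  obtain ⟨ρ₂, hρ₂, hρ₂'⟩ := exists_rho h1
  obtain ⟨ψ, hψcl, hψ0, hψ1, hψP⟩ := hP φ hN.s0 hN.s1 (min ρ ρ₂) (lt_min hρ hρ₂)
  have hcl : Cl ψ φ ρ := hψcl.mono (min_le_left _ _)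
  have h2 := hρ₂' ψ i (hψcl.mono (min_le_right _ _)) (by simp; exact hρ₂.le)
  have h3 : ∀ j ≤ n₀, |GG 0 j ψ i - GG 0 j φ i| < 1e-6 := fun j hj => h2 j hj
  have h4 := abs_le.1 (h3 n₀ le_rfl).le
  have h5 := abs_le.1 (hE n₀ hn₀M)
  obtain ⟨i', k1, k2, k3, k4, k5, k6⟩ := stage_fin ψ i n₀ (by
    rw [abs_le]; constructor <;> linarith)
  have hi' : |i' - i| ≤ ρ := k1.trans hn₀
  have hn := hnear ψ i' (hcl.mono hρb) (hi'.trans hρb)
  have hhalf := half_pow_le (L := L)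
  have hT : ∀ j ≥ M₁, |GG 0 j ψ i' - 0.005| ≤ 2.4e-4 := by
    intro j hj
    rcases le_or_gt j n₀ with h | h
    · have i1 := abs_le.1 (h3 j h).le
      have i2 := k2 0 j h
      have i3 : (1/26.8 : ℝ)^(n₀-j) ≤ 1 := pow_le_one₀ (by norm_num) (by norm_num)
      have i4 : |GG 0 j ψ i' - GG 0 j ψ i| ≤ 2.01e-5 := by linarith
      have i5 := abs_le.1 i4
      have i6 := abs_le.1 (hE j hj)
      rw [abs_le]; constructor <;> linarith
    · exact k5 (by rw [abs_le]; constructor <;> linarith) j h.le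
  have hxi : ∀ j ≥ M₁, GG 1e-12 j ψ i' - GG 0 j ψ i' ≤ GG 1e-12 M₁ ψ i' - GG 0 M₁ ψ i' := by
    intro j hj
    obtain ⟨k, rfl⟩ := Nat.exists_eq_add_of_le hj
    have h6 := Sys.xi_hold_iter (S := SS ψ) (n := M₁) (H := (SS ψ).h (0, 0, i'))
      (n' := M₁ + k) (fun m hm _ => (hT m hm).trans (by norm_num))
      (show GG 1e-12 M₁ ψ i' - GG 0 M₁ ψ i' ≤ 1e-3 by linarith [hn.2]) k le_rfl
    have h7 : (1 - 1.7e-5 : ℝ)^k ≤ 1 := pow_le_one₀ (by norm_num) (by norm_num)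
    have h8 := Sys.xi_pos (SS ψ) M₁ ((SS ψ).h (0, 0, i'))
    have h9 : (1 - 1.7e-5 : ℝ)^k * (SS ψ).xi M₁ ((SS ψ).h (0, 0, i')) ≤
      1 * (SS ψ).xi M₁ ((SS ψ).h (0, 0, i')) := mul_le_mul_of_nonneg_right h7 h8.le
    rw [one_mul] at h9
    exact h6.trans h9
  have hn₀x := hxi n₀ hn₀M
  have hlim := (k6 (by linarith [hn.2])).2
  obtain ⟨M', hM'1, hM'2⟩ := exists_M hlim M L (by
    intro l hl' m hm
    rcases le_or_gt m M₁ with h | h
    · exact (hn.1 m h).2.2 l hl' hm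
    · have h6 := hxi m h.le
      have h7 := (hn.1 M₁ le_rfl).2.2 l hl' (hl l hl')
      linarith)
  refine ⟨ψ, i', M', ⟨hψ0, hψ1, ?_, ?_, hM'2, n₀ + 2800, ?_⟩, hcl.mono hρa, hi'.trans hρa, hM'1,
    hψP⟩
  · intro m
    rcases le_or_gt m M₁ with h | h
    · exact (hn.1 m h).1
    · have := abs_le.1 (hT m h.le)
      rw [abs_lt]; constructor <;> linarith
  · intro m
    rcases le_or_gt m M₁ with h | h
    · exact (hn.1 m h).2.1
    · have h6 := hxi m h.le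
      linarith [hn.2]
  · intro m hm
    exact (k4 m hm).trans (by norm_num)

/-- making the left points escape -/
theorem dense_b {φ : PP} {i : ℝ} {M : ℕ → ℕ} (hN : Nice φ i M) (n : ℕ) {ρ₀ : ℝ} (hρ₀ : 0 < ρ₀)
    (L : ℕ) : ∃ ψ i' M', Nice ψ i' M' ∧ Cl ψ φ ρ₀ ∧ |i' - i| ≤ ρ₀ ∧ (∀ l ≤ L, M' l = M l) ∧
      ∃ η, 0 < η ∧ η < 1/((n:ℝ)+1) ∧ ∃ m, -(1/2) < GG (-η) m ψ i' ∧ GG (-η) m ψ i' < -0.08 := by
  obtain ⟨M₁, ρ₁, hρ₁, hE, hl, hnear⟩ := prep hN L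
  obtain ⟨ρ, hρdef⟩ : ∃ ρ, ρ = min ρ₀ ρ₁ / 2 := ⟨_, rfl⟩
  have hρm : 0 < min ρ₀ ρ₁ := lt_min hρ₀ hρ₁
  have hρ : 0 < ρ := by rw [hρdef]; positivity
  have hρa : 2 * ρ ≤ ρ₀ := by rw [hρdef]; linarith [min_le_left ρ₀ ρ₁]
  have hρb : 2 * ρ ≤ ρ₁ := by rw [hρdef]; linarith [min_le_right ρ₀ ρ₁]
  obtain ⟨n₀, hn₀M, hn₀⟩ := exists_n0 hρ M₁
  obtain ⟨ε, hεdef⟩ : ∃ ε : ℝ, ε = (1/2)^(2*L+60) := ⟨_, rfl⟩
  have hε : 0 < ε := by rw [hεdef]; positivity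
  have hhalf := half_pow_le (L := L)
  have hε' : ε ≤ 1e-10 := by rw [hεdef]; exact hhalf
  obtain ⟨e0, he0def⟩ : ∃ e0 : ℝ, e0 = min (1/(2*((n:ℝ)+1))) (5e-4 / 1.0019^M₁) := ⟨_, rfl⟩
  have he0 : 0 < e0 := by rw [he0def]; exact lt_min (by positivity) (by positivity)
  have he0' : e0 * 1.0019^M₁ ≤ 5e-4 := by
    have : e0 ≤ 5e-4 / 1.0019^M₁ := by rw [he0def]; exact min_le_right _ _
    rwa [le_div_iff₀ (by positivity)] at this
  have he0n : e0 < 1/((n:ℝ)+1) := by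
    have h1 : e0 ≤ 1/(2*((n:ℝ)+1)) := by rw [he0def]; exact min_le_left _ _
    have h2 : 1/(2*((n:ℝ)+1)) < 1/((n:ℝ)+1) := by
      apply one_div_lt_one_div_of_lt (by positivity)
      have : (0:ℝ) < (n:ℝ)+1 := by positivity
      linarith
    linarith
  obtain ⟨ψ, i₁, m, hcl, hi₁, hψ0, hψ1, hm, c1, c2, c3, c4, c5, c6⟩ := stage_core hn₀M hρ hε
    (by linarith) he0 he0' hN.s0 hN.s1 hn₀
    (fun j hj _ => (hE j hj).trans (by norm_num))
    (fun ψ i' h1 h2 => by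
      have h3 := hnear ψ i' (h1.mono (by linarith)) (h2.trans (by linarith))
      exact ⟨fun j hj => ⟨(h3.1 j hj).1.le, by linarith [(h3.1 j hj).2.1]⟩, by linarith [h3.2]⟩)
  obtain ⟨nn, hnn⟩ : ∃ nn, nn = m + (L + 20) := ⟨_, rfl⟩
  obtain ⟨i', k1, k2, k3, k4, k5, k6⟩ := stage_fin ψ i₁ nn (c2 nn (by omega))
  have hpw : (1/26.8 : ℝ)^nn ≤ (1/26.8)^n₀ :=
    pow_le_pow_of_le_one (by norm_num) (by norm_num) (by omega)
  have hi' : |i' - i| ≤ 2 * ρ := by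
    have e : i' - i = (i' - i₁) + (i₁ - i) := by ring
    rw [e]
    refine (abs_add_le _ _).trans ?_
    linarith
  have hcl' : Cl ψ φ (2 * ρ) := hcl.mono (by linarith)
  have hn := hnear ψ i' (hcl'.mono hρb) (hi'.trans hρb)
  have hn1 := hnear ψ i₁ (hcl.mono (by linarith)) (hi₁.trans (by linarith))
  -- powers
  obtain ⟨v, hv⟩ : ∃ v : ℝ, v = (1/2)^(L+40) := ⟨_, rfl⟩
  obtain ⟨u, hu⟩ : ∃ u : ℝ, u = (1/2)^(L+20) := ⟨_, rfl⟩
  have huv : ε = u * v := by rw [hεdef, hu, hv, ← pow_add]; congr 1; omega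
  have hv0 : 0 < v := by rw [hv]; positivity
  have hu0 : 0 < u := by rw [hu]; positivity
  have h2u : (2:ℝ)^(L+20) * u = 1 := by rw [hu, ← mul_pow]; norm_num
  have h26 : (1/26.8 : ℝ)^(L+20) ≤ ε := by
    have h1 : (1/26.8 : ℝ)^(L+20) ≤ (1/16)^(L+20) :=
      pow_le_pow_left₀ (by norm_num) (by norm_num) _
    have h2 : (1/16 : ℝ)^(L+20) = (1/2)^(4*(L+20)) := by
      rw [pow_mul]; norm_num
    have h3 : (1/2 : ℝ)^(4*(L+20)) ≤ (1/2)^(2*L+60) :=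
      pow_le_pow_of_le_one (by norm_num) (by norm_num) (by omega)
    rw [hεdef]; linarith
  have hv1 : v ≤ 1e-6 := by
    rw [hv, pow_add]
    have h1 : (1/2 : ℝ)^L ≤ 1 := pow_le_one₀ (by norm_num) (by norm_num)
    have h2 : (1/2 : ℝ)^40 ≤ 1e-6 := by norm_num
    have h3 : (0:ℝ) ≤ (1/2 : ℝ)^40 := by positivity
    nlinarith
  -- right gaps
  have hxa : ∀ j, M₁ ≤ j → j ≤ m → GG 1e-12 j ψ i' - GG 0 j ψ i' ≤ 2 * ε := by
    intro j h1 h2
    have h3 := c3 j h1 h2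
    have h4 : max (GG 1e-12 M₁ ψ i₁ - GG 0 M₁ ψ i₁) ε ≤ ε :=
      max_le (by rw [hεdef]; exact hn1.2.le) le_rfl
    have h5 := abs_le.1 (k2 1e-12 j (by omega))
    have h6 := abs_le.1 (k2 0 j (by omega))
    have h7 : (1/26.8 : ℝ)^(nn-j) ≤ (1/26.8)^(L+20) :=
      pow_le_pow_of_le_one (by norm_num) (by norm_num) (by omega)
    linarith [h5.2, h6.1]
  have hmM : M₁ ≤ m := by omega
  have hxb : ∀ k ≤ L + 20, GG 1e-12 (m+k) ψ i' - GG 0 (m+k) ψ i' ≤ 2^k * (2 * ε) := by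
    intro k
    induction k with
    | zero => intro _; simpa using hxa m hmM le_rfl
    | succ k ih =>
      intro hk
      have ih' := ih (by omega)
      have h1 := Sys.xi_step_le (S := SS ψ) (m+k) ((SS ψ).h (0, 0, i'))
      have h2 := Sys.xi_pos (SS ψ) (m+k) ((SS ψ).h (0, 0, i'))
      have h3 : (SS ψ).xi (m+k) ((SS ψ).h (0, 0, i')) =
        GG 1e-12 (m+k) ψ i' - GG 0 (m+k) ψ i' := rfl
      have h4 : (SS ψ).xi (m+k+1) ((SS ψ).h (0, 0, i')) =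
        GG 1e-12 (m+(k+1)) ψ i' - GG 0 (m+(k+1)) ψ i' := rfl
      rw [← h4, pow_succ]
      rw [← h3] at ih'
      linarith
  have hxb' : ∀ k ≤ L + 20, GG 1e-12 (m+k) ψ i' - GG 0 (m+k) ψ i' ≤ 2 * v := by
    intro k hk
    refine (hxb k hk).trans ?_
    have h1 : (2:ℝ)^k ≤ 2^(L+20) := pow_le_pow_right₀ (by norm_num) hk
    have h2 : (2:ℝ)^k * (2 * ε) ≤ 2^(L+20) * (2 * ε) :=
      mul_le_mul_of_nonneg_right h1 (by positivity)
    refine h2.trans ?_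
    rw [huv]
    have e : (2:ℝ)^(L+20) * (2 * (u * v)) = 2 * ((2:ℝ)^(L+20) * u) * v := by ring
    rw [e, h2u]
    linarith
  have hxn : GG 1e-12 nn ψ i' - GG 0 nn ψ i' ≤ 2 * v := by
    rw [hnn]; exact hxb' (L+20) le_rfl
  have hk6 := k6 (by linarith)
  have hε2 : 2 * ε ≤ 4 * v := by
    have hu1 : u ≤ 1 := by rw [hu]; exact pow_le_one₀ (by norm_num) (by norm_num)
    rw [huv]; nlinarith
  have hxall : ∀ j ≥ M₁, GG 1e-12 j ψ i' - GG 0 j ψ i' ≤ 4 * v := by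
    intro j hj
    rcases le_or_gt j m with h | h
    · exact (hxa j hj h).trans hε2
    · rcases le_or_gt j nn with h' | h'
      · obtain ⟨k, rfl⟩ := Nat.exists_eq_add_of_le h.le
        have := hxb' k (by omega)
        linarith
      · have := hk6.1 j h'.le
        linarith
  have hTall : ∀ j ≥ M₁, |GG 0 j ψ i'| ≤ 0.0057 := by
    intro j hj
    rcases le_or_gt j nn with h | h
    · have i2 := k2 0 j h
      have i3 : (1/26.8 : ℝ)^(nn-j) ≤ 1 := pow_le_one₀ (by norm_num) (by norm_num)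
      have i4 : |GG 0 j ψ i' - GG 0 j ψ i₁| ≤ 2.01e-5 := by linarith
      have i5 := abs_le.1 i4
      have i6 := abs_le.1 (c1 j hj)
      rw [abs_le]; constructor <;> linarith
    · exact (k3 j h.le).trans (by norm_num)
  obtain ⟨M', hM'1, hM'2⟩ := exists_M hk6.2 M L (by
    intro l hl' j hj
    rcases le_or_gt j M₁ with h | h
    · exact (hn.1 j h).2.2 l hl' hj
    · have h6 := hxall j h.le
      have h7 : (1/2:ℝ)^L ≤ (1/2)^l := pow_le_pow_of_le_one (by norm_num) (by norm_num) hl'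
      have h8 : 4 * v < (1/2)^L := by
        rw [hv, pow_add]
        have h9 : (0:ℝ) < (1/2)^L := by positivity
        have h10 : 4 * ((1/2:ℝ)^L * (1/2)^40) = (1/2)^L * (4 * (1/2)^40) := by ring
        rw [h10]
        have h11 : (4:ℝ) * (1/2)^40 < 1 := by norm_num
        nlinarith
      linarith)
  refine ⟨ψ, i', M', ⟨hψ0, hψ1, ?_, ?_, hM'2, nn + 2800, ?_⟩, hcl'.mono hρa, hi'.trans hρa, hM'1,
    e0, he0, he0n, m, ?_, ?_⟩
  · intro j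
    rcases le_or_gt j M₁ with h | h
    · exact (hn.1 j h).1
    · exact (hTall j h.le).trans_lt (by norm_num)
  · intro j
    rcases le_or_gt j M₁ with h | h
    · exact (hn.1 j h).2.1
    · have h6 := hxall j h.le
      linarith
  · intro j hj
    exact (k4 j hj).trans (by norm_num)
  · have i2 := k2 (-e0) m (by omega)
    have i3 : (1/26.8 : ℝ)^(nn-m) ≤ 1 := pow_le_one₀ (by norm_num) (by norm_num)
    have i4 : |GG (-e0) m ψ i' - GG (-e0) m ψ i₁| ≤ 2.01e-5 := by linarith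
    have i5 := abs_le.1 i4
    linarith
  · have i2 := k2 (-e0) m (by omega)
    have i3 : (1/26.8 : ℝ)^(nn-m) ≤ 1 := pow_le_one₀ (by norm_num) (by norm_num)
    have i4 : |GG (-e0) m ψ i' - GG (-e0) m ψ i₁| ≤ 2.01e-5 := by linarith
    have i5 := abs_le.1 i4
    linarith

end Pool.Agent.H47

/-! ### Main1 -/

namespace Pool.Agent.H47

open Real Set Filter Topology

lemma exists_G0 : ∃ G : V3 → V3, ContDiff ℝ ((1 : ℕ∞) : WithTop ℕ∞) G ∧ Equi G ∧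
    (∀ p, G (F0 p) = p) ∧ (∀ p, F0 (G p) = p) ∧ ∀ p q, ‖G p - G q‖ ≤ 45 * ‖p - q‖ := by
  obtain ⟨G', hG', eG', h1, h2⟩ := exists_inverse (r := 1) le_rfl (F := linL) (G := invL)
    contDiff_invL equi_invL invL_linL linL_invL (K := 31) invL_lip (P := P0)
    contDiff_P0 P0_per (c := 1/100) (by norm_num) P0_lip (by norm_num)
  have g1 : ∀ p, G' (F0 p) = p := fun p => by rw [F0_eq]; exact h1 p
  have g2 : ∀ p, F0 (G' p) = p := fun p => by rw [F0_eq]; exact h2 p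
  have g3 : ∀ p q, ‖G' p - G' q‖ ≤ 45 * ‖p - q‖ := by
    intro p q
    have h3 := invL_lip (linL (G' p)) (linL (G' q))
    rw [invL_linL, invL_linL] at h3
    have h4 : linL (G' p) - linL (G' q) = (p - q) - (P0 (G' p) - P0 (G' q)) := by
      have e1 := g2 p
      have e2 := g2 q
      rw [F0_eq] at e1 e2
      rw [eq_sub_of_add_eq e1, eq_sub_of_add_eq e2]
      abel
    rw [h4] at h3
    have h5 := norm_sub_le (p - q) (P0 (G' p) - P0 (G' q))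
    have h6 := P0_lip (G' p) (G' q)
    have h7 := norm_nonneg (G' p - G' q)
    have h8 := norm_nonneg (p - q)
    linarith
  exact ⟨G', hG', eG', g1, g2, g3⟩

abbrev YY := PP × ℝ × (ℕ → ℕ)

instance completePP : CompleteSpace PP := isClosed_PPs.completeSpace_coe

lemma nhds_YY {φ : PP} {i : ℝ} {M : ℕ → ℕ} {V : Set YY} (hV : V ∈ 𝓝 ((φ, i, M) : YY)) :
    ∃ ρ > 0, ∃ L : ℕ, ∀ ψ i' M', Cl ψ φ ρ → |i' - i| ≤ ρ → (∀ l ≤ L, M' l = M l) →
      ((ψ, i', M') : YY) ∈ V := by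
  obtain ⟨u, hu, v, hv, huv⟩ := mem_nhds_prod_iff.1 hV
  obtain ⟨v1, hv1, v2, hv2, hv12⟩ := mem_nhds_prod_iff.1 hv
  have h1 : ∀ᶠ q : PP × ℝ in 𝓝 (φ, i), q.1 ∈ u ∧ q.2 ∈ v1 := by
    rw [nhds_prod_eq]
    exact (tendsto_fst.eventually hu).and (tendsto_snd.eventually hv1)
  obtain ⟨ρ, hρ, hρ'⟩ := exists_rho h1
  rw [nhds_pi, Filter.mem_pi] at hv2
  obtain ⟨I, hI, t, ht, hsub⟩ := hv2
  obtain ⟨L, hL⟩ := hI.bddAbove
  refine ⟨ρ, hρ, L, fun ψ i' M' h2 h3 h4 => ?_⟩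
  have h5 := hρ' ψ i' h2 h3
  apply huv
  refine ⟨h5.1, hv12 ⟨h5.2, ?_⟩⟩
  apply hsub
  intro l hl
  show M' l ∈ t l
  rw [h4 l (hL hl)]
  exact mem_of_mem_nhds (ht l)

/-- the set of nice triples -/
def NS : Set YY := {q | Nice q.1 q.2.1 q.2.2}

lemma dense_of {P : YY → Prop} (hP : ∀ (φ : PP) (i : ℝ) (M : ℕ → ℕ), Nice φ i M → ∀ ρ > 0,
    ∀ L : ℕ, ∃ ψ i' M', Nice ψ i' M' ∧ Cl ψ φ ρ ∧ |i' - i| ≤ ρ ∧ (∀ l ≤ L, M' l = M l) ∧
      P (ψ, i', M')) : Dense {x : closure NS | P x.1} := by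
  rw [dense_iff_inter_open]
  rintro V hV ⟨x, hx⟩
  obtain ⟨V', hV', rfl⟩ := isOpen_induced_iff.1 hV
  obtain ⟨⟨φ, i, M⟩, hq1, hq2⟩ := mem_closure_iff.1 x.2 V' hV' hx
  obtain ⟨ρ, hρ, L, hL⟩ := nhds_YY (hV'.mem_nhds hq1)
  obtain ⟨ψ, i', M', hN, h1, h2, h3, h4⟩ := hP φ i M hq2 ρ hρ L
  exact ⟨⟨(ψ, i', M'), subset_closure hN⟩, hL ψ i' M' h1 h2 h3, h4⟩

lemma cont_YY (t : ℝ) (m : ℕ) : Continuous (fun q : YY => GG t m q.1 q.2.1) := by
  have hp : Continuous (fun q : YY => (q.1, q.2.1)) :=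
    continuous_fst.prodMk (continuous_fst.comp continuous_snd)
  have hc := (cont_GG t m).comp hp
  exact hc

lemma closure_T {q : YY} (hq : q ∈ closure NS) (m : ℕ) : |GG 0 m q.1 q.2.1| ≤ 1e-2 := by
  have hc : Continuous (fun q : YY => |GG 0 m q.1 q.2.1|) :=
    (cont_YY 0 m).abs
  have hcl : IsClosed {q : YY | |GG 0 m q.1 q.2.1| ≤ 1e-2} := isClosed_le hc continuous_const
  have hsub : NS ⊆ {q : YY | |GG 0 m q.1 q.2.1| ≤ 1e-2} := by
    intro q hq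
    have := hq.T m
    simp only [mem_ofPred_eq]
    linarith
  exact (closure_minimal hsub hcl) hq

lemma closure_X {q : YY} (hq : q ∈ closure NS) (l m : ℕ) (hm : q.2.2 l ≤ m) :
    GG 1e-12 m q.1 q.2.1 - GG 0 m q.1 q.2.1 ≤ (1/2)^l := by
  have hc : Continuous (fun q : YY => GG 1e-12 m q.1 q.2.1 - GG 0 m q.1 q.2.1) :=
    (cont_YY _ m).sub (cont_YY _ m)
  have hc1 : Continuous (fun q : YY => q.2.2) := continuous_snd.comp continuous_snd
  have hc2 : Continuous (fun q : YY => q.2.2 l) :=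
    (continuous_apply (A := fun _ : ℕ => ℕ) l).comp hc1
  have hcl : IsClosed ({q : YY | q.2.2 l ≤ m}ᶜ ∪
      {q : YY | GG 1e-12 m q.1 q.2.1 - GG 0 m q.1 q.2.1 ≤ (1/2)^l}) := by
    apply IsClosed.union _ (isClosed_le hc continuous_const)
    have : IsOpen ((fun q : YY => q.2.2 l) ⁻¹' {k | k ≤ m}) := (isOpen_discrete _).preimage hc2
    exact this.isClosed_compl
  have hsub : NS ⊆ ({q : YY | q.2.2 l ≤ m}ᶜ ∪
      {q : YY | GG 1e-12 m q.1 q.2.1 - GG 0 m q.1 q.2.1 ≤ (1/2)^l}) := by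
    intro q hq
    by_cases h : q.2.2 l ≤ m
    · right
      have := hq.M l m h
      simp only [mem_ofPred_eq]
      linarith
    · left; exact h
  rcases (closure_minimal hsub hcl) hq with h | h
  · exact absurd hm h
  · exact h

/-- the escape sets -/
def Esc (n : ℕ) (q : YY) : Prop := ∃ η : ℝ, 0 < η ∧ η < 1/((n:ℝ)+1) ∧
  ∃ m, -(1/2) < GG (-η) m q.1 q.2.1 ∧ GG (-η) m q.1 q.2.1 < -0.08

lemma isOpen_Esc (n : ℕ) : IsOpen {q : YY | Esc n q} := by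
  rw [isOpen_iff_mem_nhds]
  rintro q ⟨η, h1, h2, m, h3, h4⟩
  have hc : Continuous (fun q : YY => GG (-η) m q.1 q.2.1) := cont_YY (-η) m
  have e1 : ∀ᶠ p in 𝓝 q, GG (-η) m p.1 p.2.1 < -0.08 :=
    hc.continuousAt.eventually_lt continuousAt_const h4
  have e2 : ∀ᶠ p in 𝓝 q, -(1/2) < GG (-η) m p.1 p.2.1 :=
    continuousAt_const.eventually_lt hc.continuousAt h3
  filter_upwards [e1, e2] with p hp1 hp2
  exact ⟨η, h1, h2, m, hp2, hp1⟩

instance baireYY : BaireSpace (closure NS) := by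
  have : CompleteSpace (closure NS) := isClosed_closure.completeSpace_coe
  have : (uniformity (closure NS)).IsCountablyGenerated := inferInstance
  infer_instance

/-- a generic point of the closure of the nice set gives a diffeomorphism without property (C) -/
lemma not_propC_closure {q : YY} (hq : q ∈ closure NS) (hE : ∀ n, Esc n q) {f : Dyn 1}
    (hf : ∀ p, proj (F0 p + fn q.1.1 p) = f.toHomeo (proj p)) : ¬ PropC f := by
  have hSS : SS q.1 = mkSys (fn q.1.1) (qq q.1) := rfl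
  have hL : (SS q.1).Lat Gam := mkSys_lat _ _
  have a1 : ∀ m, |((SS q.1).F^[m] ((SS q.1).pt 0 0 ((SS q.1).h (0, 0, q.2.1)))).2.1| ≤ 1e-2 :=
    fun m => closure_T hq m
  have a2 : Tendsto (fun m => (SS q.1).xi m ((SS q.1).h (0, 0, q.2.1))) atTop (𝓝 0) := by
    rw [Metric.tendsto_atTop]
    intro ε hε
    obtain ⟨l, hl⟩ := exists_pow_lt_of_lt_one hε (by norm_num : (1/2:ℝ) < 1)
    have h0 : ∀ m, q.2.2 l ≤ m → dist ((SS q.1).xi m ((SS q.1).h (0, 0, q.2.1))) 0 < ε := by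
      intro m hm
      have h1 := closure_X hq l m hm
      have h2 := Sys.xi_pos (SS q.1) m ((SS q.1).h (0, 0, q.2.1))
      have h3 : (SS q.1).xi m ((SS q.1).h (0, 0, q.2.1)) =
        GG 1e-12 m q.1 q.2.1 - GG 0 m q.1 q.2.1 := rfl
      rw [Real.dist_eq, sub_zero, abs_of_pos h2, h3]
      linarith
    exact ⟨q.2.2 l, h0⟩
  have a3 : ∀ δ > 0, ∃ η, 0 < η ∧ η < δ ∧ ∃ m,
      -(1/2) ≤ ((SS q.1).F^[m] ((SS q.1).pt 0 (-η) ((SS q.1).h (0, 0, q.2.1)))).2.1 ∧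
      ((SS q.1).F^[m] ((SS q.1).pt 0 (-η) ((SS q.1).h (0, 0, q.2.1)))).2.1 ≤ -(0.08) := by
    intro δ hδ
    obtain ⟨n, hn⟩ := exists_nat_one_div_lt hδ
    obtain ⟨η, h1, h2, m, h3, h4⟩ := hE n
    exact ⟨η, h1, h2.trans hn, m, h3.le, h4.le⟩
  have hb := Sys.bad_of (S := SS q.1) hL (H := (SS q.1).h (0, 0, q.2.1)) a1 a2 a3
  rw [hSS] at hb
  exact not_propC_of (r := 1) le_rfl (qq q.1) hf hb

/-- **Property (C) is not generic in `Diff¹(T³)`.** -/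
theorem not_generic_one : ¬ ∀ᶠ f in residual (Dyn 1), PropC f := by
  intro hgen
  obtain ⟨G, hG, eG, h1, h2, hK⟩ := exists_G0
  have hK0 : (0:ℝ) < 45 := by norm_num
  have hU : ∀ φ : PP, (⟨φ.1, φ.2.1⟩ : XX 1) ∈ Ud 1 le_rfl 45 := by
    intro φ
    show ‖φ.1 (i1 (r := 1) le_rfl)‖ < 1 / (2 * 45)
    exact lt_of_le_of_lt φ.2.2.2 (by norm_num)
  let incl : PP → Ud 1 le_rfl 45 := fun φ => ⟨⟨φ.1, φ.2.1⟩, hU φ⟩
  have hincl : Continuous incl :=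
    (continuous_subtype_val.subtype_mk (fun φ : PP => φ.2.1)).subtype_mk hU
  let ch := chart (r := 1) le_rfl contDiff_F0 hG equi_F0 eG h1 h2 hK0 hK
  have hch : Continuous ch := chart_continuous (r := 1) le_rfl contDiff_F0 hG equi_F0 eG h1 h2 hK0 hK
  have hcho : IsOpenMap ch := chart_isOpenMap (r := 1) le_rfl contDiff_F0 hG equi_F0 eG h1 h2 hK0 hK
  -- density of preimages
  have hdens : ∀ R : Set (Dyn 1), IsOpen R → Dense R → ∀ φ : PP, ‖φ.1 (i0 1)‖ < 1e-17 →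
      ‖φ.1 (i1 (r := 1) le_rfl)‖ < 1e-17 → ∀ ρ > 0, ∃ ψ : PP, Cl ψ φ ρ ∧
      ‖ψ.1 (i0 1)‖ < 1e-17 ∧ ‖ψ.1 (i1 (r := 1) le_rfl)‖ < 1e-17 ∧ ch (incl ψ) ∈ R := by
    intro R hRo hRd φ hφ0 hφ1 ρ hρ
    have c0 : Continuous (fun u : Ud 1 le_rfl 45 => u.1.1 (i0 1)) :=
      (continuous_apply (A := fun j : Jr 1 => BoundedContinuousFunction V3 (Wj j.1)) _).comp
        (continuous_subtype_val.comp continuous_subtype_val)
    have c1 : Continuous (fun u : Ud 1 le_rfl 45 => u.1.1 (i1 (r := 1) le_rfl)) :=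
      (continuous_apply (A := fun j : Jr 1 => BoundedContinuousFunction V3 (Wj j.1)) _).comp
        (continuous_subtype_val.comp continuous_subtype_val)
    have n0 : Continuous (fun u : Ud 1 le_rfl 45 => ‖u.1.1 (i0 1)‖) :=
      (continuous_norm (E := BoundedContinuousFunction V3 (Wj 0))).comp c0
    have n1 : Continuous (fun u : Ud 1 le_rfl 45 => ‖u.1.1 (i1 (r := 1) le_rfl)‖) :=
      (continuous_norm (E := BoundedContinuousFunction V3 (Wj 1))).comp c1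
    have d0 : Continuous (fun u : Ud 1 le_rfl 45 => dist (u.1.1 (i0 1)) (φ.1 (i0 1))) :=
      c0.dist continuous_const
    have d1 : Continuous (fun u : Ud 1 le_rfl 45 =>
        dist (u.1.1 (i1 (r := 1) le_rfl)) (φ.1 (i1 (r := 1) le_rfl))) :=
      c1.dist continuous_const
    have hW : IsOpen {u : Ud 1 le_rfl 45 | dist (u.1.1 (i0 1)) (φ.1 (i0 1)) < ρ ∧
        dist (u.1.1 (i1 (r := 1) le_rfl)) (φ.1 (i1 (r := 1) le_rfl)) < ρ ∧
        ‖u.1.1 (i0 1)‖ < 1e-17 ∧ ‖u.1.1 (i1 (r := 1) le_rfl)‖ < 1e-17} :=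
      (isOpen_lt d0 continuous_const).inter ((isOpen_lt d1 continuous_const).inter
        ((isOpen_lt n0 continuous_const).inter (isOpen_lt n1 continuous_const)))
    obtain ⟨f, ⟨u, ⟨hu1, hu2, hu3, hu4⟩, rfl⟩, hfR⟩ := hRd.inter_open_nonempty _ (hcho _ hW)
      ⟨ch (incl φ), incl φ, ⟨by
        show dist (φ.1 (i0 1)) (φ.1 (i0 1)) < ρ
        rw [dist_self (φ.1 (i0 1))]; exact hρ, by
        show dist (φ.1 (i1 (r := 1) le_rfl)) (φ.1 (i1 (r := 1) le_rfl)) < ρ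
        rw [dist_self (φ.1 (i1 (r := 1) le_rfl))]; exact hρ, hφ0, hφ1⟩, rfl⟩
    exact ⟨⟨u.1.1, u.1.2, hu3.le, hu4.le⟩, ⟨hu1.le, hu2.le⟩, hu3, hu4, hfR⟩
  obtain ⟨S, hSo, hSd, hSc, hSsub⟩ := mem_residual_iff.1 hgen
  have hA : ∀ R ∈ S, {x : closure NS | ch (incl x.1.1) ∈ R} ∈ residual (closure NS) := by
    intro R hR
    apply residual_of_dense_open
    · exact (hSo R hR).preimage (hch.comp (hincl.comp (continuous_fst.comp
        continuous_subtype_val)))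
    · exact dense_of (P := fun q => ch (incl q.1) ∈ R) (fun φ i M hN ρ hρ L =>
        dense_a (P := fun ψ => ch (incl ψ) ∈ R) (hdens R (hSo R hR) (hSd R hR)) hN hρ L)
  have hB : ∀ n : ℕ, {x : closure NS | Esc n x.1} ∈ residual (closure NS) := by
    intro n
    apply residual_of_dense_open
    · exact (isOpen_Esc n).preimage continuous_subtype_val
    · exact dense_of (P := fun q => Esc n q) (fun φ i M hN ρ hρ L => dense_b hN n hρ L)
  have hAll : (⋂ R ∈ S, {x : closure NS | ch (incl x.1.1) ∈ R}) ∩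
      (⋂ n : ℕ, {x : closure NS | Esc n x.1}) ∈ residual (closure NS) :=
    inter_mem ((countable_bInter_mem hSc).2 hA) (countable_iInter_mem.2 hB)
  obtain ⟨φ₀, i₀, M₀, hN₀⟩ := exists_nice
  have : Nonempty (closure NS) := ⟨⟨(φ₀, i₀, M₀), subset_closure hN₀⟩⟩
  obtain ⟨x, hx1, hx2⟩ := (dense_of_mem_residual hAll).nonempty
  rw [mem_iInter₂] at hx1
  rw [mem_iInter] at hx2
  have hC : PropC (ch (incl x.1.1)) := hSsub (mem_sInter.2 hx1)
  have hl := chart_lift (r := 1) le_rfl contDiff_F0 hG equi_F0 eG h1 h2 hK0 hK (incl x.1.1)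
  exact not_propC_closure x.2 hx2 hl.2 hC

end Pool.Agent.H47
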