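import Mathlib

namespace Pool.Agent.H47

open Set Filter Topology

/-- the universal cover `ℝ³` of the torus -/
abbrev V3 := Fin 3 → ℝ

/-- the torus `T³ = (ℝ/ℤ)³` -/
abbrev T3 := Fin 3 → UnitAddCircle

/-- the covering projection `ℝ³ → T³` -/
def proj (p : V3) : T3 := fun i => ((p i : ℝ) : UnitAddCircle)

/-- `F : ℝ³ → ℝ³` is a lift of class `C^r` of the map `f : T³ → T³` -/
def IsLift (r : ℕ∞) (f : T3 → T3) (F : V3 → V3) : Prop :=
  ContDiff ℝ r F ∧ ∀ p, proj (F p) = f (proj p)

/-- `C^r` diffeomorphisms of `T³`: homeomorphisms of `T³` such that both the map and its inverse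
are of class `C^r`, that is, have lifts of class `C^r` -/
@[ext] structure Dyn (r : ℕ∞) where
  toHomeo : T3 ≃ₜ T3
  lift : ∃ F, IsLift r toHomeo F
  lift_symm : ∃ F, IsLift r toHomeo.symm F

/-- the `C^n` ball of radius `ε` around `f`: those `g` having a lift `G` whose derivatives up to
order `n` are at uniform distance less than `ε` from those of some lift `F` of `f` -/
def crBall {r : ℕ∞} (f : Dyn r) (n : ℕ) (ε : ℝ) : Set (Dyn r) :=
  {g | ∃ F G, IsLift r f.toHomeo F ∧ IsLift r g.toHomeo G ∧ ∃ η < ε, ∀ j ≤ n, ∀ p,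
    ‖iteratedFDeriv ℝ j G p - iteratedFDeriv ℝ j F p‖ ≤ η}

/-- the `C^r` topology, generated by the `C^n` balls for all finite `n ≤ r` -/
instance (r : ℕ∞) : TopologicalSpace (Dyn r) :=
  TopologicalSpace.generateFrom
    {B | ∃ (f : Dyn r) (n : ℕ) (ε : ℝ), (n : ℕ∞) ≤ r ∧ 0 < ε ∧ B = crBall f n ε}

/-- the stable manifold `W^s(x)` -/
def stableSet (f : T3 → T3) (x : T3) : Set T3 :=
  {y | Tendsto (fun m => dist (f^[m] x) (f^[m] y)) atTop (𝓝 0)}

/-- property (C): every `W^s(x)` is the image of an injective `C^r` immersion `ℝ^k → T³`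
(maps `ℝ^k → T³` are written as `proj ∘ Φ` with `Φ : ℝ^k → ℝ³`, as `ℝ^k` is simply connected) -/
def PropC {r : ℕ∞} (f : Dyn r) : Prop :=
  ∀ x : T3, ∃ (k : ℕ) (Φ : (Fin k → ℝ) → V3), ContDiff ℝ r Φ ∧
    (∀ w, Function.Injective (fderiv ℝ Φ w)) ∧ Function.Injective (proj ∘ Φ) ∧
    range (proj ∘ Φ) = stableSet f.toHomeo x

/-! ### elementary facts -/

/-- integer vectors -/
def zc (n : Fin 3 → ℤ) : V3 := fun i => (n i : ℝ)

@[simp] lemma zc_zero : zc 0 = 0 := by ext i; simp [zc]
lemma zc_add (m n : Fin 3 → ℤ) : zc (m + n) = zc m + zc n := by ext i; simp [zc]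
lemma zc_neg (m : Fin 3 → ℤ) : zc (-m) = -zc m := by ext i; simp [zc]
lemma zc_sub (m n : Fin 3 → ℤ) : zc (m - n) = zc m - zc n := by ext i; simp [zc]

lemma proj_eq_iff (p q : V3) : proj p = proj q ↔ ∃ n, q = p + zc n := by
  constructor
  · intro h
    have hi : ∀ i, ∃ n : ℤ, q i = p i + n := by
      intro i
      have h1 : ((p i : ℝ) : UnitAddCircle) = ((q i : ℝ) : UnitAddCircle) := congrFun h i
      rw [eq_comm, QuotientAddGroup.eq] at h1
      rw [AddSubgroup.mem_zmultiples_iff] at h1
      obtain ⟨k, hk⟩ := h1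
      refine ⟨-k, ?_⟩
      simp at hk
      push_cast
      linarith
    choose n hn using hi
    exact ⟨n, funext hn⟩
  · rintro ⟨n, rfl⟩
    funext i
    show ((p i : ℝ) : UnitAddCircle) = ((p i + (n i : ℝ) : ℝ) : UnitAddCircle)
    rw [AddCircle.coe_add]
    have : ((n i : ℝ) : UnitAddCircle) = 0 := by
      rw [AddCircle.coe_eq_zero_iff]
      exact ⟨n i, by simp⟩
    rw [this, add_zero]

@[simp] lemma proj_add_zc (p : V3) (n : Fin 3 → ℤ) : proj (p + zc n) = proj p :=
  ((proj_eq_iff p (p + zc n)).2 ⟨n, rfl⟩).symm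

lemma isOpenQuotientMap_proj : IsOpenQuotientMap proj := by
  have h : ∀ i : Fin 3, IsOpenQuotientMap (fun x : ℝ => (x : UnitAddCircle)) := by
    intro i
    exact QuotientAddGroup.isOpenQuotientMap_mk
  exact IsOpenQuotientMap.piMap h

lemma continuous_proj : Continuous proj := isOpenQuotientMap_proj.continuous
lemma surjective_proj : Function.Surjective proj := isOpenQuotientMap_proj.surjective

/-- a continuous map with integer values is constant -/
lemma const_of_int {D : V3 → V3} (hD : Continuous D) (h : ∀ p, ∃ n, D p = zc n) :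
    ∃ n, ∀ p, D p = zc n := by
  obtain ⟨n, hn⟩ := h 0
  refine ⟨n, fun p => ?_⟩
  rw [← hn]
  have hcount : (range D).Countable := by
    have : range D ⊆ range zc := by
      rintro _ ⟨q, rfl⟩
      obtain ⟨m, hm⟩ := h q
      exact ⟨m, hm.symm⟩
    exact (countable_range zc).mono this
  exact hcount.isTotallyDisconnected _ le_rfl (isPreconnected_range hD) ⟨p, rfl⟩ ⟨0, rfl⟩

/-- two lifts of the same map differ by an integer vector -/
lemma lift_unique {f : T3 → T3} {F F' : V3 → V3} (hF : Continuous F) (hF' : Continuous F')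
    (h : ∀ p, proj (F p) = f (proj p)) (h' : ∀ p, proj (F' p) = f (proj p)) :
    ∃ n, ∀ p, F' p = F p + zc n := by
  obtain ⟨n, hn⟩ := const_of_int (D := fun p => F' p - F p) (hF'.sub hF) (fun p => by
    obtain ⟨n, hn⟩ := (proj_eq_iff (F p) (F' p)).1 ((h p).trans (h' p).symm)
    exact ⟨n, by rw [hn]; simp⟩)
  refine ⟨n, fun p => ?_⟩
  rw [← hn p]; simp

/-- equivariance of maps of the cover -/
def Equi (F : V3 → V3) : Prop := ∀ n, ∃ m, ∀ p, F (p + zc n) = F p + zc m

lemma equi_of_lift {f : T3 → T3} {F : V3 → V3} (hF : Continuous F)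
    (h : ∀ p, proj (F p) = f (proj p)) : Equi F := by
  intro n
  exact lift_unique hF (F' := fun p => F (p + zc n)) (by fun_prop) h (fun p => by
    rw [h]; simp)

lemma exists_lifts {r : ℕ∞} (f : Dyn r) : ∃ F G, IsLift r f.toHomeo F ∧
    IsLift r f.toHomeo.symm G ∧ (∀ p, G (F p) = p) ∧ (∀ p, F (G p) = p) := by
  obtain ⟨F, hF, hF'⟩ := f.lift
  obtain ⟨G, hG, hG'⟩ := f.lift_symm
  obtain ⟨n, hn⟩ := lift_unique (f := id) (F := id) (F' := fun p => G (F p)) continuous_id
    (hG.continuous.comp hF.continuous) (fun p => rfl) (fun p => by rw [hG', hF']; simp)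
  have hinv : ∀ p, (G (F p) - zc n) = p := by
    intro p
    have := hn p
    simp only [id_eq] at this
    rw [this]; simp
  obtain ⟨m, hm⟩ := lift_unique (f := id) (F := id) (F' := fun p => F (G p - zc n)) continuous_id
    (hF.continuous.comp (hG.continuous.sub continuous_const)) (fun p => rfl) (fun p => by
      rw [hF', sub_eq_add_neg, ← zc_neg, proj_add_zc, hG']; simp)
  refine ⟨F, fun p => G p - zc n, ⟨hF, hF'⟩, ⟨hG.sub contDiff_const, fun p => ?_⟩, hinv, ?_⟩
  · show proj (G p - zc n) = _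
    rw [sub_eq_add_neg, ← zc_neg, proj_add_zc, hG']
  · intro p
    have h1 := hm (F p)
    simp only [id_eq] at h1
    rw [hinv] at h1
    have h2 : zc m = 0 := by
      have : F p = F p + zc m := h1
      exact (add_eq_left.1 this.symm)
    have h3 := hm p
    simp only [id_eq] at h3
    rw [h3, h2, add_zero]

/-- the map of the torus induced by an equivariant map -/
noncomputable def descend (F : V3 → V3) (x : T3) : T3 :=
  proj (F (Function.surjInv surjective_proj x))

lemma descend_proj {F : V3 → V3} (hF : Equi F) (p : V3) : descend F (proj p) = proj (F p) := by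
  unfold descend
  have h := Function.surjInv_eq surjective_proj (proj p)
  obtain ⟨n, hn⟩ := (proj_eq_iff _ _).1 h.symm
  rw [hn]
  obtain ⟨m, hm⟩ := hF n
  rw [hm]; simp

lemma continuous_descend {F : V3 → V3} (hF : Equi F) (hc : Continuous F) :
    Continuous (descend F) := by
  rw [isOpenQuotientMap_proj.isQuotientMap.continuous_iff]
  have : descend F ∘ proj = proj ∘ F := by
    funext p; exact descend_proj hF p
  rw [this]
  exact continuous_proj.comp hc

/-- building a diffeomorphism of the torus from a pair of lifts -/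
noncomputable def ofLifts {r : ℕ∞} (F G : V3 → V3) (hF : ContDiff ℝ r F) (hG : ContDiff ℝ r G)
    (eF : Equi F) (eG : Equi G) (h1 : ∀ p, G (F p) = p) (h2 : ∀ p, F (G p) = p) : Dyn r where
  toHomeo :=
    { toFun := descend F
      invFun := descend G
      left_inv := by
        intro x
        obtain ⟨p, rfl⟩ := surjective_proj x
        rw [descend_proj eF, descend_proj eG, h1]
      right_inv := by
        intro x
        obtain ⟨p, rfl⟩ := surjective_proj x
        rw [descend_proj eG, descend_proj eF, h2]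
      continuous_toFun := continuous_descend eF hF.continuous
      continuous_invFun := continuous_descend eG hG.continuous }
  lift := ⟨F, hF, fun p => (descend_proj eF p).symm⟩
  lift_symm := ⟨G, hG, fun p => (descend_proj eG p).symm⟩

lemma ofLifts_lift {r : ℕ∞} (F G : V3 → V3) (hF : ContDiff ℝ r F) (hG : ContDiff ℝ r G)
    (eF : Equi F) (eG : Equi G) (h1 : ∀ p, G (F p) = p) (h2 : ∀ p, F (G p) = p) :
    IsLift r (ofLifts F G hF hG eF eG h1 h2).toHomeo F :=
  ⟨hF, fun p => (descend_proj eF p).symm⟩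

lemma Dyn.ext_lift {r : ℕ∞} {f g : Dyn r} {F : V3 → V3} (hf : IsLift r f.toHomeo F)
    (hg : IsLift r g.toHomeo F) : f = g := by
  apply Dyn.ext
  ext1 x
  obtain ⟨p, rfl⟩ := surjective_proj x
  rw [← hf.2, ← hg.2]

end Pool.Agent.H47
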